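import Pool.Agent.Run7.h418.E.Hyp

/-!
Entire curves in varieties with symmetric differentials: the theorems.
-/

set_option autoImplicit false

open MvPolynomial

namespace Run7.h418.E

open Pool.Agent.W602.GT Pool.Agent.N155 Pool.Agent.TH182.TC Run7.h418.Z

variable {n : ℕ} {ι κ : Type} {F : ι → MvPolynomial (Fin (n + 1)) ℂ}
  {σ : κ → (Fin (n + 1) → ℂ) → (Fin (n + 1) → ℂ) → ℂ}

/-- **The Zariski closure of a nonconstant entire curve is not of general type.** -/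
theorem thm_closure [Finite κ] (hF : ∀ i, IsForm (F i)) {m : κ → ℕ}
    (hm : ∀ j, 0 < m j) (hσ : ∀ j, SymForm F (m j) (σ j)) (him : Immersive F σ) {p : ℂ → PS n}
    (hp : HolMap p) (hpF : ∀ z, (p z).rep ∈ Cone F) (hne : ∃ z w, p z ≠ p w) :
    (∃ (K : Type) (_ : Field K) (_ : Algebra ℂ K) (w : ℕ) (y : Fin (n + 1) → K),
      IsClosure F p K w y) ∧
    ∀ (K : Type) [Field K] [Algebra ℂ K] (w : ℕ) (y : Fin (n + 1) → K),
      IsClosure F p K w y → 0 < w ∧ ¬ GeneralType ℂ K w :=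
  ⟨exists_closure hF hp hpF, fun _ _ _ _ _ hcl =>
    closure_not_general hyps hF hm hσ him hp hpF hne hcl⟩

/-- **Entire curves in a subvariety of general type are degenerate.** -/
theorem thm_van [Finite κ] (hF : ∀ i, IsForm (F i)) {m : κ → ℕ}
    (hm : ∀ j, 0 < m j) (hσ : ∀ j, SymForm F (m j) (σ j)) (him : Immersive F σ)
    {K : Type} [Field K] [Algebra ℂ K] {w : ℕ} {y : Fin (n + 1) → K} (hy : SubVar F K w y)
    (hgt : GeneralType ℂ K w) {p : ℂ → PS n} (hp : HolMap p)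
    (hpV : ∀ z, (p z).rep ∈ VarPts ℂ y) (hne : ∃ z w, p z ≠ p w) :
    ∃ G : MvPolynomial (Fin (n + 1)) ℂ, IsForm G ∧ val y G ≠ 0 ∧ Van p G :=
  van_of_general hyps hF hm hσ him hy hgt hp hpV hne

variable [Fintype κ] {m : ℕ}

/-- **The Green-Griffiths-Lang conjecture** -/
theorem thm_iff (hF : ∀ i, IsForm (F i)) (hm : 0 < m) (hσ : ∀ j, SymForm F m (σ j))
    (hgen : Generates F m σ) {K : Type} [Field K] [Algebra ℂ K] {w : ℕ} {y : Fin (n + 1) → K}
    (hw : 0 < w) (hy : SubVar F K w y) : GeneralType ℂ K w ↔ PseudoBrody y :=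
  general_iff_brody hyps hF hm hσ hgen hw hy

theorem spEnt_tor (hF : ∀ i, IsForm (F i)) (hm : 0 < m) (hσ : ∀ j, SymForm F m (σ j))
    (hgen : Generates F m σ) : SpEnt F = SpTor F :=
  spEnt_eq hyps hF hm hσ hgen

theorem spEnt_alg (hF : ∀ i, IsForm (F i)) (hm : 0 < m) (hσ : ∀ j, SymForm F m (σ j))
    (hgen : Generates F m σ) : SpEnt F = SpAlg F :=
  (spEnt_tor hF hm hσ hgen).trans (R.spTor_eq hF hm hσ hgen)

theorem spEnt_imm (hF : ∀ i, IsForm (F i)) (hm : 0 < m) (hσ : ∀ j, SymForm F m (σ j))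
    (hgen : Generates F m σ) : SpEnt F = SpImm F :=
  (spEnt_alg hF hm hσ hgen).trans (R.spImm_eq hF hm hσ hgen).symm

end Run7.h418.E
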