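import Pool.Agent.Run7.h418.E.Ag
import Pool.Agent.Run7.h418.U.Main

/-!
Statement of the transport to a conjugated field.
-/

set_option autoImplicit false

open MvPolynomial

namespace Run7.h418.E

open Pool.Agent.Y190.OP Pool.Agent.W602.GT Pool.Agent.N155

/-- **D1** A generic point `y` of a variety of general type over `ℂ` is not the projection `x` of a
point `a = (x, v)` (in an algebraically closed field `Ω`) of the equations `σ j (x, v) = h j`, where
the `h j` are in a field `𝔉 ⊇ ℂ` of constants of `d ≥ 1` derivations `J b`, along which the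
differentials of the `σ j` have values in `𝔉`, if `𝔉 (a)` has transcendence degree `d` over `𝔉` and
the `J b` are a frame of it.

Proof. (1) The ideal of the `F i` is generated by finitely many `F i`, `i ∈ T`. Let `k ⊆ ℂ` be the
countable subfield generated by the coefficients of these `F i` and of all `P s`, `H s`.
(2) Let `C ⊆ 𝔉` be a finite set which contains all `h j`, `α b j`, and so many elements that every
`a l` is algebraic over `ℂ (C) (z 1, …, z d)`, where `z t = a (t t')` is a transcendence basis of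
`𝔉 (a)` over `𝔉` (the `z` of the field `frame` is one by the determinant and `trd`; coefficients of
algebraic equations; `IntermediateField.exists_finset_of_mem_adjoin`). Let `𝔎` be the algebraic
closure of `ℂ (C)` in `Ω`: algebraically closed, of finite transcendence degree over `ℂ`, of
cardinality continuum, and killed by all `J b` (algebraic over `𝔉`). (3) By `U.exists_iso` there is
`ψ : 𝔎 ≃+* ℂ` with `ψ c = c` for `c ∈ k`. Give `Ω` (a copy `U.CP Ω`) the structure of a `ℂ`-algebra
`c ↦ ψ.symm c`. (4) All assumptions of C4 hold for this structure and `c j = ψ (h j)`,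
`ψ (α b j)` : `val`, `al` have coefficients in `k`; `cone`, `tan` hold for `i ∈ T`, and for the other `i`
because `F i = ∑ A t * F t`, `tanP F i = ∑ (A t * tanP F t + tanP A t * F t)` with arbitrary complex
coefficients of the `A t`; the `J b` are derivations over the new structure as they kill `𝔎`;
`trd` by the choice of `C` (algebraic independence over `𝔎` by the determinant). So
`R = ℂ_new (x) ⊆ Ω` has transcendence degree `d` and is not of general type. (5) Let
`φ = ψ ∘ (ℂ → 𝔎)`, `U.FinTr φ`. `e` maps `K` into `R` and is linear over `φ`, and `R` is generated by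
the image; so `U.gt_up_hom` shows that `R` is of general type, a contradiction. -/
def D1 : Prop := C1 → C2 → C3 → C4 → ∀ (n : ℕ) (ι κ τ : Type)
  (F : ι → MvPolynomial (Fin (n + 1)) ℂ) (m : κ → ℕ)
  (σ : κ → (Fin (n + 1) → ℂ) → (Fin (n + 1) → ℂ) → ℂ) (js : τ → κ) (P : τ → Rn (n + 1))
  (H : τ → MvPolynomial (Fin (n + 1)) ℂ) (Ω : Type) [Field Ω] [Algebra ℂ Ω] [IsAlgClosed Ω]
  (𝔉 : IntermediateField ℂ Ω) (i0 : Fin (n + 1)) (a : Fin (n + 1) ⊕ Fin (n + 1) → Ω) (d : ℕ)
  (J : Fin d → Derivation 𝔉 Ω Ω) (h : κ → 𝔉) (α : Fin d → κ → 𝔉),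
  Finite κ → (∀ i, IsForm (F i)) → (∀ j, 0 < m j) → (∀ j, SymForm F (m j) (σ j)) →
  Immersive F σ → Cov F σ js P H → (∃ j, h j ≠ 0) → 0 < d →
  a (Sum.inl i0) = 1 → a (Sum.inr i0) = 0 →
  (∀ k, a (Sum.inl k) ≠ 0 → ∀ i, aeval (ccM k a ∘ Sum.inl) (F i) = 0) →
  (∀ k, a (Sum.inl k) ≠ 0 → ∀ i, aeval (ccM k a) (tanP F i) = 0) →
  (∀ k, a (Sum.inl k) ≠ 0 → ∀ s, aeval (ccM k a) (P s) =
    (h (js s) : Ω) * aeval (ccM k a ∘ Sum.inl) (H s)) →
  (∀ k, a (Sum.inl k) ≠ 0 → ∀ s b, ∑ l, aeval (ccM k a) (pderiv (Sum.inr l) (P s)) *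
    J b (ccM k a (Sum.inl l)) = (α b (js s) : Ω) * aeval (ccM k a ∘ Sum.inl) (H s)) →
  Algebra.trdeg 𝔉 (IntermediateField.adjoin 𝔉 (Set.range a)) = d →
  (∃ t : Fin d → Fin (n + 1) ⊕ Fin (n + 1),
    (Matrix.of fun s t' => J s (a (t t')) : Matrix (Fin d) (Fin d) Ω).det ≠ 0) →
  ∀ (K : Type) [Field K] [Algebra ℂ K] (w : ℕ) (y : Fin (n + 1) → K) (e : K →ₐ[ℂ] Ω),
    IntermediateField.adjoin ℂ (Set.range y) = ⊤ → (∀ k, e (y k) = a (Sum.inl k)) →
      GeneralType ℂ K w → False

end Run7.h418.E
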