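import Pool.Agent.Run7.h418.E.Mz
import Pool.Agent.Run7.h418.E.Dg

/-!
Statements of independent algebraic pieces.
-/

set_option autoImplicit false

open Metric Set Filter Topology MvPolynomial

namespace Run7.h418.E

open Pool.Agent.Y190.OP Pool.Agent.W602.GT Pool.Agent.N155

/-- **A1** A frame of the field of fractions of a quotient of a polynomial ring.
Proof: let `𝔉 = IntermediateField.adjoin ℂ (range fun s => e (X (inr s)))`. By the hypothesis
`M = 𝔉 (e (X (inl l)))`, so (as in `exists_sub` in `Run7/h418/U/Up.lean`,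
`exists_isTranscendenceBasis_subset`) there is a transcendence basis `x b = e (X (inl (t b)))` of `M`
over `𝔉`; `Pool.Agent.Y191.exists_dual` gives derivations `D b : Derivation 𝔉 M M` with
`D b (x c) = δ`. Let `e q` be a common denominator of the finitely many `D b (e (X (inl l)))`, so
`e q * D b (e (X (inl l))) = e (p b l)`, choose `p b (t c) = if b = c then q else 0` or keep them as
they are, and let `V b` be `mkDerivation` with `X (inl l) ↦ p b l`, `X (inr s) ↦ 0`. Then
`e (V b G) = e q * D b (e G)` by induction on `G`, and all claims follow. -/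
def A1 : Prop := ∀ (ω S M : Type) [Finite ω] [Field M] [Algebra ℂ M]
  (e : MvPolynomial (ω ⊕ S) ℂ →ₐ[ℂ] M), (∀ m : M, ∃ p q, e q ≠ 0 ∧ m * e q = e p) →
  ∃ (d : ℕ) (t : Fin d → ω) (q : MvPolynomial (ω ⊕ S) ℂ)
    (V : Fin d → Derivation ℂ (MvPolynomial (ω ⊕ S) ℂ) (MvPolynomial (ω ⊕ S) ℂ)),
    IsTranscendenceBasis (IntermediateField.adjoin ℂ (Set.range fun s => e (X (Sum.inr s))))
      (fun b => e (X (Sum.inl (t b)))) ∧
    e q ≠ 0 ∧ (∀ b s, V b (X (Sum.inr s)) = 0) ∧ (∀ b G, e G = 0 → e (V b G) = 0) ∧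
    ∀ b c, e (V b (X (Sum.inl (t c)))) = if b = c then e q else 0

/-- **A2** Extension of a derivation to an algebraic extension. Proof: `Ω` is formally étale over `M`
(separable algebraic, characteristic `0`); compare `der_etale` in `Run7/h418`. The extension kills
the image of `A`, hence the field which it generates over `ℂ`, so it is linear over this field. -/
def A2 : Prop := ∀ (M Ω : Type) [Field M] [Algebra ℂ M] [Field Ω] [Algebra ℂ Ω] [Algebra M Ω]
  [IsScalarTower ℂ M Ω] [Algebra.IsAlgebraic M Ω] (A : Set M) (J : Derivation ℂ M M),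
  (∀ x ∈ A, J x = 0) →
    ∃ J' : Derivation (IntermediateField.adjoin ℂ (algebraMap M Ω '' A)) Ω Ω,
      ∀ x, J' (algebraMap M Ω x) = algebraMap M Ω (J x)

/-- **A3** An equation over the small functions. Proof: let `x k = e (X (inl (inl k)))`, it is a root
of a nonzero polynomial over the field generated by all `e (X (inr s))`. The map `s ↦ e (X (inr s))`
is a ring homomorphism on `S` (the polynomial `X (inr s) * X (inr s') - X (inr (s * s'))` is in
`Rlt S φ i0`, use `Fz.ker`, and the same for sums and constants), injective by `ev_ne_t` or by the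
identity theorem, so every element of this field is a quotient `e (X (inr s)) / e (X (inr s'))`;
clear denominators: `∑ i ∈ range (d + 1), e (X (inr (P i))) * x k ^ i = 0` with `P i ∈ S` and
`e (X (inr (P d))) ≠ 0`; then use `Fz.ker` and `mem_Rlt` (note `eval (pt a z) (X (inr s)) = s.1 z`
and `eval (pt a z) (X (inl l)) = a l` by `rfl` after `eval_X`). If `P d` were zero at all `z`, then
`P d = 0` in `S` and `e (X (inr (P d))) = 0`. -/
def A3 : Prop := ∀ (n : ℕ) (S : Subalgebra ℂ (ℂ → ℂ)) (φ : ℂ → Mat (n + 1)) (i0 : Fin (n + 1))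
  (M : Type) [Field M] [Algebra ℂ M] (e : Rt n S →ₐ[ℂ] M), DSt S → HolP univ φ →
  (∃ z, φ z i0 i0 ≠ 0) → Fz S φ i0 e → ∀ k : Fin (n + 1),
    IsAlgebraic (IntermediateField.adjoin ℂ (Set.range fun s : S => e (X (Sum.inr s))))
      (e (X (Sum.inl (Sum.inl k)))) →
    ∃ (d : ℕ) (P : ℕ → ℂ → ℂ), (∀ i, P i ∈ S) ∧ (∃ z, P d z ≠ 0) ∧
      ∀ z, φ z i0 i0 ≠ 0 →
        ∑ i ∈ Finset.range (d + 1), P i z * pr i0 φ z (Sum.inl k) ^ i = 0

/-- **A4** The transcendence degree does not change in a bigger field. Proof: the images of the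
`a (t b)` are a transcendence basis of the field on the left over the image of the field of
constants. -/
def A4 : Prop := ∀ (M Ω ω : Type) [Finite ω] [Field M] [Algebra ℂ M] [Field Ω] [Algebra ℂ Ω]
  [Algebra M Ω] [IsScalarTower ℂ M Ω] (A : Set M) (a : ω → M) (d : ℕ) (t : Fin d → ω),
  IsTranscendenceBasis (IntermediateField.adjoin ℂ A) (fun b => a (t b)) →
    Algebra.trdeg (IntermediateField.adjoin ℂ (algebraMap M Ω '' A))
      (IntermediateField.adjoin (IntermediateField.adjoin ℂ (algebraMap M Ω '' A))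
        (Set.range fun l => algebraMap M Ω (a l))) = d

/-- **D1a** Choice of a field of finite transcendence degree. Proof: every `a l` is algebraic over
`𝔉 (a ∘ t)`; let `C ⊆ 𝔉` be a finite set which contains all `h j` and all elements of `𝔉` which are
needed in the algebraic equations of the `a l` (clear denominators, so that the coefficients are
polynomials in the `a (t b)` over `𝔉`; or `IntermediateField.exists_finset_of_mem_adjoin`).
Let `𝔎` be the algebraic closure of `ℂ (C)` in `Ω` (as an intermediate field of `Ω` over `ℂ`: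
`algebraicClosure (adjoin ℂ C) Ω` with `restrictScalars`). It is algebraically closed, its
transcendence degree over `ℂ` is at most the number of elements of `C`, its elements are algebraic
over `𝔉`, and so the `a (t b)` are algebraically independent over it. -/
def D1a : Prop := ∀ (Ω : Type) [Field Ω] [Algebra ℂ Ω] [IsAlgClosed Ω] (𝔉 : IntermediateField ℂ Ω)
  (ω κ : Type) [Finite ω] [Finite κ] (a : ω → Ω) (d : ℕ) (t : Fin d → ω) (h : κ → 𝔉),
  Algebra.trdeg 𝔉 (IntermediateField.adjoin 𝔉 (Set.range a)) = d →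
  AlgebraicIndependent 𝔉 (fun b => a (t b)) →
  ∃ 𝔎 : IntermediateField ℂ Ω, IsAlgClosed 𝔎 ∧ (∃ N : ℕ, Algebra.trdeg ℂ 𝔎 = N) ∧
    (∀ j, (h j : Ω) ∈ 𝔎) ∧ (∀ x ∈ 𝔎, IsAlgebraic 𝔉 x) ∧
    AlgebraicIndependent 𝔎 (fun b => a (t b)) ∧
    ∀ l, IsAlgebraic (IntermediateField.adjoin 𝔎 (Set.range fun b => a (t b))) (a l)

/-- **D1b** Such a field is isomorphic to `ℂ` over a countable set. Proof: `#𝔎` is the cardinality
of the continuum (algebraic over a finitely generated purely transcendental extension of `ℂ`;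
`Algebra.IsAlgebraic.cardinalMk_le_max` and similar), and `U.exists_iso` with the countable field
`k = Subfield.closure A` (or `IntermediateField.adjoin ℚ A`) gives `ψ`. Then
`U.FinTr (ψ ∘ algebraMap)` means that the transcendence degree of `ℂ` over the image of `ℂ` is
finite, which is the assumption, transported by `ψ`. -/
def D1b : Prop := ∀ (Ω : Type) [Field Ω] [Algebra ℂ Ω] (𝔎 : IntermediateField ℂ Ω),
  IsAlgClosed 𝔎 → (∃ N : ℕ, Algebra.trdeg ℂ 𝔎 = N) → ∀ A : Set ℂ, A.Countable →
    ∃ ψ : 𝔎 ≃+* ℂ, (∀ c ∈ A, ψ (algebraMap ℂ 𝔎 c) = c) ∧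
      U.FinTr ((ψ : 𝔎 →+* ℂ).comp (algebraMap ℂ 𝔎))

/-- **D1m** The assembly of `D1` (see its docstring, steps 1, 4, 5). The new structure on `Ω` is
best put on the copy `U.CP Ω` of `Ω`: `letI : Field (U.CP Ω) := ‹Field Ω›`,
`letI : Algebra ℂ (U.CP Ω) := RingHom.toAlgebra (S := U.CP Ω) (𝔎.val.toRingHom.comp ψ.symm)`. -/
def D1m : Prop := D1a → D1b → D1

end Run7.h418.E
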