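import Pool.Agent.Run7.h418.Z.Defs
import Pool.Agent.Run7.h418.R.SpDefs

/-!
The special set given by all entire curves.
-/

set_option autoImplicit false

open Pool.Agent.TH182.TC Pool.Agent.W602.GT Pool.Agent.N155

namespace Run7.h418.E

/-- The Zariski closure (as a cone) of the union of the images of all nonconstant holomorphic maps
from the complex plane to `X = {F = 0}`. -/
def SpEnt {n : ℕ} {ι : Type} (F : ι → MvPolynomial (Fin (n + 1)) ℂ) : Set (Fin (n + 1) → ℂ) :=
  {x | x ∈ Cone F ∧ ∀ G : MvPolynomial (Fin (n + 1)) ℂ, IsForm G →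
    (∀ p : ℂ → PS n, HolMap p → (∀ z, (p z).rep ∈ Cone F) → (∃ z w, p z ≠ p w) →
      ∀ z, MvPolynomial.eval (p z).rep G = 0) → val x G = 0}

end Run7.h418.E
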