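import Pool.Agent.Run7.h418.Gt
import Pool.Agent.Run7.h418.Sei
import Pool.Agent.Run7.h418.Vf
import Pool.Agent.Run7.h418.Frm

/-!
Generic points of the equations `σ j (x, v) = c j` with many derivations: definitions and the
statements of the pieces.
-/

set_option autoImplicit false

open MvPolynomial

namespace Run7.h418.E

open Pool.Agent.Y190.OP Pool.Agent.W602.GT Pool.Agent.N155

variable {n : ℕ} {ι κ τ : Type}

/-- change of the chart, over any field -/
noncomputable def ccM {M : Type} [Field M] (k : Fin (n + 1)) (a : Fin (n + 1) ⊕ Fin (n + 1) → M) :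
    Fin (n + 1) ⊕ Fin (n + 1) → M :=
  Sum.elim (fun l => a (Sum.inl l) / a (Sum.inl k)) (fun l =>
    (a (Sum.inr l) * a (Sum.inl k) - a (Sum.inl l) * a (Sum.inr k)) / a (Sum.inl k) ^ 2)

/-- finitely many representations of the symmetric differentials which cover the cone -/
structure Cov (F : ι → MvPolynomial (Fin (n + 1)) ℂ)
    (σ : κ → (Fin (n + 1) → ℂ) → (Fin (n + 1) → ℂ) → ℂ) (js : τ → κ) (P : τ → Rn (n + 1))
    (H : τ → MvPolynomial (Fin (n + 1)) ℂ) : Prop where
  fin : Finite τ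
  rep : ∀ s, Rep F σ (js s) (P s) (H s)
  cov : ∀ x ∈ Cone F, ∀ j, ∃ s, js s = j ∧ eval x (H s) ≠ 0

/-- `a = (x, v)` is a point with values in `Ω` of the equations `σ j (x, v) = c j`, and `J b` are
derivations of `Ω` along which the differentials of `σ j` in the direction of `v` have the
constant values `α b j`; the field generated by `a` has transcendence degree `d` and the `J b` are
a frame of it. -/
structure AG (F : ι → MvPolynomial (Fin (n + 1)) ℂ) (js : τ → κ) (P : τ → Rn (n + 1))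
    (H : τ → MvPolynomial (Fin (n + 1)) ℂ) (c : κ → ℂ) {Ω : Type} [Field Ω] [Algebra ℂ Ω]
    (i0 : Fin (n + 1)) (a : Fin (n + 1) ⊕ Fin (n + 1) → Ω) {d : ℕ}
    (J : Fin d → Derivation ℂ Ω Ω) (α : Fin d → κ → ℂ) : Prop where
  inl0 : a (Sum.inl i0) = 1
  inr0 : a (Sum.inr i0) = 0
  cone : ∀ k, a (Sum.inl k) ≠ 0 → ∀ i, aeval (ccM k a ∘ Sum.inl) (F i) = 0
  tan : ∀ k, a (Sum.inl k) ≠ 0 → ∀ i, aeval (ccM k a) (tanP F i) = 0
  val : ∀ k, a (Sum.inl k) ≠ 0 → ∀ s, aeval (ccM k a) (P s) =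
    algebraMap ℂ Ω (c (js s)) * aeval (ccM k a ∘ Sum.inl) (H s)
  al : ∀ k, a (Sum.inl k) ≠ 0 → ∀ s b, ∑ l, aeval (ccM k a) (pderiv (Sum.inr l) (P s)) *
    J b (ccM k a (Sum.inl l)) = algebraMap ℂ Ω (α b (js s)) * aeval (ccM k a ∘ Sum.inl) (H s)
  trd : Algebra.trdeg ℂ (IntermediateField.adjoin ℂ (Set.range a)) = d
  frame : ∃ z : Fin d → Ω, (∀ t, z t ∈ IntermediateField.adjoin ℂ (Set.range a)) ∧
    (Matrix.of fun s t => J s (z t) : Matrix (Fin d) (Fin d) Ω).det ≠ 0

/-- the assumptions -/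
structure Hyp (F : ι → MvPolynomial (Fin (n + 1)) ℂ) (m : κ → ℕ)
    (σ : κ → (Fin (n + 1) → ℂ) → (Fin (n + 1) → ℂ) → ℂ) (js : τ → κ) (P : τ → Rn (n + 1))
    (H : τ → MvPolynomial (Fin (n + 1)) ℂ) (c : κ → ℂ) {Ω : Type} [Field Ω] [Algebra ℂ Ω]
    (i0 : Fin (n + 1)) (a : Fin (n + 1) ⊕ Fin (n + 1) → Ω) {d : ℕ}
    (J : Fin d → Derivation ℂ Ω Ω) (α : Fin d → κ → ℂ) : Prop where
  fin : Finite κ
  form : ∀ i, IsForm (F i)
  pos : ∀ j, 0 < m j
  sym : ∀ j, SymForm F (m j) (σ j)
  imm : Immersive F σ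
  cov : Cov F σ js P H
  ne : ∃ j, c j ≠ 0
  ag : AG F js P H c i0 a J α
  dpos : 0 < d

/-- **C1** The polynomials which vanish on the points of the equations vanish at `a`, in every
chart. Proof: let `I` be the ideal generated by all `rename Sum.inl (F i)`, `tanP F i`,
`X (inl k) - 1`, `X (inr k)`, and `P s - C (c (js s)) * rename Sum.inl (H s)`; all generators
vanish at `ccM k a` (fields `cone`, `tan`, `val`). Complex zeros `b` of `I` are in `Ep F σ c k`:
`b ∈ Tg F k`, and for each `j` there is `s` with `js s = j` and `H s (b) ≠ 0`, so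
`sg σ j b = P s (b) / H s (b) = c j` by `Rep`. By the Nullstellensatz (`exists_point` in `Vf.lean`
with the Rabinowitsch trick, or Mathlib's `vanishingIdeal_zeroLocus_eq_radical`) `G ^ N ∈ I`. -/
def C1 : Prop := ∀ (n : ℕ) (ι κ τ : Type) (F : ι → MvPolynomial (Fin (n + 1)) ℂ) (m : κ → ℕ)
  (σ : κ → (Fin (n + 1) → ℂ) → (Fin (n + 1) → ℂ) → ℂ) (js : τ → κ) (P : τ → Rn (n + 1))
  (H : τ → MvPolynomial (Fin (n + 1)) ℂ) (c : κ → ℂ) (Ω : Type) [Field Ω] [Algebra ℂ Ω]
  (i0 : Fin (n + 1)) (a : Fin (n + 1) ⊕ Fin (n + 1) → Ω) (d : ℕ) (J : Fin d → Derivation ℂ Ω Ω)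
  (α : Fin d → κ → ℂ), Hyp F m σ js P H c i0 a J α → ∀ k, a (Sum.inl k) ≠ 0 →
    ∀ G ∈ Iz (Ep F σ c k), aeval (ccM k a) G = 0

/-- **C2** The derivations preserve the coordinate rings of the charts. Proof: let
`B = Algebra.adjoin ℂ (range (ccM k a))`, the range of `aeval (ccM k a)`. Rows: for `i : ι` the
vector `(rename inl (pderiv l (F i)))_l`, for `k` the unit vector `e_k`, and for `s` the vector
`(pderiv (inr l) (P s))_l`, all in `(Rn (n+1))^(n+1)`. At every complex point `b ∈ Ep F σ c k` the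
values of the rows with `H s (b) ≠ 0` span `ℂ^(n+1)` (as in the proof of `grad_surj` in `Vf.lean`:
a vector `w` killed by them is tangent, `w k = 0`, and the derivative of each `σ j` at `v` in the
direction of `w` is `0` by `ds_rep`, so `w = 0` by `Immersive`; `v ≠ 0` because some `c j ≠ 0`).
So for each unit vector `e_l` the ideal of all `g` such that `g • e_l` is in the span of the rows
modulo `Iz (Ep F σ c k)` has no complex zero (Cramer's rule for `n + 1` independent rows at `b`; if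
`b ∉ Ep`, then `mem_Ep_of` gives an element of `Iz` which is not zero at `b`), so it contains `1` by
`exists_point`. Apply `aeval (ccM k a)` (with C1): each unit vector is a `B`-linear combination
of the rows at `ccM k a`. Now `w = (J b (x_l))_l`, `x = ccM k a ∘ inl`, has the products `0`, `0`
(as `x_k = 1`) and `α b (js s) * H s (x)` with the rows (apply `J b` to `cone`; field `al`), all in
`B`, so `w l ∈ B`; then `w' = (J b (v_l))_l` has the products
`-∑ l m, (∂l ∂m F i)(x) * v l * w m` (apply `J b` to `tan`), `0` (as `v_k = 0`) and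
`c (js s) * J b (H s (x)) - ∑ l, (∂ P s / ∂ x_l)(a) * w l` (apply `J b` to `val`), all in `B`. -/
def C2 : Prop := C1 → ∀ (n : ℕ) (ι κ τ : Type) (F : ι → MvPolynomial (Fin (n + 1)) ℂ) (m : κ → ℕ)
  (σ : κ → (Fin (n + 1) → ℂ) → (Fin (n + 1) → ℂ) → ℂ) (js : τ → κ) (P : τ → Rn (n + 1))
  (H : τ → MvPolynomial (Fin (n + 1)) ℂ) (c : κ → ℂ) (Ω : Type) [Field Ω] [Algebra ℂ Ω]
  (i0 : Fin (n + 1)) (a : Fin (n + 1) ⊕ Fin (n + 1) → Ω) (d : ℕ) (J : Fin d → Derivation ℂ Ω Ω)
  (α : Fin d → κ → ℂ), Hyp F m σ js P H c i0 a J α → ∀ k, a (Sum.inl k) ≠ 0 → ∀ b,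
    ∀ g ∈ Algebra.adjoin ℂ (Set.range (ccM k a)), J b g ∈ Algebra.adjoin ℂ (Set.range (ccM k a))

/-- **C3** Functions which are integral over the coordinate rings of all charts are constant.
Proof: if `g` is not a constant, it is transcendental over `ℂ`, so there is a valuation ring `V` of
`Ω` over `ℂ` with `g ∉ V` (Mathlib: integral closure and valuation rings, or
`LocalSubring.exists_le_valuationSubring` for the localization of `ℂ[1/g]` at `1/g`). Choose `k` with
`a (inl k)` of maximal valuation among the `a (inl l)`; then `x = ccM k a ∘ inl` is in `V`. Claim: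
`v = ccM k a ∘ inr` is in `V`; then `Algebra.adjoin ℂ (range (ccM k a)) ≤ V` and `g ∈ V` (valuation
rings are integrally closed), a contradiction. Claim: if not, let `u = lam • v` with `lam` in the
maximal ideal of `V`, all `u l ∈ V`, some `u l` a unit. For each representation `(P, H)` of `σ j`
let `P'` be `H` times the component of `P` of degree `m j` in `v` and `H' = H ^ 2`; then
`P' - c j * H'` vanishes on `Ep F σ c k` (compare `P (x, t v) = t ^ (m j) * P (x, v)` for tangent
vectors where `H ≠ 0`), so `P' (x, v) = c j * H' (x)` by C1 and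
`P' (x, u) = lam ^ (m j) * c j * H' (x)` is in the maximal ideal; also `F i (x) = 0`,
`tanP F i (x, u) = 0`, `x k = 1`, `u k = 0`. The complex zeros of the ideal generated by `F i`,
`tanP F i`, `X (inl k) - 1`, `X (inr k)` and all such `P'` have `v = 0` (`exists_ne_zero` in
`Bd.lean`), so `X (inr l) ^ N` is in this ideal by the Nullstellensatz; evaluating at `(x, u)`,
`u l ^ N` is in the maximal ideal for all `l`, a contradiction. -/
def C3 : Prop := C1 → ∀ (n : ℕ) (ι κ τ : Type) (F : ι → MvPolynomial (Fin (n + 1)) ℂ) (m : κ → ℕ)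
  (σ : κ → (Fin (n + 1) → ℂ) → (Fin (n + 1) → ℂ) → ℂ) (js : τ → κ) (P : τ → Rn (n + 1))
  (H : τ → MvPolynomial (Fin (n + 1)) ℂ) (c : κ → ℂ) (Ω : Type) [Field Ω] [Algebra ℂ Ω]
  (i0 : Fin (n + 1)) (a : Fin (n + 1) ⊕ Fin (n + 1) → Ω) (d : ℕ) (J : Fin d → Derivation ℂ Ω Ω)
  (α : Fin d → κ → ℂ), Hyp F m σ js P H c i0 a J α → ∀ g : Ω,
    (∀ k, a (Sum.inl k) ≠ 0 → IsIntegral (Algebra.adjoin ℂ (Set.range (ccM k a))) g) →
      ∃ c : ℂ, g = algebraMap ℂ Ω c

/-- **C4** The field of `x` is not of general type. Proof: let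
`M = IntermediateField.adjoin ℂ (range a)`. By C2 the `J b` restrict to derivations `v b` of `M`
(`M` is the fraction field of `Algebra.adjoin ℂ (range (ccM k a))` for each `k` with
`a (inl k) ≠ 0`, because `a l` is a rational function of `ccM k a`, recall `a (inl i0) = 1`,
`a (inr i0) = 0`). They are a frame of `M` (`trd`, `frame`). A derivation of `M` which kills all
`a (inl l)` is zero: apply it to `val`, `tan` as in C2 (unit vectors are combinations of the rows),
so `M` is algebraic over `K = IntermediateField.adjoin ℂ (range (a ∘ inl))` and `K` has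
transcendence degree `d`. Let `S k` be the integral closure in `M` of
`Algebra.adjoin ℂ (range (ccM k a))`: it is finitely generated (`exists_conductor` in `Sei.lean`:
`S k ≤ c⁻¹ B` and `B` is Noetherian), normal, and preserved by the `v b` (`seidenberg` in
`Sei.lean`). Now continue as in `Td.not_general` in `Z/Ngt.lean` with `mem_of_pluri` (`Gt.lean`): for
pluricanonical forms `ω j` the elements `Δ ^ N * ω j E` are in all `S k`, so they are constants by
C3, and all ratios of the `ω j` are constants, which contradicts the general type. -/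
def C4 : Prop := C1 → C2 → C3 → ∀ (n : ℕ) (ι κ τ : Type) (F : ι → MvPolynomial (Fin (n + 1)) ℂ)
  (m : κ → ℕ) (σ : κ → (Fin (n + 1) → ℂ) → (Fin (n + 1) → ℂ) → ℂ) (js : τ → κ)
  (P : τ → Rn (n + 1)) (H : τ → MvPolynomial (Fin (n + 1)) ℂ) (c : κ → ℂ) (Ω : Type) [Field Ω]
  [Algebra ℂ Ω] (i0 : Fin (n + 1)) (a : Fin (n + 1) ⊕ Fin (n + 1) → Ω) (d : ℕ)
  (J : Fin d → Derivation ℂ Ω Ω) (α : Fin d → κ → ℂ), Hyp F m σ js P H c i0 a J α →
    Algebra.trdeg ℂ (IntermediateField.adjoin ℂ (Set.range (a ∘ Sum.inl))) = d ∧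
      ¬ GeneralType ℂ (IntermediateField.adjoin ℂ (Set.range (a ∘ Sum.inl))) d

end Run7.h418.E
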