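import Pool.Agent.Run7.h418.E.Gr
import Pool.Agent.Run7.h418.Avg3

/-!
Statements of independent pieces.
-/

set_option autoImplicit false

open Metric Set Filter Topology Real

namespace Run7.h418.E

open Pool.Agent.Y190.OP

/-- **P1** A holomorphic map from a disc to projective space has on each smaller disc a
holomorphic lift without zeros.
Proof: choose `i` with `ψ 0 i i ≠ 0`. On the ball, `chart i (ψ s)` is meromorphic (locally
`(g i)⁻¹ • g` for a local lift `g`), and `ψ s i i = 0` only at finitely many points `a` of the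
closed ball of radius `(ρ + R) / 2` (else `ψ i i` vanishes near a point, and then on the whole
ball). Let `μ a` be the order of `g i` at `a` and multiply `chart i (ψ s)` by `∏ (s - a) ^ μ a`. -/
def P1 : Prop := ∀ (N : ℕ) (ψ : ℂ → Mat N) (R ρ : ℝ), ρ < R → HolP (ball 0 R) ψ →
  ∃ Λ : ℂ → Fin N → ℂ, IsLift (ball 0 ρ) ψ Λ

/-- **P2** A vector of holomorphic functions on a disc without common zeros has on each smaller
disc a holomorphic partner. Compare `exists_partner` in `Avg.lean` (there `G` is entire; the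
proof with `Cop` goes through on a ball). -/
def P2 : Prop := ∀ (N : ℕ) (R ρ : ℝ) (G : ℂ → Fin N → ℂ), ρ < R → DifferentiableOn ℂ G (ball 0 R) →
  (∀ z ∈ ball (0 : ℂ) R, G z ≠ 0) → ∃ l : ℂ → Fin N → ℂ, DifferentiableOn ℂ l (ball 0 ρ) ∧
    ∀ z ∈ ball (0 : ℂ) ρ, pair (G z) (l z) = 1

/-- **P3** Homogeneous coordinates of a curve are not all algebraic over the small functions, if
the growth function is bounded by the growth of the curve (here `lg u = log ∑ |u k| ^ 2`).
Proof: let `b` be the product of the leading coefficients `P k (d k)`; then `b * G k / G i0` is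
integral over `Sm hT`, so it has no poles (it is locally bounded) and extends to an entire function
`c k`, which is in `Sm hT` by `sm_integral`; `b * G k = G i0 * c k`, `c i0 = b`. As `G` has no
zeros, `c = e • G` with an entire function `e = (∑ k, c k * conj (G k)) / sq G`, not identically
zero. Hence `av ρ (lg G) = av ρ (lg c) - 2 * av ρ (log |e|)`, where `av ρ (log |e|) ≥ -C` for
`ρ ≥ 1` (Jensen; write `e = z ^ k * e'` with `e' 0 ≠ 0`, and use `exists_major` for `e'`, or
Jensen's formula in Mathlib), and `lg c ≤ C' + C' * log (T r)` on the circle of radius `r ∈ Rd T r0`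
by the definition of `Sm`. So `T r ≤ C'' * (1 + log (T r))` for all `r ∈ Rd T r0`, but `T r ≥ r`
and `Rd T r0` is unbounded by `Grw.borel`. -/
def P3 : Prop := ∀ (T : ℝ → ℝ) (r0 : ℝ) (hT : Grw T r0) (N : ℕ) (G : ℂ → Fin N → ℂ) (C : ℝ)
  (i0 : Fin N), Differentiable ℂ G → (∀ z, G z ≠ 0) →
  (∀ r, r0 ≤ r → T r ≤ C * (1 + av r (fun z => lg (G z)))) → (∃ z, G z i0 ≠ 0) →
  (∀ k, ∃ (d : ℕ) (P : ℕ → ℂ → ℂ), (∀ i, P i ∈ Sm hT) ∧ (∃ z, P d z ≠ 0) ∧
    ∀ z, ∑ i ∈ Finset.range (d + 1), P i z * G z k ^ i * G z i0 ^ (d - i) = 0) → False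

end Run7.h418.E
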