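import Pool.Agent.Run7.h418.E.Low
import Pool.Agent.Run7.h418.E.Pcs

/-!
The energy of the discs in a family.
-/

set_option autoImplicit false

open Metric Set Filter Topology Real

namespace Run7.h418.E

open Pool.Agent.Y190.OP

theorem lift_nn {N : ℕ} {y : ℂ → ℂ → Mat N} {ε0 : ℝ}
    (hy : ∀ s ∈ ball (0 : ℂ) ε0, HolP univ (y s))
    (hg : ∀ s ∈ ball (0 : ℂ) ε0, ∀ z i, y s z i i ≠ 0 → Good y z s i) {R3 R2 R1 : ℝ} (h0 : 0 < R3)
    (h32 : R3 < R2) (h21 : R2 < R1) (h10 : R1 < ε0) (p1 : P1) (p2 : P2) (z0 : ℂ) :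
    ∃ δ > 0, ∃ L : ℂ → ℂ → Fin N → ℂ,
      (∀ z ∈ ball z0 δ, IsLift (ball 0 R3) (fun s => y s z) (L z)) ∧
      (∀ s ∈ ball (0 : ℂ) R3, IsLift (ball z0 δ) (y s) (fun z => L z s)) ∧
      ContinuousOn (fun p : ℂ × ℂ => lg (L p.1 p.2)) (ball z0 δ ×ˢ ball 0 R3) := by
  have hH : ∀ z, HolP (ball 0 ε0) fun s => y s z := fam_holP hy hg
  have hcy : ContinuousOn (fun p : ℂ × ℂ => y p.2 p.1) (univ ×ˢ ball 0 ε0) := fam_cont hy hg
  obtain ⟨Λ0, hΛ0⟩ := p1 N (fun s => y s z0) ε0 R1 h10 (hH z0)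
  obtain ⟨l, hl, hpair⟩ := p2 N R1 R2 Λ0 h21 hΛ0.1 fun s hs => (hΛ0.2 s hs).1
  have hb20 : ball (0 : ℂ) R2 ⊆ ball 0 ε0 := ball_subset_ball (h21.trans h10).le
  have hb30 : ball (0 : ℂ) R3 ⊆ ball 0 ε0 := ball_subset_ball (h32.trans (h21.trans h10)).le
  have hb32 : ball (0 : ℂ) R3 ⊆ ball 0 R2 := ball_subset_ball h32.le
  set d : ℂ × ℂ → ℂ := fun p => dn (l p.2) (y p.2 p.1) with hd
  have hdc : ContinuousOn d (univ ×ˢ ball 0 R2) := by
    have h4 : ContinuousOn (fun p : ℂ × ℂ => (l p.2, y p.2 p.1)) (univ ×ˢ ball 0 R2) := by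
      refine ContinuousOn.prodMk ?_ (hcy.mono (Set.prod_mono le_rfl hb20))
      exact hl.continuousOn.comp continuousOn_snd fun p hp => hp.2
    exact Continuous.comp_continuousOn (g := fun p : (Fin N → ℂ) × Mat N => dn p.1 p.2)
      (f := fun p : ℂ × ℂ => (l p.2, y p.2 p.1)) continuous_dn h4
  have hopen : IsOpen ((univ : Set ℂ) ×ˢ ball (0 : ℂ) R2 ∩ d ⁻¹' {0}ᶜ) :=
    hdc.isOpen_inter_preimage (isOpen_univ.prod isOpen_ball) isOpen_compl_singleton
  have hsub : ({z0} : Set ℂ) ×ˢ closedBall (0 : ℂ) R3 ⊆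
      (univ : Set ℂ) ×ˢ ball (0 : ℂ) R2 ∩ d ⁻¹' {0}ᶜ := by
    rintro ⟨z, s⟩ ⟨hz, hs⟩
    have hz' : z = z0 := hz
    have hs' : s ∈ ball (0 : ℂ) R2 := closedBall_subset_ball h32 hs
    have h5 : s ∈ ball (0 : ℂ) R1 := ball_subset_ball h21.le hs'
    rw [hz']
    have h4 : d (z0, s) ≠ 0 := by
      rw [hd]
      change dn (l s) (y s z0) ≠ 0
      have h6 : y s z0 = Phi (Λ0 s) := (hΛ0.2 s h5).2
      rw [h6, dn_ne (hΛ0.2 s h5).1, hpair s hs']
      exact one_ne_zero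
    exact ⟨⟨mem_univ _, hs'⟩, h4⟩
  obtain ⟨u, v, hu, hv, hKu, h0v, huv⟩ := generalized_tube_lemma isCompact_singleton
    (isCompact_closedBall (0 : ℂ) R3) hopen hsub
  obtain ⟨δ, hδ, hδu⟩ := Metric.isOpen_iff.1 hu z0 (hKu rfl)
  have hdn : ∀ z ∈ ball z0 δ, ∀ s ∈ ball (0 : ℂ) R3, dn (l s) (y s z) ≠ 0 := by
    intro z hz s hs
    have h4 : (z, s) ∈ u ×ˢ v := ⟨hδu hz, h0v (ball_subset_closedBall hs)⟩
    have h5 : d (z, s) ≠ 0 := (huv h4).2
    exact h5
  set L : ℂ → ℂ → Fin N → ℂ := fun z s => nl (l s) (y s z) with hL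
  have hLs : ∀ z ∈ ball z0 δ, IsLift (ball 0 R3) (fun s => y s z) (L z) := fun z hz =>
    isLift_nl isOpen_ball ((hH z).mono hb30) (hl.mono hb32) fun s hs => hdn z hz s hs
  have hLz : ∀ s ∈ ball (0 : ℂ) R3, IsLift (ball z0 δ) (y s) (fun z => L z s) := fun s hs =>
    isLift_nl isOpen_ball ((hy s (hb30 hs)).mono (subset_univ _)) (differentiableOn_const _)
      fun z hz => hdn z hz s hs
  refine ⟨δ, hδ, L, hLs, hLz, ?_⟩
  intro p hp
  have h4 : ContinuousWithinAt (fun p : ℂ × ℂ => (l p.2, y p.2 p.1)) (ball z0 δ ×ˢ ball 0 R3) p := by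
    refine ContinuousWithinAt.prodMk ?_ ((hcy p ⟨mem_univ _, hb30 hp.2⟩).mono
      (Set.prod_mono (subset_univ _) hb30))
    exact ((hl.continuousOn.mono hb32) p.2 hp.2).comp continuousWithinAt_snd fun q hq => hq.2
  have h5 := (continuousAt_nl (p := (l p.2, y p.2 p.1)) (hdn _ hp.1 _ hp.2)).comp_continuousWithinAt
    (f := fun p : ℂ × ℂ => (l p.2, y p.2 p.1)) h4
  have h6 : ContinuousAt lg (L p.1 p.2) := continuousAt_lg ((hLs p.1 hp.1).2 p.2 hp.2).1
  exact ContinuousAt.comp_continuousWithinAt (g := lg)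
    (f := fun p : ℂ × ℂ => nl (l p.2) (y p.2 p.1)) h6 h5

theorem exists_energy (p1 : P1) (p2 : P2) {N : ℕ} {y : ℂ → ℂ → Mat N} {ε0 ε : ℝ} (hε : 0 < ε)
    (hεε : ε < ε0) (hy : ∀ s ∈ ball (0 : ℂ) ε0, HolP univ (y s))
    (hg : ∀ s ∈ ball (0 : ℂ) ε0, ∀ z i, y s z i i ≠ 0 → Good y z s i) :
    ∃ e : ℂ → ℝ, Continuous e ∧
      (∀ z, ∃ (R : ℝ) (Λ : ℂ → Fin N → ℂ), ε < R ∧ R ≤ ε0 ∧ IsLift (ball 0 R) (fun s => y s z) Λ ∧
        e z = tr ε Λ) ∧
      ∀ z0 : ℂ, ∃ δ0 > 0, ∀ z ∈ ball z0 δ0, ∀ δ, 0 < δ → δ < δ0 →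
        ContinuousOn (fun s => Tr δ (fun w => y s (z + w))) (sphere 0 ε) ∧
        ex e z δ = av ε (fun s => Tr δ (fun w => y s (z + w))) - Tr δ (fun w => y 0 (z + w)) := by
  classical
  set R3 : ℝ := ε + (ε0 - ε) / 4 with hR3
  have h3 : ε < R3 := by linarith
  have h3' : 0 < R3 := by linarith
  have h30 : R3 < ε0 := by linarith
  have hloc := fun z0 : ℂ => lift_nn hy hg (R3 := R3) (R2 := ε + (ε0 - ε) / 2)
    (R1 := ε + 3 * (ε0 - ε) / 4) h3' (by linarith) (by linarith) (by linarith) p1 p2 z0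
  choose dl hdl L hLs hLz hLc using hloc
  set e : ℂ → ℝ := fun z => tr ε (L z z) with he
  have hsε : closedBall (0 : ℂ) ε ⊆ ball 0 R3 := closedBall_subset_ball h3
  have hsp : sphere (0 : ℂ) ε ⊆ ball 0 R3 := sphere_subset_closedBall.trans hsε
  have h0R : (0 : ℂ) ∈ ball (0 : ℂ) R3 := mem_ball_self h3'
  have hez : ∀ z0, ∀ z ∈ ball z0 (dl z0), e z = tr ε (L z0 z) := by
    intro z0 z hz
    exact tr_congr hε.le isOpen_ball hsε (hLs z z (mem_ball_self (hdl z))) (hLs z0 z hz)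
  refine ⟨e, ?_, fun z => ⟨R3, L z z, h3, h30.le, hLs z z (mem_ball_self (hdl z)), rfl⟩, ?_⟩
  · rw [continuous_iff_continuousAt]
    intro z0
    have h4 : ContinuousOn (fun z => tr ε (L z0 z)) (ball z0 (dl z0)) := by
      unfold tr
      refine ContinuousOn.sub ?_ ?_
      · exact av_cont (g := fun z s => lg (L z0 z s)) hε.le
          ((hLc z0).mono (Set.prod_mono le_rfl hsp))
      · exact (hLc z0).comp (f := fun z => (z, (0 : ℂ))) (by fun_prop) fun z hz => ⟨hz, h0R⟩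
    refine (h4.continuousAt (ball_mem_nhds z0 (hdl z0))).congr ?_
    filter_upwards [ball_mem_nhds z0 (hdl z0)] with z hz
    exact (hez z0 z hz).symm
  · intro z0
    refine ⟨dl z0 / 2, half_pos (hdl z0), fun z hz δ hδ hδ' => ?_⟩
    have hmem : ∀ w ∈ ball (0 : ℂ) (dl z0 / 2), z + w ∈ ball z0 (dl z0) := by
      intro w hw
      have h5 := mem_ball_iff_norm.1 hz
      have h6 := mem_ball_zero_iff.1 hw
      rw [mem_ball_iff_norm]
      calc ‖z + w - z0‖ = ‖(z - z0) + w‖ := by ring_nf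
        _ ≤ ‖z - z0‖ + ‖w‖ := norm_add_le _ _
        _ < dl z0 := by linarith
    have hcb : closedBall (0 : ℂ) δ ⊆ ball 0 (dl z0 / 2) := closedBall_subset_ball hδ'
    have hsd : sphere (0 : ℂ) δ ⊆ ball 0 (dl z0 / 2) := sphere_subset_closedBall.trans hcb
    have h0m : (0 : ℂ) ∈ ball (0 : ℂ) (dl z0 / 2) := mem_ball_self (half_pos (hdl z0))
    have hzm : z ∈ ball z0 (dl z0) := by
      have := hmem 0 h0m
      rwa [add_zero] at this
    set g : ℂ → ℂ → ℝ := fun z s => lg (L z0 z s) with hgdef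
    have hTr : ∀ s ∈ ball (0 : ℂ) R3, Tr δ (fun w => y s (z + w)) =
        av δ (fun w => g (z + w) s) - g z s := by
      intro s hs
      have hH : HolP univ (fun w => y s (z + w)) := by
        obtain ⟨G, hG, hG0, hGφ⟩ := zero_free (hy s (ball_subset_ball h30.le hs))
        have hGL : IsLift univ (y s) G := ⟨hG.differentiableOn, fun z _ => ⟨hG0 z, hGφ z⟩⟩
        exact (isLift_shift (z := z) (V := univ) hGL fun _ _ => mem_univ _).holP isOpen_univ
      rw [Tr_eq hδ.le hH isOpen_ball hcb (isLift_shift (hLz z0 s hs) hmem)]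
      change av δ (fun w => lg (L z0 (z + w) s)) - lg (L z0 (z + 0) s) = _
      rw [add_zero]
    have hgc := hLc z0
    -- continuity on products
    have hc1 : ContinuousOn (fun p : ℂ × ℂ => g (z + p.1) p.2) (sphere 0 δ ×ˢ sphere 0 ε) := by
      exact hgc.comp (f := fun p : ℂ × ℂ => (z + p.1, p.2)) (by fun_prop)
        fun p hp => ⟨hmem _ (hsd hp.1), hsp hp.2⟩
    have hc2 : ContinuousOn (fun p : ℂ × ℂ => g (z + p.2) p.1) (sphere 0 ε ×ˢ sphere 0 δ) := by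
      exact hgc.comp (f := fun p : ℂ × ℂ => (z + p.2, p.1)) (by fun_prop)
        fun p hp => ⟨hmem _ (hsd hp.2), hsp hp.1⟩
    have hc3 : ContinuousOn (fun s => g z s) (sphere 0 ε) := by
      exact hgc.comp (f := fun s => (z, s)) (by fun_prop) fun s hs => ⟨hzm, hsp hs⟩
    have hc4 : ContinuousOn (fun w => g (z + w) 0) (sphere 0 δ) := by
      exact hgc.comp (f := fun w => (z + w, (0 : ℂ))) (by fun_prop)
        fun w hw => ⟨hmem _ (hsd hw), h0R⟩
    have hc5 : ContinuousOn (fun s => av δ (fun w => g (z + w) s)) (sphere 0 ε) :=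
      av_cont (g := fun s w => g (z + w) s) hδ.le hc2
    have hc6 : ContinuousOn (fun w => av ε (fun s => g (z + w) s)) (sphere 0 δ) :=
      av_cont (g := fun w s => g (z + w) s) hε.le hc1
    refine ⟨?_, ?_⟩
    · refine (hc5.sub hc3).congr fun s hs => ?_
      exact hTr s (hsp hs)
    · have e1 : av δ (fun w => e (z + w)) =
          av δ (fun w => av ε (fun s => g (z + w) s) - g (z + w) 0) := by
        refine av_congr hδ.le fun w hw => ?_
        rw [hez z0 (z + w) (hmem w (hsd hw))]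
        rfl
      have e2 : e z = av ε (fun s => g z s) - g z 0 := hez z0 z hzm
      have e3 : av ε (fun s => Tr δ (fun w => y s (z + w))) =
          av ε (fun s => av δ (fun w => g (z + w) s) - g z s) :=
        av_congr hε.le fun s hs => hTr s (hsp hs)
      unfold ex
      rw [e1, e2, e3, hTr 0 h0R, av_sub (f := fun w => av ε (fun s => g (z + w) s))
        (g := fun w => g (z + w) 0) hδ.le hc6 hc4,
        av_sub (f := fun s => av δ (fun w => g (z + w) s)) (g := fun s => g z s) hε.le hc5 hc3,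
        av_swap (g := fun w s => g (z + w) s) hδ.le hε.le hc1]
      ring

end Run7.h418.E
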