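import Pool.Agent.Run7.h418.E.Rl

/-!
Families of curves with the same relations.
-/

set_option autoImplicit false

open Metric Set Filter Topology MvPolynomial

namespace Run7.h418.E

open Pool.Agent.Y190.OP Pool.Agent.W602.GT Pool.Agent.N155

variable {n : ℕ} {ι κ : Type} {F : ι → MvPolynomial (Fin (n + 1)) ℂ}
  {σ : κ → (Fin (n + 1) → ℂ) → (Fin (n + 1) → ℂ) → ℂ} {m : κ → ℕ} {S : Subalgebra ℂ (ℂ → ℂ)}

/-- the small functions frozen at the time `z0` -/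
noncomputable def frz (z0 : ℂ) : Rt n S →ₐ[ℂ] Rn (n + 1) :=
  aeval (Sum.elim (fun l => X l) fun s => C (s.1 z0))

theorem eval_frz (z0 : ℂ) (a : Fin (n + 1) ⊕ Fin (n + 1) → ℂ) (G : Rt n S) :
    eval a (frz z0 G) = eval (pt a z0) G := by
  have h : ((aeval a : Rn (n + 1) →ₐ[ℂ] ℂ).comp (frz z0)) =
      (aeval (pt (S := S) a z0) : Rt n S →ₐ[ℂ] ℂ) := by
    apply MvPolynomial.algHom_ext
    rintro (l | s)
    · simp [frz, pt]
    · simp [frz, pt]
  have h2 := congrArg (fun f : Rt n S →ₐ[ℂ] ℂ => f G) h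
  simp only [AlgHom.comp_apply, MvPolynomial.aeval_eq_eval] at h2
  exact h2

noncomputable def V0 (V : Dr ((Fin (n + 1) ⊕ Fin (n + 1)) ⊕ S)) (z0 : ℂ) :
    Dr (Fin (n + 1) ⊕ Fin (n + 1)) :=
  mkDerivation ℂ fun l => frz z0 (V (X (Sum.inl l)))

theorem frz_der {V : Dr ((Fin (n + 1) ⊕ Fin (n + 1)) ⊕ S)} (hV : ∀ s, V (X (Sum.inr s)) = 0)
    (z0 : ℂ) (G : Rt n S) : V0 V z0 (frz z0 G) = frz z0 (V G) := by
  induction G using MvPolynomial.induction_on with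
  | C c => simp [frz]
  | add p q hp hq => rw [map_add, map_add, map_add, map_add, hp, hq]
  | mul_X p l hp =>
    rw [map_mul, Derivation.leibniz, Derivation.leibniz, hp, map_add, smul_eq_mul, smul_eq_mul,
      smul_eq_mul, smul_eq_mul, map_mul, map_mul]
    congr 2
    rcases l with l | s
    · simp [frz, V0]
    · simp [frz, hV]

theorem frz_iter {V : Dr ((Fin (n + 1) ⊕ Fin (n + 1)) ⊕ S)} (hV : ∀ s, V (X (Sum.inr s)) = 0)
    (z0 : ℂ) (k : ℕ) : ∀ G : Rt n S, (V0 V z0)^[k] (frz z0 G) = frz z0 (V^[k] G) := by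
  induction k with
  | zero => intro G; rfl
  | succ k ih =>
    intro G
    rw [Function.iterate_succ_apply, Function.iterate_succ_apply, frz_der hV, ih]

theorem clear_q (q : Rt n S) (G : MvPolynomial (Vq n ⊕ S) ℂ) :
    ∃ (N : ℕ) (G' : Rt n S), ∀ (a : Fin (n + 1) ⊕ Fin (n + 1) → ℂ) (z : ℂ),
      eval (pt (S := S) a z) q ≠ 0 → eval (pt a z) G' = eval (pt (S := S) a z) q ^ N *
        eval (pt (Sum.elim a fun _ => (eval (pt (S := S) a z) q)⁻¹) z) G := by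
  induction G using MvPolynomial.induction_on with
  | C c => exact ⟨0, C c, fun a z _ => by simp⟩
  | add p r hp hr =>
    obtain ⟨M, p', hp'⟩ := hp
    obtain ⟨M', r', hr'⟩ := hr
    refine ⟨M + M', q ^ M' * p' + q ^ M * r', fun a z ha => ?_⟩
    simp only [map_add, map_mul, map_pow, hp' a z ha, hr' a z ha, pow_add]
    ring
  | mul_X p l hp =>
    obtain ⟨M, p', hp'⟩ := hp
    rcases l with (l | l) | s
    · refine ⟨M, p' * X (Sum.inl l), fun a z ha => ?_⟩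
      rw [map_mul, map_mul, eval_X, eval_X, hp' a z ha, mul_assoc]
      rfl
    · refine ⟨M + 1, p', fun a z ha => ?_⟩
      rw [map_mul, eval_X, hp' a z ha]
      change _ = _ * (_ * (eval (pt (S := S) a z) q)⁻¹)
      generalize eval (pt (Sum.elim a fun _ => (eval (pt (S := S) a z) q)⁻¹) z) p = e
      rw [pow_succ]
      have h1 := mul_inv_cancel₀ ha
      linear_combination (-((eval (pt (S := S) a z) q) ^ M * e)) * h1
    · refine ⟨M, p' * X (Sum.inr s), fun a z ha => ?_⟩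
      rw [map_mul, map_mul, eval_X, eval_X, hp' a z ha, mul_assoc]
      rfl

/-- a family of curves with the same relations -/
structure Fm (F : ι → MvPolynomial (Fin (n + 1)) ℂ)
    (σ : κ → (Fin (n + 1) → ℂ) → (Fin (n + 1) → ℂ) → ℂ) (h : κ → S) (φ : ℂ → Mat (n + 1))
    (i0 : Fin (n + 1)) (z0 : ℂ) (V : Dr ((Fin (n + 1) ⊕ Fin (n + 1)) ⊕ S))
    (y : ℂ → ℂ → Mat (n + 1)) (ε ρ : ℝ) : Prop where
  pos : 0 < ε
  rpos : 0 < ρ
  sl : ∀ s ∈ ball (0 : ℂ) ε, Sl F σ (fun j => (h j).1) univ (y s)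
  zero : y 0 = φ
  good : ∀ s ∈ ball (0 : ℂ) ε, ∀ z i, y s z i i ≠ 0 → Good y z s i
  chart : ∀ s ∈ ball (0 : ℂ) ε, ∀ z ∈ ball z0 ρ, y s z i0 i0 ≠ 0
  rel : ∀ s ∈ ball (0 : ℂ) ε, ∀ z ∈ ball z0 ρ, ∀ G ∈ Rlt S φ i0,
    eval (pt (pr i0 (y s) z) z) G = 0
  der : ∀ l, HasDerivAt (fun s => pr i0 (y s) z0 l)
    (eval (pt (pr i0 φ z0) z0) (V (X (Sum.inl l)))) 0

theorem exists_fm [Finite κ] (hF : ∀ j, IsForm (F j)) (hσ : ∀ j, SymForm F (m j) (σ j))
    (hm : ∀ j, 0 < m j) (him : Immersive F σ) (hS : DSt S) {h : κ → S} {φ : ℂ → Mat (n + 1)}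
    (hφ : Sl F σ (fun j => (h j).1) univ φ) (hL : LocOK m fun j => (h j).1) {i0 : Fin (n + 1)}
    {z0 : ℂ} (hi0 : φ z0 i0 i0 ≠ 0) (hz0 : ∃ j, (h j).1 z0 ≠ 0)
    {V : Dr ((Fin (n + 1) ⊕ Fin (n + 1)) ⊕ S)} (hV : ∀ s, V (X (Sum.inr s)) = 0)
    (hVI : ∀ G ∈ Rlt S φ i0, V G ∈ Rlt S φ i0) : ∃ y ε ρ, Fm F σ h φ i0 z0 V y ε ρ := by
  set a0 := pr i0 φ z0 with ha0
  have ha0E := hφ.2 z0 (mem_univ z0) i0 hi0
  -- the curve of initial conditions
  obtain ⟨ρV, hRV⟩ := exists_rad (V0 V z0) (B := ‖a0‖ + 1) (by positivity)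
  have haB : ‖a0‖ ≤ ‖a0‖ + 1 := by linarith
  set η : ℂ → Fin (n + 1) ⊕ Fin (n + 1) → ℂ := fun s => fl (V0 V z0) a0 s with hη
  have hη0 : η 0 = a0 := fl_zero _ _
  have hηd : ∀ s, ‖s‖ < ρV → ∀ l, HasDerivAt (fun s => η s l) (eval (η s) (V0 V z0 (X l))) s :=
    fun s hs l => hRV.hasDerivAt_fl haB hs l
  have hVk : ∀ k, ∀ G ∈ Rlt S φ i0, V^[k] G ∈ Rlt S φ i0 := by
    intro k
    induction k with
    | zero => intro G hG; exact hG
    | succ k ih => intro G hG; rw [Function.iterate_succ_apply]; exact ih _ (hVI G hG)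
  have hηrel : ∀ s, ‖s‖ < ρV → ∀ G ∈ Rlt S φ i0, eval (pt (η s) z0) G = 0 := by
    intro s hs G hG
    rw [← eval_frz, hη, hRV.eval_fl (frz z0 G) haB hs.le]
    unfold gs
    have h1 : ∀ k, cf (V0 V z0) (frz z0 G) a0 k * s ^ k = 0 := by
      intro k
      unfold cf
      rw [frz_iter hV, eval_frz, hVk k G hG z0 hi0, zero_div, zero_mul]
    simp only [h1, tsum_zero]
  have hηc : ContinuousAt η 0 := by
    refine continuousAt_pi.2 fun l => ?_
    exact (hηd 0 (by rw [norm_zero]; exact hRV.pos) l).continuousAt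
  -- the system
  obtain ⟨q, D, hq, hTD, hDx, hsol⟩ := exists_sys hS hσ hm him (1 : S) (z1 := z0) hz0 (i := i0)
    (a1 := a0) ha0E
  set γ : ℂ → Fin (n + 1) ⊕ Fin (n + 1) → ℂ := fun z => pr i0 φ z with hγ
  set γh : ℂ → Vq n ⊕ S → ℂ := fun w => pt (Sum.elim (γ w) fun _ =>
    (eval (pt (S := S) (γ w) w) q)⁻¹) w with hγh
  have ev1 : ∀ᶠ w in 𝓝 z0, φ w i0 i0 ≠ 0 ∧ eval (pt (S := S) (γ w) w) q ≠ 0 :=
    (ev_diag hφ.1 (mem_univ z0) hi0).and
      ((analytic_pt hS hφ.1 hi0 q).continuousAt.eventually_ne hq)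
  have ev2 : ∀ᶠ z in 𝓝 z0, SolAt D γh z := by
    filter_upwards [ev1.eventually_nhds] with z hz
    refine hsol γ z ?_
    filter_upwards [hz] with w hw
    refine ⟨hφ.2 w (mem_univ w) i0 hw.1, fun k => ?_, fun k => ?_, hw.2⟩
    · have h1 := hasDerivAt_chart hφ.1 (mem_univ w) hw.1 k
      have h2 : ((1 : S) : ℂ → ℂ) w * γ w (Sum.inr k) = pr i0 φ w (Sum.inr k) := one_mul _
      rw [h2]
      exact h1
    · exact (analyticAt_pr isOpen_univ hφ.1 (mem_univ w) hw.1 (Sum.inr k)).differentiableAt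
  have hDR : ∀ G, (∀ᶠ z in 𝓝 z0, eval (γh z) G = 0) → ∀ᶠ z in 𝓝 z0, eval (γh z) (D G) = 0 := by
    intro G hG
    filter_upwards [hG.eventually_nhds, ev2] with z hz hz2
    have h1 := hasDerivAt_eval D hz2.self_of_nhds G
    exact h1.unique ((hasDerivAt_const z (0 : ℂ)).congr_of_eventuallyEq hz)
  have hDRk : ∀ k, ∀ G, (∀ᶠ z in 𝓝 z0, eval (γh z) G = 0) →
      ∀ᶠ z in 𝓝 z0, eval (γh z) (D^[k] G) = 0 := by
    intro k
    induction k with
    | zero => intro G hG; exact hG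
    | succ k ih => intro G hG; rw [Function.iterate_succ_apply]; exact ih _ (hDR G hG)
  have hpoint : ∀ a : Fin (n + 1) ⊕ Fin (n + 1) → ℂ, (∀ G ∈ Rlt S φ i0, eval (pt a z0) G = 0) →
      eval (pt (S := S) a z0) q ≠ 0 → ∀ G, (∀ᶠ z in 𝓝 z0, eval (γh z) G = 0) →
      eval (pt (Sum.elim a fun _ => (eval (pt (S := S) a z0) q)⁻¹) z0) G = 0 := by
    intro a ha haq G hG
    obtain ⟨N, G', hG'⟩ := clear_q q G
    have h1 : G' ∈ Rlt S φ i0 := by
      refine rlt_of_near hS hφ.1 hi0 ?_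
      filter_upwards [hG, ev1] with w hw hw1
      have h2 := hG' (γ w) w hw1.2
      change eval (pt (γ w) w) G' = 0
      rw [h2]
      change _ * eval (γh w) G = 0
      rw [hw, mul_zero]
    have h2 := ha G' h1
    rw [hG' a z0 haq] at h2
    exact (mul_eq_zero.1 h2).resolve_left (pow_ne_zero _ haq)
  -- the initial conditions
  set qη : ℂ → ℂ := fun s => eval (pt (S := S) (η s) z0) q with hqη
  have hqc : ContinuousAt qη 0 := by
    have h1 : Continuous fun a : Fin (n + 1) ⊕ Fin (n + 1) → ℂ => eval (pt (S := S) a z0) q :=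
      (cont_pt hS q).comp (f := fun a : Fin (n + 1) ⊕ Fin (n + 1) → ℂ => (a, z0)) (by fun_prop)
    exact h1.continuousAt.comp hηc
  have hq0 : qη 0 ≠ 0 := by
    rw [hqη]
    change eval (pt (S := S) (η 0) z0) q ≠ 0
    rw [hη0]
    exact hq
  set B : ℝ := max ‖a0‖ ‖(qη 0)⁻¹‖ + 1 with hB
  have hB0 : 0 ≤ B := by positivity
  have hn1 : ‖a0‖ < B := by
    have := le_max_left ‖a0‖ ‖(qη 0)⁻¹‖
    linarith
  have hn2 : ‖(qη 0)⁻¹‖ < B := by
    have := le_max_right ‖a0‖ ‖(qη 0)⁻¹‖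
    linarith
  obtain ⟨ρ1, hR⟩ := exists_radT hTD z0 (r := 0) le_rfl hB0
  have hρ1 := hR.pos
  have hz00 : ‖z0 - z0‖ ≤ 0 := by rw [sub_self, norm_zero]
  have ev3 : ∀ᶠ s in 𝓝 (0 : ℂ), ‖s‖ < ρV ∧ qη s ≠ 0 ∧ ‖η s‖ < B ∧ ‖(qη s)⁻¹‖ < B := by
    have e1 : ∀ᶠ s in 𝓝 (0 : ℂ), ‖s‖ < ρV := by
      have : ContinuousAt (fun s : ℂ => ‖s‖) 0 := continuous_norm.continuousAt
      exact this.eventually_lt_const (by
        change ‖(0 : ℂ)‖ < ρV
        rw [norm_zero]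
        exact hRV.pos)
    have e2 := hηc.norm.eventually_lt_const (show ‖η 0‖ < B by rw [hη0]; exact hn1)
    have e3 := (hqc.inv₀ hq0).norm.eventually_lt_const hn2
    exact e1.and ((hqc.eventually_ne hq0).and (e2.and e3))
  obtain ⟨ε, hε, hev⟩ := Metric.eventually_nhds_iff.1 ev3
  have hev' : ∀ s ∈ ball (0 : ℂ) ε, ‖s‖ < ρV ∧ qη s ≠ 0 ∧ ‖η s‖ < B ∧ ‖(qη s)⁻¹‖ < B :=
    fun s hs => hev hs
  set ah : ℂ → Vq n → ℂ := fun s => Sum.elim (η s) fun _ => (qη s)⁻¹ with hah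
  have hahB : ∀ s ∈ ball (0 : ℂ) ε, ‖ah s‖ ≤ B := by
    intro s hs
    obtain ⟨-, -, h3, h4⟩ := hev' s hs
    rw [pi_norm_le_iff_of_nonneg hB0]
    rintro (l | l)
    · exact (norm_le_pi_norm (η s) l).trans h3.le
    · exact h4.le
  set Γ : ℂ → ℂ → Vq n ⊕ S → ℂ := fun s z => fl D (pt (ah s) z0) (z - z0) with hΓ
  have hΓtime : ∀ s z (t : S), Γ s z (Sum.inr t) = t.1 z := by
    intro s z t
    have h1 := congrFun (hR.time (ah s) z0 (z - z0)) (Sum.inr t)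
    have h2 : z0 + (z - z0) = z := by ring
    rw [h2] at h1
    exact h1
  have hΓsol : ∀ s ∈ ball (0 : ℂ) ε, ∀ z ∈ ball z0 ρ1, SolAt D (Γ s) z := fun s hs z hz =>
    hR.solAt hz00 (hahB s hs) (mem_ball_iff_norm.1 hz)
  have hΓrel : ∀ s ∈ ball (0 : ℂ) ε, ∀ z ∈ ball z0 ρ1, ∀ G,
      (∀ᶠ z in 𝓝 z0, eval (γh z) G = 0) → eval (Γ s z) G = 0 := by
    intro s hs z hz G hG
    refine hR.fl_rel hz00 (hahB s hs) (fun k => ?_) (mem_ball_iff_norm.1 hz).le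
    obtain ⟨h1, h2, -, -⟩ := hev' s hs
    exact hpoint (η s) (hηrel s h1) h2 _ (hDRk k G hG)
  set γs : ℂ → ℂ → Fin (n + 1) ⊕ Fin (n + 1) → ℂ := fun s z l => Γ s z (Sum.inl (Sum.inl l))
    with hγs
  have hiq : ∀ s z (G : Rt n S), eval (Γ s z) (rename iq G) = eval (pt (γs s z) z) G := by
    intro s z G
    rw [eval_rename]
    congr 2
    funext l
    rcases l with l | t
    · rfl
    · exact hΓtime s z t
  have hiq0 : ∀ (w : ℂ) (G : Rt n S), eval (γh w) (rename iq G) = eval (pt (γ w) w) G := by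
    intro w G
    rw [eval_rename]
    congr 2
    funext l
    rcases l with l | t
    · rfl
    · rfl
  have hγrel : ∀ s ∈ ball (0 : ℂ) ε, ∀ z ∈ ball z0 ρ1, ∀ G ∈ Rlt S φ i0,
      eval (pt (γs s z) z) G = 0 := by
    intro s hs z hz G hG
    rw [← hiq]
    refine hΓrel s hs z hz _ ?_
    filter_upwards [ev1] with w hw
    rw [hiq0]
    exact hG w hw.1
  have hγE : ∀ s ∈ ball (0 : ℂ) ε, ∀ z ∈ ball z0 ρ1, γs s z ∈ Ep F σ (fun j => (h j).1 z) i0 := by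
    intro s hs z hz
    refine mem_Ep_of_t hσ fun G hG => hγrel s hs z hz G ?_
    intro w hw
    exact hG w _ (hφ.2 w (mem_univ w) i0 hw)
  have hγd : ∀ s ∈ ball (0 : ℂ) ε, ∀ z ∈ ball z0 ρ1, ∀ k,
      HasDerivAt (fun w => γs s w (Sum.inl k)) (γs s z (Sum.inr k)) z := by
    intro s hs z hz k
    have h1 := (hΓsol s hs z hz).self_of_nhds (Sum.inl (Sum.inl (Sum.inl k)))
    rw [hDx k, map_mul, eval_X, eval_X, hΓtime s z 1] at h1
    have h2 : ((1 : S) : ℂ → ℂ) z * Γ s z (Sum.inl (Sum.inl (Sum.inr k))) =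
      γs s z (Sum.inr k) := one_mul _
    rw [h2] at h1
    exact h1
  -- global solutions
  have H : ∀ s, ∃ ψ : ℂ → Mat (n + 1), s ∈ ball (0 : ℂ) ε →
      (Sl F σ (fun j => (h j).1) univ ψ ∧ EqOn ψ (fun z => Phi (γs s z ∘ Sum.inl)) (ball z0 ρ1) ∧
        ∀ z ∈ ball z0 ρ1, ψ z i0 i0 ≠ 0 ∧ pr i0 ψ z = γs s z) := by
    intro s
    by_cases hs : s ∈ ball (0 : ℂ) ε
    swap
    · exact ⟨φ, fun h => absurd h hs⟩
    obtain ⟨h1, h2⟩ := sl_of_chart hF hσ isOpen_ball (hγE s hs) (hγd s hs)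
    obtain ⟨ψ, h3, h4⟩ := exists_glob hF hσ hm him hL hρ1 h1
    have h5 : EqOn ψ (fun z => Phi (γs s z ∘ Sum.inl)) (ball z0 ρ1) := by
      have h6 := sl_eqOn isOpen_univ isOpen_ball convex_univ (convex_ball _ _) h3 h1 (mem_univ z0)
        (mem_ball_self hρ1) h4
      intro z hz
      exact h6 ⟨mem_univ z, hz⟩
    refine ⟨ψ, fun _ => ⟨h3, h5, fun z hz => ?_⟩⟩
    obtain ⟨h7, h8⟩ := h2 z hz
    have h9 : ψ =ᶠ[𝓝 z] fun z => Phi (γs s z ∘ Sum.inl) := by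
      filter_upwards [isOpen_ball.mem_nhds hz] with w hw
      exact h5 hw
    refine ⟨?_, ?_⟩
    · rw [h5 hz]
      exact h7
    · rw [pr_congr h9, h8]
  choose y hy using H
  have h0ε : (0 : ℂ) ∈ ball (0 : ℂ) ε := mem_ball_self hε
  have hz0ρ : z0 ∈ ball z0 ρ1 := mem_ball_self hρ1
  have hyη : ∀ s ∈ ball (0 : ℂ) ε, pr i0 (y s) z0 = η s := by
    intro s hs
    rw [((hy s hs).2.2 z0 hz0ρ).2]
    funext l
    change fl D (pt (ah s) z0) (z0 - z0) (Sum.inl (Sum.inl l)) = η s l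
    rw [sub_self, fl_zero]
    rfl
  refine ⟨y, ε, ρ1, hε, hρ1, fun s hs => (hy s hs).1, ?_, ?_, fun s hs z hz =>
    ((hy s hs).2.2 z hz).1, fun s hs z hz G hG => ?_, fun l => ?_⟩
  · -- the member at `0`
    have h1 : SolAt D (Γ 0) z0 := hΓsol 0 h0ε z0 hz0ρ
    have h2 : Γ 0 z0 = γh z0 := by
      change fl D (pt (ah 0) z0) (z0 - z0) = _
      rw [sub_self, fl_zero, hah, hγh]
      change pt (Sum.elim (η 0) fun _ => (qη 0)⁻¹) z0 = pt (Sum.elim (γ z0) fun _ => _) z0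
      rw [hqη]
      change pt (Sum.elim (η 0) fun _ => (eval (pt (S := S) (η 0) z0) q)⁻¹) z0 = _
      rw [hη0]
    have h3 := sol_unique h1 ev2.self_of_nhds h2
    have h4 : y 0 =ᶠ[𝓝 z0] φ := by
      filter_upwards [h3, isOpen_ball.mem_nhds hz0ρ, ev1] with w hw hwb hw1
      rw [(hy 0 h0ε).2.1 hwb]
      change Phi (γs 0 w ∘ Sum.inl) = φ w
      have h5 : γs 0 w ∘ Sum.inl = chart i0 (φ w) := by
        funext l
        exact hw (Sum.inl (Sum.inl l))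
      rw [h5, PM.Phi_chart (hφ.1.mem_PM (mem_univ w)) hw1.1]
    have h5 := sl_eqOn isOpen_univ isOpen_univ convex_univ convex_univ (hy 0 h0ε).1 hφ
      (mem_univ z0) (mem_univ z0) h4
    funext z
    exact h5 ⟨mem_univ z, mem_univ z⟩
  · intro s0 hs0 z i hi
    refine good_all hF hσ hm him hL hz0 (s0 := s0) (k := i0) ?_ ?_ z i hi
    · filter_upwards [isOpen_ball.mem_nhds hs0] with s hs
      exact (hy s hs).1
    · filter_upwards [(isOpen_ball.mem_nhds hs0)] with s hs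
      refine ⟨((hy s hs).2.2 z0 hz0ρ).1, ?_⟩
      have h1 : (fun s => pr i0 (y s) z0) =ᶠ[𝓝 s] η := by
        filter_upwards [isOpen_ball.mem_nhds hs] with t ht
        exact hyη t ht
      refine DifferentiableAt.congr_of_eventuallyEq ?_ h1
      exact differentiableAt_pi.2 fun l => (hηd s (hev' s hs).1 l).differentiableAt
  · rw [((hy s hs).2.2 z hz).2]
    exact hγrel s hs z hz G hG
  · have h1 := hηd 0 (by rw [norm_zero]; exact hRV.pos) l
    have h2 : eval (η 0) (V0 V z0 (X l)) = eval (pt (pr i0 φ z0) z0) (V (X (Sum.inl l))) := by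
      rw [hη0, V0, mkDerivation_X, eval_frz]
    rw [h2] at h1
    refine h1.congr_of_eventuallyEq ?_
    filter_upwards [isOpen_ball.mem_nhds h0ε] with s hs
    exact congrFun (hyη s hs) l

end Run7.h418.E
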