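import Pool.Agent.Run7.h418.E.Nv
import Pool.Agent.Run7.h418.E.Fml
import Pool.Agent.Run7.h418.E.Erg
import Pool.Agent.Run7.h418.Ds

/-!
The values of the symmetric differentials on the infinitesimal deformations.
-/

set_option autoImplicit false

open Metric Set Filter Topology Real MvPolynomial

namespace Run7.h418.E

open Pool.Agent.Y190.OP Pool.Agent.W602.GT Pool.Agent.N155

variable {n : ℕ} {ι κ : Type} {F : ι → MvPolynomial (Fin (n + 1)) ℂ}
  {σ : κ → (Fin (n + 1) → ℂ) → (Fin (n + 1) → ℂ) → ℂ} {m : κ → ℕ} {g : κ → ℂ → ℂ}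

/-- the infinitesimal deformation at the parameter `s` -/
noncomputable def bet (y : ℂ → ℂ → Mat (n + 1)) (i : Fin (n + 1)) (z s : ℂ) : Fin (n + 1) → ℂ :=
  fun k => deriv (fun t => pr i (y t) z (Sum.inl k)) s

section one

variable {y : ℂ → ℂ → Mat (n + 1)} {i : Fin (n + 1)} {z s : ℂ}

theorem slice_zero (hg : Good y z s i) {G : Rn (n + 1)} {e : ℂ}
    (h0 : ∀ᶠ t in 𝓝 s, eval (pr i (y t) z) G = e) :
    ∑ l, eval (pr i (y s) z) (pderiv l G) * deriv (fun t => pr i (y t) z l) s = 0 := by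
  have hd := (good_slice hg).self_of_nhds.2
  have h1 := hasDerivAt_eval' (γ := fun t => pr i (y t) z) (z := s)
    (γ' := fun l => deriv (fun t => pr i (y t) z l) s)
    (fun l => (differentiableAt_pi.1 hd l).hasDerivAt) G
  have h2 : HasDerivAt (fun t => eval (pr i (y t) z) G) 0 s :=
    (hasDerivAt_const s e).congr_of_eventuallyEq h0
  exact h1.unique h2

theorem bet_Tan (hy : ∀ᶠ t in 𝓝 s, Sl F σ g univ (y t)) (hg : Good y z s i) :
    Tan F (pr i (y s) z ∘ Sum.inl) (bet y i z s) ∧ bet y i z s i = 0 := by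
  have hE : ∀ᶠ t in 𝓝 s, pr i (y t) z ∈ Ep F σ (fun j => g j z) i := by
    filter_upwards [hy, good_slice hg] with t ht ht2
    exact ht.2 z (mem_univ z) i ht2.1
  constructor
  · intro j
    have h1 := slice_zero hg (G := rename Sum.inl (F j)) (e := 0) (by
      filter_upwards [hE] with t ht
      rw [eval_inl]
      exact ht.1.2.2.1 j)
    rw [Fintype.sum_sum_type] at h1
    simp only [pderiv_inl_inl, pderiv_inr_inl, map_zero, zero_mul, Finset.sum_const_zero,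
      add_zero, eval_inl] at h1
    exact h1
  · have h0 : (fun t => pr i (y t) z (Sum.inl i)) =ᶠ[𝓝 s] fun _ => (1 : ℂ) := by
      filter_upwards [hE] with t ht
      exact ht.1.1
    change deriv (fun t => pr i (y t) z (Sum.inl i)) s = 0
    rw [h0.deriv_eq, deriv_const]

theorem bet_cc (hy : ∀ᶠ t in 𝓝 s, Sl F σ g univ (y t)) (hg : Good y z s i) {k : Fin (n + 1)}
    (hk : y s z k k ≠ 0) :
    bet y k z s = fun l => (bet y i z s l * pr i (y s) z (Sum.inl k) -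
      pr i (y s) z (Sum.inl l) * bet y i z s k) / pr i (y s) z (Sum.inl k) ^ 2 := by
  have hgk : Good y z s k := hg.change (hy.mono fun t ht => ht.1) hk
  have hk0 := (pr_cc isOpen_univ hy.self_of_nhds.1 (mem_univ z) hg.self_of_nhds.1 hk).1
  have hd := (good_slice hg).self_of_nhds.2
  have hdl : ∀ l, HasDerivAt (fun t => pr i (y t) z (Sum.inl l)) (bet y i z s l) s := fun l =>
    (differentiableAt_pi.1 hd (Sum.inl l)).hasDerivAt
  funext l
  have h1 : (fun t => pr k (y t) z (Sum.inl l)) =ᶠ[𝓝 s] fun t =>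
      pr i (y t) z (Sum.inl l) / pr i (y t) z (Sum.inl k) := by
    filter_upwards [hy, good_slice hg, good_slice hgk] with t ht ht1 ht2
    rw [(pr_cc isOpen_univ ht.1 (mem_univ z) ht1.1 ht2.1).2, cc_inl]
  change deriv (fun t => pr k (y t) z (Sum.inl l)) s = _
  rw [h1.deriv_eq, ((hdl l).fun_div (hdl k) hk0).deriv]

end one

section fam

variable {y : ℂ → ℂ → Mat (n + 1)} {ε0 : ℝ}

theorem ds_indep (hσ : ∀ j, SymForm F (m j) (σ j))
    (hy : ∀ s ∈ ball (0 : ℂ) ε0, Sl F σ g univ (y s))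
    (hg : ∀ s ∈ ball (0 : ℂ) ε0, ∀ z i, y s z i i ≠ 0 → Good y z s i) {s : ℂ}
    (hs : s ∈ ball (0 : ℂ) ε0) (z : ℂ) {i k : Fin (n + 1)} (hi : y s z i i ≠ 0)
    (hk : y s z k k ≠ 0) (j : κ) :
    ds σ j (pr k (y s) z) (bet y k z s) = ds σ j (pr i (y s) z) (bet y i z s) := by
  have hy' : ∀ᶠ t in 𝓝 s, Sl F σ g univ (y t) := by
    filter_upwards [isOpen_ball.mem_nhds hs] with t ht
    exact hy t ht
  obtain ⟨h1, h2⟩ := pr_cc isOpen_univ (hy s hs).1 (mem_univ z) hi hk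
  rw [bet_cc hy' (hg s hs z i hi) hk, h2]
  exact ds_cc hσ ((hy s hs).2 z (mem_univ z) i hi).1 h1 (bet_Tan hy' (hg s hs z i hi)).1 j

/-- the function of the family -/
theorem exists_dsv (hσ : ∀ j, SymForm F (m j) (σ j))
    (hy : ∀ s ∈ ball (0 : ℂ) ε0, Sl F σ g univ (y s))
    (hg : ∀ s ∈ ball (0 : ℂ) ε0, ∀ z i, y s z i i ≠ 0 → Good y z s i) (j : κ) :
    ∃ A : ℂ → ℂ → ℂ, (∀ s ∈ ball (0 : ℂ) ε0, Differentiable ℂ fun z => A z s) ∧
      (∀ z, DifferentiableOn ℂ (fun s => A z s) (ball 0 ε0)) ∧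
      ∀ s ∈ ball (0 : ℂ) ε0, ∀ z i, y s z i i ≠ 0 →
        A z s = ds σ j (pr i (y s) z) (bet y i z s) := by
  have hex : ∀ z s : ℂ, ∃ i : Fin (n + 1), s ∈ ball (0 : ℂ) ε0 → y s z i i ≠ 0 := by
    intro z s
    by_cases hs : s ∈ ball (0 : ℂ) ε0
    · obtain ⟨i, hi⟩ := PM.exists_diag ((hy s hs).1.mem_PM (mem_univ z))
      exact ⟨i, fun _ => hi⟩
    · exact ⟨0, fun h => absurd h hs⟩
  choose ix hix using hex
  set A : ℂ → ℂ → ℂ := fun z s => ds σ j (pr (ix z s) (y s) z) (bet y (ix z s) z s) with hA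
  have hAi : ∀ s ∈ ball (0 : ℂ) ε0, ∀ z i, y s z i i ≠ 0 →
      A z s = ds σ j (pr i (y s) z) (bet y i z s) := fun s hs z i hi =>
    ds_indep hσ hy hg hs z hi (hix z s hs) j
  have hloc : ∀ z0 : ℂ, ∀ s0 ∈ ball (0 : ℂ) ε0, ∃ (i : Fin (n + 1)) (P : Rn (n + 1))
      (H : MvPolynomial (Fin (n + 1)) ℂ), Good y z0 s0 i ∧
        eval (pr i (y s0) z0 ∘ Sum.inl) H ≠ 0 ∧ ∀ᶠ p : ℂ × ℂ in 𝓝 (z0, s0),
        A p.1 p.2 = (∑ k, eval (pr i (y p.2) p.1) (pderiv (Sum.inr k) P) *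
          deriv (fun t => pr i (y t) p.1 (Sum.inl k)) p.2) /
            eval (pr i (y p.2) p.1) (rename Sum.inl H) := by
    intro z0 s0 hs0
    have hi := hix z0 s0 hs0
    set i := ix z0 s0
    obtain ⟨P, H, hH, hrep⟩ := sg_rep hσ j (Tg.cone ((hy s0 hs0).2 z0 (mem_univ z0) i hi).1)
    have hrep' : Rep F σ j P H := hrep
    have hgood := hg s0 hs0 z0 i hi
    refine ⟨i, P, H, hgood, hH, ?_⟩
    have hc : ContinuousAt (fun p : ℂ × ℂ => eval (pr i (y p.2) p.1) (rename Sum.inl H)) (z0, s0) :=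
      (diff_eval (g := fun p : ℂ × ℂ => pr i (y p.2) p.1) hgood.self_of_nhds.2 _).continuousAt
    have h1 : eval (pr i (y s0) z0) (rename Sum.inl H) ≠ 0 := by rw [eval_inl]; exact hH
    have h2 : ∀ᶠ p : ℂ × ℂ in 𝓝 (z0, s0), p.2 ∈ ball (0 : ℂ) ε0 :=
      (continuous_snd.tendsto (z0, s0)).eventually (isOpen_ball.mem_nhds hs0)
    filter_upwards [hgood, hc.eventually_ne h1, h2] with p hp1 hp2 hp3
    have hy' : ∀ᶠ t in 𝓝 p.2, Sl F σ g univ (y t) := by
      filter_upwards [isOpen_ball.mem_nhds hp3] with t ht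
      exact hy t ht
    rw [hAi p.2 hp3 p.1 i hp1.1]
    rw [eval_inl] at hp2 ⊢
    exact ds_rep ((hy p.2 hp3).2 p.1 (mem_univ _) i hp1.1).1
      (bet_Tan hy' (hg p.2 hp3 p.1 i hp1.1)).1 hrep' hp2
  refine ⟨A, fun s hs z => ?_, fun z s hs => ?_, hAi⟩
  · obtain ⟨i, P, H, hgood, hH, hA⟩ := hloc z s hs
    have h1 := eventually_slice1 hA
    refine DifferentiableAt.congr_of_eventuallyEq ?_ h1
    have hpr : DifferentiableAt ℂ (fun w => pr i (y s) w) z := by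
      have h3 := hgood.self_of_nhds.2
      exact DifferentiableAt.comp (g := fun p : ℂ × ℂ => pr i (y p.2) p.1)
        (f := fun w : ℂ => (w, s)) z h3 (by fun_prop)
    refine DifferentiableAt.fun_div ?_ (diff_eval hpr _) (by rw [eval_inl]; exact hH)
    refine DifferentiableAt.fun_sum fun k _ => (diff_eval hpr _).mul ?_
    have h4 := Holo.analyticAt_slice (g := fun p : ℂ × ℂ => pr i (y p.2) p.1 (Sum.inl k))
      (z := z) (s := s) (by
        filter_upwards [hgood] with p hp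
        exact differentiableAt_pi.1 hp.2 (Sum.inl k))
    exact h4.differentiableAt
  · obtain ⟨i, P, H, hgood, hH, hA⟩ := hloc z s hs
    have h1 := eventually_slice2 hA
    refine DifferentiableAt.differentiableWithinAt ?_
    refine DifferentiableAt.congr_of_eventuallyEq ?_ h1
    have hsl := good_slice hgood
    have hpr : DifferentiableAt ℂ (fun t => pr i (y t) z) s := hsl.self_of_nhds.2
    refine DifferentiableAt.fun_div ?_ (diff_eval hpr _) (by rw [eval_inl]; exact hH)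
    refine DifferentiableAt.fun_sum fun k _ => (diff_eval hpr _).mul ?_
    have h4 : AnalyticAt ℂ (fun t => pr i (y t) z (Sum.inl k)) s := by
      rw [Complex.analyticAt_iff_eventually_differentiableAt]
      filter_upwards [hsl] with t ht
      exact differentiableAt_pi.1 ht.2 (Sum.inl k)
    exact h4.deriv.differentiableAt

/-- scaling -/
theorem ds_scale (hσ : ∀ j, SymForm F (m j) (σ j)) {i : Fin (n + 1)}
    {a : Fin (n + 1) ⊕ Fin (n + 1) → ℂ} (ha : a ∈ Tg F i) {η : Fin (n + 1) → ℂ}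
    (hη : Tan F (a ∘ Sum.inl) η) {c : ℂ} (hc : c ≠ 0) (j : κ) :
    c * ds σ j (Sum.elim (a ∘ Sum.inl) (c • (a ∘ Sum.inr))) η = c ^ m j * ds σ j a η := by
  unfold ds
  rw [Sum.elim_comp_inl, Sum.elim_comp_inr]
  have h1 : (fun t : ℂ => σ j (a ∘ Sum.inl) (c • (a ∘ Sum.inr) + t • η)) = fun t =>
      c ^ m j * σ j (a ∘ Sum.inl) (a ∘ Sum.inr + (c⁻¹ * t) • η) := by
    funext t
    rw [← (hσ j).deg _ (Tg.cone ha) _ (ha.2.2.2.add (hη.smul _)), smul_add, smul_smul, ← mul_assoc,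
      mul_inv_cancel₀ hc, one_mul]
  rw [h1, deriv_const_mul_field]
  have h2 := deriv_comp_mul_left (c⁻¹) (fun t : ℂ => σ j (a ∘ Sum.inl) (a ∘ Sum.inr + t • η)) 0
  rw [h2, mul_zero, smul_eq_mul]
  field_simp

theorem ds_le [Fintype κ] (hσ : ∀ j, SymForm F (m j) (σ j)) (hm : ∀ j, 0 < m j)
    (him : Immersive F σ) (j : κ) :
    ∃ K : ℝ, 0 ≤ K ∧ ∀ i, ∀ a ∈ Tg F i, a ∘ Sum.inl ∈ Kc i → ∀ η : Fin (n + 1) → ℂ,
      Tan F (a ∘ Sum.inl) η → η i = 0 → ∀ H : ℝ, 0 < H → Hs m (fun j => sg σ j a) ≤ H ^ 2 →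
        H * ‖ds σ j a η‖ ≤ K * H ^ m j * ‖η‖ := by
  obtain ⟨C, hC, hup⟩ := uppk (F := F) hσ hm him
  obtain ⟨K, hK0, hK⟩ := ds_bound (F := F) hσ j (Real.sqrt C)
  refine ⟨K, hK0, fun i a ha haK η hη hηi H hH hHs => ?_⟩
  set c : ℂ := ((H : ℝ) : ℂ)⁻¹ with hc
  have hHc : (H : ℂ) ≠ 0 := by exact_mod_cast hH.ne'
  have hc0 : c ≠ 0 := inv_ne_zero hHc
  have hcn : ‖c‖ = H⁻¹ := by rw [hc, norm_inv, Complex.norm_real, Real.norm_of_nonneg hH.le]
  set b : Fin (n + 1) ⊕ Fin (n + 1) → ℂ := Sum.elim (a ∘ Sum.inl) (c • (a ∘ Sum.inr)) with hb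
  have hbT : b ∈ Tg F i := (sg_smul hσ ha c j).1
  have h1 : b ∈ Tb F i (Real.sqrt C) := by
    refine ⟨hbT, by rwa [hb, Sum.elim_comp_inl], ?_⟩
    rw [hb, Sum.elim_comp_inr, norm_smul, hcn, inv_mul_le_iff₀ hH]
    have h2 := hup i a ha haK
    have h3 : ‖a ∘ Sum.inr‖ ^ 2 ≤ (H * Real.sqrt C) ^ 2 := by
      rw [mul_pow, Real.sq_sqrt hC.le]
      nlinarith
    exact le_of_sq_le_sq h3 (by positivity)
  have h2 := hK i b h1 η (by rwa [hb, Sum.elim_comp_inl]) hηi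
  have h3 := ds_scale hσ ha hη hc0 j
  have h4 := congrArg norm h3
  rw [norm_mul, norm_mul, norm_pow, hcn] at h4
  have h5 : ‖ds σ j a η‖ = H ^ m j * (H⁻¹ * ‖ds σ j b η‖) := by
    rw [h4, inv_pow, ← mul_assoc, mul_inv_cancel₀ (pow_ne_zero _ hH.ne'), one_mul]
  rw [h5]
  calc H * (H ^ m j * (H⁻¹ * ‖ds σ j b η‖)) = H ^ m j * ‖ds σ j b η‖ := by
        field_simp
    _ ≤ H ^ m j * (K * ‖η‖) := by gcongr
    _ = K * H ^ m j * ‖η‖ := by ring

end fam

end Run7.h418.E
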