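import Pool.Agent.Run7.h418.E.Loc2
import Pool.Agent.Run7.h418.Fam2

/-!
Global solutions, and families of global solutions.
-/

set_option autoImplicit false

open Metric Set Filter Topology MvPolynomial

namespace Run7.h418.E

open Pool.Agent.Y190.OP Pool.Agent.W602.GT Pool.Agent.N155

variable {n : ℕ} {ι κ : Type} {F : ι → MvPolynomial (Fin (n + 1)) ℂ}
  {σ : κ → (Fin (n + 1) → ℂ) → (Fin (n + 1) → ℂ) → ℂ} {m : κ → ℕ}

/-- the functions `h` are near each point the values of the symmetric differentials at a multiple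
of a vector which does not vanish -/
def LocOK (m : κ → ℕ) (h : κ → ℂ → ℂ) : Prop :=
  ∀ z1, ∃ (k : ℕ) (ht : κ → ℂ → ℂ), (∀ j, Differentiable ℂ (ht j)) ∧
    (∀ j z, h j z = (z - z1) ^ (k * m j) * ht j z) ∧ ∃ j, ht j z1 ≠ 0

theorem LocOK.dense {h : κ → ℂ → ℂ} (hL : LocOK m h) : Dense {b : ℂ | ∃ j, h j b ≠ 0} := by
  intro z1
  obtain ⟨k, ht, hd, hk, j, hj⟩ := hL z1
  rw [_root_.mem_closure_iff]
  intro o ho hz
  have h0 : ∀ᶠ z in 𝓝 z1, z ∈ o := ho.mem_nhds hz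
  have h1 : ∀ᶠ z in 𝓝 z1, z ∈ o ∧ ht j z ≠ 0 :=
    h0.and ((hd j).continuous.continuousAt.eventually_ne hj)
  have h2 : ∀ᶠ z in 𝓝[≠] z1, z ∈ o ∧ ht j z ≠ 0 ∧ z ≠ z1 := by
    filter_upwards [mem_nhdsWithin_of_mem_nhds h1, self_mem_nhdsWithin] with z hz hz'
    exact ⟨hz.1, hz.2, hz'⟩
  obtain ⟨z, hzo, hz1, hz2⟩ := h2.exists
  refine ⟨z, hzo, j, ?_⟩
  rw [hk]
  exact mul_ne_zero (pow_ne_zero _ (sub_ne_zero.2 hz2)) hz1

theorem LocOK.uniform [Finite κ] (hF : ∀ j, IsForm (F j)) (hσ : ∀ j, SymForm F (m j) (σ j))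
    (hm : ∀ j, 0 < m j) (him : Immersive F σ) {h : κ → ℂ → ℂ} (hL : LocOK m h) (c : ℂ) (R : ℝ) :
    ∃ ρ > 0, ∀ b ∈ closedBall c R, (∃ j, h j b ≠ 0) → LF F σ h b ρ := by
  have hloc : ∀ z1 : ℂ, ∃ ρ > 0, ∀ b ∈ ball z1 ρ, (∃ j, h j b ≠ 0) → LF F σ h b ρ := by
    intro z1
    obtain ⟨k, ht, hd, hk, hj⟩ := hL z1
    exact loc hF hσ hm him hd hk hj
  refine (isCompact_closedBall c R).induction_on
    (p := fun s => ∃ ρ > 0, ∀ b ∈ s, (∃ j, h j b ≠ 0) → LF F σ h b ρ)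
    ⟨1, one_pos, fun p hp => absurd hp (notMem_empty p)⟩ (fun s t hst ⟨ρ, hρ, h1⟩ =>
      ⟨ρ, hρ, fun p hp => h1 p (hst hp)⟩) ?_ ?_
  · rintro s t ⟨ρ, hρ, h1⟩ ⟨ρ', hρ', h1'⟩
    refine ⟨min ρ ρ', lt_min hρ hρ', fun p hp hj => ?_⟩
    rcases hp with hp | hp
    · exact (h1 p hp hj).mono (min_le_left _ _)
    · exact (h1' p hp hj).mono (min_le_right _ _)
  · intro z1 _
    obtain ⟨ρ, hρ, h1⟩ := hloc z1
    exact ⟨ball z1 ρ, mem_nhdsWithin_of_mem_nhds (ball_mem_nhds z1 hρ), ρ, hρ, h1⟩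

theorem sl_of_germs {h : κ → ℂ → ℂ} {U : Set ℂ} {φ : ℂ → Mat (n + 1)}
    (hgerm : ∀ z ∈ U, ∃ (V : Set ℂ) (ψ : ℂ → Mat (n + 1)), z ∈ V ∧ Sl F σ h V ψ ∧ φ =ᶠ[𝓝 z] ψ) :
    Sl F σ h U φ := by
  constructor
  · intro z hz
    obtain ⟨V, ψ, hzV, hψ, h⟩ := hgerm z hz
    exact holP_at_congr hψ.1 hzV h
  · intro z hz i hi
    obtain ⟨V, ψ, hzV, hψ, h⟩ := hgerm z hz
    rw [pr_congr h]
    exact hψ.2 z hzV i (by rwa [← h.eq_of_nhds])

theorem sl_eqOn {h : κ → ℂ → ℂ} {U V : Set ℂ} (hU : IsOpen U) (hV : IsOpen V)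
    (hUc : Convex ℝ U) (hVc : Convex ℝ V)
    {φ ψ : ℂ → Mat (n + 1)} (hφ : Sl F σ h U φ) (hψ : Sl F σ h V ψ) {z : ℂ}
    (hzU : z ∈ U) (hzV : z ∈ V) (he : φ =ᶠ[𝓝 z] ψ) : EqOn φ ψ (U ∩ V) :=
  holP_eqOn (hU.inter hV) (hUc.inter hVc).isPreconnected (hφ.1.mono inter_subset_left)
    (hψ.1.mono inter_subset_right) ⟨hzU, hzV⟩ he

/-- extension of solutions -/
theorem exists_ext [Finite κ] (hF : ∀ j, IsForm (F j)) (hσ : ∀ j, SymForm F (m j) (σ j))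
    (hm : ∀ j, 0 < m j) (him : Immersive F σ) {h : κ → ℂ → ℂ} (hL : LocOK m h) (c : ℂ) (R : ℝ) :
    ∃ ρ : ℝ, 0 < ρ ∧ ∀ (r : ℝ), 0 < r → r ≤ R → ∀ φ : ℂ → Mat (n + 1),
    Sl F σ h (ball c r) φ → ∃ ψ : ℂ → Mat (n + 1), Sl F σ h (ball c (r + ρ)) ψ ∧
      EqOn ψ φ (ball c r) := by
  obtain ⟨ρ, hρ, hloc⟩ := hL.uniform hF hσ hm him c R
  refine ⟨ρ / 4, by positivity, fun r hr hrR φ hφ => ?_⟩
  have h1 : ∀ b : ℂ, ∃ ψ : ℂ → Mat (n + 1), b ∈ ball c r → (∃ j, h j b ≠ 0) →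
      Sl F σ h (ball b ρ) ψ ∧ φ =ᶠ[𝓝 b] ψ := by
    intro b
    by_cases hb : b ∈ ball c r ∧ ∃ j, h j b ≠ 0
    · obtain ⟨hb, hbj⟩ := hb
      obtain ⟨i, hi⟩ := PM.exists_diag (hφ.1.mem_PM hb)
      obtain ⟨i', Γ, N, hN, -, h2⟩ := hloc b (ball_subset_closedBall (ball_subset_ball hrR hb)) hbj
        i _ (hφ.2 b hb i hi)
      obtain ⟨h3, h4, -⟩ := h2 _ (mem_of_mem_nhds hN) (ball c r) φ isOpen_ball hb hφ hi rfl
      exact ⟨_, fun _ _ => ⟨h3, h4.symm⟩⟩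
    · exact ⟨φ, fun h h' => absurd ⟨h, h'⟩ hb⟩
  choose ψ hψ using h1
  set q : ℝ := r / (r + ρ / 4) with hq
  have hq0 : 0 < q := by positivity
  have hqr : q * (r + ρ / 4) = r := by rw [hq]; field_simp
  have hq1 : q ≤ 1 := by
    rw [hq, div_le_one (by positivity)]
    linarith
  set β : ℂ → ℂ := fun w => c + (q : ℂ) * (w - c) with hβ
  have hβr : ∀ w ∈ ball c (r + ρ / 4), β w ∈ ball c r := by
    intro w hw
    rw [mem_ball_iff_norm] at hw ⊢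
    rw [hβ]
    simp only [add_sub_cancel_left]
    rw [norm_mul, Complex.norm_real, Real.norm_of_nonneg hq0.le, ← hqr]
    exact mul_lt_mul_of_pos_left hw hq0
  have hβw : ∀ w ∈ ball c (r + ρ / 4), ‖w - β w‖ < ρ / 4 := by
    intro w hw
    rw [mem_ball_iff_norm] at hw
    have h2 : w - β w = ((1 - q : ℝ) : ℂ) * (w - c) := by rw [hβ]; push_cast; ring
    rw [h2, norm_mul, Complex.norm_real, Real.norm_of_nonneg (by linarith)]
    have h3 : (1 - q) * (r + ρ / 4) = ρ / 4 := by linarith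
    rw [← h3]
    have h4 : 0 < 1 - q := by
      by_contra h5
      have h6 : 1 - q = 0 := by linarith
      rw [h6] at h3
      linarith
    exact mul_lt_mul_of_pos_left hw h4
  have hβl : ∀ w w', ‖β w - β w'‖ ≤ ‖w - w'‖ := by
    intro w w'
    have h2 : β w - β w' = (q : ℂ) * (w - w') := by rw [hβ]; ring
    rw [h2, norm_mul, Complex.norm_real, Real.norm_of_nonneg hq0.le]
    nlinarith [norm_nonneg (w - w')]
  -- points near `β w` where `h` does not vanish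
  have hB : ∀ w, ∃ b : ℂ, w ∈ ball c (r + ρ / 4) → b ∈ ball c r ∧ (∃ j, h j b ≠ 0) ∧
      ‖b - β w‖ < ρ / 8 := by
    intro w
    by_cases hw : w ∈ ball c (r + ρ / 4)
    · obtain ⟨b, hb1, hb2⟩ := hL.dense.exists_mem_open
        (isOpen_ball.inter (isOpen_ball (x := β w) (ε := ρ / 8)))
        (⟨β w, hβr w hw, mem_ball_self (by positivity)⟩ :
          (ball c r ∩ ball (β w) (ρ / 8)).Nonempty)
      exact ⟨b, fun _ => ⟨hb2.1, hb1, mem_ball_iff_norm.1 hb2.2⟩⟩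
    · exact ⟨0, fun h => absurd h hw⟩
  choose B hB using hB
  have hφψ : ∀ b ∈ ball c r, (∃ j, h j b ≠ 0) → EqOn φ (ψ b) (ball c r ∩ ball b ρ) := by
    intro b hb hbj
    obtain ⟨h2, h3⟩ := hψ b hb hbj
    exact sl_eqOn isOpen_ball isOpen_ball (convex_ball _ _) (convex_ball _ _) hφ h2 hb
      (mem_ball_self hρ) h3
  have hψψ : ∀ b ∈ ball c r, (∃ j, h j b ≠ 0) → ∀ b' ∈ ball c r, (∃ j, h j b' ≠ 0) →
      ‖b - b'‖ < ρ → EqOn (ψ b) (ψ b') (ball b ρ ∩ ball b' ρ) := by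
    intro b hb hbj b' hb' hbj' hbb
    obtain ⟨h2, h3⟩ := hψ b hb hbj
    obtain ⟨h2', -⟩ := hψ b' hb' hbj'
    have hbm : b ∈ ball b' ρ := mem_ball_iff_norm.2 hbb
    refine sl_eqOn isOpen_ball isOpen_ball (convex_ball _ _) (convex_ball _ _) h2 h2'
      (mem_ball_self hρ) hbm ?_
    have h4 : φ =ᶠ[𝓝 b] ψ b' := by
      filter_upwards [(isOpen_ball.inter isOpen_ball).mem_nhds
        (⟨hb, hbm⟩ : b ∈ ball c r ∩ ball b' ρ)] with w hw
      exact hφψ b' hb' hbj' hw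
    exact h3.symm.trans h4
  have hwB : ∀ w ∈ ball c (r + ρ / 4), ‖w - B w‖ < 3 * ρ / 8 := by
    intro w hw
    obtain ⟨-, -, h2⟩ := hB w hw
    calc ‖w - B w‖ = ‖(w - β w) + (β w - B w)‖ := by ring_nf
      _ ≤ ‖w - β w‖ + ‖β w - B w‖ := norm_add_le _ _
      _ < ρ / 4 + ρ / 8 := by
        rw [norm_sub_rev (β w)]
        exact add_lt_add (hβw w hw) h2
      _ = 3 * ρ / 8 := by ring
  refine ⟨fun w => ψ (B w) w, sl_of_germs fun w0 hw0 => ?_, fun w hw => ?_⟩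
  · obtain ⟨hb0, hbj0, hbβ0⟩ := hB w0 hw0
    refine ⟨ball (B w0) ρ, ψ (B w0), ?_, (hψ _ hb0 hbj0).1, ?_⟩
    · exact mem_ball_iff_norm.2 ((hwB w0 hw0).trans (by linarith))
    · filter_upwards [isOpen_ball.mem_nhds hw0, ball_mem_nhds w0 (by positivity : 0 < ρ / 8)]
        with w hw hw1
      obtain ⟨hb, hbj, hbβ⟩ := hB w hw
      have hw2 : ‖w - w0‖ < ρ / 8 := mem_ball_iff_norm.1 hw1
      refine hψψ _ hb hbj _ hb0 hbj0 ?_ ⟨?_, ?_⟩
      · calc ‖B w - B w0‖ = ‖(B w - β w) + (β w - β w0) + (β w0 - B w0)‖ := by ring_nf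
          _ ≤ ‖B w - β w‖ + ‖β w - β w0‖ + ‖β w0 - B w0‖ := norm_add₃_le
          _ < ρ := by
            have h2 := hβl w w0
            rw [norm_sub_rev (β w0)]
            linarith
      · exact mem_ball_iff_norm.2 ((hwB w hw).trans (by linarith))
      · rw [mem_ball_iff_norm]
        calc ‖w - B w0‖ = ‖(w - w0) + (w0 - B w0)‖ := by ring_nf
          _ ≤ ‖w - w0‖ + ‖w0 - B w0‖ := norm_add_le _ _
          _ < ρ / 8 + 3 * ρ / 8 := add_lt_add hw2 (hwB w0 hw0)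
          _ ≤ ρ := by linarith
  · have hw' : w ∈ ball c (r + ρ / 4) := ball_subset_ball (by linarith) hw
    obtain ⟨hb, hbj, -⟩ := hB w hw'
    refine (hφψ _ hb hbj ⟨hw, ?_⟩).symm
    exact mem_ball_iff_norm.2 ((hwB w hw').trans (by linarith))

/-- **Global solutions** -/
theorem exists_glob [Finite κ] (hF : ∀ j, IsForm (F j)) (hσ : ∀ j, SymForm F (m j) (σ j))
    (hm : ∀ j, 0 < m j) (him : Immersive F σ) {h : κ → ℂ → ℂ} (hL : LocOK m h) {c : ℂ} {r0 : ℝ}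
    (hr0 : 0 < r0) {φ : ℂ → Mat (n + 1)} (hφ : Sl F σ h (ball c r0) φ) :
    ∃ ψ : ℂ → Mat (n + 1), Sl F σ h univ ψ ∧ ψ =ᶠ[𝓝 c] φ := by
  have h2 : ∀ R : ℝ, ∃ ψ : ℂ → Mat (n + 1), 0 < R → Sl F σ h (ball c R) ψ ∧ ψ =ᶠ[𝓝 c] φ := by
    intro R
    by_cases hR : 0 < R
    swap
    · exact ⟨φ, fun h => absurd h hR⟩
    obtain ⟨ρ, hρ, hext⟩ := exists_ext hF hσ hm him hL c R
    have h1 : ∀ n : ℕ, ∃ ψ, Sl F σ h (ball c (min (r0 + n * ρ) R)) ψ ∧ ψ =ᶠ[𝓝 c] φ := by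
      intro n
      induction n with
      | zero =>
        refine ⟨φ, hφ.mono (ball_subset_ball ?_), Filter.EventuallyEq.rfl⟩
        rw [Nat.cast_zero, zero_mul, add_zero]
        exact min_le_left _ _
      | succ n ih =>
        obtain ⟨ψ, hψ, hψφ⟩ := ih
        have hr : 0 < min (r0 + n * ρ) R := lt_min (by positivity) hR
        obtain ⟨ψ', hψ', he⟩ := hext _ hr (min_le_right _ _) ψ hψ
        refine ⟨ψ', hψ'.mono (ball_subset_ball ?_), ?_⟩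
        · push_cast
          rcases le_total (r0 + n * ρ) R with h3 | h3
          · rw [min_eq_left h3]
            exact (min_le_left _ _).trans (by linarith)
          · rw [min_eq_right h3]
            exact (min_le_right _ _).trans (by linarith)
        · refine Filter.EventuallyEq.trans ?_ hψφ
          filter_upwards [ball_mem_nhds c hr] with w hw
          exact he hw
    obtain ⟨n, hn⟩ := exists_nat_ge (R / ρ)
    obtain ⟨ψ, hψ, hψφ⟩ := h1 n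
    refine ⟨ψ, fun _ => ⟨hψ.mono (ball_subset_ball ?_), hψφ⟩⟩
    rw [div_le_iff₀ hρ] at hn
    exact le_min (by linarith) le_rfl
  choose Φ hΦ using h2
  have h3 : ∀ R R' : ℝ, 0 < R → 0 < R' → EqOn (Φ R) (Φ R') (ball c R ∩ ball c R') := by
    intro R R' hR hR'
    exact sl_eqOn isOpen_ball isOpen_ball (convex_ball _ _) (convex_ball _ _) (hΦ R hR).1
      (hΦ R' hR').1 (mem_ball_self hR) (mem_ball_self hR') ((hΦ R hR).2.trans (hΦ R' hR').2.symm)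
  have h4 : ∀ z0 : ℂ, (fun w => Φ (‖w - c‖ + 1) w) =ᶠ[𝓝 z0] Φ (‖z0 - c‖ + 1) := by
    intro z0
    filter_upwards [isOpen_ball.mem_nhds (mem_ball_iff_norm.2 (by linarith :
      ‖z0 - c‖ < ‖z0 - c‖ + 1))] with w hw
    exact h3 _ _ (by positivity) (by positivity) ⟨mem_ball_iff_norm.2 (by linarith), hw⟩
  have h5 : (fun w => Φ (‖w - c‖ + 1) w) =ᶠ[𝓝 c] φ := (h4 c).trans (hΦ _ (by positivity)).2
  exact ⟨fun w => Φ (‖w - c‖ + 1) w, sl_of_germs fun z0 _ => ⟨ball c (‖z0 - c‖ + 1),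
    Φ (‖z0 - c‖ + 1), mem_ball_iff_norm.2 (by linarith), (hΦ _ (by positivity)).1, h4 z0⟩, h5⟩

/-- propagation of holomorphy -/
theorem propagate {h : κ → ℂ → ℂ} {b : ℂ} {ρ : ℝ} (hρ : 0 < ρ) (hLF : LF F σ h b ρ)
    {y : ℂ → ℂ → Mat (n + 1)} {s0 : ℂ} {k : Fin (n + 1)}
    (hy : ∀ᶠ s in 𝓝 s0, Sl F σ h univ (y s))
    (hk : ∀ᶠ s in 𝓝 s0, y s b k k ≠ 0 ∧ DifferentiableAt ℂ (fun s => pr k (y s) b) s) :
    ∀ z ∈ ball b ρ, ∀ i, y s0 z i i ≠ 0 → Good y z s0 i := by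
  intro z hz i hi
  have hy0 := hy.self_of_nhds
  obtain ⟨hk0, hd0⟩ := hk.self_of_nhds
  obtain ⟨i', Γ, N, hN, hΓd, hΓ⟩ := hLF k _ (hy0.2 b (mem_univ b) k hk0)
  set st : ℂ → Fin (n + 1) ⊕ Fin (n + 1) → ℂ := fun s => pr k (y s) b with hst
  have hev : ∀ᶠ s in 𝓝 s0, Sl F σ h univ (y s) ∧ y s b k k ≠ 0 ∧ DifferentiableAt ℂ st s ∧
      st s ∈ N := by
    filter_upwards [hy, hk, hd0.continuousAt.eventually_mem hN] with s h1 h2 h3
    exact ⟨h1, h2.1, h2.2, h3⟩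
  obtain ⟨V, hVs, hV, hsV⟩ := _root_.mem_nhds_iff.1 hev
  have key : ∀ s ∈ V, ∀ w ∈ ball b ρ, y s w i' i' ≠ 0 ∧ pr i' (y s) w = Γ (st s) w := by
    intro s hs
    obtain ⟨h1, h2, h3, h4⟩ := hVs hs
    obtain ⟨h5, h6, h7⟩ := hΓ (st s) h4 univ (y s) isOpen_univ (mem_univ b) h1 h2 rfl
    have h12 := sl_eqOn isOpen_univ isOpen_ball convex_univ (convex_ball _ _) h1 h5 (mem_univ b)
      (mem_ball_self hρ) h6.symm
    intro w hw
    have h13 : y s =ᶠ[𝓝 w] fun z => Phi (Γ (st s) z ∘ Sum.inl) := by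
      filter_upwards [isOpen_ball.mem_nhds hw] with x hx
      exact h12 ⟨mem_univ x, hx⟩
    obtain ⟨h14, h15⟩ := h7 w hw
    refine ⟨?_, ?_⟩
    · rw [h13.eq_of_nhds]
      exact h14
    · rw [pr_congr h13, h15]
  have hgood : Good y z s0 i' := by
    have hO : (ball b ρ ×ˢ V : Set (ℂ × ℂ)) ∈ 𝓝 (z, s0) :=
      (isOpen_ball.prod hV).mem_nhds ⟨hz, hsV⟩
    have hO' : ∀ᶠ p : ℂ × ℂ in 𝓝 (z, s0), ∀ᶠ q in 𝓝 p, q ∈ ball b ρ ×ˢ V :=
      Filter.Eventually.eventually_nhds hO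
    filter_upwards [hO'] with p hp
    have hp0 := hp.self_of_nhds
    refine ⟨(key p.2 hp0.2 p.1 hp0.1).1, ?_⟩
    have h1 : (fun p : ℂ × ℂ => pr i' (y p.2) p.1) =ᶠ[𝓝 p] fun p => Γ (st p.2) p.1 := by
      filter_upwards [hp] with q hq
      exact (key q.2 hq.2 q.1 hq.1).2
    refine DifferentiableAt.congr_of_eventuallyEq ?_ h1
    obtain ⟨-, -, h4, h5⟩ := hVs hp0.2
    have h6 := hΓd (st p.2) h5 p.1 hp0.1
    have h7 : DifferentiableAt ℂ (fun q : ℂ × ℂ => (st q.2, q.1)) p := by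
      refine DifferentiableAt.prodMk ?_ (by fun_prop)
      exact DifferentiableAt.comp (g := st) (f := fun q : ℂ × ℂ => q.2) p h4 differentiableAt_snd
    exact DifferentiableAt.comp (g := fun q : (Fin (n + 1) ⊕ Fin (n + 1) → ℂ) × ℂ => Γ q.1 q.2)
      (f := fun q : ℂ × ℂ => (st q.2, q.1)) p h6 h7
  exact hgood.change (hy.mono fun s hs => hs.1) hi

theorem good_all [Finite κ] (hF : ∀ j, IsForm (F j)) (hσ : ∀ j, SymForm F (m j) (σ j))
    (hm : ∀ j, 0 < m j) (him : Immersive F σ) {h : κ → ℂ → ℂ} (hL : LocOK m h) {c : ℂ}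
    (hc : ∃ j, h j c ≠ 0) {y : ℂ → ℂ → Mat (n + 1)} {s0 : ℂ} {k : Fin (n + 1)}
    (hy : ∀ᶠ s in 𝓝 s0, Sl F σ h univ (y s))
    (hk : ∀ᶠ s in 𝓝 s0, y s c k k ≠ 0 ∧ DifferentiableAt ℂ (fun s => pr k (y s) c) s) (z : ℂ)
    (i : Fin (n + 1)) (hi : y s0 z i i ≠ 0) : Good y z s0 i := by
  set R : ℝ := ‖z - c‖ + 1 with hR
  obtain ⟨ρ, hρ, hloc⟩ := hL.uniform hF hσ hm him c R
  have hR0 : 0 < R := by positivity
  have hstep : ∀ n : ℕ, ∀ z ∈ ball c (ρ * (n + 1) / 2) ∩ ball c R, ∀ i, y s0 z i i ≠ 0 →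
      Good y z s0 i := by
    intro n
    induction n with
    | zero =>
      intro z hz i hi
      refine propagate hρ (hloc c (mem_closedBall_self hR0.le) hc) hy hk z
        (ball_subset_ball ?_ hz.1) i hi
      push_cast
      linarith
    | succ n ih =>
      intro z hz i hi
      set q : ℝ := ((n : ℝ) + 1) / (n + 2) with hq
      have hq0 : 0 < q := by positivity
      have hq1 : q < 1 := by
        rw [hq, div_lt_one (by positivity)]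
        linarith
      set z' : ℂ := c + (q : ℂ) * (z - c) with hz'
      have hz1 := mem_ball_iff_norm.1 hz.1
      have hz2 := mem_ball_iff_norm.1 hz.2
      have hz'c : ‖z' - c‖ = q * ‖z - c‖ := by
        rw [hz', add_sub_cancel_left, norm_mul, Complex.norm_real, Real.norm_of_nonneg hq0.le]
      have hz'1 : z' ∈ ball c (ρ * (n + 1) / 2) := by
        rw [mem_ball_iff_norm, hz'c]
        calc q * ‖z - c‖ < q * (ρ * ((n + 1 : ℕ) + 1) / 2) := mul_lt_mul_of_pos_left hz1 hq0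
          _ = ρ * (n + 1) / 2 := by
              rw [hq]
              push_cast
              field_simp
              ring
      have hz'2 : z' ∈ ball c R := by
        rw [mem_ball_iff_norm, hz'c]
        calc q * ‖z - c‖ ≤ 1 * ‖z - c‖ := by gcongr
          _ < R := by rw [one_mul]; exact hz2
      have hzz' : ‖z - z'‖ < ρ / 2 := by
        have h1 : z - z' = ((1 - q : ℝ) : ℂ) * (z - c) := by rw [hz']; push_cast; ring
        rw [h1, norm_mul, Complex.norm_real, Real.norm_of_nonneg (by linarith)]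
        calc (1 - q) * ‖z - c‖ < (1 - q) * (ρ * ((n + 1 : ℕ) + 1) / 2) :=
              mul_lt_mul_of_pos_left hz1 (by linarith)
          _ = ρ / 2 := by
              rw [hq]
              push_cast
              field_simp
              ring
      obtain ⟨b, hb1, ⟨hb2, hb3⟩, hb4⟩ := hL.dense.exists_mem_open
        ((isOpen_ball.inter isOpen_ball).inter (isOpen_ball (x := z') (ε := ρ / 2)))
        (⟨z', ⟨hz'1, hz'2⟩, mem_ball_self (by positivity)⟩ :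
          ((ball c (ρ * (n + 1) / 2) ∩ ball c R) ∩ ball z' (ρ / 2)).Nonempty)
      have hzb : z ∈ ball b ρ := by
        rw [mem_ball_iff_norm]
        have h1 := mem_ball_iff_norm.1 hb4
        calc ‖z - b‖ = ‖(z - z') + (z' - b)‖ := by ring_nf
          _ ≤ ‖z - z'‖ + ‖z' - b‖ := norm_add_le _ _
          _ < ρ / 2 + ρ / 2 := by
            rw [norm_sub_rev z' b]
            exact add_lt_add hzz' h1
          _ = ρ := by ring
      obtain ⟨k', hk'⟩ := PM.exists_diag (hy.self_of_nhds.1.mem_PM (mem_univ b))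
      have h2 := ih b ⟨hb2, hb3⟩ k' hk'
      exact propagate hρ (hloc b (ball_subset_closedBall hb3) hb1) hy (good_slice h2) z hzb i hi
  obtain ⟨n, hn⟩ := exists_nat_gt (2 * ‖z - c‖ / ρ)
  refine hstep n z ⟨?_, ?_⟩ i hi
  · rw [mem_ball_iff_norm]
    rw [div_lt_iff₀ hρ] at hn
    have : ρ * (n + 1) / 2 = (n * ρ) / 2 + ρ / 2 := by ring
    rw [this]
    linarith
  · rw [mem_ball_iff_norm, hR]
    linarith

end Run7.h418.E
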