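import Pool.Agent.Run7.h418.E.Out
import Pool.Agent.Run7.h418.E.SpDefs
import Pool.Agent.Run7.h418.U.Fin
import Pool.Agent.Run7.h418.Z.Thm

/-!
Entire curves in varieties with an immersive family of symmetric differentials: the theorems.
-/

set_option autoImplicit false

open MvPolynomial Metric Set Filter Topology LinearAlgebra.Projectivization

namespace Run7.h418.E

open Pool.Agent.Y190.OP Pool.Agent.W602.GT Pool.Agent.N155 Pool.Agent.TH182.TC Run7.h418.Z

/-- the pieces -/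
structure Hyps : Prop where
  p1 : P1
  p2 : P2
  p3 : P3
  c1 : C1
  c2 : C2
  c3 : C3
  c4 : C4
  a1 : A1
  a2 : A2
  a3 : A3
  a4 : A4
  d1 : D1

section cur

variable {n : ℕ} {ι : Type} {F : ι → MvPolynomial (Fin (n + 1)) ℂ} {p : ℂ → PS n}
  {K : Type} [Field K] [Algebra ℂ K] {w : ℕ} {y : Fin (n + 1) → K} {i0 : Fin (n + 1)}

theorem diag_rep (z : ℂ) (i : Fin (n + 1)) :
    Phi (p z).rep i i ≠ 0 ↔ (p z).rep i ≠ 0 := Phi_diag_ne (p z).rep_nonzero

theorem pr_rep {z : ℂ} (hz : (p z).rep i0 ≠ 0) :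
    pr i0 (fun z => Phi (p z).rep) z ∘ Sum.inl = ((p z).rep i0)⁻¹ • (p z).rep := by
  funext k
  change chart i0 (Phi (p z).rep) k = _
  rw [chart_Phi (p z).rep_nonzero hz]

theorem eval_hmg_rep {z : ℂ} (hz : (p z).rep i0 ≠ 0) (G : MvPolynomial (Fin (n + 1)) ℂ) :
    eval (pr i0 (fun z => Phi (p z).rep) z ∘ Sum.inl) G = 0 ↔
      eval (p z).rep (U.hmg i0 G) = 0 := by
  have h1 : (pr i0 (fun z => Phi (p z).rep) z ∘ Sum.inl) i0 = 1 := by
    rw [pr_rep hz, Pi.smul_apply, smul_eq_mul, inv_mul_cancel₀ hz]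
  rw [← U.eval_hmg h1]
  rw [pr_rep hz]
  obtain ⟨d, hd⟩ := U.isForm_hmg i0 G
  rw [eval_hom hd, mul_eq_zero]
  exact ⟨fun h => h.resolve_left (pow_ne_zero _ (inv_ne_zero hz)), Or.inr⟩

theorem closure_ne (hcl : IsClosure F p K w y) (hi0 : y i0 ≠ 0) : ∃ z, (p z).rep i0 ≠ 0 := by
  by_contra hcon
  push Not at hcon
  have h1 : val y (X i0 : MvPolynomial (Fin (n + 1)) ℂ) = 0 :=
    (hcl.2 _ ⟨1, isHomogeneous_X _ _⟩).2 fun z => by rw [eval_X]; exact hcon z
  unfold val at h1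
  rw [aeval_X] at h1
  exact hi0 h1

theorem closure_ker (hcl : IsClosure F p K w y) (hi0 : y i0 ≠ 0)
    (G : MvPolynomial (Fin (n + 1)) ℂ) :
    aeval (fun k => (y i0)⁻¹ * y k) G = 0 ↔ ∀ z, Phi (p z).rep i0 i0 ≠ 0 →
      eval (pr i0 (fun z => Phi (p z).rep) z ∘ Sum.inl) G = 0 := by
  have hinv : (y i0)⁻¹ ≠ 0 := inv_ne_zero hi0
  have h1 : (fun k => (y i0)⁻¹ * y k) i0 = 1 := inv_mul_cancel₀ hi0
  have hX : (X i0 : MvPolynomial (Fin (n + 1)) ℂ).IsHomogeneous 1 := isHomogeneous_X _ _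
  obtain ⟨d, hd⟩ := U.isForm_hmg i0 G
  rw [← U.aeval_hmg h1]
  have h2 := R.val_smul_iff (y := y) hinv (U.isForm_hmg i0 G)
  have h3 : aeval (fun k => (y i0)⁻¹ * y k) (U.hmg i0 G) = 0 ↔ val y (U.hmg i0 G) = 0 := h2
  rw [h3]
  constructor
  · intro h4 z hz
    rw [eval_hmg_rep ((diag_rep z i0).1 hz)]
    exact (hcl.2 _ ⟨d, hd⟩).1 h4 z
  · intro h4
    have h5 : val y (X i0 * U.hmg i0 G) = 0 := by
      refine (hcl.2 _ ⟨1 + d, hX.mul hd⟩).2 fun z => ?_
      rw [map_mul, eval_X]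
      by_cases hz : (p z).rep i0 = 0
      · rw [hz, zero_mul]
      · rw [(eval_hmg_rep hz G).1 (h4 z ((diag_rep z i0).2 hz)), mul_zero]
    have h6 : val y (X i0 * U.hmg i0 G) = y i0 * val y (U.hmg i0 G) := by
      unfold val
      rw [map_mul, aeval_X]
    rw [h6] at h5
    exact (mul_eq_zero.1 h5).resolve_left hi0

/-- the closure of a nonconstant curve has positive dimension -/
theorem closure_pos (hcl : IsClosure F p K w y) (hne : ∃ z w, p z ≠ p w) : 0 < w := by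
  rcases Nat.eq_zero_or_pos w with h0 | h0
  · exfalso
    subst h0
    obtain ⟨i0, hi0⟩ := Function.ne_iff.1 hcl.1.ne
    rw [Pi.zero_apply] at hi0
    have hdim : Algebra.trdeg ℂ K = 0 := by
      rw [hcl.1.dim]
      exact Nat.cast_zero
    have halg : Algebra.IsAlgebraic ℂ K := trdeg_eq_zero_iff.1 hdim
    have hc : ∀ k, ∃ c : ℂ, y k = algebraMap ℂ K c * y i0 := by
      intro k
      have h1 : Algebra.IsIntegral ℂ K := Algebra.isAlgebraic_iff_isIntegral.1 halg
      obtain ⟨c, hc⟩ := (IsAlgClosed.algebraMap_bijective_of_isIntegral (k := ℂ) (K := K)).2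
        (y k / y i0)
      exact ⟨c, by rw [hc, div_mul_cancel₀ _ hi0]⟩
    choose c hc using hc
    have hv : ∀ k z, (p z).rep k = c k * (p z).rep i0 := by
      intro k z
      have h1 : (X k - C (c k) * X i0 : MvPolynomial (Fin (n + 1)) ℂ).IsHomogeneous 1 := by
        refine (isHomogeneous_X _ _).sub ?_
        have := (isHomogeneous_C (Fin (n + 1)) (c k)).mul (isHomogeneous_X ℂ i0)
        simpa using this
      have h2 : val y (X k - C (c k) * X i0 : MvPolynomial (Fin (n + 1)) ℂ) = 0 := by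
        unfold val
        rw [map_sub, map_mul, aeval_X, aeval_X, aeval_C, ← hc k, sub_self]
      have h3 := (hcl.2 _ ⟨1, h1⟩).1 h2 z
      rw [map_sub, map_mul, eval_X, eval_X, eval_C, sub_eq_zero] at h3
      exact h3
    obtain ⟨z, z', hzz⟩ := hne
    apply hzz
    have hi : ∀ z, (p z).rep i0 ≠ 0 := by
      intro z hz
      apply (p z).rep_nonzero
      funext k
      rw [hv k z, hz, mul_zero]
      rfl
    rw [← (p z).mk_rep, ← (p z').mk_rep, Projectivization.mk_eq_mk_iff']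
    refine ⟨(p z).rep i0 / (p z').rep i0, ?_⟩
    funext k
    rw [Pi.smul_apply, smul_eq_mul, hv k z, hv k z']
    have := hi z'
    field_simp
  · exact h0

end cur

section thm

variable {n : ℕ} {ι κ : Type} {F : ι → MvPolynomial (Fin (n + 1)) ℂ}
  {σ : κ → (Fin (n + 1) → ℂ) → (Fin (n + 1) → ℂ) → ℂ} {p : ℂ → PS n}

/-- **The Zariski closure of an entire curve is not of general type.** -/
theorem closure_not_general (Hy : Hyps) [Finite κ] (hF : ∀ i, IsForm (F i)) {m : κ → ℕ}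
    (hm : ∀ j, 0 < m j) (hσ : ∀ j, SymForm F (m j) (σ j)) (him : Immersive F σ)
    (hp : HolMap p) (hpF : ∀ z, (p z).rep ∈ Cone F) (hne : ∃ z w, p z ≠ p w)
    {K : Type} [Field K] [Algebra ℂ K] {w : ℕ} {y : Fin (n + 1) → K}
    (hcl : IsClosure F p K w y) : 0 < w ∧ ¬ GeneralType ℂ K w := by
  refine ⟨closure_pos hcl hne, ?_⟩
  obtain ⟨i0, hi0⟩ := Function.ne_iff.1 hcl.1.ne
  rw [Pi.zero_apply] at hi0
  have hinv : (y i0)⁻¹ ≠ 0 := inv_ne_zero hi0
  obtain ⟨z1, hz1⟩ := closure_ne hcl hi0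
  refine not_general_curve (φ := fun z => Phi (p z).rep) (i0 := i0)
    (y := fun k => (y i0)⁻¹ * y k) Hy.p1 Hy.p2 Hy.p3 Hy.c1 Hy.c2 Hy.c3 Hy.c4 Hy.a1 Hy.a2 Hy.a3
    Hy.a4 Hy.d1 hF hσ hm him (holP_map hp) (fun z => ⟨_, hpF z, rfl⟩) ?_
    ⟨z1, (diag_rep z1 i0).2 hz1⟩ (inv_mul_cancel₀ hi0) ((R.coords_smul hinv).trans hcl.1.gen)
    (closure_ker hcl hi0)
  intro h
  obtain ⟨z, z', hzz⟩ := hne
  exact hzz (proj_eq ((h z).trans (h z').symm))

/-- existence of the closure -/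
theorem exists_closure (hF : ∀ i, IsForm (F i)) (hp : HolMap p)
    (hpF : ∀ z, (p z).rep ∈ Cone F) :
    ∃ (K : Type) (_ : Field K) (_ : Algebra ℂ K) (w : ℕ) (y : Fin (n + 1) → K),
      IsClosure F p K w y := by
  set φ : ℂ → Mat (n + 1) := fun z => Phi (p z).rep with hφd
  have hφ : HolP univ φ := holP_map hp
  obtain ⟨i, hi⟩ := Function.ne_iff.1 (p 0).rep_nonzero
  rw [Pi.zero_apply] at hi
  have hi0 : ∃ z, φ z i i ≠ 0 := ⟨0, (diag_rep 0 i).2 hi⟩
  have hS : DSt Ent := hEnt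
  obtain ⟨M, i1, i2, e, hM⟩ := exists_fz hS hφ hi0
  set y : Fin (n + 1) → M := fun k => e (X (Sum.inl (Sum.inl k))) with hy
  have hev : ∀ G : MvPolynomial (Fin (n + 1)) ℂ, aeval y G =
      e (rename (fun k : Fin (n + 1) => (Sum.inl (Sum.inl k) :
        (Fin (n + 1) ⊕ Fin (n + 1)) ⊕ Ent)) G) := by
    intro G
    have h3 : (aeval y : MvPolynomial (Fin (n + 1)) ℂ →ₐ[ℂ] M) =
        e.comp (rename (fun k : Fin (n + 1) => (Sum.inl (Sum.inl k) :
          (Fin (n + 1) ⊕ Fin (n + 1)) ⊕ Ent))) := by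
      refine algHom_ext fun k => ?_
      rw [aeval_X, AlgHom.comp_apply, rename_X]
    exact DFunLike.congr_fun h3 G
  have hker : ∀ G : MvPolynomial (Fin (n + 1)) ℂ, aeval y G = 0 ↔
      ∀ z, φ z i i ≠ 0 → eval (pr i φ z ∘ Sum.inl) G = 0 := by
    intro G
    rw [hev, hM.ker, mem_Rlt]
    refine forall_congr' fun z => forall_congr' fun hz => ?_
    rw [eval_rename]
    exact Iff.rfl
  have hyi : y i = 1 := by
    have h1 : aeval y (X i - 1 : MvPolynomial (Fin (n + 1)) ℂ) = 0 := by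
      rw [hker]
      intro z hz
      rw [map_sub, eval_X, map_one, pr_rep ((diag_rep z i).1 hz), Pi.smul_apply, smul_eq_mul,
        inv_mul_cancel₀ ((diag_rep z i).1 hz), sub_self]
    rw [map_sub, aeval_X, map_one, sub_eq_zero] at h1
    exact h1
  have hyi0 : y i ≠ 0 := by
    rw [hyi]
    exact one_ne_zero
  have hval : ∀ H : MvPolynomial (Fin (n + 1)) ℂ, IsForm H →
      (val y H = 0 ↔ ∀ z, eval (p z).rep H = 0) := by
    intro H hH
    obtain ⟨d, hd⟩ := hH
    have h1 : val y H = 0 ↔ ∀ z, φ z i i ≠ 0 → eval (pr i φ z ∘ Sum.inl) H = 0 := hker H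
    rw [h1]
    constructor
    · intro h2
      have h3 : ∀ z, (p z).rep i ≠ 0 → eval (p z).rep H = 0 := by
        intro z hz
        have h4 := h2 z ((diag_rep z i).2 hz)
        rw [pr_rep hz, eval_hom hd, mul_eq_zero] at h4
        exact h4.resolve_left (pow_ne_zero _ (inv_ne_zero hz))
      obtain ⟨E, hE, hE0, hEφ⟩ := zero_free hφ
      have h5 : ∀ z, ∃ c : ℂ, c ≠ 0 ∧ (p z).rep = c • E z := by
        intro z
        obtain ⟨c, hc, hc'⟩ := Phi_inj (hE0 z) (p z).rep_nonzero (hEφ z).symm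
        exact ⟨c, hc, hc'⟩
      have h6 : Differentiable ℂ fun z => eval (E z) H := by
        intro z
        exact (hasDerivAt_eval' (fun l => ((differentiable_pi.1 hE l) z).hasDerivAt)
          H).differentiableAt
      have h7 : ∀ z, eval (E z) H = 0 := by
        refine fun z => entire_zero h6 (z0 := 0) ?_ z
        have h8 : E 0 i ≠ 0 := by
          obtain ⟨c, hc, hc'⟩ := h5 0
          intro h9
          apply hi
          rw [hc', Pi.smul_apply, h9, smul_zero]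
        filter_upwards [(differentiable_pi.1 hE i).continuous.continuousAt.eventually_ne h8]
          with z hz
        obtain ⟨c, hc, hc'⟩ := h5 z
        have h9 := h3 z (by
          rw [hc', Pi.smul_apply, smul_eq_mul]
          exact mul_ne_zero hc hz)
        rw [hc', eval_hom hd, mul_eq_zero] at h9
        exact h9.resolve_left (pow_ne_zero _ hc)
      intro z
      obtain ⟨c, hc, hc'⟩ := h5 z
      rw [hc', eval_hom hd, h7, mul_zero]
    · intro h2 z hz
      rw [pr_rep ((diag_rep z i).1 hz), eval_hom hd, h2, mul_zero]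
  have hmem : ∀ e, val y (F e) = 0 := fun e => (hval _ (hF e)).2 fun z => by
    rw [← val_ev]
    exact (hpF z).2 e
  obtain ⟨y', hy'i, hy'F, hy'gen, hy'G⟩ := Pool.Agent.W602.GT.repr
    (F := fun G : {G : MvPolynomial (Fin (n + 1)) ℂ // IsForm G ∧ val y G = 0} => G.1)
    (fun G => G.2.1) y hyi0 fun G => G.2.2
  have hval' : ∀ H : MvPolynomial (Fin (n + 1)) ℂ, IsForm H →
      (val y' H = 0 ↔ ∀ z, eval (p z).rep H = 0) := by
    intro H hH
    rw [← hval H hH]
    exact ⟨hy'G H hH, fun h6 => hy'F ⟨H, hH, h6⟩⟩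
  have hfin : Algebra.EssFiniteType ℂ (coords ℂ y) := by
    rw [IntermediateField.essFiniteType_iff]
    refine IntermediateField.fg_adjoin_of_finite ?_
    refine (Set.finite_range fun p : Fin (n + 1) × Fin (n + 1) => y p.1 / y p.2).subset ?_
    rintro x ⟨a, b, -, rfl⟩
    exact ⟨(a, b), rfl⟩
  obtain ⟨w', hw'⟩ := Cardinal.lt_aleph0.1 (trdeg_lt_aleph0 ℂ (coords ℂ y))
  have hsub : SubVar F (coords ℂ y) w' y' := ⟨fun h0 => by
    rw [h0] at hy'i
    exact zero_ne_one hy'i, fun e => hy'F ⟨F e, hF e, hmem e⟩, hy'gen, hw'⟩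
  exact ⟨_, _, _, w', y', hsub, hval'⟩

/-- a closed subvariety of general type does not contain a dense entire curve -/
theorem van_of_general (Hy : Hyps) [Finite κ] (hF : ∀ i, IsForm (F i)) {m : κ → ℕ}
    (hm : ∀ j, 0 < m j) (hσ : ∀ j, SymForm F (m j) (σ j)) (him : Immersive F σ)
    {K : Type} [Field K] [Algebra ℂ K] {w : ℕ} {y : Fin (n + 1) → K} (hy : SubVar F K w y)
    (hgt : GeneralType ℂ K w) (hp : HolMap p) (hpV : ∀ z, (p z).rep ∈ VarPts ℂ y)
    (hne : ∃ z w, p z ≠ p w) :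
    ∃ G : MvPolynomial (Fin (n + 1)) ℂ, IsForm G ∧ val y G ≠ 0 ∧ Van p G := by
  by_contra hcon
  push Not at hcon
  have hpF : ∀ z, (p z).rep ∈ Cone F := fun z =>
    ⟨(hpV z).1, fun i => (hpV z).2 (F i) (hF i) (hy.mem i)⟩
  have hcl : IsClosure F p K w y := ⟨hy, fun G hG => ⟨fun h0 z => by
    rw [← val_ev]
    exact (hpV z).2 G hG h0, fun h0 => by
    by_contra h1
    exact hcon G hG h1 h0⟩⟩
  exact (closure_not_general Hy hF hm hσ him hp hpF hne hcl).2 hgt

variable [Fintype κ] {m : ℕ}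

/-- a form which vanishes on all tori in `V` vanishes on all entire curves in `V` -/
theorem van_of_torus (Hy : Hyps) (hF : ∀ i, IsForm (F i)) (hm : 0 < m)
    (hσ : ∀ j, SymForm F m (σ j)) (hgen : Generates F m σ)
    {G : MvPolynomial (Fin (n + 1)) ℂ} (hG : IsForm G)
    (hp : HolMap p) (hpF : ∀ z, (p z).rep ∈ Cone F) (hne : ∃ z w, p z ≠ p w)
    (hT : ∀ (q : ℕ) (b : Module.Basis (Fin (2 * q)) ℝ (Fin q → ℂ)) (g : (Fin q → ℂ) → PS n),
      Holo g → (∀ H : MvPolynomial (Fin (n + 1)) ℂ, IsForm H → Van p H →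
        ∀ t, eval (g t).rep H = 0) → (∀ t i, g (t + b i) = g t) → (∃ t t', g t ≠ g t') →
          ∀ t, eval (g t).rep G = 0) : Van p G := by
  obtain ⟨K, i1, i2, w, y, hcl⟩ := exists_closure hF hp hpF
  obtain ⟨hw, hgt⟩ := closure_not_general Hy hF (fun _ => hm) hσ
    (R.immersive_of_generates hm hσ hgen) hp hpF hne hcl
  by_contra hcon
  have hG0 : val y G ≠ 0 := fun h0 => hcon ((hcl.2 G hG).1 h0)
  obtain ⟨q, b, g, hq, h1, h2, h3, t, ht⟩ := R.exists_torus hm hσ hgen hcl.1 hF hw hgt hG hG0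
  refine ht (hT q b g (R.holo_of_imm h1) (fun H hH hHp t => ?_) h3 (R.immAt_ne hq h1) t)
  rw [← val_ev]
  exact (h2 t).2 H hH ((hcl.2 H hH).2 hHp)

/-- **The Green-Griffiths-Lang conjecture** for subvarieties of varieties with symmetric
differentials which generate a symmetric power of the cotangent sheaf. -/
theorem general_iff_brody (Hy : Hyps) (hF : ∀ i, IsForm (F i)) (hm : 0 < m)
    (hσ : ∀ j, SymForm F m (σ j)) (hgen : Generates F m σ) {K : Type} [Field K] [Algebra ℂ K]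
    {w : ℕ} {y : Fin (n + 1) → K} (hw : 0 < w) (hy : SubVar F K w y) :
    GeneralType ℂ K w ↔ PseudoBrody y := by
  constructor
  · intro hgt
    obtain ⟨G, hG, hG0, hGT⟩ := (U.general_iff_torus hF hm hσ hgen hw hy).1 hgt
    refine ⟨G, hG, hG0, fun p hp hpV hne => ?_⟩
    refine van_of_torus Hy hF hm hσ hgen hG hp
      (fun z => ⟨(hpV z).1, fun i => (hpV z).2 (F i) (hF i) (hy.mem i)⟩) hne
      fun q b g hg hH hper hgne t => hGT q b g hg (fun t => ⟨(g t).rep_nonzero, fun H hH' h0 => ?_⟩)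
        hper hgne t
    rw [val_ev]
    refine hH H hH' (fun z => ?_) t
    rw [← val_ev]
    exact (hpV z).2 H hH' h0
  · intro h
    exact (U.general_iff_bounded hF hm hσ hgen hw hy).2 (R.pseudoBounded_of_brody h)

/-- the special set given by entire curves is the special set given by tori -/
theorem spEnt_eq (Hy : Hyps) (hF : ∀ i, IsForm (F i)) (hm : 0 < m)
    (hσ : ∀ j, SymForm F m (σ j)) (hgen : Generates F m σ) : SpEnt F = SpTor F := by
  ext x
  refine and_congr_right fun _ => forall_congr' fun G => forall_congr' fun hG => ?_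
  refine imp_congr_left ⟨fun h => ?_, fun h p hp hpF hne => ?_⟩
  · exact fun q b g hg hX hper hne t => R.van_torus (fun p hp _ hpF hne => h p hp hpF hne) hg hX
      hper hne t
  · refine van_of_torus Hy hF hm hσ hgen hG hp hpF hne fun q b g hg hH hper hgne t =>
      h q b g hg (fun t i => ?_) hper hgne t
    refine hH (F i) (hF i) (fun z => ?_) t
    rw [← val_ev]
    exact (hpF z).2 i

end thm

end Run7.h418.E
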