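import Pool.Agent.Run7.h418.E.Dsv

/-!
The infinitesimal deformations are small.
-/

set_option autoImplicit false

open Metric Set Filter Topology Real MvPolynomial

namespace Run7.h418.E

open Pool.Agent.Y190.OP Pool.Agent.W602.GT Pool.Agent.N155

variable {n : ℕ} {ι κ : Type} {F : ι → MvPolynomial (Fin (n + 1)) ℂ}
  {σ : κ → (Fin (n + 1) → ℂ) → (Fin (n + 1) → ℂ) → ℂ} {m : κ → ℕ} {g : κ → ℂ → ℂ}
  {φ : ℂ → Mat (n + 1)} {G : ℂ → Fin (n + 1) → ℂ} {T : ℝ → ℝ} {r0 : ℝ} {hT : Grw T r0}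

theorem Nv.av_le [Fintype κ] (h : Nv m g φ G T r0 hT) (hm : ∀ j, 0 < m j)
    (hg : ∀ j, Differentiable ℂ (g j)) : ∃ C : ℝ, 0 ≤ C ∧ ∀ r ∈ Rd T r0, ∀ ρ,
      r + 1 / (4 * T r) ≤ ρ → ρ ≤ r + 1 / (2 * T r) →
        av ρ (fun z => Hs m (fun j => g j z)) ≤ C * T r ^ 3 := by
  obtain ⟨C, hC, h1⟩ := h.hs
  refine ⟨8 * C, by positivity, fun r hr ρ hρ1 hρ2 => ?_⟩
  set q : ℂ → ℝ := fun z => Hs m (fun j => g j z) with hq
  have hT1 : 1 ≤ T r := hT.one_le hr.1
  have hT0 : 0 < T r := by linarith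
  have hr0' : 0 < r := by linarith [hr.1, hT.one]
  have hρ0 : 0 < ρ := by
    have : 0 < 1 / (4 * T r) := by positivity
    linarith
  have hρR : ρ < r + 1 / T r := by
    have : 1 / (2 * T r) < 1 / T r := by
      apply one_div_lt_one_div_of_lt hT0
      linarith
    linarith
  have h2 := h1 ρ (r + 1 / T r) hρ0 hρR
  have h3 : T (r + 1 / T r) ≤ 2 * T r := hr.2
  have h4 : 1 / (2 * T r) ≤ r + 1 / T r - ρ := by
    have : 1 / T r = 1 / (2 * T r) + 1 / (2 * T r) := by field_simp; norm_num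
    linarith
  have h6 : 0 ≤ av ρ q := by
    have h1 := av_mono hρ0.le (f := fun _ => (0 : ℝ)) (g := q) continuousOn_const
      (Hs_cont hm hg).continuousOn fun z _ => Hs_nonneg _
    rwa [av_const] at h1
  have h5 : (1 / (2 * T r)) ^ 2 * av ρ q ≤ (r + 1 / T r - ρ) ^ 2 * av ρ q := by
    gcongr
  have h6 : (1 / (2 * T r)) ^ 2 * av ρ q ≤ C * (2 * T r) :=
    (h5.trans h2).trans (mul_le_mul_of_nonneg_left h3 hC)
  have h7 : (1 / (2 * T r)) ^ 2 * av ρ q = av ρ q / (4 * T r ^ 2) := by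
    ring
  rw [h7, div_le_iff₀ (by positivity)] at h6
  calc av ρ q ≤ C * (2 * T r) * (4 * T r ^ 2) := h6
    _ = 8 * C * T r ^ 3 := by ring

theorem tr_nonneg {N : ℕ} (hN : 0 < N) {ε R : ℝ} (hε : 0 < ε) (hεR : ε < R) {ψ : ℂ → Mat N}
    (hψ : HolP (ball 0 R) ψ) {Λ : ℂ → Fin N → ℂ} (hΛ : IsLift (ball 0 R) ψ Λ) : 0 ≤ tr ε Λ := by
  have h1 := a_le hε hεR hψ hΛ (β := fun _ => 0) (differentiableOn_const _) (K := 1)
    (fun s _ i _ _ => by rw [norm_zero]; positivity)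
  have hN' : (0 : ℝ) < N := by exact_mod_cast hN
  rw [norm_zero] at h1
  have h2 : 8 * (N : ℝ) * 1 ^ 2 * tr ε Λ = (8 * N) * tr ε Λ := by ring
  rw [h2] at h1
  have h3 : ε ^ 2 * (0 : ℝ) ^ 2 = 0 := by ring
  rw [h3] at h1
  exact nonneg_of_mul_nonneg_right h1 (by positivity)

theorem rpow_bd {x A M : ℝ} {k : ℕ} (hx : 0 ≤ x) (hA : 0 ≤ A) (hM : 0 ≤ M)
    (h : x ^ 2 ≤ A * M ^ (k + 1)) :
    x ^ (2 / ((k : ℝ) + 1)) ≤ A ^ (1 / ((k : ℝ) + 1)) * M := by
  have hk : (0 : ℝ) < (k : ℝ) + 1 := by positivity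
  have h1 : (x ^ 2) ^ (1 / ((k : ℝ) + 1)) ≤ (A * M ^ (k + 1)) ^ (1 / ((k : ℝ) + 1)) :=
    Real.rpow_le_rpow (by positivity) h (by positivity)
  rw [← Real.rpow_natCast x 2, ← Real.rpow_mul hx, Real.mul_rpow hA (by positivity),
    ← Real.rpow_natCast M (k + 1), ← Real.rpow_mul hM] at h1
  have e1 : ((2 : ℕ) : ℝ) * (1 / ((k : ℝ) + 1)) = 2 / ((k : ℝ) + 1) := by push_cast; ring
  have e2 : ((k + 1 : ℕ) : ℝ) * (1 / ((k : ℝ) + 1)) = 1 := by
    push_cast
    field_simp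
  rw [e1, e2, Real.rpow_one] at h1
  exact h1

theorem sm_ds [Fintype κ] (p1 : P1) (p2 : P2) (hσ : ∀ j, SymForm F (m j) (σ j))
    (hm : ∀ j, 0 < m j) (him : Immersive F σ) (hg : ∀ j, Differentiable ℂ (g j))
    (h : Nv m g φ G T r0 hT) {y : ℂ → ℂ → Mat (n + 1)} {ε0 : ℝ} (hε0 : 0 < ε0)
    (hy : ∀ s ∈ ball (0 : ℂ) ε0, Sl F σ g univ (y s))
    (hgd : ∀ s ∈ ball (0 : ℂ) ε0, ∀ z i, y s z i i ≠ 0 → Good y z s i) (hy0 : y 0 = φ) (j : κ) :
    ∃ a ∈ Sm hT, ∀ z i, φ z i i ≠ 0 → a z = ds σ j (pr i φ z) (bet y i z 0) := by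
  have h0ε : (0 : ℂ) ∈ ball (0 : ℂ) ε0 := mem_ball_self hε0
  set ε : ℝ := ε0 / 2 with hε
  have hεp : 0 < ε := by positivity
  have hεε : ε < ε0 := by linarith
  have hyH : ∀ s ∈ ball (0 : ℂ) ε0, HolP univ (y s) := fun s hs => (hy s hs).1
  obtain ⟨e, hec, heL, heX⟩ := exists_energy p1 p2 hεp hεε hyH hgd
  obtain ⟨Cu, hCu, hup⟩ := uppk (F := F) hσ hm him
  obtain ⟨cl, hcl, hlow⟩ := lowk (F := F) hσ hm
  obtain ⟨K, hK0, hK⟩ := ds_le (F := F) hσ hm him j
  obtain ⟨A, hAz, hAs, hA⟩ := exists_dsv hσ hy hgd j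
  obtain ⟨Kt, hKt, hTeq⟩ := h.eq
  obtain ⟨Cq, hCq, havq⟩ := h.av_le hm hg
  set q : ℂ → ℝ := fun z => Hs m (fun j => g j z) with hq
  have hqc : Continuous q := Hs_cont hm hg
  have hq0 : ∀ z, 0 ≤ q z := fun z => Hs_nonneg _
  set N : ℝ := ((n + 1 : ℕ) : ℝ) with hN
  have hN0 : 0 < N := by rw [hN]; exact_mod_cast Nat.succ_pos n
  have hφH : HolP univ φ := hy0 ▸ hyH 0 h0ε
  have hGL : IsLift univ φ G := ⟨h.gd.differentiableOn, fun z _ => ⟨h.g0 z, h.lift z⟩⟩
  have hlgc : Continuous fun z => lg (G z) := lg_cont hGL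
  have hsgq : ∀ s ∈ ball (0 : ℂ) ε0, ∀ z i, y s z i i ≠ 0 →
      Hs m (fun j => sg σ j (pr i (y s) z)) = q z := by
    intro s hs z i hi
    have h3 : (fun j => sg σ j (pr i (y s) z)) = fun j => g j z :=
      funext fun j => ((hy s hs).2 z (mem_univ z) i hi).2 j
    rw [h3]
  -- the excess of `e`
  set C' : ℝ := 8 * N ^ 2 * Cu / cl with hC'
  have hC'0 : 0 < C' := by positivity
  have hexc : Exc (fun _ => 0) (fun z => C' * lg (G z) - e z) := by
    intro η hη z0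
    obtain ⟨δ1, hδ1, h1⟩ := heX z0
    obtain ⟨δ2, hδ2, h2⟩ := upp_loc hεε hyH hgd (k := fun z => Cu * q z)
      (fun z => mul_nonneg hCu.le (hq0 z)) (by fun_prop) (fun s hs z i hi hiK => by
        have h3 := hup i _ ((hy s hs).2 z (mem_univ z) i hi).1 hiK
        rw [hsgq s hs z i hi] at h3
        exact h3) (η := η / N) (by positivity) z0
    obtain ⟨δ3, hδ3, h3⟩ := low_exc hφH hGL (k := fun z => cl * q z) (fun z i hi hiK => by
      have h4 := hsgq 0 h0ε z i (by rw [hy0]; exact hi)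
      rw [hy0] at h4
      have h5 := (hy 0 h0ε).2 z (mem_univ z) i (by rw [hy0]; exact hi)
      rw [hy0] at h5
      have h6 := hlow i _ h5.1 hiK
      rw [h4] at h6
      exact h6) z0
    refine ⟨min (min δ1 δ2) δ3, lt_min (lt_min hδ1 hδ2) hδ3, fun z hz δ hδ hδ' => ?_⟩
    have q1 : min (min δ1 δ2) δ3 ≤ δ1 := (min_le_left _ _).trans (min_le_left _ _)
    have q2 : min (min δ1 δ2) δ3 ≤ δ2 := (min_le_left _ _).trans (min_le_right _ _)
    have q3 : min (min δ1 δ2) δ3 ≤ δ3 := min_le_right _ _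
    obtain ⟨c1, e1⟩ := h1 z (ball_subset_ball q1 hz) δ hδ (hδ'.trans_le q1)
    have e2 := h2 z (ball_subset_ball q2 hz)
    have e3 := h3 z (ball_subset_ball q3 hz) δ hδ (hδ'.trans_le q3)
    have e4 : av ε (fun s => Tr δ (fun w => y s (z + w))) ≤ N * (Cu * q z + η / N) * δ ^ 2 := by
      have h5 := av_mono hεp.le c1 (continuousOn_const (c := N * (Cu * q z + η / N) * δ ^ 2))
        fun s hs => e2 s (sphere_subset_closedBall hs) δ hδ (hδ'.trans_le q2)
      rwa [av_const] at h5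
    have e5 : Tr δ (fun w => y 0 (z + w)) = ex (fun z => lg (G z)) z δ := by
      rw [hy0]
      have hL : IsLift univ (fun w => φ (z + w)) (fun w => G (z + w)) :=
        isLift_shift hGL fun _ _ => mem_univ _
      rw [Tr_eq hδ.le (hL.holP isOpen_univ) isOpen_univ (subset_univ _) hL, tr_shift]
    have e6 : cl * q z * δ ^ 2 ≤ 8 * N * ex (fun z => lg (G z)) z δ := e3
    have e7 : 0 ≤ ex (fun z => lg (G z)) z δ := by
      have h5 : 0 ≤ cl * q z * δ ^ 2 := mul_nonneg (mul_nonneg hcl.le (hq0 z)) (by positivity)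
      exact nonneg_of_mul_nonneg_right (h5.trans e6) (by positivity)
    rw [ex_sub (g := fun z => C' * lg (G z)) hδ.le
      (continuous_const.mul (hlgc.comp (continuous_const.add continuous_id))).continuousOn
      (by fun_prop), ex_mul, e1, e5]
    have e8 : N * Cu * q z * δ ^ 2 ≤ C' * ex (fun z => lg (G z)) z δ := by
      have h5 : N * Cu * q z * δ ^ 2 = (N * Cu / cl) * (cl * q z * δ ^ 2) := by field_simp
      have h6 : C' * ex (fun z => lg (G z)) z δ =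
          (N * Cu / cl) * (8 * N * ex (fun z => lg (G z)) z δ) := by
        rw [hC']
        ring
      rw [h5, h6]
      exact mul_le_mul_of_nonneg_left e6 (by positivity)
    have e9 : N * (Cu * q z + η / N) * δ ^ 2 = N * Cu * q z * δ ^ 2 + η * δ ^ 2 := by
      field_simp
    rw [e9] at e4
    linarith
  have have' : ∀ ρ : ℝ, 0 ≤ ρ → av ρ e ≤ e 0 + C' / Kt * T ρ := by
    intro ρ hρ
    have h1 := mono_av (g := fun z => C' * lg (G z) - e z) (by fun_prop) hexc le_rfl hρ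
    rw [av_eq_ro le_rfl, Complex.ofReal_zero, ro_zero,
      av_sub (f := fun z => C' * lg (G z)) hρ (continuous_const.mul hlgc).continuousOn
        (by fun_prop), av_mul] at h1
    have h2 : C' / Kt * T ρ = C' * av ρ (fun z => lg (G z)) - C' * lg (G 0) := by
      rw [hTeq ρ]
      field_simp
    rw [h2]
    linarith
  -- the bound
  have he0 : ∀ z, 0 ≤ e z := by
    intro z
    obtain ⟨R, Λ, hR1, hR2, hΛ, hez⟩ := heL z
    rw [hez]
    exact tr_nonneg (Nat.succ_pos n) hεp hR1 (hΛ.holP isOpen_ball) hΛ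
  set A0 : ℝ := 8 * N * K ^ 2 / ε ^ 2 with hA0
  have hA00 : 0 ≤ A0 := by positivity
  have hb : ∀ z, ‖A z 0‖ ^ 2 ≤ A0 * (q z + 1 + e z) ^ (m j + 1) := by
    intro z
    obtain ⟨R, Λ, hR1, hR2, hΛ, hez⟩ := heL z
    have hbR : ball (0 : ℂ) R ⊆ ball 0 ε0 := ball_subset_ball hR2
    set H : ℝ := Real.sqrt (q z + 1) with hH
    have hH2 : H ^ 2 = q z + 1 := Real.sq_sqrt (by have := hq0 z; linarith)
    have hH1 : 1 ≤ H := by
      rw [hH, Real.one_le_sqrt]
      have := hq0 z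
      linarith
    have hH0 : 0 < H := by linarith
    have h1 := a_le (K := K * H ^ m j) hεp hR1 (hΛ.holP isOpen_ball) hΛ (β := fun s => A z s)
      ((hAs z).mono hbR) (by
        intro s hs i hi hiK
        have hs' := hbR hs
        have hi' : y s z i i ≠ 0 := hi
        have hE := (hy s hs').2 z (mem_univ z) i hi'
        have hy' : ∀ᶠ t in 𝓝 s, Sl F σ g univ (y t) := by
          filter_upwards [isOpen_ball.mem_nhds hs'] with t ht
          exact hy t ht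
        obtain ⟨hT1, hT2⟩ := bet_Tan hy' (hgd s hs' z i hi')
        have h2 := hK i _ hE.1 hiK _ hT1 hT2 H hH0 (by
          rw [hsgq s hs' z i hi', hH2]
          linarith)
        rw [← hA s hs' z i hi'] at h2
        have h3 : bet y i z s = deriv (fun s => chart i (y s z)) s := by
          have hd := (good_slice (hgd s hs' z i hi')).self_of_nhds.2
          have h4 : HasDerivAt (fun s => chart i (y s z)) (bet y i z s) s :=
            hasDerivAt_pi.2 fun k => (differentiableAt_pi.1 hd (Sum.inl k)).hasDerivAt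
          exact h4.deriv.symm
        rw [h3] at h2
        have h5 : ‖A z s‖ ≤ H * ‖A z s‖ := by
          have := norm_nonneg (A z s)
          nlinarith
        exact h5.trans h2)
    have h2 : ‖A z 0‖ ^ 2 ≤ A0 * (H ^ (2 * m j) * e z) := by
      have h3 : ε ^ 2 * ‖A z 0‖ ^ 2 ≤ 8 * N * (K * H ^ m j) ^ 2 * e z := by
        rw [hez]
        exact h1
      have h4 : A0 * (H ^ (2 * m j) * e z) = (8 * N * (K * H ^ m j) ^ 2 * e z) / ε ^ 2 := by
        rw [hA0]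
        ring
      rw [h4, le_div_iff₀ (by positivity)]
      linarith
    refine h2.trans (mul_le_mul_of_nonneg_left ?_ hA00)
    rw [pow_mul, hH2, pow_succ]
    have h3 := hq0 z
    have h4 := he0 z
    have h5 : (q z + 1) ^ m j ≤ (q z + 1 + e z) ^ m j := by
      apply pow_le_pow_left₀ (by linarith)
      linarith
    exact mul_le_mul h5 (by linarith) h4 (by positivity)
  set p : ℝ := 2 / ((m j : ℝ) + 1) with hp
  have hp0 : 0 < p := by positivity
  set B : ℝ := A0 ^ (1 / ((m j : ℝ) + 1)) with hB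
  have hB0 : 0 ≤ B := Real.rpow_nonneg hA00 _
  have hbp : ∀ z, ‖A z 0‖ ^ p ≤ B * (q z + 1 + e z) := fun z =>
    rpow_bd (norm_nonneg _) hA00 (by have := hq0 z; have := he0 z; positivity) (hb z)
  refine ⟨fun z => A z 0, ?_, fun z i hi => ?_⟩
  swap
  · have h1 := hA 0 h0ε z i (by rw [hy0]; exact hi)
    rw [hy0] at h1
    exact h1
  refine sm_of_mean (p := p) (C := B * (Cq + 1 + e 0 + C' / Kt * 2)) (hAz 0 h0ε) hp0
    fun r hr ρ hρ1 hρ2 => ?_
  have hT1 : 1 ≤ T r := hT.one_le hr.1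
  have hT0 : 0 < T r := by linarith
  have hr0' : 0 < r := by linarith [hr.1, hT.one]
  have hρr : r ≤ ρ := by
    have : 0 < 1 / (4 * T r) := by positivity
    linarith
  have hρ0 : 0 < ρ := by linarith
  have hρR : ρ ≤ r + 1 / T r := by
    have : 1 / (2 * T r) ≤ 1 / T r := by
      apply one_div_le_one_div_of_le hT0
      linarith
    linarith
  have h1 : av ρ (fun z => ‖A z 0‖ ^ p) ≤ av ρ (fun z => B * (q z + 1 + e z)) := by
    refine av_mono hρ0.le (hp_cont (hAz 0 h0ε) hp0).continuousOn (by fun_prop) fun z _ => hbp z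
  rw [av_mul, av_add (f := fun z => q z + 1) hρ0.le (by fun_prop) (by fun_prop),
    av_add (f := q) hρ0.le (by fun_prop) continuousOn_const, av_const] at h1
  refine h1.trans ?_
  rw [mul_assoc]
  refine mul_le_mul_of_nonneg_left ?_ hB0
  have h2 := havq r hr ρ hρ1 hρ2
  have h3 := have' ρ hρ0.le
  have h4 : T ρ ≤ 2 * T r := (hT.mono _ _ (hr.1.trans hρr) hρR).trans hr.2
  have h5 : C' / Kt * T ρ ≤ C' / Kt * (2 * T r) := mul_le_mul_of_nonneg_left h4 (by positivity)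
  have h6 : T r ≤ T r ^ 3 := le_self_pow₀ hT1 (by norm_num)
  have h7 : 1 ≤ T r ^ 3 := one_le_pow₀ hT1
  have h8 : C' / Kt * (2 * T r) ≤ C' / Kt * 2 * T r ^ 3 := by
    rw [← mul_assoc]
    exact mul_le_mul_of_nonneg_left h6 (by positivity)
  have h9 : e 0 ≤ e 0 * T r ^ 3 := le_mul_of_one_le_right (he0 0) h7
  have h10 : (Cq + 1 + e 0 + C' / Kt * 2) * T r ^ 3 = Cq * T r ^ 3 + T r ^ 3 + e 0 * T r ^ 3 +
      C' / Kt * 2 * T r ^ 3 := by ring
  rw [h10]
  linarith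

end Run7.h418.E
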