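import Pool.Agent.Run7.h418.E.Ext

/-!
The values of the symmetric differentials along an entire curve.
-/

set_option autoImplicit false

open Metric Set Filter Topology MvPolynomial

namespace Run7.h418.E

open Pool.Agent.Y190.OP Pool.Agent.W602.GT Pool.Agent.N155

variable {n : ℕ} {ι κ : Type} {F : ι → MvPolynomial (Fin (n + 1)) ℂ}
  {σ : κ → (Fin (n + 1) → ℂ) → (Fin (n + 1) → ℂ) → ℂ} {m : κ → ℕ}

theorem exists_h (hF : ∀ j, IsForm (F j)) (hσ : ∀ j, SymForm F (m j) (σ j))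
    {φ : ℂ → Mat (n + 1)} (h : HolP univ φ) (hT : ∀ z, φ z ∈ TF F) :
    ∃ g : κ → ℂ → ℂ, (∀ j, Differentiable ℂ (g j)) ∧ Sl F σ g univ φ := by
  choose ix hix hixK using fun z => exists_max (h.mem_PM (mem_univ z))
  have hTg : ∀ z i, φ z i i ≠ 0 → pr i φ z ∈ Tg F i := fun z i hi =>
    pr_Tg hF isOpen_univ h (fun z _ => hT z) (mem_univ z) hi
  have hs : ∀ j z i, φ z i i ≠ 0 → sg σ j (pr i φ z) = sg σ j (pr (ix z) φ z) := by
    intro j z i hi
    obtain ⟨h1, h2⟩ := pr_cc isOpen_univ h (mem_univ z) (hix z) hi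
    rw [h2]
    exact sg_cc hσ (hTg z _ (hix z)) h1 j
  refine ⟨fun j z => sg σ j (pr (ix z) φ z), fun j => ?_, h, fun z _ i hi => ⟨hTg z i hi,
    fun j => hs j z i hi⟩⟩
  intro z
  have hi := hix z
  obtain ⟨P, H, hH, hrep⟩ := sg_rep hσ j (Tg.cone (hTg z _ hi))
  have h3 := analyticAt_eval (γ := fun w => pr (ix z) φ w ∘ Sum.inl)
      (fun l => analyticAt_pr isOpen_univ h (mem_univ z) hi (Sum.inl l)) H
  have h1 : AnalyticAt ℂ (fun w => eval (pr (ix z) φ w) P / eval (pr (ix z) φ w ∘ Sum.inl) H)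
      z := by
    have h2 := analyticAt_eval (γ := fun w => pr (ix z) φ w)
      (fun l => analyticAt_pr isOpen_univ h (mem_univ z) hi l) P
    exact h2.div h3 hH
  refine h1.differentiableAt.congr_of_eventuallyEq ?_
  filter_upwards [h3.continuousAt.eventually_ne hH, ev_diag h (mem_univ z) hi] with w hw hwi
  rw [← hs j w _ hwi]
  have h5 := hTg w _ hwi
  have := hrep _ (Tg.cone h5) hw _ h5.2.2.2
  rwa [Sum.elim_comp_inl_inr] at this

theorem h_ne (hσ : ∀ j, SymForm F (m j) (σ j)) (him : Immersive F σ) {g : κ → ℂ → ℂ}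
    {φ : ℂ → Mat (n + 1)} (h : Sl F σ g univ φ) (hne : ¬ ∀ z, φ z = φ 0) :
    ∃ j z, g j z ≠ 0 := by
  have h1 : ∃ z1, fderiv ℝ φ z1 ≠ 0 := by
    by_contra hcon
    push Not at hcon
    apply hne
    intro z
    exact is_const_of_fderiv_eq_zero (𝕜 := ℝ) (fun w => h.1.differentiableAt (mem_univ w)) hcon z 0
  obtain ⟨z, hz⟩ := h1
  obtain ⟨A, hA, hAb⟩ := norm_der (n + 1)
  obtain ⟨i, hi, hiK⟩ := exists_max (h.1.mem_PM (mem_univ z))
  have h2 := (hAb univ φ isOpen_univ h.1 z (mem_univ z) i hi hiK).1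
  have h3 : deriv (fun w' => chart i (φ w')) z ≠ 0 := by
    intro h0
    rw [h0, norm_zero, mul_zero] at h2
    exact hz (norm_le_zero_iff.1 h2)
  obtain ⟨h4, h5⟩ := h.2 z (mem_univ z) i hi
  obtain ⟨j, hj⟩ := exists_ne_zero hσ him (Tg.cone h4) h4.2.2.2 (not_mult (i := i) h4.1 h4.2.1 h3)
  exact ⟨j, z, fun h6 => hj ((h5 j).trans h6)⟩

theorem sg_zero (hσ : ∀ j, SymForm F (m j) (σ j)) (hm : ∀ j, 0 < m j) {i : Fin (n + 1)}
    {a : Fin (n + 1) ⊕ Fin (n + 1) → ℂ} (ha : a ∈ Tg F i) (h0 : a ∘ Sum.inr = 0) (j : κ) :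
    sg σ j a = 0 := by
  unfold sg
  have h1 := (hσ j).deg _ (Tg.cone ha) (a ∘ Sum.inr) ha.2.2.2 0
  rw [zero_smul, zero_pow (hm j).ne', zero_mul] at h1
  rw [h0]
  exact h1

theorem locOK (hσ : ∀ j, SymForm F (m j) (σ j)) (hm : ∀ j, 0 < m j) (him : Immersive F σ)
    {g : κ → ℂ → ℂ} {φ : ℂ → Mat (n + 1)} (hg : ∀ j, Differentiable ℂ (g j))
    (h : Sl F σ g univ φ) (hne : ∃ j z, g j z ≠ 0) : LocOK m g := by
  intro z1
  obtain ⟨i, hi, hK⟩ := exists_max (h.1.mem_PM (mem_univ z1))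
  set v : ℂ → Fin (n + 1) → ℂ := fun z => pr i φ z ∘ Sum.inr with hv
  set x : ℂ → Fin (n + 1) → ℂ := fun z => pr i φ z ∘ Sum.inl with hx
  have hxa : ∀ l, AnalyticAt ℂ (fun z => x z l) z1 := fun l =>
    analyticAt_pr isOpen_univ h.1 (mem_univ z1) hi (Sum.inl l)
  have hva : AnalyticAt ℂ v z1 := analyticAt_pi_iff.2 fun l =>
    analyticAt_pr isOpen_univ h.1 (mem_univ z1) hi (Sum.inr l)
  have hnz : ¬ ∀ᶠ z in 𝓝 z1, v z = 0 := by
    intro h0
    obtain ⟨j, z, hz⟩ := hne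
    apply hz
    refine entire_zero (hg j) (z0 := z1) ?_ z
    filter_upwards [h0, ev_diag h.1 (mem_univ z1) hi] with w hw hwi
    obtain ⟨h1, h2⟩ := h.2 w (mem_univ w) i hwi
    have h3 : sg σ j (pr i φ w) = g j w := h2 j
    rw [← h3]
    exact sg_zero hσ hm h1 hw j
  obtain ⟨k, vt, hvt, hvt0, hvtv⟩ := hva.exists_eventuallyEq_pow_smul_nonzero_iff.2 hnz
  have hvta : ∀ l, AnalyticAt ℂ (fun z => vt z l) z1 := fun l => analyticAt_pi_iff.1 hvt l
  -- the vectors are tangent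
  have hTp : ∀ᶠ z in 𝓝[≠] z1, Tan F (x z) (vt z) ∧ vt z i = 0 := by
    filter_upwards [mem_nhdsWithin_of_mem_nhds hvtv, mem_nhdsWithin_of_mem_nhds
      (ev_diag h.1 (mem_univ z1) hi), self_mem_nhdsWithin] with z h1 h2 h3
    have h4 : (z - z1) ^ k ≠ 0 := pow_ne_zero _ (sub_ne_zero.2 h3)
    have h5 : vt z = ((z - z1) ^ k)⁻¹ • v z := by
      rw [show v z = (z - z1) ^ k • vt z from h1, smul_smul, inv_mul_cancel₀ h4, one_smul]
    obtain ⟨h6, -⟩ := h.2 z (mem_univ z) i h2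
    rw [h5]
    refine ⟨Tan.smul h6.2.2.2 _, ?_⟩
    have h7 : v z i = 0 := h6.2.1
    rw [Pi.smul_apply, h7, smul_zero]
  have hlim : ∀ (q : ℂ → ℂ), AnalyticAt ℂ q z1 → (∀ᶠ z in 𝓝[≠] z1, q z = 0) → q z1 = 0 := by
    intro q hq h0
    have h1 := hq.continuousAt.tendsto.mono_left (nhdsWithin_le_nhds (s := {z1}ᶜ))
    have h2 : Tendsto q (𝓝[≠] z1) (𝓝 0) := by
      refine (tendsto_const_nhds (x := (0 : ℂ))).congr' ?_
      filter_upwards [h0] with z hz
      exact hz.symm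
    exact tendsto_nhds_unique h1 h2
  have hT1 : Tan F (x z1) (vt z1) := by
    intro e
    refine hlim (fun z => ∑ k, eval (x z) (pderiv k (F e)) * vt z k) ?_ ?_
    · exact Finset.analyticAt_fun_sum _ fun l _ => (analyticAt_eval hxa _).mul (hvta l)
    · filter_upwards [hTp] with z hz
      exact hz.1 e
  have hv1 : vt z1 i = 0 := by
    refine hlim (fun z => vt z i) (hvta i) ?_
    filter_upwards [hTp] with z hz
    exact hz.2
  have hTn : ∀ᶠ z in 𝓝 z1, Tan F (x z) (vt z) := by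
    have h1 := eventually_nhdsWithin_iff.1 hTp
    filter_upwards [h1] with z hz
    by_cases hz1 : z = z1
    · rw [hz1]
      exact hT1
    · exact (hz hz1).1
  obtain ⟨h6, -⟩ := h.2 z1 (mem_univ z1) i hi
  have hrep : ∀ j, ∃ q : ℂ → ℂ, AnalyticAt ℂ q z1 ∧ q z1 = σ j (x z1) (vt z1) ∧
      ∀ᶠ z in 𝓝 z1, g j z = (z - z1) ^ (k * m j) * q z := by
    intro j
    obtain ⟨P, H, hH, hrep⟩ := sg_rep hσ j (Tg.cone h6)
    have a1 : AnalyticAt ℂ (fun z => eval (x z) H) z1 := analyticAt_eval hxa H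
    have a2 : AnalyticAt ℂ (fun z => eval (Sum.elim (x z) (vt z)) P) z1 := by
      refine analyticAt_eval (γ := fun z => Sum.elim (x z) (vt z)) (fun l => ?_) P
      rcases l with l | l
      · exact hxa l
      · exact hvta l
    refine ⟨fun z => eval (Sum.elim (x z) (vt z)) P / eval (x z) H, a2.div a1 hH,
      (hrep _ (Tg.cone h6) hH _ hT1).symm, ?_⟩
    filter_upwards [hTn, hvtv, ev_diag h.1 (mem_univ z1) hi, a1.continuousAt.eventually_ne hH]
      with z t1 t2 t3 t4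
    obtain ⟨t5, t6⟩ := h.2 z (mem_univ z) i t3
    have t7 : sg σ j (pr i φ z) = g j z := t6 j
    rw [← hrep (x z) (Tg.cone t5) t4 _ t1, ← t7]
    unfold sg
    change σ j (x z) (v z) = _
    rw [show v z = (z - z1) ^ k • vt z from t2, (hσ j).deg _ (Tg.cone t5) _ t1, pow_mul]
  choose q hq hq1 hqg using hrep
  refine ⟨k, fun j z => if z = z1 then q j z1 else g j z / (z - z1) ^ (k * m j), fun j z => ?_,
    fun j z => ?_, ?_⟩
  · by_cases hz : z = z1
    · rw [hz]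
      refine (hq j).differentiableAt.congr_of_eventuallyEq ?_
      filter_upwards [hqg j] with w hw
      by_cases hw1 : w = z1
      · rw [if_pos hw1, hw1]
      · rw [if_neg hw1, hw]
        have : (w - z1) ^ (k * m j) ≠ 0 := pow_ne_zero _ (sub_ne_zero.2 hw1)
        field_simp
    · have h1 : (fun z => if z = z1 then q j z1 else g j z / (z - z1) ^ (k * m j)) =ᶠ[𝓝 z]
          fun z => g j z / (z - z1) ^ (k * m j) := by
        filter_upwards [isOpen_ne.mem_nhds hz] with w hw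
        rw [if_neg hw]
      refine DifferentiableAt.congr_of_eventuallyEq ?_ h1
      exact (hg j z).div (by fun_prop) (pow_ne_zero _ (sub_ne_zero.2 hz))
  · by_cases hz : z = z1
    · simp only [hz, if_true]
      exact (hqg j).self_of_nhds
    · simp only [if_neg hz]
      have : (z - z1) ^ (k * m j) ≠ 0 := pow_ne_zero _ (sub_ne_zero.2 hz)
      field_simp
  · obtain ⟨j, hj⟩ := exists_ne_zero hσ him (Tg.cone h6) hT1 (not_mult (i := i) h6.1 hv1 hvt0)
    refine ⟨j, ?_⟩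
    change (if z1 = z1 then q j z1 else _) ≠ 0
    rw [if_pos rfl, hq1 j]
    exact hj

end Run7.h418.E
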