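import Pool.Agent.Run7.h418.E.Pre
import Pool.Agent.Run7.h418.E.N2
import Pool.Agent.Run7.h418.E.Tilde

/-!
The frame of derivations of the field of a curve.
-/

set_option autoImplicit false

open Metric Set Filter Topology MvPolynomial

namespace Run7.h418.E

open Pool.Agent.Y190.OP Pool.Agent.W602.GT Pool.Agent.N155

variable {n : ℕ} {ι κ τ : Type} {F : ι → MvPolynomial (Fin (n + 1)) ℂ}
  {σ : κ → (Fin (n + 1) → ℂ) → (Fin (n + 1) → ℂ) → ℂ} {m : κ → ℕ} {g : κ → ℂ → ℂ}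
  {φ : ℂ → Mat (n + 1)} {G : ℂ → Fin (n + 1) → ℂ} {T : ℝ → ℝ} {r0 : ℝ} {hT : Grw T r0}
  {i0 : Fin (n + 1)} {M : Type} [Field M] [Algebra ℂ M] {e : Rt n (Sm hT) →ₐ[ℂ] M}

theorem exists_z0 {S : Subalgebra ℂ (ℂ → ℂ)} {e : Rt n S →ₐ[ℂ] M} (hS : DSt S)
    (hφ : HolP univ φ) (hM : Fz S φ i0 e)
    (hi0 : ∃ z, φ z i0 i0 ≠ 0) {h : κ → S} (hne : ∃ j z, (h j).1 z ≠ 0) {q : Rt n S}
    (hq : e q ≠ 0) : ∃ z0, φ z0 i0 i0 ≠ 0 ∧ (∃ j, (h j).1 z0 ≠ 0) ∧
      eval (pt (pr i0 φ z0) z0) q ≠ 0 := by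
  obtain ⟨j, z', hz'⟩ := hne
  obtain ⟨z1, hz1⟩ := hi0
  have hX : e (X (Sum.inr (h j))) ≠ 0 := by
    intro h1
    rw [hM.ker, mem_Rlt] at h1
    apply hz'
    refine entire_zero (hS.diff _ (h j).2) (z0 := z1) ?_ z'
    filter_upwards [ev_diag hφ (mem_univ z1) hz1] with w hw
    have h2 := h1 w hw
    rw [eval_X] at h2
    exact h2
  have hqX : q * X (Sum.inr (h j)) ∉ Rlt S φ i0 := by
    rw [← hM.ker, map_mul]
    exact mul_ne_zero hq hX
  obtain ⟨z0, h1, h2⟩ := (ev_ne_t hS hφ hqX hz1).exists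
  rw [map_mul, eval_X] at h2
  exact ⟨z0, h1, ⟨j, right_ne_zero_of_mul h2⟩, left_ne_zero_of_mul h2⟩

theorem frame_out (p1 : P1) (p2 : P2) [Fintype κ] (hF : ∀ j, IsForm (F j))
    (hσ : ∀ j, SymForm F (m j) (σ j)) (hm : ∀ j, 0 < m j) (him : Immersive F σ)
    (hg : ∀ j, Differentiable ℂ (g j)) (hSl : Sl F σ g univ φ) (hne : ∃ j z, g j z ≠ 0)
    (nv : Nv m g φ G T r0 hT) (hi0 : ∃ z, φ z i0 i0 ≠ 0) (hM : Fz (Sm hT) φ i0 e) {js : τ → κ}
    {P : τ → Rn (n + 1)} {H : τ → MvPolynomial (Fin (n + 1)) ℂ}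
    (hrep : ∀ s, Rep F σ (js s) (P s) (H s))
    (hcov : ∀ x ∈ Cone F, ∀ j, ∃ s, js s = j ∧ eval x (H s) ≠ 0) {d : ℕ}
    {t : Fin d → Fin (n + 1) ⊕ Fin (n + 1)} {q : Rt n (Sm hT)}
    {V : Fin d → Dr ((Fin (n + 1) ⊕ Fin (n + 1)) ⊕ Sm hT)} (hq : e q ≠ 0)
    (hV0 : ∀ b s, V b (X (Sum.inr s)) = 0) (hVI : ∀ b G, e G = 0 → e (V b G) = 0)
    (hVt : ∀ b c, e (V b (X (Sum.inl (t c)))) = if b = c then e q else 0) :
    ∃ (J : Fin d → Derivation ℂ M M) (α : Fin d → κ → Sm hT),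
      (∀ b s, J b (se e s) = 0) ∧
      (Matrix.of fun b c => J b (ce e (t c)) : Matrix (Fin d) (Fin d) M).det ≠ 0 ∧
      ∀ k, ce e (Sum.inl k) ≠ 0 → ∀ s b,
        ∑ l, aeval (ccM k (ce e)) (pderiv (Sum.inr l) (HP (P s) (H s))) *
          J b (ccM k (ce e) (Sum.inl l)) =
        se e (α b (js s)) * aeval (ccM k (ce e) ∘ Sum.inl) (H s ^ 2) := by
  classical
  have hS : DSt (Sm hT) := dst_Sm
  set h : κ → Sm hT := fun j => ⟨g j, nv.sm j⟩ with hh
  have hφ : Sl F σ (fun j => (h j).1) univ φ := hSl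
  have hL : LocOK m fun j => (h j).1 := locOK hσ hm him hg hSl hne
  obtain ⟨z0, hz0, hz0', hqz0⟩ := exists_z0 hS hφ.1 hM hi0 (h := h) hne hq
  have hfm : ∀ b, ∃ y ε ρ, Fm F σ h φ i0 z0 (V b) y ε ρ := fun b =>
    exists_fm hF hσ hm him hS hφ hL hz0 hz0' (hV0 b) fun G hG =>
      (hM.ker _).1 (hVI b G ((hM.ker G).2 hG))
  choose y ε ρ fm using hfm
  have hal : ∀ b j, ∃ a ∈ Sm hT, ∀ z i, φ z i i ≠ 0 → a z = ds σ j (pr i φ z) (bet (y b) i z 0) :=
    fun b j => sm_ds p1 p2 hσ hm him hg nv (fm b).pos (fm b).sl (fm b).good (fm b).zero j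
  choose a haS ha using hal
  have hjb := fun b => exists_jb hS hσ hm him hφ hz0 hz0' (fm b) (a := fun j => ⟨a b j, haS b j⟩)
    (fun j z i hzi => ha b j z i hzi) hrep hcov hM
  choose J qb pb hqb hqp hJs hqe hJ using hjb
  obtain ⟨v, hv⟩ := hM.germ z0 hz0
  refine ⟨J, fun b j => ⟨a b j, haS b j⟩, fun b s => hJs b s, ?_, fun k hk s b => ?_⟩
  · intro hdet
    set Pm : Matrix (Fin d) (Fin d) (Rt n (Sm hT)) := Matrix.of fun b c => pb b (t c) with hPm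
    have h1 : e Pm.det = 0 := by
      have h2 : e Pm.det = (Matrix.of fun b c => e (pb b (t c)) : Matrix (Fin d) (Fin d) M).det := by
        have h3 := AlgHom.map_det e Pm
        rw [h3]
        rfl
      rw [h2]
      have h4 : (Matrix.of fun b c => e (pb b (t c)) : Matrix (Fin d) (Fin d) M) =
          Matrix.diagonal (fun b => e (qb b)) * Matrix.of fun b c => J b (ce e (t c)) := by
        ext b c
        rw [Matrix.diagonal_mul]
        exact (hJ b (t c)).symm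
      rw [h4, Matrix.det_mul, hdet, mul_zero]
    rw [hM.ker, mem_Rlt] at h1
    have h2 := h1 z0 hz0
    have h3 : (eval (pt (S := Sm hT) (pr i0 φ z0) z0)) Pm.det =
        (Matrix.diagonal fun b => eval (pt (S := Sm hT) (pr i0 φ z0) z0) (qb b) *
          eval (pt (S := Sm hT) (pr i0 φ z0) z0) q : Matrix (Fin d) (Fin d) ℂ).det := by
      rw [RingHom.map_det]
      congr 1
      ext b c
      rw [RingHom.mapMatrix_apply, Matrix.map_apply, hPm, Matrix.of_apply, Matrix.diagonal_apply]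
      have h5 := (hqp b).self_of_nhds (t c)
      rw [← h5]
      have h6 : dl (y b) i0 z0 (t c) = eval (pt (S := Sm hT) (pr i0 φ z0) z0)
          (V b (X (Sum.inl (t c)))) := ((fm b).der (t c)).deriv
      rw [h6]
      have h7 : V b (X (Sum.inl (t c))) - (if b = c then q else 0) ∈ Rlt (Sm hT) φ i0 := by
        rw [← hM.ker, map_sub, hVt b c]
        split_ifs
        · exact sub_self _
        · rw [map_zero, sub_self]
      have h8 := h7 z0 hz0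
      rw [map_sub, sub_eq_zero] at h8
      rw [h8]
      split_ifs
      · rfl
      · rw [map_zero, mul_zero]
    rw [h3, Matrix.det_diagonal] at h2
    exact Finset.prod_ne_zero_iff.2 (fun b _ => mul_ne_zero (hqb b) hqz0) h2
  · exact rel_al (a := fun j => ⟨a b j, haS b j⟩) hv hφ hz0 (fm b)
      (germ_dl hv (hqp b) (hqe b) (hJ b)) (fun j z i hzi => ha b j z i hzi) hk (hrep s)

end Run7.h418.E
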