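import Pool.Agent.Run7.h418.E.Hm

/-!
Functions which are small with respect to a growth function.
-/

set_option autoImplicit false

open Metric Set Filter Topology Real

namespace Run7.h418.E

/-- growth functions -/
structure Grw (T : ℝ → ℝ) (r0 : ℝ) : Prop where
  one : 1 ≤ r0
  mono : ∀ r r', r0 ≤ r → r ≤ r' → T r ≤ T r'
  ge : ∀ r, r0 ≤ r → r ≤ T r

/-- radii near which `T` does not grow fast -/
def Rd (T : ℝ → ℝ) (r0 : ℝ) : Set ℝ := {r | r0 ≤ r ∧ T (r + 1 / T r) ≤ 2 * T r}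

section grw

variable {T : ℝ → ℝ} {r0 : ℝ}

theorem Grw.one_le (h : Grw T r0) {r : ℝ} (hr : r0 ≤ r) : 1 ≤ T r :=
  (h.one.trans hr).trans (h.ge r hr)

/-- Borel's lemma -/
theorem Grw.borel (h : Grw T r0) (a : ℝ) : ∃ r ∈ Rd T r0, a ≤ r := by
  by_contra hcon
  push Not at hcon
  set b := max a r0 with hb
  have h1 : ∀ r, b ≤ r → 2 * T r < T (r + 1 / T r) := by
    intro r hr
    by_contra h2
    have h3 := hcon r ⟨(le_max_right _ _).trans hr, not_lt.1 h2⟩
    linarith [le_max_left a r0]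
  -- the sequence
  let s : ℕ → ℝ := fun k => Nat.rec b (fun _ r => r + 1 / T r) k
  have hs : ∀ k, s (k + 1) = s k + 1 / T (s k) := fun k => rfl
  have hb0 : r0 ≤ b := le_max_right _ _
  have h2 : ∀ k, b ≤ s k ∧ 2 ^ k ≤ T (s k) := by
    intro k
    induction k with
    | zero => exact ⟨le_rfl, by rw [pow_zero]; exact h.one_le hb0⟩
    | succ k ih =>
      obtain ⟨i1, i2⟩ := ih
      have hT := h.one_le (hb0.trans i1)
      have h3 := h1 (s k) i1
      rw [hs]
      refine ⟨?_, ?_⟩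
      · have : 0 < 1 / T (s k) := by positivity
        linarith
      · rw [pow_succ]
        linarith
  have h3 : ∀ k, s k ≤ b + 2 - 2 * (1 / 2) ^ k := by
    intro k
    induction k with
    | zero => simp [s]
    | succ k ih =>
      rw [hs]
      have h4 : 1 / T (s k) ≤ (1 / 2) ^ k := by
        rw [one_div_pow]
        exact one_div_le_one_div_of_le (by positivity) (h2 k).2
      rw [pow_succ]
      linarith
  have h4 : ∀ k, T (s k) ≤ T (b + 2) := fun k => by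
    refine h.mono _ _ (hb0.trans (h2 k).1) ((h3 k).trans ?_)
    have : (0 : ℝ) < (1 / 2) ^ k := by positivity
    linarith
  obtain ⟨k, hk⟩ := pow_unbounded_of_one_lt (T (b + 2)) (one_lt_two)
  linarith [(h2 k).2, h4 k]

/-- the condition for smallness -/
def SmN (T : ℝ → ℝ) (r0 : ℝ) (a : ℂ → ℂ) (N : ℕ) : Prop :=
  0 < N ∧ ∀ r ∈ Rd T r0, ∀ z : ℂ, ‖z‖ ≤ r + 1 / (N * T r) → ‖a z‖ ≤ N * T r ^ N

theorem SmN.mono (hT : Grw T r0) {a : ℂ → ℂ} {N M : ℕ} (h : SmN T r0 a N) (hNM : N ≤ M) :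
    SmN T r0 a M := by
  obtain ⟨h1, h2⟩ := h
  refine ⟨h1.trans_le hNM, fun r hr z hz => ?_⟩
  have hT1 := hT.one_le hr.1
  have hN : (0 : ℝ) < N := by exact_mod_cast h1
  have hNM' : (N : ℝ) ≤ M := by exact_mod_cast hNM
  refine (h2 r hr z (hz.trans ?_)).trans ?_
  · gcongr
  · gcongr

/-- the algebra of the small functions -/
noncomputable def Sm (hT : Grw T r0) : Subalgebra ℂ (ℂ → ℂ) where
  carrier := {a | Differentiable ℂ a ∧ ∃ N : ℕ, SmN T r0 a N}
  mul_mem' := by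
    rintro a b ⟨ha, N, hN⟩ ⟨hb, M, hM⟩
    refine ⟨ha.mul hb, N * M + N + M, by have := hN.1; positivity, fun r hr z hz => ?_⟩
    have hT1 := hT.one_le hr.1
    have hN' := hN.mono hT (by nlinarith [hN.1] : N ≤ N * M + N + M)
    have hM' := hM.mono hT (by nlinarith [hN.1] : M ≤ N * M + N + M)
    have hNp : (0 : ℝ) < N := by exact_mod_cast hN.1
    have hMp : (0 : ℝ) < M := by exact_mod_cast hM.1
    have h1 := hN.2 r hr z (hz.trans (by
      gcongr
      have : N ≤ N * M + N + M := by nlinarith [hN.1]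
      exact_mod_cast this))
    have h2 := hM.2 r hr z (hz.trans (by
      gcongr
      have : M ≤ N * M + N + M := by nlinarith [hN.1]
      exact_mod_cast this))
    rw [Pi.mul_apply, norm_mul]
    calc ‖a z‖ * ‖b z‖ ≤ (N * T r ^ N) * (M * T r ^ M) := by gcongr
      _ = (N * M) * T r ^ (N + M) := by rw [pow_add]; ring
      _ ≤ ((N * M + N + M : ℕ) : ℝ) * T r ^ (N * M + N + M) := by
        have h3 : ((N : ℝ) * M) ≤ ((N * M + N + M : ℕ) : ℝ) := by
          push_cast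
          linarith
        have h4 : T r ^ (N + M) ≤ T r ^ (N * M + N + M) := pow_le_pow_right₀ hT1 (by nlinarith)
        exact mul_le_mul h3 h4 (by positivity) (by positivity)
  add_mem' := by
    rintro a b ⟨ha, N, hN⟩ ⟨hb, M, hM⟩
    refine ⟨ha.add hb, N + M, by have := hN.1; positivity, fun r hr z hz => ?_⟩
    have hT1 := hT.one_le hr.1
    have hNp : (0 : ℝ) < N := by exact_mod_cast hN.1
    have hMp : (0 : ℝ) < M := by exact_mod_cast hM.1
    have h1 := hN.2 r hr z (hz.trans (by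
      gcongr
      exact_mod_cast Nat.le_add_right N M))
    have h2 := hM.2 r hr z (hz.trans (by
      gcongr
      exact_mod_cast Nat.le_add_left M N))
    rw [Pi.add_apply]
    calc ‖a z + b z‖ ≤ ‖a z‖ + ‖b z‖ := norm_add_le _ _
      _ ≤ N * T r ^ N + M * T r ^ M := by gcongr
      _ ≤ N * T r ^ (N + M) + M * T r ^ (N + M) := by
        have h5 : T r ^ N ≤ T r ^ (N + M) := pow_le_pow_right₀ hT1 (Nat.le_add_right N M)
        have h6 : T r ^ M ≤ T r ^ (N + M) := pow_le_pow_right₀ hT1 (Nat.le_add_left M N)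
        gcongr
      _ = ((N + M : ℕ) : ℝ) * T r ^ (N + M) := by push_cast; ring
  algebraMap_mem' := by
    intro c
    refine ⟨differentiable_const _, ⌈‖c‖⌉₊ + 1, by positivity, fun r hr z _ => ?_⟩
    have hT1 := hT.one_le hr.1
    have h1 : ‖c‖ ≤ (⌈‖c‖⌉₊ + 1 : ℕ) := by
      push_cast
      linarith [Nat.le_ceil ‖c‖]
    calc ‖(algebraMap ℂ (ℂ → ℂ) c) z‖ = ‖c‖ := rfl
      _ ≤ ((⌈‖c‖⌉₊ + 1 : ℕ) : ℝ) * 1 := by rw [mul_one]; exact h1
      _ ≤ ((⌈‖c‖⌉₊ + 1 : ℕ) : ℝ) * T r ^ (⌈‖c‖⌉₊ + 1) := by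
        gcongr
        exact one_le_pow₀ hT1

theorem mem_Sm {hT : Grw T r0} {a : ℂ → ℂ} :
    a ∈ Sm hT ↔ Differentiable ℂ a ∧ ∃ N : ℕ, SmN T r0 a N := Iff.rfl

/-- derivatives of small functions are small -/
theorem deriv_Sm {hT : Grw T r0} {a : ℂ → ℂ} (ha : a ∈ Sm hT) : deriv a ∈ Sm hT := by
  obtain ⟨had, N, hN⟩ := ha
  refine ⟨had.deriv, 2 * N * N + 2 * N + 1, by positivity, fun r hr z hz => ?_⟩
  have hT1 := hT.one_le hr.1
  have hNp : (0 : ℝ) < N := by exact_mod_cast hN.1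
  have hε : 0 < 1 / (2 * N * T r) := by positivity
  have h1 := Complex.norm_deriv_le_of_forall_mem_sphere_norm_le (f := a) (c := z)
    (R := 1 / (2 * N * T r)) (C := N * T r ^ N) hε had.diffContOnCl (fun w hw => by
      apply hN.2 r hr w
      have h2 : ‖w - z‖ = 1 / (2 * N * T r) := mem_sphere_iff_norm.1 hw
      have h3 : 1 / (((2 * N * N + 2 * N + 1 : ℕ) : ℝ) * T r) ≤ 1 / (2 * N * T r) := by
        gcongr
        push_cast
        nlinarith
      have h4 : 1 / (N * T r) = 1 / (2 * N * T r) + 1 / (2 * N * T r) := by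
        field_simp
        norm_num
      calc ‖w‖ = ‖(w - z) + z‖ := by rw [sub_add_cancel]
        _ ≤ ‖w - z‖ + ‖z‖ := norm_add_le _ _
        _ ≤ r + 1 / (N * T r) := by rw [h4]; linarith)
  refine h1.trans ?_
  have h5 : (N : ℝ) * T r ^ N / (1 / (2 * N * T r)) = (2 * N * N) * T r ^ (N + 1) := by
    rw [pow_succ]
    field_simp
  rw [h5]
  have h6 : (2 * N * N : ℝ) ≤ ((2 * N * N + 2 * N + 1 : ℕ) : ℝ) := by
    push_cast
    nlinarith
  have h7 : T r ^ (N + 1) ≤ T r ^ (2 * N * N + 2 * N + 1) := pow_le_pow_right₀ hT1 (by nlinarith)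
  exact mul_le_mul h6 h7 (by positivity) (by positivity)

theorem root_le {d : ℕ} {b : Fin d → ℂ} {x : ℂ} (h : x ^ d = ∑ i, b i * x ^ (i : ℕ)) :
    ‖x‖ ≤ 1 + ∑ i, ‖b i‖ := by
  by_contra hcon
  push Not at hcon
  have hs : 0 ≤ ∑ i, ‖b i‖ := Finset.sum_nonneg fun _ _ => norm_nonneg _
  have hx : 1 < ‖x‖ := by linarith
  rcases Nat.eq_zero_or_pos d with rfl | hd
  · simp at h
  have h1 : ‖x‖ ^ d ≤ (∑ i, ‖b i‖) * ‖x‖ ^ (d - 1) := by
    calc ‖x‖ ^ d = ‖∑ i, b i * x ^ (i : ℕ)‖ := by rw [← norm_pow, h]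
      _ ≤ ∑ i, ‖b i * x ^ (i : ℕ)‖ := norm_sum_le _ _
      _ ≤ ∑ i, ‖b i‖ * ‖x‖ ^ (d - 1) := by
        refine Finset.sum_le_sum fun i _ => ?_
        rw [norm_mul, norm_pow]
        gcongr
        · exact hx.le
        · have := i.2
          omega
      _ = _ := by rw [Finset.sum_mul]
  have h2 : ‖x‖ ^ d = ‖x‖ * ‖x‖ ^ (d - 1) := by
    rw [← pow_succ']
    congr 1
    omega
  rw [h2] at h1
  have h3 := le_of_mul_le_mul_right h1 (by positivity)
  linarith

/-- entire functions which are integral over the small functions are small -/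
theorem sm_integral {hT : Grw T r0} {a : ℂ → ℂ} (ha : Differentiable ℂ a) {d : ℕ}
    {b : Fin d → ℂ → ℂ} (hb : ∀ i, b i ∈ Sm hT)
    (h : ∀ z, a z ^ d = ∑ i, b i z * a z ^ (i : ℕ)) : a ∈ Sm hT := by
  refine ⟨ha, ?_⟩
  choose hbd N hN using fun i => hb i
  obtain ⟨M, hM⟩ := Finite.exists_le N
  refine ⟨d * (M + 1) + (M + 1), by positivity, fun r hr z hz => ?_⟩
  have hT1 := hT.one_le hr.1
  have h1 : ∀ i, ‖b i z‖ ≤ (M + 1 : ℕ) * T r ^ (M + 1) := by
    intro i
    refine ((hN i).mono hT ((hM i).trans (Nat.le_succ M))).2 r hr z (hz.trans ?_)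
    gcongr
    exact Nat.le_add_left _ _
  refine (root_le (h z)).trans ?_
  have h2 : ∑ i, ‖b i z‖ ≤ d * ((M + 1 : ℕ) * T r ^ (M + 1)) := by
    refine (Finset.sum_le_sum fun i _ => h1 i).trans ?_
    simp
  have h3 : T r ^ (M + 1) ≤ T r ^ (d * (M + 1) + (M + 1)) :=
    pow_le_pow_right₀ hT1 (Nat.le_add_left _ _)
  have h4 : 1 ≤ T r ^ (d * (M + 1) + (M + 1)) := one_le_pow₀ hT1
  push_cast at h2 ⊢
  have h5 : (0 : ℝ) ≤ d * (M + 1) := by positivity
  have h6 : (0 : ℝ) ≤ M := by positivity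
  nlinarith [mul_le_mul_of_nonneg_left h3 h5]

/-- functions with small means are small -/
theorem sm_of_mean {hT : Grw T r0} {a : ℂ → ℂ} (ha : Differentiable ℂ a) {p C : ℝ} (hp : 0 < p)
    (h : ∀ r ∈ Rd T r0, ∀ ρ, r + 1 / (4 * T r) ≤ ρ → ρ ≤ r + 1 / (2 * T r) →
      av ρ (fun z => ‖a z‖ ^ p) ≤ C * T r ^ 3) : a ∈ Sm hT := by
  by_cases h0 : ∃ z, a z ≠ 0
  swap
  · push Not at h0
    have : a = 0 := funext h0
    rw [this]
    exact zero_mem _
  refine ⟨ha, ?_⟩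
  set C' : ℝ := 32 * max C 1 with hC'
  have hC'1 : 1 ≤ C' := by rw [hC']; linarith [le_max_right C 1]
  obtain ⟨N, hN⟩ := exists_nat_ge (max (C' ^ (1 / p)) (max (5 / p) 8))
  have hN1 : C' ^ (1 / p) ≤ N := (le_max_left _ _).trans hN
  have hN2 : 5 / p ≤ N := ((le_max_left _ _).trans (le_max_right _ _)).trans hN
  have hN3 : (8 : ℝ) ≤ N := ((le_max_right _ _).trans (le_max_right _ _)).trans hN
  have hN0 : 0 < N := by
    have : (0 : ℝ) < N := by linarith
    exact_mod_cast this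
  refine ⟨N, hN0, fun r hr z hz => ?_⟩
  have hT1 := hT.one_le hr.1
  have hr1 : 1 ≤ r := hT.one.trans hr.1
  have hrT := hT.ge r hr.1
  have hlt : r + 1 / (4 * T r) < r + 1 / (2 * T r) := by
    have : 1 / (4 * T r) < 1 / (2 * T r) := by
      apply one_div_lt_one_div_of_lt (by positivity)
      linarith
    linarith
  obtain ⟨ρ, hρ1, hρ2, hρs⟩ := exists_radius ha h0 hlt
  have hz1 : ‖z‖ ≤ r + 1 / (8 * T r) := by
    refine hz.trans ?_
    gcongr
  have h8 : 1 / (4 * T r) = 1 / (8 * T r) + 1 / (8 * T r) := by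
    field_simp
    norm_num
  have hρz : 1 / (8 * T r) ≤ ρ - ‖z‖ := by linarith
  have h8p : 0 < 1 / (8 * T r) := by positivity
  have hρ0 : 0 < ρ := by
    have : 0 < 1 / (4 * T r) := by positivity
    linarith
  have h1 := hm ha hp hρ0 hρs (w := z) (mem_ball_zero_iff.2 (by linarith))
  have h2 := h r hr ρ hρ1.le hρ2.le
  have hρT : ρ ≤ 2 * T r := by
    have : 1 / (2 * T r) ≤ 1 := by
      rw [div_le_one (by positivity)]
      linarith
    linarith
  have h3 : (ρ + ‖z‖) / (ρ - ‖z‖) ≤ 32 * T r ^ 2 := by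
    rw [div_le_iff₀ (by linarith)]
    calc ρ + ‖z‖ ≤ 4 * T r := by linarith [norm_nonneg z]
      _ = 32 * T r ^ 2 * (1 / (8 * T r)) := by field_simp; norm_num
      _ ≤ _ := by gcongr
  have h4 : ‖a z‖ ^ p ≤ C' * T r ^ 5 := by
    refine h1.trans ?_
    have h5 : 0 ≤ av ρ (fun z => ‖a z‖ ^ p) := by
      refine circleAverage_nonneg_of_nonneg fun x _ => ?_
      positivity
    calc (ρ + ‖z‖) / (ρ - ‖z‖) * av ρ (fun z => ‖a z‖ ^ p) ≤ 32 * T r ^ 2 *
        av ρ (fun z => ‖a z‖ ^ p) := by gcongr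
      _ ≤ 32 * T r ^ 2 * (C * T r ^ 3) := by gcongr
      _ ≤ 32 * T r ^ 2 * (max C 1 * T r ^ 3) := by
        gcongr
        exact le_max_left _ _
      _ = C' * T r ^ 5 := by rw [hC']; ring
  have h5 : ‖a z‖ ≤ (C' * T r ^ 5) ^ (1 / p) := by
    have h6 := Real.rpow_le_rpow (by positivity) h4 (by positivity : 0 ≤ 1 / p)
    rwa [← Real.rpow_mul (norm_nonneg _), mul_one_div, div_self hp.ne', Real.rpow_one] at h6
  refine h5.trans ?_
  rw [Real.mul_rpow (by positivity) (by positivity)]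
  gcongr
  calc (T r ^ 5) ^ (1 / p) = T r ^ (5 / p) := by
        rw [← Real.rpow_natCast, ← Real.rpow_mul (by positivity)]
        congr 1
        push_cast
        ring
    _ ≤ T r ^ (N : ℝ) := Real.rpow_le_rpow_of_exponent_le hT1 hN2
    _ = _ := Real.rpow_natCast _ _

end grw

end Run7.h418.E
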