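import Pool.Agent.Run7.h418.E.Mp
import Pool.Agent.Run7.h418.Lim

/-!
Powers of the absolute values of holomorphic functions: pointwise bounds by averages.
-/

set_option autoImplicit false

open Metric Set Filter Topology Real

namespace Run7.h418.E

/-- the Blaschke trick: holomorphic majorants without zeros -/
theorem exists_major {R : ℝ} (hR : 0 < R) (Z : Finset ℂ) :
    ∀ g : ℂ → ℂ, Differentiable ℂ g → (∃ z, g z ≠ 0) →
      (∀ z ∈ closedBall (0 : ℂ) R, g z = 0 → z ∈ Z) → (∀ z ∈ Z, ‖z‖ < R) →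
      ∃ k : ℂ → ℂ, Differentiable ℂ k ∧ (∀ z ∈ closedBall (0 : ℂ) R, k z ≠ 0) ∧
        (∀ z ∈ closedBall (0 : ℂ) R, ‖g z‖ ≤ ‖k z‖) ∧ ∀ z ∈ sphere (0 : ℂ) R, ‖k z‖ = ‖g z‖ := by
  classical
  induction Z using Finset.induction_on with
  | empty =>
    intro g hg _ hgZ _
    exact ⟨g, hg, fun z hz h0 => by simpa using hgZ z hz h0, fun _ _ => le_rfl, fun _ _ => rfl⟩
  | insert a Z haZ ih =>
    intro g hg hg0 hgZ hZ
    obtain ⟨p, hp⟩ := hg.analyticAt a
    have hp0 : p ≠ 0 := by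
      intro h0
      have h1 := hp.locally_zero_iff.2 h0
      obtain ⟨z, hz⟩ := hg0
      exact hz (entire_zero hg h1 z)
    set g1 : ℂ → ℂ := (Function.swap dslope a)^[p.order] g with hg1
    have hg1d : Differentiable ℂ g1 := by
      have h2 : ∀ n : ℕ, Differentiable ℂ ((Function.swap dslope a)^[n] g) := by
        intro n
        induction n with
        | zero => exact hg
        | succ n ihn =>
          rw [Function.iterate_succ_apply']
          have := (Complex.differentiableOn_dslope (c := a) univ_mem).2 ihn.differentiableOn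
          exact differentiableOn_univ.1 this
      exact h2 _
    have hfac : ∀ z, g z = (z - a) ^ p.order * g1 z := fun z => by
      have := hp.eq_pow_order_mul_iterate_dslope z
      rwa [smul_eq_mul] at this
    have hg1a : g1 a ≠ 0 := hp.iterate_dslope_fslope_ne_zero hp0
    obtain ⟨k, hk, hk0, hk1, hk2⟩ := ih g1 hg1d ⟨a, hg1a⟩ (fun z hz h0 => by
      have h4 := hgZ z hz (by rw [hfac, h0, mul_zero])
      rcases Finset.mem_insert.1 h4 with rfl | h4
      · exact absurd h0 hg1a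
      · exact h4) fun z hz => hZ z (Finset.mem_insert_of_mem hz)
    have ha : ‖a‖ < R := hZ a (Finset.mem_insert_self _ _)
    set B : ℂ → ℂ := fun z => ((R : ℂ) ^ 2 - (starRingEnd ℂ) a * z) / R with hB
    have hRc : (R : ℂ) ≠ 0 := by exact_mod_cast hR.ne'
    have hBd : Differentiable ℂ B := by rw [hB]; fun_prop
    have hsq : ∀ z : ℂ, ‖(R : ℂ) ^ 2 - (starRingEnd ℂ) a * z‖ ^ 2 - R ^ 2 * ‖z - a‖ ^ 2 =
        (R ^ 2 - ‖z‖ ^ 2) * (R ^ 2 - ‖a‖ ^ 2) := by
      intro z
      rw [Complex.sq_norm, Complex.sq_norm, Complex.sq_norm, Complex.sq_norm,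
        Complex.normSq_apply, Complex.normSq_apply, Complex.normSq_apply, Complex.normSq_apply]
      simp only [Complex.sub_re, Complex.sub_im, Complex.mul_re, Complex.mul_im, Complex.conj_re,
        Complex.conj_im, ← Complex.ofReal_pow, Complex.ofReal_re, Complex.ofReal_im]
      ring
    have hB1 : ∀ z ∈ closedBall (0 : ℂ) R, ‖z - a‖ ≤ ‖B z‖ := by
      intro z hz
      rw [mem_closedBall_zero_iff] at hz
      rw [hB]
      simp only
      rw [norm_div, Complex.norm_real, Real.norm_of_nonneg hR.le, le_div_iff₀ hR]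
      have h1 := hsq z
      have h2 : 0 ≤ (R ^ 2 - ‖z‖ ^ 2) * (R ^ 2 - ‖a‖ ^ 2) := by
        apply mul_nonneg <;> nlinarith [norm_nonneg z, norm_nonneg a]
      refine le_of_sq_le_sq ?_ (norm_nonneg _)
      nlinarith
    have hB2 : ∀ z ∈ sphere (0 : ℂ) R, ‖B z‖ = ‖z - a‖ := by
      intro z hz
      rw [mem_sphere_zero_iff_norm] at hz
      rw [hB]
      simp only
      rw [norm_div, Complex.norm_real, Real.norm_of_nonneg hR.le, div_eq_iff hR.ne']
      have h1 := hsq z
      rw [hz, sub_self, zero_mul] at h1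
      have h2 : ‖(R : ℂ) ^ 2 - (starRingEnd ℂ) a * z‖ ^ 2 = (‖z - a‖ * R) ^ 2 := by
        rw [mul_pow]
        linarith
      exact (pow_left_inj₀ (norm_nonneg _) (by positivity) two_ne_zero).1 h2
    have hB3 : ∀ z ∈ closedBall (0 : ℂ) R, B z ≠ 0 := by
      intro z hz h0
      rw [mem_closedBall_zero_iff] at hz
      rw [hB] at h0
      simp only at h0
      rw [div_eq_zero_iff] at h0
      rcases h0 with h0 | h0
      · have h1 : (starRingEnd ℂ) a * z = (R : ℂ) ^ 2 := (sub_eq_zero.1 h0).symm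
        have h2 := congrArg norm h1
        rw [norm_mul, RCLike.norm_conj, norm_pow, Complex.norm_real, Real.norm_of_nonneg hR.le] at h2
        nlinarith [norm_nonneg a, norm_nonneg z]
      · exact hRc h0
    refine ⟨fun z => B z ^ p.order * k z, (hBd.pow _).mul hk, fun z hz => ?_, fun z hz => ?_,
      fun z hz => ?_⟩
    · exact mul_ne_zero (pow_ne_zero _ (hB3 z hz)) (hk0 z hz)
    · rw [hfac, norm_mul, norm_pow, norm_mul, norm_pow]
      gcongr
      · exact hB1 z hz
      · exact hk1 z hz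
    · rw [hfac, norm_mul, norm_pow, norm_mul, norm_pow, hB2 z hz, hk2 z hz]

/-- powers of zero free functions -/
theorem exists_power {R R' : ℝ} (hRR : R < R') (hR : 0 < R) {k : ℂ → ℂ} (hk : Differentiable ℂ k)
    (hk0 : ∀ z ∈ ball (0 : ℂ) R', k z ≠ 0) (p : ℝ) :
    ∃ q : ℂ → ℂ, DifferentiableOn ℂ q (ball 0 R') ∧ ∀ z ∈ ball (0 : ℂ) R', ‖k z‖ ^ p = ‖q z‖ := by
  have hR' : 0 < R' := hR.trans hRR
  have hkd : Differentiable ℂ (deriv k) := hk.deriv
  obtain ⟨L, hL⟩ := (hkd.differentiableOn.div hk.differentiableOn hk0).isExactOn_ball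
  have hc : ∀ z ∈ ball (0 : ℂ) R', k z * Complex.exp (-L z) = k 0 * Complex.exp (-L 0) := by
    intro z hz
    have hd : ∀ z ∈ ball (0 : ℂ) R', HasDerivAt (fun z => k z * Complex.exp (-L z)) 0 z := by
      intro z hz
      have h1 := (hk z).hasDerivAt.mul (hL z hz).neg.cexp
      refine h1.congr_deriv ?_
      have := hk0 z hz
      simp only [Pi.div_apply]
      field_simp
      ring
    refine (isOpen_ball.is_const_of_deriv_eq_zero (convex_ball (0 : ℂ) R').isPreconnected
      (fun z hz => (hd z hz).differentiableAt.differentiableWithinAt)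
      (fun z hz => (hd z hz).deriv) hz (mem_ball_self hR'))
  set c : ℂ := k 0 * Complex.exp (-L 0) with hcdef
  have hc0 : c ≠ 0 := mul_ne_zero (hk0 0 (mem_ball_self hR')) (Complex.exp_ne_zero _)
  refine ⟨fun z => ((‖c‖ ^ p : ℝ) : ℂ) * Complex.exp (p * L z), ?_, fun z hz => ?_⟩
  · have hLd : DifferentiableOn ℂ L (ball 0 R') := fun z hz =>
      (hL z hz).differentiableAt.differentiableWithinAt
    exact (hLd.const_mul _).cexp.const_mul _
  · have h1 : k z = c * Complex.exp (L z) := by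
      rw [← hc z hz, mul_assoc, ← Complex.exp_add]
      simp
    clear_value c
    change ‖k z‖ ^ p = ‖((‖c‖ ^ p : ℝ) : ℂ) * Complex.exp (p * L z)‖
    have h2 : ‖((‖c‖ ^ p : ℝ) : ℂ)‖ = ‖c‖ ^ p := by
      rw [Complex.norm_real, Real.norm_of_nonneg (by positivity)]
    rw [h1, norm_mul, norm_mul, h2, Complex.norm_exp, Complex.norm_exp,
      Real.mul_rpow (norm_nonneg _) (Real.exp_pos _).le, ← Real.exp_mul]
    congr 2
    rw [Complex.re_ofReal_mul]
    ring

/-- Poisson's formula and norms -/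
theorem poisson_le {R R' : ℝ} (hRR : R < R') (hR : 0 < R) {q : ℂ → ℂ}
    (hq : DifferentiableOn ℂ q (ball 0 R')) {w : ℂ} (hw : w ∈ ball (0 : ℂ) R) :
    ‖q w‖ ≤ (R + ‖w‖) / (R - ‖w‖) * av R (fun z => ‖q z‖) := by
  have hw1 := mem_ball_zero_iff.1 hw
  have h1 : DiffContOnCl ℂ q (ball 0 R) := by
    refine DifferentiableOn.diffContOnCl (hq.mono ?_)
    exact closure_ball_subset_closedBall.trans (closedBall_subset_ball hRR)
  have h2 := DiffContOnCl.circleAverage_poissonKernel_smul h1 hw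
  rw [← h2, ← av_mul]
  have hsub : sphere (0 : ℂ) R ⊆ ball 0 R' :=
    sphere_subset_closedBall.trans (closedBall_subset_ball hRR)
  have hqc : ContinuousOn q (sphere 0 R) := hq.continuousOn.mono hsub
  have hdist : ∀ z ∈ sphere (0 : ℂ) R, R - ‖w‖ ≤ ‖z - w‖ := by
    intro z hz
    have h3 := norm_sub_norm_le z w
    rwa [mem_sphere_zero_iff_norm.1 hz] at h3
  have hPc : ContinuousOn (poissonKernel 0 w) (sphere 0 R) := by
    unfold poissonKernel
    refine ContinuousOn.div (by fun_prop) (by fun_prop) fun z hz => ?_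
    have h3 := hdist z hz
    simp only [sub_zero]
    have : 0 < ‖z - w‖ := by linarith
    positivity
  refine norm_circleAverage_le.trans (av_mono hR.le ?_ ?_ fun z hz => ?_)
  · exact (hPc.smul hqc).norm
  · exact continuousOn_const.mul hqc.norm
  · change ‖poissonKernel 0 w z • q z‖ ≤ _
    rw [norm_smul]
    gcongr
    have h3 := hdist z hz
    have h4 : 0 < R - ‖w‖ := by linarith
    have h5 : 0 < ‖z - w‖ := by linarith
    unfold poissonKernel
    simp only [sub_zero]
    rw [mem_sphere_zero_iff_norm.1 hz, Real.norm_of_nonneg (by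
      apply div_nonneg _ (by positivity)
      nlinarith [norm_nonneg w]), div_le_div_iff₀ (by positivity) h4]
    have h6 : (R - ‖w‖) ^ 2 ≤ ‖z - w‖ ^ 2 := by gcongr
    have h7 : 0 ≤ R + ‖w‖ := by positivity
    nlinarith

/-- **Pointwise bound** -/
theorem hm {h : ℂ → ℂ} (hh : Differentiable ℂ h) {p R : ℝ} (hp : 0 < p) (hR : 0 < R)
    (hs : ∀ z ∈ sphere (0 : ℂ) R, h z ≠ 0) {w : ℂ} (hw : w ∈ ball (0 : ℂ) R) :
    ‖h w‖ ^ p ≤ (R + ‖w‖) / (R - ‖w‖) * av R (fun z => ‖h z‖ ^ p) := by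
  have hne : ∃ z, h z ≠ 0 := by
    refine ⟨(R : ℂ), hs _ ?_⟩
    rw [mem_sphere_zero_iff_norm, Complex.norm_real, Real.norm_of_nonneg hR.le]
  have hZ := zeros_finite hh hne R
  obtain ⟨k, hk, hk0, hk1, hk2⟩ := exists_major hR hZ.toFinset h hh hne
    (fun z hz h0 => by rw [Set.Finite.mem_toFinset]; exact ⟨hz, h0⟩) (fun z hz => by
      rw [Set.Finite.mem_toFinset] at hz
      obtain ⟨hz1, hz2⟩ := hz
      rw [mem_closedBall_zero_iff] at hz1
      refine lt_of_le_of_ne hz1 fun h0 => ?_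
      exact hs z (mem_sphere_zero_iff_norm.2 h0) hz2)
  -- a larger ball without zeros
  obtain ⟨R', hRR, hk0'⟩ : ∃ R' > R, ∀ z ∈ ball (0 : ℂ) R', k z ≠ 0 := by
    have hZ' := zeros_finite hk ⟨0, hk0 0 (mem_closedBall_self hR.le)⟩ (R + 1)
    by_cases hemp : hZ'.toFinset.Nonempty
    · obtain ⟨b, hb, hmin⟩ := hZ'.toFinset.exists_min_image (fun z => ‖z‖) hemp
      rw [Set.Finite.mem_toFinset] at hb
      have hbR : R < ‖b‖ := by
        by_contra hcon
        exact hk0 b (mem_closedBall_zero_iff.2 (not_lt.1 hcon)) hb.2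
      refine ⟨‖b‖, hbR, fun z hz h0 => ?_⟩
      have hz1 := mem_ball_zero_iff.1 hz
      have hb1 := mem_closedBall_zero_iff.1 hb.1
      have h1 := hmin z (by
        rw [Set.Finite.mem_toFinset]
        exact ⟨mem_closedBall_zero_iff.2 (by linarith), h0⟩)
      linarith
    · refine ⟨R + 1, by linarith, fun z hz h0 => hemp ⟨z, ?_⟩⟩
      rw [Set.Finite.mem_toFinset]
      exact ⟨ball_subset_closedBall hz, h0⟩
  obtain ⟨q, hq, hkq⟩ := exists_power hRR hR hk hk0' p
  have hsub : closedBall (0 : ℂ) R ⊆ ball 0 R' := closedBall_subset_ball hRR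
  have h1 := poisson_le hRR hR hq hw
  have h2 : av R (fun z => ‖q z‖) = av R (fun z => ‖h z‖ ^ p) := by
    refine av_congr hR.le fun z hz => ?_
    rw [← hkq z (hsub (sphere_subset_closedBall hz)), hk2 z hz]
  rw [h2] at h1
  refine le_trans ?_ h1
  rw [← hkq w (hsub (ball_subset_closedBall hw))]
  exact Real.rpow_le_rpow (norm_nonneg _) (hk1 w (ball_subset_closedBall hw)) hp.le

/-- radii without zeros -/
theorem exists_radius {h : ℂ → ℂ} (hh : Differentiable ℂ h) (h0 : ∃ z, h z ≠ 0) {a b : ℝ}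
    (hab : a < b) : ∃ R, a < R ∧ R < b ∧ ∀ z ∈ sphere (0 : ℂ) R, h z ≠ 0 := by
  have hZ := zeros_finite hh h0 b
  have hf : ((fun z : ℂ => ‖z‖) '' {z : ℂ | z ∈ closedBall 0 b ∧ h z = 0}).Finite := hZ.image _
  obtain ⟨R, hR, hR2⟩ := ((Ioo_infinite hab).diff hf).nonempty
  refine ⟨R, hR.1, hR.2, fun z hz hz0 => hR2 ⟨z, ⟨?_, hz0⟩, mem_sphere_zero_iff_norm.1 hz⟩⟩
  rw [mem_closedBall_zero_iff, mem_sphere_zero_iff_norm.1 hz]
  exact hR.2.le

end Run7.h418.E
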