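import Pool.Agent.Run7.h418.E.Fin
import Pool.Agent.Run7.h177.EP1
import Pool.Agent.Run7.h177.EP2
import Pool.Agent.Run7.h177.EP3
import Pool.Agent.Run7.h177.EC1
import Pool.Agent.Run7.h177.EC2
import Pool.Agent.Run7.h711.EC3
import Pool.Agent.Run7.h177.EC4
import Pool.Agent.Run7.h83.EUA1
import Pool.Agent.Run7.h847.EUA24
import Pool.Agent.Run7.h712.EUA3
import Pool.Agent.Run7.h283.EU.D1a
import Pool.Agent.Run7.h576.EUD1b
import Pool.Agent.Run7.h941.EUD1m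

/-!
All pieces together.
-/

set_option autoImplicit false

namespace Run7.h418.E

theorem hyps : Hyps :=
  ⟨Run7.h177.EP.p1, Run7.h177.EP.p2, Run7.h177.EP.p3, Run7.h177.EP.c1, Run7.h177.EP.c2,
    Run7.h711.EP.c3, Run7.h177.EP.c4, Run7.h83.EUA1.t_A1, Run7.h847.EU.a2, Run7.h712.EU.a3,
    Run7.h847.EU.a4, Run7.h941.EU.d1m Run7.h283.EU.d1a Run7.h576.EU.d1b⟩

end Run7.h418.E
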