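import Pool.Agent.Run7.h418.E.Mz
import Pool.Agent.Run7.h418.E.Dsv
import Pool.Agent.Run7.h418.Gen

/-!
The derivations of the field of the curve given by the infinitesimal deformations.
-/

set_option autoImplicit false

open Metric Set Filter Topology MvPolynomial

namespace Run7.h418.E

open Pool.Agent.Y190.OP Pool.Agent.W602.GT Pool.Agent.N155

section gen

variable {ω : Type} [Fintype ω] {S : Subalgebra ℂ (ℂ → ℂ)}

theorem der_inl {E : Dr (ω ⊕ S)} (hE : ∀ s, E (X (Sum.inr s)) = 0) (G : MvPolynomial (ω ⊕ S) ℂ) :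
    E G = ∑ l, pderiv (Sum.inl l) G * E (X (Sum.inl l)) := by
  classical
  induction G using MvPolynomial.induction_on with
  | C c => simp
  | add p q hp hq =>
    rw [map_add, hp, hq, ← Finset.sum_add_distrib]
    exact Finset.sum_congr rfl fun l _ => by rw [map_add, add_mul]
  | mul_X p l hp =>
    rw [Derivation.leibniz, smul_eq_mul, smul_eq_mul, hp, Finset.mul_sum]
    rcases l with l | s
    · have h1 : ∀ l', pderiv (Sum.inl l') (p * X (Sum.inl l)) * E (X (Sum.inl l')) =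
          (if l' = l then p * E (X (Sum.inl l')) else 0) +
            X (Sum.inl l) * (pderiv (Sum.inl l') p * E (X (Sum.inl l'))) := by
        intro l'
        rw [pderiv_mul]
        by_cases hl : l' = l
        · subst hl
          rw [if_pos rfl, pderiv_X_self]
          ring
        · rw [if_neg hl, pderiv_X_of_ne (fun h => hl (Sum.inl_injective h).symm)]
          ring
      rw [Finset.sum_congr rfl fun l' _ => h1 l', Finset.sum_add_distrib, Finset.sum_ite_eq',
        if_pos (Finset.mem_univ l)]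
    · rw [hE, mul_zero, zero_add]
      refine Finset.sum_congr rfl fun l' _ => ?_
      rw [pderiv_mul, pderiv_X_of_ne (by simp)]
      ring

theorem chain_a {γ : ℂ → ω → ℂ} {γ' : ω → ℂ} {s0 z : ℂ}
    (h : ∀ l, HasDerivAt (fun s => γ s l) (γ' l) s0) (G : MvPolynomial (ω ⊕ S) ℂ) :
    HasDerivAt (fun s => eval (pt (γ s) z) G)
      (∑ l, eval (pt (γ s0) z) (pderiv (Sum.inl l) G) * γ' l) s0 := by
  set E : Dr (ω ⊕ S) := mkDerivation ℂ (Sum.elim (fun l => C (γ' l)) fun _ => 0) with hE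
  have h3 := hasDerivAt_eval E (γ := fun s => pt (S := S) (γ s) z) (z := s0) (fun l => by
    rw [hE, mkDerivation_X]
    rcases l with l | t
    · simp only [Sum.elim_inl, eval_C]
      exact h l
    · simp only [Sum.elim_inr, map_zero]
      exact hasDerivAt_const _ _) G
  refine h3.congr_deriv ?_
  rw [der_inl (E := E) (fun s => by rw [hE, mkDerivation_X]; rfl) G, map_sum]
  refine Finset.sum_congr rfl fun k _ => ?_
  rw [map_mul, hE, mkDerivation_X, Sum.elim_inl, eval_C]

/-- Cramer's rule -/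
theorem cramer_t {R Rw : Type} [CommRing R] (row : Rw → ω → R) (β : Rw → R) {ev : ℂ → R →+* ℂ}
    {δ : ℂ → ω → ℂ} {z0 : ℂ} {U : Set ℂ}
    (hrow : ∀ z ∈ U, ∀ r, ∑ l, ev z (row r l) * δ z l = ev z (β r))
    (hker : ∀ w : ω → ℂ, (∀ r, ∑ l, ev z0 (row r l) * w l = 0) → w = 0) :
    ∃ (q : R) (p : ω → R), ev z0 q ≠ 0 ∧ ∀ z ∈ U, ∀ l, ev z q * δ z l = ev z (p l) := by
  classical
  set eq := Fintype.equivFin ω with heq
  set N := Fintype.card ω
  obtain ⟨a, ha⟩ := exists_rows (𝕜 := ℂ) (w := N) (fun (r : Rw) c => ev z0 (row r (eq.symm c)))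
    (fun x hx => by
      have h1 := hker (fun l => x (eq l)) (fun r => by
        have h2 := hx r
        rw [← Equiv.sum_comp eq] at h2
        simpa using h2)
      funext c
      have h2 := congrFun h1 (eq.symm c)
      simpa using h2)
  set A : Matrix (Fin N) (Fin N) R := Matrix.of fun b c => row (a b) (eq.symm c) with hA
  refine ⟨A.det, fun l => (A.adjugate.mulVec fun b => β (a b)) (eq l), ?_, fun z hz l => ?_⟩
  · have h1 : ev z0 A.det = (Matrix.of fun b c => ev z0 (row (a b) (eq.symm c))).det := by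
      rw [RingHom.map_det]
      rfl
    rw [h1]
    exact ha
  · set δ' : Fin N → ℂ := fun c => δ z (eq.symm c) with hδ'
    have h1 : ((ev z).mapMatrix A).mulVec δ' = fun b => ev z (β (a b)) := by
      funext b
      rw [← hrow z hz (a b), ← Equiv.sum_comp eq.symm]
      rfl
    have h2 : (((ev z).mapMatrix A).adjugate * ((ev z).mapMatrix A)).mulVec δ' =
        ((ev z).mapMatrix A).adjugate.mulVec fun b => ev z (β (a b)) := by
      rw [← Matrix.mulVec_mulVec, h1]
    rw [Matrix.adjugate_mul, Matrix.smul_mulVec, Matrix.one_mulVec] at h2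
    have h3 := congrFun h2 (eq l)
    rw [Pi.smul_apply, smul_eq_mul] at h3
    have h4 : δ' (eq l) = δ z l := by rw [hδ']; simp
    rw [h4, ← RingHom.map_det, ← RingHom.map_adjugate] at h3
    rw [h3]
    simp only [Matrix.mulVec, dotProduct, map_sum, map_mul]
    rfl

end gen

variable {n : ℕ} {ι κ τ : Type} {F : ι → MvPolynomial (Fin (n + 1)) ℂ}
  {σ : κ → (Fin (n + 1) → ℂ) → (Fin (n + 1) → ℂ) → ℂ} {m : κ → ℕ} {S : Subalgebra ℂ (ℂ → ℂ)}
  {φ : ℂ → Mat (n + 1)} {i0 : Fin (n + 1)}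

/-- the numerator of a representation with a square as denominator -/
noncomputable def HP (P : Rn (n + 1)) (H : MvPolynomial (Fin (n + 1)) ℂ) : Rn (n + 1) :=
  rename Sum.inl H * P

theorem pderiv_HP (P : Rn (n + 1)) (H : MvPolynomial (Fin (n + 1)) ℂ) (k : Fin (n + 1)) :
    pderiv (Sum.inr k) (HP P H) = rename Sum.inl H * pderiv (Sum.inr k) P := by
  unfold HP
  rw [pderiv_mul, pderiv_inr_inl, zero_mul, zero_add]

theorem rep_HP {j : κ} {P : Rn (n + 1)} {H : MvPolynomial (Fin (n + 1)) ℂ} (h : Rep F σ j P H) :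
    Rep F σ j (HP P H) (H ^ 2) := by
  intro x hx hH v hv
  rw [map_pow] at hH
  have hH' : eval x H ≠ 0 := fun h0 => hH (by rw [h0]; norm_num)
  rw [h x hx hH' v hv, HP, map_mul, map_pow, eval_rename, Sum.elim_comp_inl]
  field_simp

theorem ds_HP {j : κ} {i : Fin (n + 1)} {a : Fin (n + 1) ⊕ Fin (n + 1) → ℂ}
    (ha : a ∈ Tg F i) {η : Fin (n + 1) → ℂ} (hη : Tan F (a ∘ Sum.inl) η) {P : Rn (n + 1)}
    {H : MvPolynomial (Fin (n + 1)) ℂ} (hrep : Rep F σ j P H) :
    ∑ k, eval a (pderiv (Sum.inr k) (HP P H)) * η k = ds σ j a η * eval (a ∘ Sum.inl) (H ^ 2) := by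
  have h1 : ∑ k, eval a (pderiv (Sum.inr k) (HP P H)) * η k = eval (a ∘ Sum.inl) H *
      ∑ k, eval a (pderiv (Sum.inr k) P) * η k := by
    rw [Finset.mul_sum]
    refine Finset.sum_congr rfl fun k _ => ?_
    rw [pderiv_HP, map_mul, eval_inl]
    ring
  rw [h1, map_pow]
  by_cases hH : eval (a ∘ Sum.inl) H = 0
  · rw [hH]
    ring
  · rw [ds_rep ha hη hrep hH]
    field_simp

/-- the infinitesimal deformation -/
noncomputable def dl (y : ℂ → ℂ → Mat (n + 1)) (i0 : Fin (n + 1)) (z : ℂ)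
    (l : Fin (n + 1) ⊕ Fin (n + 1)) : ℂ := deriv (fun s => pr i0 (y s) z l) 0

/-- **The derivation of a family** -/
theorem exists_jb (hS : DSt S) (hσ : ∀ j, SymForm F (m j) (σ j)) (hm : ∀ j, 0 < m j)
    (him : Immersive F σ) {h : κ → S} (hφ : Sl F σ (fun j => (h j).1) univ φ) {z0 : ℂ}
    (hi0 : φ z0 i0 i0 ≠ 0) (hz0 : ∃ j, (h j).1 z0 ≠ 0)
    {V : Dr ((Fin (n + 1) ⊕ Fin (n + 1)) ⊕ S)} {y : ℂ → ℂ → Mat (n + 1)} {ε ρ : ℝ}
    (fm : Fm F σ h φ i0 z0 V y ε ρ) {a : κ → S}
    (ha : ∀ j z i, φ z i i ≠ 0 → (a j).1 z = ds σ j (pr i φ z) (bet y i z 0)) {js : τ → κ}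
    {P : τ → Rn (n + 1)} {H : τ → MvPolynomial (Fin (n + 1)) ℂ}
    (hrep : ∀ s, Rep F σ (js s) (P s) (H s))
    (hcov : ∀ x ∈ Cone F, ∀ j, ∃ s, js s = j ∧ eval x (H s) ≠ 0)
    {M : Type} [Field M] [Algebra ℂ M] {e : Rt n S →ₐ[ℂ] M} (hM : Fz S φ i0 e) :
    ∃ (J : Derivation ℂ M M) (q : Rt n S) (p : Fin (n + 1) ⊕ Fin (n + 1) → Rt n S),
      eval (pt (pr i0 φ z0) z0) q ≠ 0 ∧
      (∀ᶠ z in 𝓝 z0, ∀ l, eval (pt (pr i0 φ z) z) q * dl y i0 z l = eval (pt (pr i0 φ z) z) (p l)) ∧
      (∀ s, J (e (X (Sum.inr s))) = 0) ∧ e q ≠ 0 ∧ ∀ l, e q * J (e (X (Sum.inl l))) = e (p l) := by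
  have h0ε : (0 : ℂ) ∈ ball (0 : ℂ) ε := mem_ball_self fm.pos
  have hz0ρ : z0 ∈ ball z0 ρ := mem_ball_self fm.rpos
  have hch : ∀ z ∈ ball z0 ρ, φ z i0 i0 ≠ 0 := by
    intro z hz
    have h1 := fm.chart 0 h0ε z hz
    rwa [fm.zero] at h1
  have hgood : ∀ z ∈ ball z0 ρ, Good y z 0 i0 := fun z hz => fm.good 0 h0ε z i0 (fm.chart 0 h0ε z hz)
  have hy' : ∀ᶠ t in 𝓝 (0 : ℂ), Sl F σ (fun j => (h j).1) univ (y t) := by
    filter_upwards [isOpen_ball.mem_nhds h0ε] with t ht
    exact fm.sl t ht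
  have hdl : ∀ z ∈ ball z0 ρ, ∀ l, HasDerivAt (fun s => pr i0 (y s) z l) (dl y i0 z l) 0 := by
    intro z hz l
    have hd := (good_slice (hgood z hz)).self_of_nhds.2
    exact (differentiableAt_pi.1 hd l).hasDerivAt
  have hbet : ∀ z, (fun k => dl y i0 z (Sum.inl k)) = bet y i0 z 0 := fun z => rfl
  have hTan : ∀ z ∈ ball z0 ρ, Tan F (pr i0 φ z ∘ Sum.inl) (fun k => dl y i0 z (Sum.inl k)) := by
    intro z hz
    have h1 := (bet_Tan hy' (hgood z hz)).1
    rw [fm.zero] at h1
    exact h1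
  have hTg : ∀ z ∈ ball z0 ρ, pr i0 φ z ∈ Tg F i0 := fun z hz =>
    (hφ.2 z (mem_univ z) i0 (hch z hz)).1
  -- the rows
  set row : {G // G ∈ Rlt S φ i0} ⊕ τ → (Fin (n + 1) ⊕ Fin (n + 1)) → Rt n S :=
    Sum.elim (fun G l => pderiv (Sum.inl l) G.1) (fun s => Sum.elim
      (fun k => ri (pderiv (Sum.inr k) (HP (P s) (H s)))) fun _ => 0) with hrow
  set β : {G // G ∈ Rlt S φ i0} ⊕ τ → Rt n S := Sum.elim (fun _ => 0)
    (fun s => X (Sum.inr (a (js s))) * ri (rename Sum.inl (H s ^ 2))) with hβ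
  obtain ⟨q, p, hq, hqp⟩ := cramer_t row β (ev := fun z => eval (pt (pr i0 φ z) z))
    (δ := fun z l => dl y i0 z l) (z0 := z0) (U := ball z0 ρ) (by
      rintro z hz (G | s)
      · change ∑ l, eval (pt (pr i0 φ z) z) (pderiv (Sum.inl l) G.1) * dl y i0 z l =
          eval (pt (pr i0 φ z) z) 0
        have h1 := chain_a (z := z) (hdl z hz) G.1
        have h2 : HasDerivAt (fun s => eval (pt (pr i0 (y s) z) z) G.1) 0 0 := by
          refine (hasDerivAt_const (0 : ℂ) (0 : ℂ)).congr_of_eventuallyEq ?_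
          filter_upwards [isOpen_ball.mem_nhds h0ε] with s hs
          exact fm.rel s hs z hz G.1 G.2
        have h3 := h1.unique h2
        rw [fm.zero] at h3
        rw [h3, map_zero]
      · change ∑ l, eval (pt (pr i0 φ z) z) (row (Sum.inr s) l) * dl y i0 z l =
          eval (pt (pr i0 φ z) z) (X (Sum.inr (a (js s))) * ri (rename Sum.inl (H s ^ 2)))
        rw [Fintype.sum_sum_type]
        have h1 : ∀ k, eval (pt (pr i0 φ z) z) (row (Sum.inr s) (Sum.inl k)) =
            eval (pr i0 φ z) (pderiv (Sum.inr k) (HP (P s) (H s))) := fun k => eval_ri _ _ _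
        have h2 : ∀ k, eval (pt (pr i0 φ z) z) (row (Sum.inr s) (Sum.inr k)) = 0 :=
          fun k => map_zero _
        simp only [h1, h2, zero_mul, Finset.sum_const_zero, add_zero]
        rw [ds_HP (hTg z hz) (hTan z hz) (hrep s), map_mul, eval_X, eval_ri, eval_inl]
        change _ = (a (js s)).1 z * _
        rw [ha (js s) z i0 (hch z hz), hbet]) (by
      intro w hw
      -- the first half
      have hinlG : ∀ G ∈ Rlt S φ i0, ∑ l, eval (pt (pr i0 φ z0) z0) (pderiv (Sum.inl l) G) * w l = 0 :=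
        fun G hG => hw (Sum.inl ⟨G, hG⟩)
      have hT1 : Tan F (pr i0 φ z0 ∘ Sum.inl) (w ∘ Sum.inl) := by
        intro i
        have h1 := hinlG (ri (rename Sum.inl (F i))) (by
          intro z hz
          rw [eval_ri, eval_inl]
          exact (hφ.2 z (mem_univ z) i0 hz).1.2.2.1 i)
        rw [Fintype.sum_sum_type] at h1
        simp only [pderiv_ri, eval_ri, pderiv_inl_inl, pderiv_inr_inl, map_zero, zero_mul,
          Finset.sum_const_zero, add_zero, eval_inl] at h1
        exact h1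
      have hw0 : (w ∘ Sum.inl) i0 = 0 := by
        have h1 := hinlG (X (Sum.inl (Sum.inl i0)) - 1) (by
          intro z hz
          rw [map_sub, eval_X, map_one]
          have h2 : pr i0 φ z (Sum.inl i0) = 1 := (hφ.2 z (mem_univ z) i0 hz).1.1
          change pr i0 φ z (Sum.inl i0) - 1 = 0
          rw [h2, sub_self])
        rw [Finset.sum_eq_single (Sum.inl i0)] at h1
        · rw [map_sub, pderiv_X_self, ← map_one C, pderiv_C, sub_zero, map_one, map_one,
            one_mul] at h1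
          exact h1
        · intro l _ hl
          rw [map_sub, pderiv_X_of_ne (fun h => hl (Sum.inl_injective h).symm), ← map_one C,
            pderiv_C, sub_zero, map_zero, zero_mul]
        · intro h2
          exact absurd (Finset.mem_univ _) h2
      have hE0 := hφ.2 z0 (mem_univ z0) i0 hi0
      have hv0 : pr i0 φ z0 ∘ Sum.inr ≠ 0 := by
        intro h1
        obtain ⟨j, hj⟩ := hz0
        apply hj
        have h2 : sg σ j (pr i0 φ z0) = (h j).1 z0 := hE0.2 j
        rw [← h2]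
        exact sg_zero hσ hm hE0.1 h1 j
      have hwl : w ∘ Sum.inl = 0 := by
        by_contra hne
        obtain ⟨j, hj⟩ := him _ (Tg.cone hE0.1) (pr i0 φ z0 ∘ Sum.inr) (w ∘ Sum.inl) hE0.1.2.2.2 hT1
          (not_mult (i := i0) hE0.1.1 hE0.1.2.1 hv0) (not_mult (i := i0) hE0.1.1 hw0 hne)
        apply hj
        obtain ⟨s, hs1, hs2⟩ := hcov _ (Tg.cone hE0.1) j
        have h1 := hw (Sum.inr s)
        rw [Fintype.sum_sum_type] at h1
        have h2 : ∀ k, eval (pt (pr i0 φ z0) z0) (row (Sum.inr s) (Sum.inl k)) =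
            eval (pr i0 φ z0) (pderiv (Sum.inr k) (HP (P s) (H s))) := fun k => eval_ri _ _ _
        have h3 : ∀ k, eval (pt (pr i0 φ z0) z0) (row (Sum.inr s) (Sum.inr k)) = 0 :=
          fun k => map_zero _
        simp only [h2, h3, zero_mul, Finset.sum_const_zero, add_zero] at h1
        have h4 := ds_HP hE0.1 hT1 (hrep s)
        have h5 : ∑ k, eval (pr i0 φ z0) (pderiv (Sum.inr k) (HP (P s) (H s))) *
          (w ∘ Sum.inl) k = 0 := h1
        rw [h5] at h4
        have h6 : ds σ (js s) (pr i0 φ z0) (w ∘ Sum.inl) = 0 :=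
          (mul_eq_zero.1 h4.symm).resolve_right (by rw [map_pow]; exact pow_ne_zero 2 hs2)
        rw [hs1] at h6
        exact h6
      -- the second half
      have hwr : w ∘ Sum.inr = 0 := by
        funext k0
        obtain ⟨G, hG, hGk⟩ := grad_surj_t hσ hm him hz0 (i := i0) hE0 (fun k => if k = k0 then 1 else 0)
        have h1 := hinlG G (fun z hz => hG z _ (hφ.2 z (mem_univ z) i0 hz))
        rw [Fintype.sum_sum_type] at h1
        have h2 : ∀ k, w (Sum.inl k) = 0 := fun k => congrFun hwl k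
        simp only [h2, mul_zero, Finset.sum_const_zero, zero_add] at h1
        rw [Finset.sum_congr rfl fun k _ => by rw [hGk k]] at h1
        simpa using h1
      funext l
      rcases l with l | l
      · exact congrFun hwl l
      · exact congrFun hwr l)
  -- the derivation
  set E : Dr ((Fin (n + 1) ⊕ Fin (n + 1)) ⊕ S) := mkDerivation ℂ (Sum.elim p fun _ => 0) with hE
  have hEs : ∀ s, E (X (Sum.inr s)) = 0 := fun s => by rw [hE, mkDerivation_X]; rfl
  have hEl : ∀ l, E (X (Sum.inl l)) = p l := fun l => by rw [hE, mkDerivation_X]; rfl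
  have hEI : ∀ G, e G = 0 → e (E G) = 0 := by
    intro G hG
    rw [hM.ker] at hG ⊢
    refine rlt_of_near hS hφ.1 hi0 ?_
    filter_upwards [isOpen_ball.mem_nhds hz0ρ] with z hz
    rw [der_inl hEs G, map_sum]
    have h1 := chain_a (z := z) (hdl z hz) G
    have h2 : HasDerivAt (fun s => eval (pt (pr i0 (y s) z) z) G) 0 0 := by
      refine (hasDerivAt_const (0 : ℂ) (0 : ℂ)).congr_of_eventuallyEq ?_
      filter_upwards [isOpen_ball.mem_nhds h0ε] with s hs
      exact fm.rel s hs z hz G hG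
    have h3 := h1.unique h2
    rw [fm.zero] at h3
    have h4 : ∑ l, eval (pt (pr i0 φ z) z) (pderiv (Sum.inl l) G * E (X (Sum.inl l))) =
        eval (pt (pr i0 φ z) z) q *
          ∑ l, eval (pt (pr i0 φ z) z) (pderiv (Sum.inl l) G) * dl y i0 z l := by
      rw [Finset.mul_sum]
      refine Finset.sum_congr rfl fun l _ => ?_
      have h5 : eval (pt (pr i0 φ z) z) q * dl y i0 z l = eval (pt (pr i0 φ z) z) (p l) :=
        hqp z hz l
      rw [map_mul, hEl, ← h5]
      ring
    rw [h4, h3, mul_zero]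
  obtain ⟨dd, hdd⟩ := exists_der e hM.frac hEI
  have heq : e q ≠ 0 := by
    rw [Ne, hM.ker]
    intro h1
    exact hq (h1 z0 hi0)
  refine ⟨(e q)⁻¹ • dd, q, p, hq, ?_, fun s => ?_, heq, fun l => ?_⟩
  · filter_upwards [isOpen_ball.mem_nhds hz0ρ] with z hz
    exact hqp z hz
  · rw [Derivation.smul_apply, hdd, hEs, map_zero, smul_zero]
  · rw [Derivation.smul_apply, hdd, hEl, smul_eq_mul, ← mul_assoc, mul_inv_cancel₀ heq, one_mul]

end Run7.h418.E
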