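import Pool.Agent.Run7.h418.E.Sys
import Pool.Agent.Run7.h418.Ident

/-!
Local solutions with uniform radius.
-/

set_option autoImplicit false

open Metric Set Filter Topology MvPolynomial

namespace Run7.h418.E

open Pool.Agent.Y190.OP Pool.Agent.W602.GT Pool.Agent.N155

variable {n : ℕ} {ι κ : Type} {F : ι → MvPolynomial (Fin (n + 1)) ℂ}
  {σ : κ → (Fin (n + 1) → ℂ) → (Fin (n + 1) → ℂ) → ℂ} {m : κ → ℕ}

/-- the curves with given values of the symmetric differentials -/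
def Sl (F : ι → MvPolynomial (Fin (n + 1)) ℂ)
    (σ : κ → (Fin (n + 1) → ℂ) → (Fin (n + 1) → ℂ) → ℂ) (h : κ → ℂ → ℂ) (U : Set ℂ)
    (φ : ℂ → Mat (n + 1)) : Prop :=
  HolP U φ ∧ ∀ z ∈ U, ∀ i, φ z i i ≠ 0 → pr i φ z ∈ Ep F σ (fun j => h j z) i

/-- the algebra of the entire functions -/
def Ent : Subalgebra ℂ (ℂ → ℂ) where
  carrier := {a | Differentiable ℂ a}
  mul_mem' := fun {a b} ha hb => ha.mul hb
  add_mem' := fun {a b} ha hb => ha.add hb
  algebraMap_mem' := fun c => differentiable_const _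

theorem hEnt : DSt Ent := ⟨fun _ ha => ha, fun _ ha => Differentiable.deriv ha⟩

theorem tan_twist (hF : ∀ j, IsForm (F j)) {x v : Fin (n + 1) → ℂ} (hx : ∀ j, eval x (F j) = 0)
    (hv : Tan F x v) (c a : ℂ) : Tan F (c • x) (c • (v + a • x)) := by
  intro j
  obtain ⟨d, hd⟩ := hF j
  rcases Nat.eq_zero_or_pos d with rfl | hd0
  · have h0 : ∀ k, pderiv k (F j) = 0 := by
      intro k
      have h1 : F j = C (coeff 0 (F j)) := by
        rw [← totalDegree_eq_zero_iff_eq_C]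
        by_cases hz : F j = 0
        · rw [hz, totalDegree_zero]
        · exact hd.totalDegree hz
      rw [h1, pderiv_C]
    simp [h0]
  · have h1 : ∀ k, eval (c • x) (pderiv k (F j)) = c ^ (d - 1) * eval x (pderiv k (F j)) := by
      intro k
      exact eval_hom hd.pderiv c x
    have h2 : ∑ k, eval x (pderiv k (F j)) * x k = 0 := by
      have h3 := hasDerivAt_eval' (γ := fun t : ℂ => (1 + t) • x) (γ' := x) (z := 0) (fun l => by
        simp only [Pi.smul_apply, smul_eq_mul]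
        have := ((hasDerivAt_id (0 : ℂ)).const_add 1).mul_const (x l)
        simpa using this) (F j)
      have h4 : (fun t : ℂ => eval ((1 + t) • x) (F j)) = fun _ => 0 := by
        funext t
        rw [eval_hom hd, hx j, mul_zero]
      have h5 := h3.deriv
      rw [h4, deriv_const, add_zero, one_smul] at h5
      exact h5.symm
    simp only [h1, Pi.smul_apply, Pi.add_apply, smul_eq_mul]
    have h3 := hv j
    calc ∑ k, c ^ (d - 1) * eval x (pderiv k (F j)) * (c * (v k + a * x k)) =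
        c ^ (d - 1) * c * (∑ k, eval x (pderiv k (F j)) * v k +
          a * ∑ k, eval x (pderiv k (F j)) * x k) := by
          rw [Finset.mul_sum, ← Finset.sum_add_distrib, Finset.mul_sum]
          exact Finset.sum_congr rfl fun k _ => by ring
      _ = 0 := by rw [h3, h2]; ring

theorem cc_Tg (hF : ∀ j, IsForm (F j)) {i k : Fin (n + 1)}
    {a : Fin (n + 1) ⊕ Fin (n + 1) → ℂ} (ha : a ∈ Tg F i) (hk : a (Sum.inl k) ≠ 0) :
    cc k a ∈ Tg F k := by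
  refine ⟨?_, ?_, ?_, ?_⟩
  · rw [cc_inl, div_self hk]
  · rw [cc_inr]
    ring
  · intro j
    obtain ⟨d, hd⟩ := hF j
    rw [cc_comp_inl, eval_hom hd, ha.2.2.1 j, mul_zero]
  · rw [cc_comp_inl, cc_comp_inr k hk]
    exact tan_twist hF ha.2.2.1 ha.2.2.2 _ _

theorem cc_Ep (hF : ∀ j, IsForm (F j)) (hσ : ∀ j, SymForm F (m j) (σ j)) {c : κ → ℂ}
    {i k : Fin (n + 1)} {a : Fin (n + 1) ⊕ Fin (n + 1) → ℂ} (ha : a ∈ Ep F σ c i)
    (hk : a (Sum.inl k) ≠ 0) : cc k a ∈ Ep F σ c k :=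
  ⟨cc_Tg hF ha.1 hk, fun j => by rw [sg_cc hσ ha.1 hk, ha.2 j]⟩

/-- rescaling of the tangent vector -/
noncomputable def sc (c : ℂ) (a : Fin (n + 1) ⊕ Fin (n + 1) → ℂ) :
    Fin (n + 1) ⊕ Fin (n + 1) → ℂ :=
  Sum.elim (a ∘ Sum.inl) (c • (a ∘ Sum.inr))

theorem sc_sc {c d : ℂ} (h : c * d = 1) (a : Fin (n + 1) ⊕ Fin (n + 1) → ℂ) :
    sc c (sc d a) = a := by
  funext l
  rcases l with l | l
  · rfl
  · simp only [sc, Sum.elim_inr, Pi.smul_apply, Function.comp_apply, smul_eq_mul]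
    rw [← mul_assoc, h, one_mul]

theorem sc_Ep (hσ : ∀ j, SymForm F (m j) (σ j)) {c : κ → ℂ}
    {i : Fin (n + 1)} {a : Fin (n + 1) ⊕ Fin (n + 1) → ℂ} (ha : a ∈ Ep F σ c i) (d : ℂ) :
    sc d a ∈ Ep F σ (fun j => d ^ m j * c j) i := by
  refine ⟨⟨ha.1.1, ?_, ha.1.2.2.1, ?_⟩, fun j => ?_⟩
  · change d * a (Sum.inr i) = 0
    rw [ha.1.2.1, mul_zero]
  · exact ha.1.2.2.2.smul d
  · unfold sg
    have h1 := (hσ j).deg _ (Tg.cone ha.1) _ ha.1.2.2.2 d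
    have h2 := ha.2 j
    unfold sg at h2
    rw [h2] at h1
    exact h1

/-- uniqueness of solutions -/
theorem sol_unique {τ : Type} [Finite τ] {S : Subalgebra ℂ (ℂ → ℂ)} {D : Dr (τ ⊕ S)}
    {γ γ' : ℂ → τ ⊕ S → ℂ} {z : ℂ} (h : SolAt D γ z) (h' : SolAt D γ' z) (h0 : γ z = γ' z) :
    ∀ᶠ w in 𝓝 z, ∀ l, γ w (Sum.inl l) = γ' w (Sum.inl l) := by
  refine Filter.eventually_all.2 fun l => ?_
  have ha : ∀ {γ : ℂ → τ ⊕ S → ℂ}, SolAt D γ z → AnalyticAt ℂ (fun w => γ w (Sum.inl l)) z := by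
    intro γ h
    rw [Complex.analyticAt_iff_eventually_differentiableAt]
    filter_upwards [h] with w hw
    exact (hw (Sum.inl l)).differentiableAt
  refine eq_of_iter (ha h) (ha h') fun k => ?_
  have h2 := h.iter k (X (Sum.inl l))
  have h3 := h'.iter k (X (Sum.inl l))
  simp only [eval_X] at h2 h3
  rw [h2, h3, h0]

/-- the flow is a solution -/
theorem RadT.solAt {τ : Type} [Fintype τ] {S : Subalgebra ℂ (ℂ → ℂ)} {hS : DSt S} {D : Dr (τ ⊕ S)}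
    {z0 : ℂ} {r B ρ : ℝ} (h : RadT hS D z0 r B ρ) {b : ℂ} (hb : ‖b - z0‖ ≤ r) {a : τ → ℂ}
    (ha : ‖a‖ ≤ B) {z : ℂ} (hz : ‖z - b‖ < ρ) :
    SolAt D (fun w => fl D (pt a b) (w - b)) z := by
  have h1 : ∀ᶠ w in 𝓝 z, ‖w - b‖ < ρ :=
    (continuous_norm.comp (continuous_id.sub continuous_const)).continuousAt.eventually_lt_const hz
  filter_upwards [h1] with w hw l
  have h2 := (h.hasDerivAt_fl hb ha hw l).comp_sub_const w b
  exact h2

/-- a system which is good at a point -/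
def GoodSys (F : ι → MvPolynomial (Fin (n + 1)) ℂ)
    (σ : κ → (Fin (n + 1) → ℂ) → (Fin (n + 1) → ℂ) → ℂ) (ht : κ → Ent) (ϖ : Ent) (z1 : ℂ)
    (ρ : ℝ) (i : Fin (n + 1)) (a : Fin (n + 1) ⊕ Fin (n + 1) → ℂ) (w : ℂ) : Prop :=
  ∃ (q : Rt n Ent) (D : Dr (Vq n ⊕ Ent)) (B : ℝ), RadT hEnt D z1 1 B ρ ∧
    eval (pt a w) q ≠ 0 ∧ ‖a‖ < B ∧ ‖(eval (pt (S := Ent) a w) q)⁻¹‖ < B ∧
    (∀ k, D (X (Sum.inl (Sum.inl (Sum.inl k)))) =
        X (Sum.inr ϖ) * X (Sum.inl (Sum.inl (Sum.inr k)))) ∧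
    ∀ (γ : ℂ → Fin (n + 1) ⊕ Fin (n + 1) → ℂ) (z : ℂ),
        (∀ᶠ w in 𝓝 z, γ w ∈ Ep F σ (fun j => (ht j).1 w) i ∧
          (∀ k, HasDerivAt (fun w => γ w (Sum.inl k)) (ϖ.1 w * γ w (Sum.inr k)) w) ∧
          (∀ k, DifferentiableAt ℂ (fun w => γ w (Sum.inr k)) w) ∧
            eval (pt (S := Ent) (γ w) w) q ≠ 0) →
        SolAt D (fun w => pt (Sum.elim (γ w) fun _ => (eval (pt (S := Ent) (γ w) w) q)⁻¹) w) z

theorem GoodSys.mono {ht : κ → Ent} {ϖ : Ent} {z1 : ℂ} {ρ ρ' : ℝ} {i : Fin (n + 1)}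
    {a : Fin (n + 1) ⊕ Fin (n + 1) → ℂ} {w : ℂ} (h : GoodSys F σ ht ϖ z1 ρ i a w) (h0 : 0 < ρ')
    (hρ : ρ' ≤ ρ) : GoodSys F σ ht ϖ z1 ρ' i a w := by
  obtain ⟨q, D, B, h1, h2⟩ := h
  exact ⟨q, D, B, h1.mono h0 hρ, h2⟩

theorem exists_good [Finite κ] (hσ : ∀ j, SymForm F (m j) (σ j))
    (hm : ∀ j, 0 < m j) (him : Immersive F σ) (ht : κ → Ent) (ϖ : Ent) {z1 : ℂ}
    (hne : ∃ j, (ht j).1 z1 ≠ 0) (i : Fin (n + 1)) :
    ∃ r > 0, ∃ ρ > 0, ∀ w, ‖w - z1‖ ≤ r → ∀ a ∈ Ep F σ (fun j => (ht j).1 w) i,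
      a ∘ Sum.inl ∈ Kc i → GoodSys F σ ht ϖ z1 ρ i a w := by
  cases nonempty_fintype κ
  obtain ⟨j0, hj0⟩ := hne
  have hc : ∀ j, Continuous (ht j).1 := fun j => (ht j).2.continuous
  obtain ⟨r, hr, hrj⟩ : ∃ r > 0, ∀ w, ‖w - z1‖ ≤ r → (ht j0).1 w ≠ 0 := by
    obtain ⟨r, hr, h1⟩ := Metric.eventually_nhds_iff_ball.1 ((hc j0).continuousAt.eventually_ne hj0)
    refine ⟨r / 2, by positivity, fun w hw => h1 w ?_⟩
    rw [mem_ball_iff_norm]
    linarith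
  -- bounds
  choose R hR using fun j => (isCompact_closedBall z1 r).exists_bound_of_continuousOn
    (hc j).continuousOn
  obtain ⟨R', hR'⟩ := Finite.exists_le R
  obtain ⟨C0, hC0⟩ := exists_bound_v hm hσ him i R'
  set K : Set ((Fin (n + 1) ⊕ Fin (n + 1) → ℂ) × ℂ) :=
    {p | p ∈ Tb F i C0 ×ˢ closedBall z1 r ∧ ∀ j, sg σ j p.1 - (ht j).1 p.2 = 0} with hK
  have hKc : IsCompact K := by
    have h1 : IsCompact (Tb F i C0 ×ˢ closedBall z1 r) :=
      (isCompact_Tb i C0).prod (isCompact_closedBall z1 r)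
    have h2 : K = ⋂ j : Option κ, match j with
        | none => Tb F i C0 ×ˢ closedBall z1 r
        | some j => Tb F i C0 ×ˢ closedBall z1 r ∩ (fun p => sg σ j p.1 - (ht j).1 p.2) ⁻¹' {0} := by
      ext p
      simp only [hK, mem_iInter, mem_setOf_eq]
      constructor
      · rintro ⟨h3, h4⟩ (_ | j)
        · exact h3
        · exact ⟨h3, h4 j⟩
      · intro h3
        exact ⟨h3 none, fun j => (h3 (some j)).2⟩
    refine h1.of_isClosed_subset ?_ fun p hp => hp.1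
    rw [h2]
    refine isClosed_iInter fun j => ?_
    rcases j with _ | j
    · exact h1.isClosed
    · refine ContinuousOn.preimage_isClosed_of_isClosed ?_ h1.isClosed isClosed_singleton
      refine ContinuousOn.sub ?_ ((hc j).comp continuous_snd).continuousOn
      exact ((continuousOn_sg hσ j i).mono fun a ha => ha.1).comp continuousOn_fst
        fun p hp => hp.1
  have key : ∃ ρ > 0, ∀ p ∈ K, GoodSys F σ ht ϖ z1 ρ i p.1 p.2 := by
    refine hKc.induction_on (p := fun s => ∃ ρ > 0, ∀ p ∈ s, GoodSys F σ ht ϖ z1 ρ i p.1 p.2)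
      ⟨1, one_pos, fun p hp => absurd hp (notMem_empty p)⟩ (fun s t hst ⟨ρ, hρ, h1⟩ =>
        ⟨ρ, hρ, fun p hp => h1 p (hst hp)⟩) ?_ ?_
    · rintro s t ⟨ρ, hρ, h1⟩ ⟨ρ', hρ', h1'⟩
      refine ⟨min ρ ρ', lt_min hρ hρ', fun p hp => ?_⟩
      rcases hp with hp | hp
      · exact (h1 p hp).mono (lt_min hρ hρ') (min_le_left _ _)
      · exact (h1' p hp).mono (lt_min hρ hρ') (min_le_right _ _)
    · rintro ⟨a, w⟩ ⟨⟨ha, hw⟩, haw⟩
      have haE : a ∈ Ep F σ (fun j => (ht j).1 w) i := ⟨ha.1, fun j => sub_eq_zero.1 (haw j)⟩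
      obtain ⟨q, D, hq, hTD, hD1, hD2⟩ := exists_sys hEnt hσ hm him (h := ht) ϖ (z1 := w)
        ⟨j0, hrj w (mem_closedBall_iff_norm.1 hw)⟩ haE
      set c : ℝ := ‖eval (pt (S := Ent) a w) q‖ with hcdef
      have hc0 : 0 < c := norm_pos_iff.2 hq
      set B : ℝ := max (‖a‖ + 1) (2 / c) + 1 with hB
      have hB0 : 0 ≤ B := by
        have := le_max_left (‖a‖ + 1) (2 / c)
        have := norm_nonneg a
        linarith
      obtain ⟨ρ, hρ⟩ := exists_radT (hS := hEnt) hTD z1 zero_le_one hB0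
      refine ⟨_, mem_nhdsWithin_of_mem_nhds (s := {p : (Fin (n + 1) ⊕ Fin (n + 1) → ℂ) × ℂ |
        c / 2 < ‖eval (pt (S := Ent) p.1 p.2) q‖ ∧ ‖p.1‖ < ‖a‖ + 1}) ?_, ρ, hρ.pos, ?_⟩
      · have h1 : ∀ᶠ p : (Fin (n + 1) ⊕ Fin (n + 1) → ℂ) × ℂ in 𝓝 (a, w),
            c / 2 < ‖eval (pt (S := Ent) p.1 p.2) q‖ :=
          (cont_pt hEnt q).norm.continuousAt.eventually_const_lt (by
            change c / 2 < c
            linarith)
        have h2 : ∀ᶠ p : (Fin (n + 1) ⊕ Fin (n + 1) → ℂ) × ℂ in 𝓝 (a, w), ‖p.1‖ < ‖a‖ + 1 :=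
          (continuous_norm.comp continuous_fst).continuousAt.eventually_lt_const (by
            change ‖a‖ < ‖a‖ + 1
            linarith)
        exact h1.and h2
      · rintro ⟨a', w'⟩ ⟨h1, h2⟩
        simp only at h1 h2
        have h3 : 0 < ‖eval (pt (S := Ent) a' w') q‖ := by
          have : 0 < c / 2 := by positivity
          linarith
        refine ⟨q, D, B, hρ, norm_pos_iff.1 h3, ?_, ?_, hD1, hD2⟩
        · rw [hB]
          linarith [le_max_left (‖a‖ + 1) (2 / c)]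
        · rw [hB, norm_inv]
          have h4 : ‖eval (pt (S := Ent) a' w') q‖⁻¹ ≤ 2 / c := by
            rw [inv_le_comm₀ h3 (by positivity), inv_div]
            exact h1.le
          linarith [le_max_right (‖a‖ + 1) (2 / c)]
  obtain ⟨ρ, hρ, h1⟩ := key
  refine ⟨r, hr, ρ, hρ, fun w hw a ha haK => h1 (a, w) ⟨⟨⟨ha.1, haK, ?_⟩, ?_⟩, fun j => ?_⟩⟩
  · refine hC0 a ha.1 haK fun j => ?_
    rw [ha.2 j]
    exact (hR j w (mem_closedBall_iff_norm.2 hw)).trans (hR' j)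
  · exact mem_closedBall_iff_norm.2 hw
  · exact sub_eq_zero.2 (ha.2 j)

end Run7.h418.E
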