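import Pool.Agent.Run7.h418.E.Loc
import Pool.Agent.Run7.h418.Fam

/-!
Local flows of the curves with given values of the symmetric differentials.
-/

set_option autoImplicit false

open Metric Set Filter Topology MvPolynomial

namespace Run7.h418.E

open Pool.Agent.Y190.OP Pool.Agent.W602.GT Pool.Agent.N155

variable {n : ℕ} {ι κ : Type} {F : ι → MvPolynomial (Fin (n + 1)) ℂ}
  {σ : κ → (Fin (n + 1) → ℂ) → (Fin (n + 1) → ℂ) → ℂ} {m : κ → ℕ}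

theorem Sl.mono {h : κ → ℂ → ℂ} {U V : Set ℂ} {φ : ℂ → Mat (n + 1)} (hφ : Sl F σ h U φ)
    (hV : V ⊆ U) : Sl F σ h V φ := ⟨hφ.1.mono hV, fun z hz => hφ.2 z (hV hz)⟩

/-- curves given by affine coordinates -/
theorem sl_of_chart (hF : ∀ j, IsForm (F j)) (hσ : ∀ j, SymForm F (m j) (σ j)) {h : κ → ℂ → ℂ}
    {U : Set ℂ} (hU : IsOpen U) {i : Fin (n + 1)} {γ : ℂ → Fin (n + 1) ⊕ Fin (n + 1) → ℂ}
    (hγ : ∀ z ∈ U, γ z ∈ Ep F σ (fun j => h j z) i)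
    (hd : ∀ z ∈ U, ∀ k, HasDerivAt (fun w => γ w (Sum.inl k)) (γ z (Sum.inr k)) z) :
    Sl F σ h U (fun z => Phi (γ z ∘ Sum.inl)) ∧
      ∀ z ∈ U, Phi (γ z ∘ Sum.inl) i i ≠ 0 ∧ pr i (fun z => Phi (γ z ∘ Sum.inl)) z = γ z := by
  have hne : ∀ z ∈ U, γ z ∘ Sum.inl ≠ 0 := by
    intro z hz h0
    have h1 := (hγ z hz).1.1
    have h2 := congrFun h0 i
    rw [Function.comp_apply, h1] at h2
    exact one_ne_zero h2
  have hdiag : ∀ z ∈ U, Phi (γ z ∘ Sum.inl) i i ≠ 0 := by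
    intro z hz
    rw [Phi_diag_ne (hne z hz), Function.comp_apply, (hγ z hz).1.1]
    exact one_ne_zero
  have hch : ∀ z ∈ U, chart i (Phi (γ z ∘ Sum.inl)) = γ z ∘ Sum.inl := by
    intro z hz
    have h1 : (γ z ∘ Sum.inl) i = 1 := (hγ z hz).1.1
    rw [chart_Phi (hne z hz) (by rw [h1]; exact one_ne_zero), h1, inv_one, one_smul]
  have hol : HolP U (fun z => Phi (γ z ∘ Sum.inl)) := by
    intro z hz
    refine ⟨U, fun w => γ w ∘ Sum.inl, hU, hz, fun w hw => ?_, fun w hw => ⟨hne w hw, rfl⟩⟩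
    refine DifferentiableAt.differentiableWithinAt ?_
    exact differentiableAt_pi.2 fun k => (hd w hw k).differentiableAt
  have hpr : ∀ z ∈ U, pr i (fun z => Phi (γ z ∘ Sum.inl)) z = γ z := by
    intro z hz
    funext l
    rcases l with k | k
    · rw [pr_inl, hch z hz]
      rfl
    · have h1 := hasDerivAt_chart hol hz (hdiag z hz) k
      have h2 := hd z hz k
      have h3 : (fun w => pr i (fun z => Phi (γ z ∘ Sum.inl)) w (Sum.inl k)) =ᶠ[𝓝 z]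
          fun w => γ w (Sum.inl k) := by
        filter_upwards [hU.mem_nhds hz] with w hw
        rw [pr_inl, hch w hw]
        rfl
      rw [← h1.deriv, h3.deriv_eq, h2.deriv]
  refine ⟨⟨hol, fun z hz k hk => ?_⟩, fun z hz => ⟨hdiag z hz, hpr z hz⟩⟩
  obtain ⟨h1, h2⟩ := pr_cc hU hol hz (hdiag z hz) hk
  rw [h2]
  rw [hpr z hz] at h1 ⊢
  exact cc_Ep hF hσ (hγ z hz) h1

/-- the local flow at the time `b` exists for times less than `ρ` -/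
def LF (F : ι → MvPolynomial (Fin (n + 1)) ℂ)
    (σ : κ → (Fin (n + 1) → ℂ) → (Fin (n + 1) → ℂ) → ℂ) (h : κ → ℂ → ℂ) (b : ℂ) (ρ : ℝ) : Prop :=
  ∀ i, ∀ a0 ∈ Ep F σ (fun j => h j b) i,
    ∃ (i' : Fin (n + 1)) (Γ : (Fin (n + 1) ⊕ Fin (n + 1) → ℂ) → ℂ →
      (Fin (n + 1) ⊕ Fin (n + 1) → ℂ)) (N : Set (Fin (n + 1) ⊕ Fin (n + 1) → ℂ)), N ∈ 𝓝 a0 ∧
      (∀ a ∈ N, ∀ z ∈ ball b ρ, DifferentiableAt ℂ
        (fun p : (Fin (n + 1) ⊕ Fin (n + 1) → ℂ) × ℂ => Γ p.1 p.2) (a, z)) ∧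
      ∀ a ∈ N, ∀ (V : Set ℂ) (φ : ℂ → Mat (n + 1)), IsOpen V → b ∈ V → Sl F σ h V φ →
        φ b i i ≠ 0 → pr i φ b = a →
          Sl F σ h (ball b ρ) (fun z => Phi (Γ a z ∘ Sum.inl)) ∧
          (fun z => Phi (Γ a z ∘ Sum.inl)) =ᶠ[𝓝 b] φ ∧
          ∀ z ∈ ball b ρ, Phi (Γ a z ∘ Sum.inl) i' i' ≠ 0 ∧
            pr i' (fun z => Phi (Γ a z ∘ Sum.inl)) z = Γ a z

theorem LF.mono {h : κ → ℂ → ℂ} {b : ℂ} {ρ ρ' : ℝ} (hL : LF F σ h b ρ) (hρ : ρ' ≤ ρ) :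
    LF F σ h b ρ' := by
  have hsub : ball b ρ' ⊆ ball b ρ := ball_subset_ball hρ
  intro i a0 ha0
  obtain ⟨i', Γ, N, hN, h1, h2⟩ := hL i a0 ha0
  refine ⟨i', Γ, N, hN, fun a ha z hz => h1 a ha z (hsub hz), fun a ha V φ hV hbV hφ hi hp => ?_⟩
  obtain ⟨h3, h4, h5⟩ := h2 a ha V φ hV hbV hφ hi hp
  exact ⟨h3.mono hsub, h4, fun z hz => h5 z (hsub hz)⟩

/-- **Local flows** -/
theorem loc [Finite κ] (hF : ∀ j, IsForm (F j)) (hσ : ∀ j, SymForm F (m j) (σ j))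
    (hm : ∀ j, 0 < m j) (him : Immersive F σ) {h ht : κ → ℂ → ℂ}
    (hht : ∀ j, Differentiable ℂ (ht j)) {z1 : ℂ} {k : ℕ}
    (hk : ∀ j z, h j z = (z - z1) ^ (k * m j) * ht j z) (hne : ∃ j, ht j z1 ≠ 0) :
    ∃ ρ > 0, ∀ b ∈ ball z1 ρ, (∃ j, h j b ≠ 0) → LF F σ h b ρ := by
  set htE : κ → Ent := fun j => ⟨ht j, hht j⟩ with hhtE
  set ϖ : Ent := ⟨fun z => (z - z1) ^ k, by
    change Differentiable ℂ fun z : ℂ => (z - z1) ^ k
    fun_prop⟩ with hϖ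
  have hϖz : ∀ z, ϖ.1 z = (z - z1) ^ k := fun z => rfl
  have hhd : ∀ j, Differentiable ℂ (h j) := by
    intro j
    have h1 : h j = fun z => (z - z1) ^ (k * m j) * ht j z := funext (hk j)
    rw [h1]
    have := hht j
    fun_prop
  set hE : κ → Ent := fun j => ⟨h j, hhd j⟩ with hhE
  choose r hr ρ hρ hgood using fun i => exists_good (F := F) hσ hm him htE ϖ (z1 := z1) hne i
  obtain ⟨r0, hr0, hr0i⟩ : ∃ r0 > 0, ∀ i, r0 ≤ r i := by
    obtain ⟨i, hi⟩ := Finite.exists_min r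
    exact ⟨r i, hr i, hi⟩
  obtain ⟨ρ0, hρ0, hρ0i⟩ : ∃ ρ0 > 0, ∀ i, ρ0 ≤ ρ i := by
    obtain ⟨i, hi⟩ := Finite.exists_min ρ
    exact ⟨ρ i, hρ i, hi⟩
  set ρ1 : ℝ := min (min r0 ρ0) (1 / 2) with hρ1
  have hρ1p : 0 < ρ1 := lt_min (lt_min hr0 hρ0) (by norm_num)
  have hρ1r : ρ1 ≤ r0 := (min_le_left _ _).trans (min_le_left _ _)
  have hρ1ρ : ρ1 ≤ ρ0 := (min_le_left _ _).trans (min_le_right _ _)
  have hρ12 : ρ1 ≤ 1 / 2 := min_le_right _ _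
  refine ⟨ρ1, hρ1p, fun b hb hbz i a0 ha0 => ?_⟩
  have hb1 : ‖b - z1‖ < ρ1 := mem_ball_iff_norm.1 hb
  have hϖb : ϖ.1 b ≠ 0 := by
    obtain ⟨j, hj⟩ := hbz
    intro h0
    apply hj
    rw [hk j b, pow_mul, ← hϖz b, h0, zero_pow (hm j).ne', zero_mul]
  -- the chart
  have ha0ne : a0 ∘ Sum.inl ≠ 0 := (mem_cone.1 (Tg.cone ha0.1)).1
  obtain ⟨i', hi'1, hi'2⟩ := exists_max (M := Phi (a0 ∘ Sum.inl)) ⟨_, ha0ne, rfl⟩
  have ha0i' : a0 (Sum.inl i') ≠ 0 := (Phi_diag_ne ha0ne).1 hi'1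
  rw [chart_Phi ha0ne ha0i'] at hi'2
  have hK0 : cc i' a0 ∘ Sum.inl ∈ Kc i' := by
    rw [cc_comp_inl]
    exact hi'2
  -- the rescaled coordinates
  set til : (Fin (n + 1) ⊕ Fin (n + 1) → ℂ) → (Fin (n + 1) ⊕ Fin (n + 1) → ℂ) :=
    fun a => sc (ϖ.1 b)⁻¹ (cc i' a) with htil
  have hscale : ∀ (w : ℂ) (l : Fin (n + 1)) (a : Fin (n + 1) ⊕ Fin (n + 1) → ℂ), ϖ.1 w ≠ 0 →
      a ∈ Ep F σ (fun j => h j w) l → sc (ϖ.1 w)⁻¹ a ∈ Ep F σ (fun j => (htE j).1 w) l := by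
    intro w l a hw ha
    have h1 := sc_Ep hσ ha (ϖ.1 w)⁻¹
    have h2 : (fun j => (ϖ.1 w)⁻¹ ^ m j * h j w) = fun j => (htE j).1 w := by
      funext j
      rw [hk j w, pow_mul, ← hϖz w, ← mul_assoc, inv_pow, inv_mul_cancel₀ (pow_ne_zero _ hw),
        one_mul]
    rwa [h2] at h1
  have htil0 : til a0 ∈ Ep F σ (fun j => (htE j).1 b) i' :=
    hscale b i' _ hϖb (cc_Ep hF hσ ha0 ha0i')
  obtain ⟨q, D, B, hrad, hq0, haB, hqB, hD1, hD2⟩ := (hgood i' b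
    (hb1.le.trans (hρ1r.trans (hr0i i'))) (til a0) htil0 hK0).mono hρ1p (hρ1ρ.trans (hρ0i i'))
  have hb2 : ‖b - z1‖ ≤ 1 := by linarith
  -- the initial values
  have htild : ∀ a : Fin (n + 1) ⊕ Fin (n + 1) → ℂ, a (Sum.inl i') ≠ 0 →
      DifferentiableAt ℂ til a := by
    intro a ha
    have h1 : DifferentiableAt ℂ (fun a => cc i' a) a :=
      diff_cc (g := fun a => a) differentiableAt_id ha
    refine differentiableAt_pi.2 fun l => ?_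
    have h2 := fun l => differentiableAt_pi.1 h1 l
    rcases l with l | l
    · exact h2 (Sum.inl l)
    · exact (h2 (Sum.inr l)).const_mul _
  set ini : (Fin (n + 1) ⊕ Fin (n + 1) → ℂ) → Vq n → ℂ :=
    fun a => Sum.elim (til a) fun _ => (eval (pt (S := Ent) (til a) b) q)⁻¹ with hini
  set N : Set (Fin (n + 1) ⊕ Fin (n + 1) → ℂ) := {a | a (Sum.inl i') ≠ 0 ∧
    eval (pt (S := Ent) (til a) b) q ≠ 0 ∧ ‖til a‖ < B ∧
      ‖(eval (pt (S := Ent) (til a) b) q)⁻¹‖ < B} with hN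
  have hqd : ∀ a : Fin (n + 1) ⊕ Fin (n + 1) → ℂ, a (Sum.inl i') ≠ 0 →
      DifferentiableAt ℂ (fun a => eval (pt (S := Ent) (til a) b) q) a := fun a ha =>
    diff_pt hEnt (fun l => differentiableAt_pi.1 (htild a ha) l) (by fun_prop) q
  have hNn : N ∈ 𝓝 a0 := by
    have h1 : ∀ᶠ a : Fin (n + 1) ⊕ Fin (n + 1) → ℂ in 𝓝 a0, a (Sum.inl i') ≠ 0 :=
      (continuous_apply (Sum.inl i')).continuousAt.eventually_ne ha0i'
    have h2 : ∀ᶠ a in 𝓝 a0, eval (pt (S := Ent) (til a) b) q ≠ 0 :=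
      (hqd a0 ha0i').continuousAt.eventually_ne hq0
    have h3 : ∀ᶠ a in 𝓝 a0, ‖til a‖ < B :=
      (htild a0 ha0i').continuousAt.norm.eventually_lt_const haB
    have h4 : ∀ᶠ a in 𝓝 a0, ‖(eval (pt (S := Ent) (til a) b) q)⁻¹‖ < B :=
      ((hqd a0 ha0i').continuousAt.inv₀ hq0).norm.eventually_lt_const hqB
    filter_upwards [h1, h2, h3, h4] with a g1 g2 g3 g4
    exact ⟨g1, g2, g3, g4⟩
  have hinid : ∀ a ∈ N, DifferentiableAt ℂ ini a := by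
    intro a ha
    refine differentiableAt_pi.2 fun l => ?_
    rcases l with l | l
    · exact differentiableAt_pi.1 (htild a ha.1) l
    · exact (hqd a ha.1).inv ha.2.1
  have hBp : 0 < B := (norm_nonneg _).trans_lt haB
  have hiniB : ∀ a ∈ N, ‖ini a‖ < B := by
    intro a ha
    rw [pi_norm_lt_iff hBp]
    rintro (l | l)
    · exact (norm_le_pi_norm (til a) l).trans_lt ha.2.2.1
    · exact ha.2.2.2
  set P : (Fin (n + 1) ⊕ Fin (n + 1) → ℂ) → ℂ → Vq n ⊕ Ent → ℂ :=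
    fun a z => fl D (pt (ini a) b) (z - b) with hP
  set Γ : (Fin (n + 1) ⊕ Fin (n + 1) → ℂ) → ℂ → (Fin (n + 1) ⊕ Fin (n + 1) → ℂ) :=
    fun a z => Sum.elim (fun l => P a z (Sum.inl (Sum.inl (Sum.inl l))))
      (fun l => ϖ.1 z * P a z (Sum.inl (Sum.inl (Sum.inr l)))) with hΓ
  have hPd : ∀ a ∈ N, ∀ z ∈ ball b ρ1, ∀ l, DifferentiableAt ℂ
      (fun p : (Fin (n + 1) ⊕ Fin (n + 1) → ℂ) × ℂ => P p.1 p.2 (Sum.inl l)) (a, z) := by
    intro a ha z hz l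
    have h1 := hrad.diff_gs (X (Sum.inl l)) hb2 (hiniB a ha) (t := z - b)
      (mem_ball_iff_norm.1 hz)
    have h2 : DifferentiableAt ℂ (fun p : (Fin (n + 1) ⊕ Fin (n + 1) → ℂ) × ℂ =>
        (ini p.1, p.2 - b)) (a, z) := by
      refine DifferentiableAt.prodMk ?_ (by fun_prop)
      exact DifferentiableAt.comp (g := ini)
        (f := fun p : (Fin (n + 1) ⊕ Fin (n + 1) → ℂ) × ℂ => p.1) (a, z) (hinid a ha)
        (by fun_prop)
    exact DifferentiableAt.comp (g := fun q : (Vq n → ℂ) × ℂ => gs D (X (Sum.inl l)) (pt q.1 b) q.2)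
      (f := fun p : (Fin (n + 1) ⊕ Fin (n + 1) → ℂ) × ℂ => (ini p.1, p.2 - b)) (a, z) h1 h2
  have hϖd : Differentiable ℂ ϖ.1 := ϖ.2
  have hhol : ∀ a ∈ N, ∀ z ∈ ball b ρ1, ∀ l,
      HasDerivAt (fun w => P a w l) (eval (P a z) (D (X l))) z := by
    intro a ha z hz l
    exact (hrad.hasDerivAt_fl hb2 (hiniB a ha).le (mem_ball_iff_norm.1 hz) l).comp_sub_const z b
  have htime : ∀ a z, P a z = pt (fun l => P a z (Sum.inl l)) z := by
    intro a z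
    have h1 := hrad.time (ini a) b (z - b)
    rw [add_sub_cancel] at h1
    exact h1
  refine ⟨i', Γ, N, hNn, fun a ha z hz => ?_, fun a ha V φ hV hbV hφ hφi hφa => ?_⟩
  · refine differentiableAt_pi.2 fun l => ?_
    rcases l with l | l
    · exact hPd a ha z hz (Sum.inl (Sum.inl l))
    · refine DifferentiableAt.mul ?_ (hPd a ha z hz (Sum.inl (Sum.inr l)))
      exact (hϖd z).comp (a, z) differentiableAt_snd
  -- the solution `φ`
  have hai : pr i φ b (Sum.inl i') ≠ 0 := by rw [hφa]; exact ha.1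
  have hφi' : φ b i' i' ≠ 0 := diag_of_inl (hφ.1.mem_PM hbV) hφi hai
  obtain ⟨-, hcc⟩ := pr_cc hV hφ.1 hbV hφi hφi'
  rw [hφa] at hcc
  set γ : ℂ → Fin (n + 1) ⊕ Fin (n + 1) → ℂ := fun w => sc (ϖ.1 w)⁻¹ (pr i' φ w) with hγ
  have hγb : γ b = til a := by
    simp only [hγ, htil]
    rw [hcc]
  have hev1 : ∀ᶠ w in 𝓝 b, w ∈ V ∧ φ w i' i' ≠ 0 := ev_holP hV hbV hφ.1 hφi'
  have hev2 : ∀ᶠ w in 𝓝 b, ϖ.1 w ≠ 0 := hϖd.continuous.continuousAt.eventually_ne hϖb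
  have hγd : ∀ w, w ∈ V → φ w i' i' ≠ 0 → ϖ.1 w ≠ 0 → ∀ l,
      DifferentiableAt ℂ (fun w => γ w l) w := by
    intro w hwV hwi hwϖ l
    rcases l with l | l
    · exact (hasDerivAt_chart hφ.1 hwV hwi l).differentiableAt
    · refine DifferentiableAt.mul ((hϖd w).inv hwϖ) ?_
      exact (analyticAt_pr hV hφ.1 hwV hwi (Sum.inr l)).differentiableAt
  have hsolφ : SolAt D (fun w => pt (Sum.elim (γ w) fun _ =>
      (eval (pt (S := Ent) (γ w) w) q)⁻¹) w) b := by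
    apply hD2
    have hq' : ∀ᶠ w in 𝓝 b, eval (pt (S := Ent) (γ w) w) q ≠ 0 := by
      have h1 : DifferentiableAt ℂ (fun w => eval (pt (S := Ent) (γ w) w) q) b :=
        diff_pt hEnt (hγd b hbV hφi' hϖb) differentiableAt_id q
      refine h1.continuousAt.eventually_ne ?_
      rw [hγb]
      exact ha.2.1
    filter_upwards [hev1, hev2, hq'] with w hw1 hw2 hw3
    refine ⟨hscale w i' _ hw2 (hφ.2 w hw1.1 i' hw1.2), fun l => ?_, fun l =>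
      hγd w hw1.1 hw1.2 hw2 (Sum.inr l), hw3⟩
    have h1 := hasDerivAt_chart hφ.1 hw1.1 hw1.2 l
    have h2 : ϖ.1 w * γ w (Sum.inr l) = pr i' φ w (Sum.inr l) := by
      change ϖ.1 w * ((ϖ.1 w)⁻¹ * pr i' φ w (Sum.inr l)) = _
      rw [← mul_assoc, mul_inv_cancel₀ hw2, one_mul]
    rw [h2]
    exact h1
  have hsolP : SolAt D (fun w => P a w) b :=
    hrad.solAt hb2 (hiniB a ha).le (by rw [sub_self, norm_zero]; exact hρ1p)
  have hinit : pt (Sum.elim (γ b) fun _ => (eval (pt (S := Ent) (γ b) b) q)⁻¹) b = P a b := by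
    rw [hγb, hP]
    simp only [sub_self]
    rw [fl_zero]
  have heq := sol_unique hsolφ hsolP hinit
  have hΓφ : ∀ᶠ w in 𝓝 b, Γ a w = pr i' φ w := by
    filter_upwards [heq, hev2] with w hw hw2
    funext l
    rcases l with l | l
    · exact (hw (Sum.inl (Sum.inl l))).symm
    · change ϖ.1 w * P a w (Sum.inl (Sum.inl (Sum.inr l))) = _
      rw [← hw (Sum.inl (Sum.inr l))]
      change ϖ.1 w * ((ϖ.1 w)⁻¹ * pr i' φ w (Sum.inr l)) = _
      rw [← mul_assoc, mul_inv_cancel₀ hw2, one_mul]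
  -- the relations
  have hΓd : ∀ z ∈ ball b ρ1, ∀ l, DifferentiableAt ℂ (fun w => Γ a w l) z := by
    intro z hz l
    rcases l with l | l
    · exact (hhol a ha z hz (Sum.inl (Sum.inl (Sum.inl l)))).differentiableAt
    · exact (hϖd z).mul (hhol a ha z hz (Sum.inl (Sum.inl (Sum.inr l)))).differentiableAt
  have hΓE : ∀ z ∈ ball b ρ1, Γ a z ∈ Ep F σ (fun j => (hE j).1 z) i' := by
    intro z hz
    refine mem_Ep_of_t hσ fun G hG => ?_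
    have h1 : DifferentiableOn ℂ (fun w => eval (pt (S := Ent) (Γ a w) w) G) (ball b ρ1) :=
      fun w hw => (diff_pt hEnt (hΓd w hw) differentiableAt_id G).differentiableWithinAt
    have h2 : AnalyticOnNhd ℂ (fun w => eval (pt (S := Ent) (Γ a w) w) G) (ball b ρ1) :=
      h1.analyticOnNhd isOpen_ball
    refine h2.eqOn_zero_of_preconnected_of_eventuallyEq_zero (convex_ball b ρ1).isPreconnected
      (mem_ball_self hρ1p) ?_ hz
    filter_upwards [hΓφ, hev1] with w hw hw1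
    rw [hw]
    exact hG w _ (hφ.2 w hw1.1 i' hw1.2)
  obtain ⟨h1, h2⟩ := sl_of_chart hF hσ isOpen_ball hΓE (fun z hz l => by
    have h3 := hhol a ha z hz (Sum.inl (Sum.inl (Sum.inl l)))
    rw [hD1, map_mul, eval_X, eval_X] at h3
    have h4 : P a z (Sum.inr ϖ) = ϖ.1 z := by
      rw [htime a z]
      rfl
    rw [h4] at h3
    exact h3)
  refine ⟨h1, ?_, h2⟩
  filter_upwards [hΓφ, hev1] with w hw hw1
  rw [hw]
  exact PM.Phi_chart (hφ.1.mem_PM hw1.1) hw1.2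

end Run7.h418.E
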