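import Pool.Agent.Run7.h418.E.Sub
import Pool.Agent.Run7.h418.Fam2

/-!
Local estimates of the excess.
-/

set_option autoImplicit false

open Metric Set Filter Topology Real

namespace Run7.h418.E

open Pool.Agent.Y190.OP

variable {N : ℕ}

theorem isLift_shift {U V : Set ℂ} {φ : ℂ → Mat N} {Λ : ℂ → Fin N → ℂ} (h : IsLift U φ Λ) {z : ℂ}
    (hV : ∀ w ∈ V, z + w ∈ U) : IsLift V (fun w => φ (z + w)) (fun w => Λ (z + w)) := by
  refine ⟨?_, fun w hw => h.2 (z + w) (hV w hw)⟩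
  exact h.1.comp (by fun_prop) hV

theorem tr_shift (Λ : ℂ → Fin N → ℂ) (z : ℂ) (δ : ℝ) :
    tr δ (fun w => Λ (z + w)) = ex (fun z => lg (Λ z)) z δ := by
  change av δ (fun w => lg (Λ (z + w))) - lg (Λ (z + 0)) = av δ (fun w => lg (Λ (z + w))) - lg (Λ z)
  rw [add_zero]

theorem an_near {U : Set ℂ} (hU : IsOpen U) {ψ : ℂ → Mat N} (hψ : HolP U ψ) {z0 : ℂ}
    (hz0 : z0 ∈ U) : ∃ δ0 > 0, ∀ z ∈ ball z0 δ0, ∀ w ∈ ball (0 : ℂ) δ0, z + w ∈ U ∧
      1 / 2 ≤ ‖an (ψ (z + w)) (ψ z)‖ := by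
  have h1 : ContinuousAt (fun p : ℂ × ℂ => ‖an (ψ (p.1 + p.2)) (ψ p.1)‖) (z0, 0) := by
    have h2 : ContinuousAt (fun p : ℂ × ℂ => ψ (p.1 + p.2)) (z0, 0) := by
      refine ContinuousAt.comp (g := ψ) (f := fun p : ℂ × ℂ => p.1 + p.2) ?_ (by fun_prop)
      rw [add_zero]
      exact hψ.continuousAt hz0
    have h3 : ContinuousAt (fun p : ℂ × ℂ => ψ p.1) (z0, (0 : ℂ)) :=
      ContinuousAt.comp (g := ψ) (f := fun p : ℂ × ℂ => p.1) (hψ.continuousAt hz0) (by fun_prop)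
    exact (continuous_an.continuousAt.comp (f := fun p : ℂ × ℂ => (ψ (p.1 + p.2), ψ p.1))
      (h2.prodMk h3)).norm
  have h2 : ‖an (ψ (z0 + 0)) (ψ z0)‖ = 1 := by
    rw [add_zero, an_self (hψ.mem_PM hz0), norm_one]
  have h3 : ∀ᶠ p : ℂ × ℂ in 𝓝 (z0, 0), 1 / 2 < ‖an (ψ (p.1 + p.2)) (ψ p.1)‖ :=
    h1.eventually_const_lt (by
      change 1 / 2 < ‖an (ψ (z0 + 0)) (ψ z0)‖
      rw [h2]
      norm_num)
  have h4 : ∀ᶠ p : ℂ × ℂ in 𝓝 (z0, 0), p.1 + p.2 ∈ U := by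
    have h5 : ContinuousAt (fun p : ℂ × ℂ => p.1 + p.2) (z0, 0) := by fun_prop
    refine h5.eventually_mem ?_
    rw [add_zero]
    exact hU.mem_nhds hz0
  obtain ⟨δ, hδ, h5⟩ := Metric.eventually_nhds_iff.1 (h3.and h4)
  refine ⟨δ, hδ, fun z hz w hw => ?_⟩
  have h6 := h5 (y := (z, w)) (by
    rw [Prod.dist_eq]
    exact max_lt hz hw)
  exact ⟨h6.2, h6.1.le⟩

/-- lower bound of the excess by the derivative -/
theorem low_loc {U : Set ℂ} (hU : IsOpen U) {ψ : ℂ → Mat N} (hψ : HolP U ψ) {Λ : ℂ → Fin N → ℂ}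
    (hΛ : IsLift U ψ Λ) {z0 : ℂ} (hz0 : z0 ∈ U) : ∃ δ0 > 0, ∀ z ∈ ball z0 δ0, ∀ δ, 0 < δ →
      δ < δ0 → ∀ i, ψ z i i ≠ 0 → chart i (ψ z) ∈ Kc i →
        δ ^ 2 * ‖deriv (fun w => chart i (ψ w)) z‖ ^ 2 ≤ 8 * N * ex (fun z => lg (Λ z)) z δ := by
  obtain ⟨δ0, hδ0, h1⟩ := an_near hU hψ hz0
  refine ⟨δ0, hδ0, fun z hz δ hδ hδ1 i hi hK => ?_⟩
  have h2 : HolP (ball 0 δ0) (fun w => ψ (z + w)) := by
    have h3 := isLift_shift (V := ball 0 δ0) hΛ (z := z) fun w hw => (h1 z hz w hw).1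
    exact h3.holP isOpen_ball
  have h3 := low (ψ := fun w => ψ (z + w)) hδ hδ1 h2 (i := i) (by simpa using hi)
    (by simpa using hK) (by
      intro s hs
      have h4 := (h1 z hz s hs).2
      simpa using h4) (isLift_shift (V := ball 0 δ0) hΛ (z := z) fun w hw => (h1 z hz w hw).1)
  rw [tr_shift] at h3
  have h4 : deriv (fun s => chart i (ψ (z + s))) 0 = deriv (fun w => chart i (ψ w)) z := by
    have h5 := deriv_comp_const_add (f := fun w => chart i (ψ w)) z 0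
    rw [add_zero] at h5
    exact h5
  rw [h4] at h3
  exact h3

/-- the excess of the growth of a curve -/
theorem low_exc {φ : ℂ → Mat N} {G : ℂ → Fin N → ℂ} (hφ : HolP univ φ) (hG : IsLift univ φ G)
    {k : ℂ → ℝ} (hk : ∀ z i, φ z i i ≠ 0 → chart i (φ z) ∈ Kc i →
      k z ≤ ‖deriv (fun w => chart i (φ w)) z‖ ^ 2) :
    ∀ z0 : ℂ, ∃ δ0 > 0, ∀ z ∈ ball z0 δ0, ∀ δ, 0 < δ → δ < δ0 →
      k z * δ ^ 2 ≤ 8 * N * ex (fun z => lg (G z)) z δ := by
  intro z0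
  obtain ⟨δ0, hδ0, h1⟩ := low_loc isOpen_univ hφ hG (mem_univ z0)
  refine ⟨δ0, hδ0, fun z hz δ hδ hδ1 => ?_⟩
  obtain ⟨i, hi, hK⟩ := exists_max (hφ.mem_PM (mem_univ z))
  have h2 := h1 z hz δ hδ hδ1 i hi hK
  have h3 := hk z i hi hK
  have h4 : 0 ≤ δ ^ 2 := by positivity
  nlinarith

theorem lg_cont {φ : ℂ → Mat N} {G : ℂ → Fin N → ℂ} (hG : IsLift univ φ G) :
    Continuous fun z => lg (G z) := continuousOn_univ.1 hG.continuousOn_lg

/-- the excess of the square of the absolute value of a holomorphic function -/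
theorem nsq_loc {U : Set ℂ} (hU : IsOpen U) {b : ℂ → ℂ} (hb : DifferentiableOn ℂ b U) {z0 : ℂ}
    (hz0 : z0 ∈ U) {η : ℝ} (hη : 0 < η) : ∃ δ0 > 0, ∀ z ∈ ball z0 δ0, ∀ δ, 0 < δ → δ < δ0 →
      ex (fun z => ‖b z‖ ^ 2) z δ ≤ (‖deriv b z‖ ^ 2 + η) * δ ^ 2 := by
  have hbd : ∀ z ∈ U, DifferentiableAt ℂ b z := fun z hz => (hb z hz).differentiableAt
    (hU.mem_nhds hz)
  have hdc : ContinuousAt (fun z => ‖deriv b z‖) z0 :=
    (((hb.deriv hU) z0 hz0).differentiableAt (hU.mem_nhds hz0)).continuousAt.norm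
  set A := ‖deriv b z0‖ with hA
  -- an upper bound of the derivative near `z0`
  obtain ⟨C, hC1, hC2⟩ : ∃ C, A < C ∧ C ^ 2 < A ^ 2 + η / 2 := by
    have h1 : Tendsto (fun t : ℝ => (A + t) ^ 2) (𝓝[>] 0) (𝓝 (A ^ 2)) := by
      have h2 : Continuous fun t : ℝ => (A + t) ^ 2 := by fun_prop
      have h3 := (h2.tendsto 0).mono_left (nhdsWithin_le_nhds (s := Ioi 0))
      simpa using h3
    have h2 := (h1.eventually (gt_mem_nhds (by linarith : A ^ 2 < A ^ 2 + η / 2))).and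
      self_mem_nhdsWithin
    obtain ⟨t, ht1, ht2⟩ := h2.exists
    have ht3 : 0 < t := ht2
    exact ⟨A + t, by linarith, ht1⟩
  have hA0 : 0 ≤ A := norm_nonneg _
  have e1 : ∀ᶠ z in 𝓝 z0, z ∈ U ∧ ‖deriv b z‖ < C ∧ C ^ 2 < ‖deriv b z‖ ^ 2 + η := by
    have h1 : ∀ᶠ z in 𝓝 z0, z ∈ U := hU.mem_nhds hz0
    refine h1.and ((hdc.eventually_lt_const hC1).and ?_)
    have h2 : ContinuousAt (fun z => ‖deriv b z‖ ^ 2 + η) z0 := (hdc.pow 2).add continuousAt_const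
    exact h2.eventually_const_lt (by linarith)
  obtain ⟨ε, hε, h2⟩ := Metric.eventually_nhds_iff.1 e1
  refine ⟨ε / 2, by positivity, fun z hz δ hδ hδ1 => ?_⟩
  have hz' : dist z z0 < ε / 2 := hz
  have hmem : ∀ w, ‖w‖ ≤ δ → z + w ∈ ball z0 ε := by
    intro w hw
    rw [mem_ball, dist_eq_norm]
    rw [dist_eq_norm] at hz'
    calc ‖z + w - z0‖ = ‖(z - z0) + w‖ := by ring_nf
      _ ≤ ‖z - z0‖ + ‖w‖ := norm_add_le _ _
      _ < ε := by linarith
  have hmv : ∀ w, ‖w‖ ≤ δ → ‖b (z + w) - b z‖ ≤ C * ‖w‖ := by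
    intro w hw
    have h3 := (convex_ball z0 ε).norm_image_sub_le_of_norm_deriv_le (f := b) (C := C)
      (x := z) (y := z + w) (fun x hx => hbd x (h2 hx).1) (fun x hx => (h2 hx).2.1.le)
      (by
        have h4 := hmem 0 (by simpa using hδ.le)
        rwa [add_zero] at h4) (hmem w hw)
    rwa [add_sub_cancel_left] at h3
  have hcross : av δ (fun w => ((b (z + w) - b z) * (starRingEnd ℂ) (b z)).re) = 0 := by
    have hR : DifferentiableOn ℂ (fun w => (b (z + w) - b z) * (starRingEnd ℂ) (b z))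
        (ball 0 (ε / 2)) := by
      refine DifferentiableOn.mul_const (DifferentiableOn.sub_const ?_ _) _
      intro w hw
      have hw' := mem_ball_zero_iff.1 hw
      have h5 : z + w ∈ U := by
        refine (h2 ?_).1
        rw [dist_eq_norm] at hz' ⊢
        calc ‖z + w - z0‖ = ‖(z - z0) + w‖ := by ring_nf
          _ ≤ ‖z - z0‖ + ‖w‖ := norm_add_le _ _
          _ < ε := by linarith
      exact ((hbd _ h5).comp w (by fun_prop)).differentiableWithinAt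
    have h4 := av_re hδ.le hδ1 hR
    rw [h4, add_zero, sub_self, zero_mul, Complex.zero_re]
  have hcont : ContinuousOn (fun w => b (z + w)) (sphere 0 δ) := by
    intro w hw
    have h5 : z + w ∈ U := (h2 (hmem w (mem_sphere_zero_iff_norm.1 hw).le)).1
    exact ((hbd _ h5).continuousAt.comp (f := fun w => z + w) (by fun_prop)).continuousWithinAt
  have h6 : av δ (fun w => ‖b (z + w)‖ ^ 2) ≤ av δ (fun w => (‖b z‖ ^ 2 + C ^ 2 * δ ^ 2) +
      2 * ((b (z + w) - b z) * (starRingEnd ℂ) (b z)).re) := by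
    refine av_mono hδ.le (hcont.norm.pow 2) (by
      refine ContinuousOn.add continuousOn_const (ContinuousOn.mul continuousOn_const ?_)
      exact Complex.continuous_re.comp_continuousOn ((hcont.sub continuousOn_const).mul
        continuousOn_const)) fun w hw => ?_
    have hw' := mem_sphere_zero_iff_norm.1 hw
    rw [norm_sq_add (b (z + w)) (b z)]
    have h7 := hmv w hw'.le
    rw [hw'] at h7
    have h8 : ‖b (z + w) - b z‖ ^ 2 ≤ (C * δ) ^ 2 := by gcongr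
    rw [mul_pow] at h8
    linarith
  rw [av_add hδ.le continuousOn_const (by
    refine ContinuousOn.mul continuousOn_const ?_
    exact Complex.continuous_re.comp_continuousOn ((hcont.sub continuousOn_const).mul
        continuousOn_const)), av_const, av_mul, hcross, mul_zero, add_zero] at h6
  unfold ex
  have h9 := (h2 (y := z) (by linarith)).2.2
  have h10 : C ^ 2 * δ ^ 2 ≤ (‖deriv b z‖ ^ 2 + η) * δ ^ 2 := by gcongr
  linarith

/-- an estimate of holomorphic functions by the energy -/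
theorem a_le {ε R : ℝ} (hε : 0 < ε) (hεR : ε < R) {ψ : ℂ → Mat N} (hψ : HolP (ball 0 R) ψ)
    {Λ : ℂ → Fin N → ℂ} (hΛ : IsLift (ball 0 R) ψ Λ) {β : ℂ → ℂ}
    (hβ : DifferentiableOn ℂ β (ball 0 R)) {K : ℝ}
    (hb : ∀ s ∈ ball (0 : ℂ) R, ∀ i, ψ s i i ≠ 0 → chart i (ψ s) ∈ Kc i →
      ‖β s‖ ≤ K * ‖deriv (fun s => chart i (ψ s)) s‖) :
    ε ^ 2 * ‖β 0‖ ^ 2 ≤ 8 * N * K ^ 2 * tr ε Λ := by
  obtain ⟨b, hb0, hbd⟩ := (hβ.isExactOn_ball).with_val_at 0 0
  have hbD : DifferentiableOn ℂ b (ball 0 R) := fun s hs =>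
    (hbd s hs).differentiableAt.differentiableWithinAt
  set M : ℝ := 8 * N * K ^ 2 with hM
  have hlgc : ContinuousOn (fun z => lg (Λ z)) (ball 0 R) := hΛ.continuousOn_lg
  have key := mean_ge (g := fun z => M * lg (Λ z) - ‖b z‖ ^ 2) hε hεR
    ((continuousOn_const.mul hlgc).sub (hbD.continuousOn.norm.pow 2)) (by
      intro η hη
      have hloc : ∀ s0 ∈ closedBall (0 : ℂ) ε, ∃ δ0 > 0, ∀ s ∈ ball s0 δ0, ∀ δ, 0 < δ → δ < δ0 →
          -(η * δ ^ 2) ≤ ex (fun z => M * lg (Λ z) - ‖b z‖ ^ 2) s δ := by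
        intro s0 hs0
        have hs0R : s0 ∈ ball (0 : ℂ) R := closedBall_subset_ball hεR hs0
        obtain ⟨δ1, hδ1, h1⟩ := low_loc isOpen_ball hψ hΛ hs0R
        obtain ⟨δ2, hδ2, h2⟩ := nsq_loc isOpen_ball hbD hs0R hη
        obtain ⟨δ3, hδ3, h3⟩ := Metric.isOpen_iff.1 (isOpen_ball (x := (0 : ℂ)) (ε := R)) s0 hs0R
        refine ⟨min (min δ1 δ2) (δ3 / 2), lt_min (lt_min hδ1 hδ2) (by positivity),
          fun s hs δ hδ hδ' => ?_⟩
        have q1 : min (min δ1 δ2) (δ3 / 2) ≤ δ1 := (min_le_left _ _).trans (min_le_left _ _)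
        have q2 : min (min δ1 δ2) (δ3 / 2) ≤ δ2 := (min_le_left _ _).trans (min_le_right _ _)
        have q3 : min (min δ1 δ2) (δ3 / 2) ≤ δ3 / 2 := min_le_right _ _
        have hsw : ∀ w, ‖w‖ ≤ δ → s + w ∈ ball (0 : ℂ) R := by
          intro w hw
          apply h3
          rw [mem_ball, dist_eq_norm]
          have h5 := mem_ball_iff_norm.1 hs
          calc ‖s + w - s0‖ = ‖(s - s0) + w‖ := by ring_nf
            _ ≤ ‖s - s0‖ + ‖w‖ := norm_add_le _ _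
            _ < δ3 := by linarith
        have hsR : s ∈ ball (0 : ℂ) R := by simpa using hsw 0 (by simpa using hδ.le)
        obtain ⟨i, hi, hK⟩ := exists_max (hψ.mem_PM hsR)
        have h4 := h1 s (ball_subset_ball q1 hs) δ hδ (hδ'.trans_le q1) i hi hK
        have h5 := h2 s (ball_subset_ball q2 hs) δ hδ (hδ'.trans_le q2)
        have h6 := hb s hsR i hi hK
        rw [(hbd s hsR).deriv] at h5
        have c1 : ContinuousOn (fun w => M * lg (Λ (s + w))) (sphere 0 δ) :=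
          continuousOn_const.mul (hlgc.comp (by fun_prop) fun w hw =>
            hsw w (mem_sphere_zero_iff_norm.1 hw).le)
        have c2 : ContinuousOn (fun w => ‖b (s + w)‖ ^ 2) (sphere 0 δ) :=
          (hbD.continuousOn.comp (by fun_prop) fun w hw =>
            hsw w (mem_sphere_zero_iff_norm.1 hw).le).norm.pow 2
        rw [ex_sub (g := fun z => M * lg (Λ z)) hδ.le c1 c2, ex_mul]
        have h7 : ‖β s‖ ^ 2 ≤ K ^ 2 * ‖deriv (fun s => chart i (ψ s)) s‖ ^ 2 := by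
          rw [← mul_pow]
          exact pow_le_pow_left₀ (norm_nonneg _) h6 2
        have h8 : K ^ 2 * (δ ^ 2 * ‖deriv (fun s => chart i (ψ s)) s‖ ^ 2) ≤
            M * ex (fun z => lg (Λ z)) s δ := by
          have h9 := mul_le_mul_of_nonneg_left h4 (by positivity : 0 ≤ K ^ 2)
          rw [hM]
          linarith
        have h10 : 0 ≤ δ ^ 2 := by positivity
        nlinarith
      refine (isCompact_closedBall (0 : ℂ) ε).induction_on (p := fun S => ∃ δ0 > 0, ∀ z ∈ S,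
        ∀ δ, 0 < δ → δ < δ0 → -(η * δ ^ 2) ≤ ex (fun z => M * lg (Λ z) - ‖b z‖ ^ 2) z δ)
        ⟨1, one_pos, fun z hz => absurd hz (notMem_empty z)⟩
        (fun s t hst ⟨ρ, hρ, h1⟩ => ⟨ρ, hρ, fun p hp => h1 p (hst hp)⟩) ?_ ?_
      · rintro s t ⟨ρ, hρ, h1⟩ ⟨ρ', hρ', h1'⟩
        refine ⟨min ρ ρ', lt_min hρ hρ', fun p hp δ hδ hδ' => ?_⟩
        rcases hp with hp | hp
        · exact h1 p hp δ hδ (hδ'.trans_le (min_le_left _ _))
        · exact h1' p hp δ hδ (hδ'.trans_le (min_le_right _ _))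
      · intro z1 hz1
        obtain ⟨ρ, hρ, h1⟩ := hloc z1 hz1
        exact ⟨ball z1 ρ, mem_nhdsWithin_of_mem_nhds (ball_mem_nhds z1 hρ), ρ, hρ, h1⟩)
  have h0R : (0 : ℂ) ∈ ball (0 : ℂ) R := mem_ball_self (hε.trans hεR)
  have h1 := av_deriv hε.le hεR hbD hb0
  rw [(hbd 0 h0R).deriv] at h1
  have hs : sphere (0 : ℂ) ε ⊆ ball 0 R := fun w hw => by
    rw [mem_ball_zero_iff, mem_sphere_zero_iff_norm.1 hw]
    exact hεR
  rw [av_sub (f := fun z => M * lg (Λ z)) (g := fun z => ‖b z‖ ^ 2) hε.le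
    (continuousOn_const.mul (hlgc.mono hs))
    ((hbD.continuousOn.mono hs).norm.pow 2), av_mul, hb0, norm_zero] at key
  unfold tr
  have : (0 : ℝ) ^ 2 = 0 := by norm_num
  rw [this, sub_zero] at key
  linarith

/-- upper bound of the excess in families -/
theorem upp_loc {y : ℂ → ℂ → Mat N} {ε0 ε : ℝ} (hεε : ε < ε0)
    (hy : ∀ s ∈ ball (0 : ℂ) ε0, HolP univ (y s))
    (hg : ∀ s ∈ ball (0 : ℂ) ε0, ∀ z i, y s z i i ≠ 0 → Good y z s i)
    {k : ℂ → ℝ} (hk0 : ∀ z, 0 ≤ k z) (hkc : Continuous k)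
    (hk : ∀ s ∈ ball (0 : ℂ) ε0, ∀ z i, y s z i i ≠ 0 → chart i (y s z) ∈ Kc i →
      ‖deriv (fun w => chart i (y s w)) z‖ ^ 2 ≤ k z) {η : ℝ} (hη : 0 < η) (z0 : ℂ) :
    ∃ δ0 > 0, ∀ z ∈ ball z0 δ0, ∀ s ∈ closedBall (0 : ℂ) ε, ∀ δ, 0 < δ → δ < δ0 →
      Tr δ (fun w => y s (z + w)) ≤ N * (k z + η) * δ ^ 2 := by
  obtain ⟨C, hC1, hC2, hC3⟩ : ∃ C, 0 ≤ C ∧ k z0 < C ^ 2 ∧ C ^ 2 < k z0 + η / 2 := by
    refine ⟨Real.sqrt (k z0 + η / 4), Real.sqrt_nonneg _, ?_, ?_⟩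
    · rw [Real.sq_sqrt (by have := hk0 z0; linarith)]
      linarith
    · rw [Real.sq_sqrt (by have := hk0 z0; linarith)]
      linarith
  have hloc : ∀ s1 ∈ closedBall (0 : ℂ) ε, ∃ δ0 > 0, ∀ s ∈ ball s1 δ0, ∀ z ∈ ball z0 δ0,
      ∀ δ, 0 < δ → δ < δ0 → Tr δ (fun w => y s (z + w)) ≤ N * (k z + η) * δ ^ 2 := by
    intro s1 hs1
    have hs1' : s1 ∈ ball (0 : ℂ) ε0 := closedBall_subset_ball hεε hs1
    obtain ⟨i, hi, hK⟩ := exists_max ((hy s1 hs1').mem_PM (mem_univ z0))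
    have hgood := hg s1 hs1' z0 i hi
    have hcc : ContinuousAt (fun p : ℂ × ℂ => pr i (y p.2) p.1) (z0, s1) :=
      hgood.self_of_nhds.2.continuousAt
    have hcn : ContinuousAt (fun p : ℂ × ℂ => ‖pr i (y p.2) p.1 ∘ Sum.inr‖) (z0, s1) := by
      have h1 : Continuous fun a : Fin N ⊕ Fin N → ℂ => a ∘ Sum.inr := by fun_prop
      exact (h1.continuousAt.comp (f := fun p : ℂ × ℂ => pr i (y p.2) p.1) hcc).norm
    have h1 : ‖pr i (y s1) z0 ∘ Sum.inr‖ < C := by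
      have h2 := hk s1 hs1' z0 i hi hK
      have h3 : pr i (y s1) z0 ∘ Sum.inr = deriv (fun w => chart i (y s1 w)) z0 := rfl
      rw [h3]
      exact lt_of_pow_lt_pow_left₀ 2 hC1 (h2.trans_lt hC2)
    have h4 : ∀ᶠ p : ℂ × ℂ in 𝓝 (z0, s1), y p.2 p.1 i i ≠ 0 ∧ ‖pr i (y p.2) p.1 ∘ Sum.inr‖ < C ∧
        p.2 ∈ ball (0 : ℂ) ε0 ∧ C ^ 2 < k p.1 + η := by
      have h5 : ∀ᶠ p : ℂ × ℂ in 𝓝 (z0, s1), p.2 ∈ ball (0 : ℂ) ε0 :=
        (continuous_snd.continuousAt (x := (z0, s1))).eventually_mem (isOpen_ball.mem_nhds hs1')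
      have h6 : ContinuousAt (fun p : ℂ × ℂ => k p.1 + η) (z0, s1) := by fun_prop
      filter_upwards [hgood, hcn.eventually_lt_const h1, h5,
        h6.eventually_const_lt (by change C ^ 2 < k z0 + η; linarith)] with p p1 p2 p3 p4
      exact ⟨p1.1, p2, p3, p4⟩
    obtain ⟨δ1, hδ1, h5⟩ := Metric.eventually_nhds_iff.1 h4
    refine ⟨δ1 / 2, by positivity, fun s hs z hz δ hδ hδ' => ?_⟩
    have hmem : ∀ w ∈ ball (0 : ℂ) (δ1 / 2), dist (z + w, s) (z0, s1) < δ1 := by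
      intro w hw
      rw [Prod.dist_eq]
      refine max_lt ?_ (lt_trans hs (by linarith))
      change dist (z + w) z0 < δ1
      have h6 := mem_ball_iff_norm.1 hz
      have h7 := mem_ball_zero_iff.1 hw
      rw [dist_eq_norm]
      calc ‖z + w - z0‖ = ‖(z - z0) + w‖ := by ring_nf
        _ ≤ ‖z - z0‖ + ‖w‖ := norm_add_le _ _
        _ < δ1 := by linarith
    have h0m : (0 : ℂ) ∈ ball (0 : ℂ) (δ1 / 2) := mem_ball_self (by positivity)
    have hz5 := h5 (hmem 0 h0m)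
    rw [add_zero] at hz5
    have hs0 : s ∈ ball (0 : ℂ) ε0 := hz5.2.2.1
    obtain ⟨G, hG, hG0, hGφ⟩ := zero_free (hy s hs0)
    have hGL : IsLift univ (y s) G := ⟨hG.differentiableOn, fun z _ => ⟨hG0 z, hGφ z⟩⟩
    have hL : IsLift univ (fun w => y s (z + w)) (fun w => G (z + w)) :=
      isLift_shift hGL fun _ _ => mem_univ _
    have hH : HolP univ (fun w => y s (z + w)) := hL.holP isOpen_univ
    rw [Tr_eq hδ.le hH isOpen_univ (subset_univ _) hL]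
    have hd : ∀ w ∈ ball (0 : ℂ) (δ1 / 2), DifferentiableAt ℂ (fun w => chart i (y s (z + w))) w := by
      intro w hw
      exact hH.diff_chart (mem_univ w) (h5 (hmem w hw)).1
    have h8 := upp (ψ := fun w => y s (z + w)) (i := i) (C := C) hδ hδ' (hH.mono (subset_univ _))
      (fun w hw => (h5 (hmem w hw)).1) (by
        intro w hw
        have h9 := (convex_ball (0 : ℂ) (δ1 / 2)).norm_image_sub_le_of_norm_deriv_le
          (f := fun w => chart i (y s (z + w))) (C := C) hd (fun w hw => by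
            have h10 := (h5 (hmem w hw)).2.1.le
            have h11 := deriv_comp_const_add (f := fun w => chart i (y s w)) z w
            rw [h11]
            exact h10) h0m hw
        rwa [sub_zero] at h9) (hL.mono (subset_univ _))
    refine h8.trans ?_
    have h9 : C ^ 2 ≤ k z + η := hz5.2.2.2.le
    have h10 : (0 : ℝ) ≤ N := Nat.cast_nonneg N
    gcongr
  have h2 := (isCompact_closedBall (0 : ℂ) ε).induction_on (p := fun S => ∃ δ0 > 0, ∀ s ∈ S,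
        ∀ z ∈ ball z0 δ0, ∀ δ, 0 < δ → δ < δ0 →
          Tr δ (fun w => y s (z + w)) ≤ N * (k z + η) * δ ^ 2)
        ⟨1, one_pos, fun z hz => absurd hz (notMem_empty z)⟩
        (fun s t hst ⟨ρ, hρ, h1⟩ => ⟨ρ, hρ, fun p hp => h1 p (hst hp)⟩) (by
          rintro s t ⟨ρ, hρ, h1⟩ ⟨ρ', hρ', h1'⟩
          refine ⟨min ρ ρ', lt_min hρ hρ', fun p hp z hz δ hδ hδ' => ?_⟩
          rcases hp with hp | hp
          · exact h1 p hp z (ball_subset_ball (min_le_left _ _) hz) δ hδ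
              (hδ'.trans_le (min_le_left _ _))
          · exact h1' p hp z (ball_subset_ball (min_le_right _ _) hz) δ hδ
              (hδ'.trans_le (min_le_right _ _))) (by
          intro s1 hs1
          obtain ⟨ρ, hρ, h1⟩ := hloc s1 hs1
          exact ⟨ball s1 ρ, mem_nhdsWithin_of_mem_nhds (ball_mem_nhds s1 hρ), ρ, hρ, h1⟩)
  obtain ⟨δ0, hδ0, h3⟩ := h2
  exact ⟨δ0, hδ0, fun z hz s hs => h3 s hs z hz⟩

end Run7.h418.E
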