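import Pool.Agent.Run7.h418.Avg3

/-!
Functions which satisfy the mean value inequality up to `o(δ ^ 2)` on small circles.
-/

set_option autoImplicit false

open Metric Set Filter Topology Real

namespace Run7.h418.E

/-- the excess of the average on a small circle -/
noncomputable def ex (g : ℂ → ℝ) (z : ℂ) (δ : ℝ) : ℝ := av δ (fun w => g (z + w)) - g z

/-- the average over the rotations -/
noncomputable def ro (g : ℂ → ℝ) (z : ℂ) : ℝ := av 1 (fun ω => g (z * ω))

/-- maximum principle -/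
theorem max_pr {G : ℂ → ℝ} {R : ℝ} (hR : 0 < R) (hG : ContinuousOn G (closedBall 0 R))
    (h : ∀ z ∈ ball (0 : ℂ) R, ∃ δ, 0 < δ ∧ closedBall z δ ⊆ closedBall 0 R ∧ 0 < ex G z δ) :
    ∃ ζ ∈ sphere (0 : ℂ) R, G 0 ≤ G ζ := by
  obtain ⟨z, hz, hmax⟩ := (isCompact_closedBall (0 : ℂ) R).exists_isMaxOn
    ⟨0, mem_closedBall_self hR.le⟩ hG
  by_cases hzs : z ∈ sphere (0 : ℂ) R
  · exact ⟨z, hzs, hmax (mem_closedBall_self hR.le)⟩
  · exfalso
    have hzb : z ∈ ball (0 : ℂ) R := by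
      rw [mem_ball]
      exact lt_of_le_of_ne hz hzs
    obtain ⟨δ, hδ, hsub, hex⟩ := h z hzb
    have hmem : ∀ w ∈ sphere (0 : ℂ) δ, z + w ∈ closedBall (0 : ℂ) R := by
      intro w hw
      apply hsub
      rw [mem_closedBall, dist_eq_norm, add_sub_cancel_left]
      exact (mem_sphere_zero_iff_norm.1 hw).le
    have h1 : av δ (fun w => G (z + w)) ≤ av δ (fun _ => G z) := by
      refine av_mono hδ.le ?_ continuousOn_const fun w hw => hmax (hmem w hw)
      exact hG.comp (by fun_prop) hmem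
    rw [av_const] at h1
    unfold ex at hex
    linarith

theorem circleMap_mul' (r : ℝ) (θ φ : ℝ) (z : ℂ) :
    (z + circleMap 0 r φ) * circleMap 0 1 θ = z * circleMap 0 1 θ + circleMap 0 r (φ + θ) := by
  simp only [circleMap, zero_add, Complex.ofReal_one, one_mul, Complex.ofReal_add]
  rw [add_mul, add_mul, Complex.exp_add]
  ring

/-- rotation invariance of averages -/
theorem av_rot (r θ : ℝ) (g : ℂ → ℝ) (z : ℂ) :
    av r (fun w => g ((z + w) * circleMap 0 1 θ)) = av r (fun w => g (z * circleMap 0 1 θ + w)) := by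
  unfold av circleAverage
  congr 1
  simp only [circleMap_mul']
  have hp : Function.Periodic (fun φ : ℝ => g (z * circleMap 0 1 θ + circleMap 0 r φ)) (2 * π) := by
    intro φ
    simp only [periodic_circleMap 0 r φ]
  have h1 := intervalIntegral.integral_comp_add_right (a := 0) (b := 2 * π)
    (fun φ : ℝ => g (z * circleMap 0 1 θ + circleMap 0 r φ)) θ
  rw [h1, zero_add, add_comm (2 * π) θ]
  have h2 := hp.intervalIntegral_add_eq θ 0
  rw [zero_add] at h2
  exact h2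

/-- the average over the rotations is the average on a circle -/
theorem ro_eq {R : ℝ} (g : ℂ → ℝ) {ζ : ℂ} (hR : 0 ≤ R) (hζ : ‖ζ‖ = R) : ro g ζ = av R g := by
  obtain ⟨θ, hθ⟩ : ∃ θ : ℝ, circleMap 0 R θ = ζ := by
    refine ⟨Complex.arg ζ, ?_⟩
    rw [circleMap, zero_add, ← hζ]
    exact Complex.norm_mul_exp_arg_mul_I ζ
  have h1 : ∀ φ : ℝ, ζ * circleMap 0 1 φ = circleMap 0 R (φ + θ) := by
    intro φ
    rw [← hθ]
    simp only [circleMap, zero_add, Complex.ofReal_one, one_mul, Complex.ofReal_add]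
    rw [add_mul, Complex.exp_add]
    ring
  unfold ro av circleAverage
  congr 1
  simp only [h1]
  have hp : Function.Periodic (fun φ : ℝ => g (circleMap 0 R φ)) (2 * π) := by
    intro φ
    simp only [periodic_circleMap 0 R φ]
  have h2 := intervalIntegral.integral_comp_add_right (a := 0) (b := 2 * π)
    (fun φ : ℝ => g (circleMap 0 R φ)) θ
  rw [h2, zero_add, add_comm (2 * π) θ]
  have h3 := hp.intervalIntegral_add_eq θ 0
  rw [zero_add] at h3
  exact h3

theorem ro_zero (g : ℂ → ℝ) : ro g 0 = g 0 := by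
  unfold ro
  simp only [zero_mul]
  exact av_const 1 (g 0)

/-- continuity of the average over the rotations -/
theorem ro_cont {g : ℂ → ℝ} {R : ℝ} (hg : ContinuousOn g (ball 0 R)) :
    ContinuousOn (ro g) (ball 0 R) := by
  refine av_cont (A := ball (0 : ℂ) R) (g := fun z ω => g (z * ω)) zero_le_one ?_
  refine hg.comp (f := fun p : ℂ × ℂ => p.1 * p.2) (by fun_prop) fun p hp => ?_
  have h1 := mem_ball_zero_iff.1 hp.1
  have h2 := mem_sphere_zero_iff_norm.1 hp.2
  rw [mem_ball_zero_iff, norm_mul, h2, mul_one]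
  exact h1

/-- the excess of the average over the rotations -/
theorem ex_ro {g : ℂ → ℝ} {R : ℝ} (hg : ContinuousOn g (ball 0 R)) {z : ℂ} {δ : ℝ} (hδ : 0 ≤ δ)
    (hz : ‖z‖ + δ < R) : ex (ro g) z δ = av 1 (fun ω => ex g (z * ω) δ) := by
  have hb : ∀ w ∈ sphere (0 : ℂ) δ, z + w ∈ ball (0 : ℂ) R := by
    intro w hw
    rw [mem_ball_zero_iff]
    have h2 := mem_sphere_zero_iff_norm.1 hw
    calc ‖z + w‖ ≤ ‖z‖ + ‖w‖ := norm_add_le _ _
      _ < R := by rw [h2]; exact hz
  have hmul : ∀ x ∈ ball (0 : ℂ) R, ∀ ω ∈ sphere (0 : ℂ) 1, x * ω ∈ ball (0 : ℂ) R := by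
    intro x hx ω hω
    rw [mem_ball_zero_iff, norm_mul, mem_sphere_zero_iff_norm.1 hω, mul_one]
    exact mem_ball_zero_iff.1 hx
  have hzb : z ∈ ball (0 : ℂ) R := mem_ball_zero_iff.2 (by linarith)
  have e1 : av δ (fun w => ro g (z + w)) = av 1 (fun ω => av δ (fun w => g (z * ω + w))) := by
    have e2 := av_swap (r := δ) (ε := 1) hδ zero_le_one (g := fun w ω => g ((z + w) * ω)) (by
      refine hg.comp (f := fun p : ℂ × ℂ => (z + p.1) * p.2) (by fun_prop) fun p hp => ?_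
      exact hmul _ (hb _ hp.1) _ hp.2)
    change av δ (fun w => av 1 fun ω => g ((z + w) * ω)) = _
    rw [e2]
    refine av_congr zero_le_one fun ω hω => ?_
    obtain ⟨θ, hθ⟩ : ∃ θ : ℝ, circleMap 0 1 θ = ω := by
      refine ⟨Complex.arg ω, ?_⟩
      have h3 := Complex.norm_mul_exp_arg_mul_I ω
      rw [mem_sphere_zero_iff_norm.1 hω] at h3
      rw [circleMap, zero_add]
      exact h3
    rw [← hθ]
    exact av_rot δ θ g z
  unfold ex
  rw [e1]
  have hc1 : ContinuousOn (fun ω => av δ (fun w => g (z * ω + w))) (sphere (0 : ℂ) 1) := by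
    refine av_cont (A := sphere (0 : ℂ) 1) (g := fun ω w => g (z * ω + w)) hδ ?_
    refine hg.comp (f := fun p : ℂ × ℂ => z * p.1 + p.2) (by fun_prop) fun p hp => ?_
    rw [mem_ball_zero_iff]
    calc ‖z * p.1 + p.2‖ ≤ ‖z * p.1‖ + ‖p.2‖ := norm_add_le _ _
      _ = ‖z‖ + δ := by
        rw [norm_mul, mem_sphere_zero_iff_norm.1 hp.1, mem_sphere_zero_iff_norm.1 hp.2, mul_one]
      _ < R := hz
  have hc2 : ContinuousOn (fun ω => g (z * ω)) (sphere (0 : ℂ) 1) :=
    hg.comp (f := fun ω : ℂ => z * ω) (by fun_prop) fun ω hω => hmul z hzb ω hω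
  rw [av_sub zero_le_one hc1 hc2]
  rfl

theorem av_nsq {δ : ℝ} (hδ : 0 ≤ δ) (z : ℂ) : av δ (fun w => ‖z + w‖ ^ 2) = ‖z‖ ^ 2 + δ ^ 2 := by
  have h1 : ∀ w ∈ sphere (0 : ℂ) δ, ‖z + w‖ ^ 2 = (‖z‖ ^ 2 + δ ^ 2) +
      2 * (w * (starRingEnd ℂ) z).re := by
    intro w hw
    have h2 := norm_sq_add (z + w) z
    rw [add_sub_cancel_left, mem_sphere_zero_iff_norm.1 hw] at h2
    exact h2
  rw [av_congr hδ h1, av_add hδ continuousOn_const (by fun_prop), av_const, av_mul]
  have h3 := av_re (g := fun w => w * (starRingEnd ℂ) z) hδ (lt_add_one δ)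
    (by fun_prop : Differentiable ℂ _).differentiableOn
  rw [h3]
  simp

theorem ex_nsq {δ : ℝ} (hδ : 0 ≤ δ) (z : ℂ) : ex (fun w => ‖w‖ ^ 2) z δ = δ ^ 2 := by
  unfold ex
  rw [av_nsq hδ]
  ring

theorem ex_add {g h : ℂ → ℝ} {z : ℂ} {δ : ℝ} (hδ : 0 ≤ δ)
    (hg : ContinuousOn (fun w => g (z + w)) (sphere 0 δ))
    (hh : ContinuousOn (fun w => h (z + w)) (sphere 0 δ)) :
    ex (fun w => g w + h w) z δ = ex g z δ + ex h z δ := by
  unfold ex
  rw [av_add hδ hg hh]
  ring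

theorem ex_sub {g h : ℂ → ℝ} {z : ℂ} {δ : ℝ} (hδ : 0 ≤ δ)
    (hg : ContinuousOn (fun w => g (z + w)) (sphere 0 δ))
    (hh : ContinuousOn (fun w => h (z + w)) (sphere 0 δ)) :
    ex (fun w => g w - h w) z δ = ex g z δ - ex h z δ := by
  unfold ex
  rw [av_sub hδ hg hh]
  ring

theorem ex_mul (c : ℝ) (g : ℂ → ℝ) (z : ℂ) (δ : ℝ) :
    ex (fun w => c * g w) z δ = c * ex g z δ := by
  unfold ex
  rw [av_mul]
  ring

/-- **Comparison**: if the rotation average of `g` has local excess at least that of `κ`, up to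
`o(δ ^ 2)`, then `κ R - κ 0 ≤ av R g - g 0`. -/
theorem compare {g κ : ℂ → ℝ} {R R' : ℝ} (hR : 0 < R) (hRR : R < R')
    (hg : ContinuousOn g (ball 0 R')) (hκ : ContinuousOn κ (ball 0 R')) {k0 : ℝ}
    (hκR : ∀ ζ ∈ sphere (0 : ℂ) R, k0 ≤ κ ζ)
    (h : ∀ η > 0, ∀ z ∈ ball (0 : ℂ) R, ∃ δ0 > 0, ∀ δ, 0 < δ → δ < δ0 →
      ex κ z δ - η * δ ^ 2 ≤ ex (ro g) z δ) : k0 - κ 0 ≤ av R g - g 0 := by
  have hrc := ro_cont hg
  have key : ∀ η > 0, k0 - κ 0 ≤ av R g - g 0 + 2 * η * R ^ 2 := by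
    intro η hη
    obtain ⟨ζ, hζ, hle⟩ := max_pr (G := fun z => (ro g z - κ z) + 2 * η * ‖z‖ ^ 2) hR (by
      have h1 := (closedBall_subset_ball hRR : closedBall (0 : ℂ) R ⊆ ball 0 R')
      exact ((hrc.mono h1).sub (hκ.mono h1)).add (by fun_prop)) (by
      intro z hz
      obtain ⟨δ0, hδ0, h2⟩ := h η hη z hz
      have hz1 := mem_ball_zero_iff.1 hz
      refine ⟨min (δ0 / 2) ((R - ‖z‖) / 2), ?_, ?_, ?_⟩
      · apply lt_min (by positivity)
        linarith
      · intro w hw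
        rw [mem_closedBall, dist_eq_norm] at hw
        rw [mem_closedBall_zero_iff]
        have h3 : ‖w - z‖ ≤ (R - ‖z‖) / 2 := hw.trans (min_le_right _ _)
        calc ‖w‖ = ‖(w - z) + z‖ := by rw [sub_add_cancel]
          _ ≤ ‖w - z‖ + ‖z‖ := norm_add_le _ _
          _ ≤ R := by linarith
      · set δ := min (δ0 / 2) ((R - ‖z‖) / 2) with hδ
        have hδp : 0 < δ := lt_min (by positivity) (by linarith)
        have hδ1 : δ < δ0 := (min_le_left _ _).trans_lt (by linarith)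
        have hδ2 : δ ≤ (R - ‖z‖) / 2 := min_le_right _ _
        have hmem : ∀ w ∈ sphere (0 : ℂ) δ, z + w ∈ ball (0 : ℂ) R' := by
          intro w hw
          rw [mem_ball_zero_iff]
          have h4 := mem_sphere_zero_iff_norm.1 hw
          calc ‖z + w‖ ≤ ‖z‖ + ‖w‖ := norm_add_le _ _
            _ < R' := by rw [h4]; linarith
        have c1 : ContinuousOn (fun w => ro g (z + w)) (sphere 0 δ) := hrc.comp (by fun_prop) hmem
        have c2 : ContinuousOn (fun w => κ (z + w)) (sphere 0 δ) := hκ.comp (by fun_prop) hmem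
        rw [ex_add (g := fun w => ro g w - κ w) hδp.le (c1.sub c2) (by fun_prop),
          ex_sub hδp.le c1 c2, ex_mul, ex_nsq hδp.le]
        have h5 := h2 δ hδp hδ1
        have h6 : 0 < η * δ ^ 2 := by positivity
        linarith)
    have h1 := mem_sphere_zero_iff_norm.1 hζ
    simp only [ro_zero, norm_zero, ro_eq g hR.le h1, h1] at hle
    have h2 := hκR ζ hζ
    nlinarith
  by_contra hcon
  push Not at hcon
  set D := (k0 - κ 0) - (av R g - g 0) with hD
  have hD0 : 0 < D := by rw [hD]; linarith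
  have h1 := key (D / (4 * R ^ 2)) (by positivity)
  have h2 : 2 * (D / (4 * R ^ 2)) * R ^ 2 = D / 2 := by
    field_simp
    norm_num
  rw [h2] at h1
  linarith

/-- **Mean value inequality.** -/
theorem mean_ge {g : ℂ → ℝ} {R R' : ℝ} (hR : 0 < R) (hRR : R < R')
    (hg : ContinuousOn g (ball 0 R'))
    (h : ∀ η > 0, ∃ δ0 > 0, ∀ z ∈ closedBall (0 : ℂ) R, ∀ δ, 0 < δ → δ < δ0 →
      -(η * δ ^ 2) ≤ ex g z δ) : g 0 ≤ av R g := by
  have h1 := compare (g := g) (κ := fun _ => 0) (k0 := 0) hR hRR hg continuousOn_const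
    (fun _ _ => le_rfl) (by
      intro η hη z hz
      obtain ⟨δ0, hδ0, h2⟩ := h η hη
      have hz1 := mem_ball_zero_iff.1 hz
      refine ⟨min δ0 (R' - ‖z‖), lt_min hδ0 (by linarith), fun δ hδ hδ1 => ?_⟩
      have hδ2 : δ < δ0 := hδ1.trans_le (min_le_left _ _)
      have hδ3 : δ < R' - ‖z‖ := hδ1.trans_le (min_le_right _ _)
      have e1 : ex (fun _ => (0 : ℝ)) z δ = 0 := by
        unfold ex
        rw [av_const, sub_zero]
      rw [e1, zero_sub, ex_ro hg hδ.le (by linarith), ← av_const 1 (-(η * δ ^ 2))]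
      have hmul : ∀ ω ∈ sphere (0 : ℂ) 1, ‖z * ω‖ = ‖z‖ := by
        intro ω hω
        rw [norm_mul, mem_sphere_zero_iff_norm.1 hω, mul_one]
      refine av_mono zero_le_one continuousOn_const ?_ fun ω hω => ?_
      · have hc1 : ContinuousOn (fun ω => av δ (fun w => g (z * ω + w))) (sphere (0 : ℂ) 1) := by
          refine av_cont (A := sphere (0 : ℂ) 1) (g := fun ω w => g (z * ω + w)) hδ.le ?_
          refine hg.comp (f := fun p : ℂ × ℂ => z * p.1 + p.2) (by fun_prop) fun p hp => ?_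
          rw [mem_ball_zero_iff]
          calc ‖z * p.1 + p.2‖ ≤ ‖z * p.1‖ + ‖p.2‖ := norm_add_le _ _
            _ = ‖z‖ + δ := by rw [hmul _ hp.1, mem_sphere_zero_iff_norm.1 hp.2]
            _ < R' := by linarith
        refine hc1.sub ?_
        refine hg.comp (f := fun ω : ℂ => z * ω) (by fun_prop) fun ω hω => ?_
        rw [mem_ball_zero_iff, hmul ω hω]
        linarith
      · refine h2 (z * ω) ?_ δ hδ hδ2
        rw [mem_closedBall_zero_iff, hmul ω hω]
        exact hz1.le)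
  linarith

end Run7.h418.E
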