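import Pool.Agent.Run7.h418.E.Rl
import Pool.Agent.Run7.h418.E.Ag
import Pool.Agent.Run7.h418.Fld

/-!
The field of the coordinates of a curve and of the small functions.
-/

set_option autoImplicit false

open Metric Set Filter Topology MvPolynomial

namespace Run7.h418.E

open Pool.Agent.Y190.OP Pool.Agent.W602.GT Pool.Agent.N155

variable {n : ℕ} {S : Subalgebra ℂ (ℂ → ℂ)} {φ : ℂ → Mat (n + 1)} {i0 : Fin (n + 1)}

/-- the germ of a polynomial in the coordinates, their derivatives, and small functions -/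
noncomputable def gvt (S : Subalgebra ℂ (ℂ → ℂ)) (φ : ℂ → Mat (n + 1)) (i : Fin (n + 1)) (z : ℂ) :
    Rt n S →+* Germ (𝓝[≠] z) ℂ :=
  (Germ.coeRingHom (𝓝[≠] z)).comp (RingHom.pi fun w => eval (pt (pr i φ w) w))

theorem gvt_apply (z : ℂ) (G : Rt n S) :
    gvt S φ i0 z G = ((fun w => eval (pt (pr i0 φ w) w) G : ℂ → ℂ) : Germ (𝓝[≠] z) ℂ) := rfl

theorem gvt_unit (hS : DSt S) (h : HolP univ φ) {z0 : ℂ} (hz0 : φ z0 i0 i0 ≠ 0) {G : Rt n S}
    (hG : G ∉ Rlt S φ i0) : IsUnit (gvt S φ i0 z0 G) := by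
  rw [gvt_apply]
  refine IsUnit.of_mul_eq_one
    ((fun w => (eval (pt (pr i0 φ w) w) G)⁻¹ : ℂ → ℂ) : Germ (𝓝[≠] z0) ℂ) ?_
  rw [← Germ.coe_mul]
  refine Germ.coe_eq.2 ?_
  filter_upwards [ev_ne_t hS h hG hz0] with w hw
  exact mul_inv_cancel₀ hw.2

/-- the field of the coordinates and of the small functions -/
structure Fz (S : Subalgebra ℂ (ℂ → ℂ)) (φ : ℂ → Mat (n + 1)) (i0 : Fin (n + 1)) {M : Type}
    [Field M] [Algebra ℂ M] (e : Rt n S →ₐ[ℂ] M) : Prop where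
  ker : ∀ G, e G = 0 ↔ G ∈ Rlt S φ i0
  frac : ∀ m : M, ∃ p q, e q ≠ 0 ∧ m * e q = e p
  germ : ∀ z0, φ z0 i0 i0 ≠ 0 → ∃ v : M →+* Germ (𝓝[≠] z0) ℂ,
    ∀ G, v (e G) = ((fun w => eval (pt (pr i0 φ w) w) G : ℂ → ℂ) : Germ (𝓝[≠] z0) ℂ)

theorem exists_fz (hS : DSt S) (h : HolP univ φ) (hi0 : ∃ z, φ z i0 i0 ≠ 0) :
    ∃ (M : Type) (_ : Field M) (_ : Algebra ℂ M) (e : Rt n S →ₐ[ℂ] M), Fz S φ i0 e := by
  obtain ⟨z1, hz1⟩ := hi0
  have hp := rlt_prime hS h hz1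
  let B := Rt n S ⧸ Rlt S φ i0
  let M := FractionRing B
  let e : Rt n S →ₐ[ℂ] M := (IsScalarTower.toAlgHom ℂ B M).comp (Ideal.Quotient.mkₐ ℂ (Rlt S φ i0))
  have he : ∀ G, e G = algebraMap B M (Ideal.Quotient.mk (Rlt S φ i0) G) := fun G => rfl
  have hker : ∀ G, e G = 0 ↔ G ∈ Rlt S φ i0 := by
    intro G
    rw [he, map_eq_zero_iff _ (IsFractionRing.injective B M), Ideal.Quotient.eq_zero_iff_mem]
  refine ⟨M, inferInstance, inferInstance, e, hker, fun m => ?_, fun z0 hz0 => ?_⟩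
  · obtain ⟨⟨a, b⟩, hab⟩ := IsLocalization.surj (nonZeroDivisors B) m
    obtain ⟨p, hp'⟩ := Ideal.Quotient.mk_surjective a
    obtain ⟨q, hq'⟩ := Ideal.Quotient.mk_surjective (b : B)
    refine ⟨p, q, ?_, ?_⟩
    · rw [he, hq']
      exact IsFractionRing.to_map_ne_zero_of_mem_nonZeroDivisors b.2
    · rw [he, he, hp', hq']
      exact hab
  · let g : B →+* Germ (𝓝[≠] z0) ℂ := Ideal.Quotient.lift (Rlt S φ i0) (gvt S φ i0 z0) (by
      intro G hG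
      rw [gvt_apply]
      refine Germ.coe_eq.2 ?_
      filter_upwards [(ev_diag h (mem_univ z0) hz0).filter_mono nhdsWithin_le_nhds] with w hw
      exact hG w hw)
    have hg : ∀ G, g (Ideal.Quotient.mk _ G) = gvt S φ i0 z0 G := fun G => Ideal.Quotient.lift_mk _ _ _
    have hgu : ∀ b : nonZeroDivisors B, IsUnit (g b) := by
      intro b
      obtain ⟨q, hq'⟩ := Ideal.Quotient.mk_surjective (b : B)
      rw [← hq', hg]
      refine gvt_unit hS h hz0 fun hq => ?_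
      have h1 : (b : B) = 0 := by
        rw [← hq']
        exact Ideal.Quotient.eq_zero_iff_mem.2 hq
      exact nonZeroDivisors.ne_zero b.2 h1
    refine ⟨IsLocalization.lift (M := nonZeroDivisors B) (S := M) hgu, fun G => ?_⟩
    rw [he, IsLocalization.lift_eq, hg]
    rfl

section germ

variable {M : Type} [Field M] [Algebra ℂ M] {e : Rt n S →ₐ[ℂ] M} {z0 : ℂ}
  {v : M →+* Germ (𝓝[≠] z0) ℂ}

theorem germ_C (hv : ∀ G, v (e G) = ((fun w => eval (pt (pr i0 φ w) w) G : ℂ → ℂ) :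
    Germ (𝓝[≠] z0) ℂ)) (c : ℂ) :
    v (algebraMap ℂ M c) = ((fun _ => c : ℂ → ℂ) : Germ (𝓝[≠] z0) ℂ) := by
  have h1 : algebraMap ℂ M c = e (C c) := (e.commutes c).symm
  rw [h1, hv]
  simp only [eval_C]

theorem germ_aeval (hv : ∀ G, v (e G) = ((fun w => eval (pt (pr i0 φ w) w) G : ℂ → ℂ) :
    Germ (𝓝[≠] z0) ℂ)) {τ : Type} {b : τ → M} {f : ℂ → τ → ℂ}
    (hb : ∀ l, v (b l) = ((fun w => f w l : ℂ → ℂ) : Germ (𝓝[≠] z0) ℂ)) (P : MvPolynomial τ ℂ) :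
    v (aeval b P) = ((fun w => eval (f w) P : ℂ → ℂ) : Germ (𝓝[≠] z0) ℂ) := by
  induction P using MvPolynomial.induction_on with
  | C c =>
    rw [aeval_C, germ_C hv]
    simp only [eval_C]
  | add p q hp hq =>
    rw [map_add, map_add, hp, hq, ← Germ.coe_add]
    congr 1
    funext w
    rw [Pi.add_apply, map_add]
  | mul_X p l hp =>
    rw [map_mul, map_mul, hp, aeval_X, hb, ← Germ.coe_mul]
    congr 1
    funext w
    rw [Pi.mul_apply, map_mul, eval_X]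

/-- coordinates in another chart -/
theorem germ_cc (h : HolP univ φ) (hz0 : φ z0 i0 i0 ≠ 0)
    (hv : ∀ G, v (e G) = ((fun w => eval (pt (pr i0 φ w) w) G : ℂ → ℂ) : Germ (𝓝[≠] z0) ℂ))
    {k : Fin (n + 1)} (hk : e (X (Sum.inl (Sum.inl k))) ≠ 0) :
    (∀ᶠ w in 𝓝[≠] z0, φ w i0 i0 ≠ 0 ∧ φ w k k ≠ 0 ∧ pr i0 φ w (Sum.inl k) ≠ 0 ∧
      pr k φ w = cc k (pr i0 φ w)) ∧
    ∀ l, v (ccM k (fun l => e (X (Sum.inl l))) l) =
      ((fun w => pr k φ w l : ℂ → ℂ) : Germ (𝓝[≠] z0) ℂ) := by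
  have hXl : ∀ l : Fin (n + 1) ⊕ Fin (n + 1), v (e (X (Sum.inl l))) =
      ((fun w => pr i0 φ w l : ℂ → ℂ) : Germ (𝓝[≠] z0) ℂ) := by
    intro l
    rw [hv]
    simp only [eval_X]
    rfl
  have hu : IsUnit (v (e (X (Sum.inl (Sum.inl k))))) := (isUnit_iff_ne_zero.2 hk).map v
  have hev0 : ∀ᶠ w in 𝓝[≠] z0, φ w i0 i0 ≠ 0 :=
    (ev_diag h (mem_univ z0) hz0).filter_mono nhdsWithin_le_nhds
  have hxa : AnalyticAt ℂ (fun w => pr i0 φ w (Sum.inl k)) z0 :=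
    analyticAt_pr isOpen_univ h (mem_univ z0) hz0 (Sum.inl k)
  have hne : ∀ᶠ w in 𝓝[≠] z0, pr i0 φ w (Sum.inl k) ≠ 0 := by
    rcases hxa.eventually_eq_zero_or_eventually_ne_zero with h1 | h1
    · exfalso
      rw [hXl] at hu
      have h2 : ((fun w => pr i0 φ w (Sum.inl k) : ℂ → ℂ) : Germ (𝓝[≠] z0) ℂ) = 0 := by
        refine Germ.coe_eq.2 ?_
        filter_upwards [h1.filter_mono nhdsWithin_le_nhds] with w hw
        exact hw
      rw [h2] at hu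
      exact not_isUnit_zero hu
    · exact h1
  have hnear : ∀ᶠ w in 𝓝[≠] z0, φ w i0 i0 ≠ 0 ∧ φ w k k ≠ 0 ∧ pr i0 φ w (Sum.inl k) ≠ 0 ∧
      pr k φ w = cc k (pr i0 φ w) := by
    filter_upwards [hev0, hne] with w h1 h2
    have h3 := diag_of_inl (h.mem_PM (mem_univ w)) h1 h2
    exact ⟨h1, h3, h2, (pr_cc isOpen_univ h (mem_univ w) h1 h3).2⟩
  refine ⟨hnear, fun l => ?_⟩
  rcases l with r | r
  · refine hu.mul_left_injective ?_
    change v (e (X (Sum.inl (Sum.inl r))) / e (X (Sum.inl (Sum.inl k)))) * _ = _ * _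
    rw [← map_mul, div_mul_cancel₀ _ hk, hXl, hXl, ← Germ.coe_mul]
    refine Germ.coe_eq.2 ?_
    filter_upwards [hnear] with w hw
    simp only [Pi.mul_apply]
    rw [hw.2.2.2, cc_inl, div_mul_cancel₀ _ hw.2.2.1]
  · refine (hu.pow 2).mul_left_injective ?_
    change v ((e (X (Sum.inl (Sum.inr r))) * e (X (Sum.inl (Sum.inl k))) -
      e (X (Sum.inl (Sum.inl r))) * e (X (Sum.inl (Sum.inr k)))) / e (X (Sum.inl (Sum.inl k))) ^ 2) *
      _ = _ * _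
    rw [← map_pow v, ← map_mul v, div_mul_cancel₀ _ (pow_ne_zero 2 hk), map_sub, map_mul v,
      map_mul v, map_pow v, hXl, hXl, hXl, hXl, ← Germ.coe_mul, ← Germ.coe_mul, ← Germ.coe_sub, ← Germ.coe_pow,
      ← Germ.coe_mul]
    refine Germ.coe_eq.2 ?_
    filter_upwards [hnear] with w hw
    simp only [Pi.mul_apply, Pi.sub_apply, Pi.pow_apply]
    rw [hw.2.2.2, cc_inr, div_mul_cancel₀ _ (pow_ne_zero 2 hw.2.2.1)]

end germ

end Run7.h418.E
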