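import Pool.Agent.Run7.h418.E.Low
import Pool.Agent.Run7.h418.E.Tilde

/-!
The growth of an entire curve and of the values of the symmetric differentials.
-/

set_option autoImplicit false

open Metric Set Filter Topology Real

namespace Run7.h418.E

open Pool.Agent.Y190.OP Pool.Agent.W602.GT Pool.Agent.N155

variable {n : ℕ} {ι κ : Type} {F : ι → MvPolynomial (Fin (n + 1)) ℂ}
  {σ : κ → (Fin (n + 1) → ℂ) → (Fin (n + 1) → ℂ) → ℂ} {m : κ → ℕ}

/-- the size of the values of the symmetric differentials -/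
noncomputable def Hs [Fintype κ] (m : κ → ℕ) (c : κ → ℂ) : ℝ := ∑ j, ‖c j‖ ^ (2 / (m j : ℝ))

theorem Hs_nonneg [Fintype κ] (c : κ → ℂ) : 0 ≤ Hs m c :=
  Finset.sum_nonneg fun _ _ => Real.rpow_nonneg (norm_nonneg _) _

theorem le_Hs [Fintype κ] (c : κ → ℂ) (j : κ) : ‖c j‖ ^ (2 / (m j : ℝ)) ≤ Hs m c :=
  Finset.single_le_sum (f := fun j => ‖c j‖ ^ (2 / (m j : ℝ)))
    (fun _ _ => Real.rpow_nonneg (norm_nonneg _) _) (Finset.mem_univ j)

theorem sg_smul (hσ : ∀ j, SymForm F (m j) (σ j)) {i : Fin (n + 1)}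
    {a : Fin (n + 1) ⊕ Fin (n + 1) → ℂ} (ha : a ∈ Tg F i) (c : ℂ) (j : κ) :
    Sum.elim (a ∘ Sum.inl) (c • (a ∘ Sum.inr)) ∈ Tg F i ∧
      sg σ j (Sum.elim (a ∘ Sum.inl) (c • (a ∘ Sum.inr))) = c ^ m j * sg σ j a := by
  refine ⟨⟨ha.1, ?_, ?_, ?_⟩, ?_⟩
  · change c • (a ∘ Sum.inr) i = 0
    have : (a ∘ Sum.inr) i = 0 := ha.2.1
    rw [this, smul_zero]
  · rw [Sum.elim_comp_inl]
    exact ha.2.2.1
  · rw [Sum.elim_comp_inl, Sum.elim_comp_inr]
    exact ha.2.2.2.smul c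
  · unfold sg
    rw [Sum.elim_comp_inl, Sum.elim_comp_inr]
    exact (hσ j).deg _ (Tg.cone ha) _ ha.2.2.2 c

theorem norm_le_of_rpow {x H : ℝ} {k : ℕ} (hk : 0 < k) (hx : 0 ≤ x) (hH : 0 ≤ H)
    (h : x ^ (2 / (k : ℝ)) ≤ H ^ 2) : x ≤ H ^ k := by
  have hk' : (0 : ℝ) < k := by exact_mod_cast hk
  have h1 : (x ^ (2 / (k : ℝ))) ^ ((k : ℝ) / 2) ≤ (H ^ 2) ^ ((k : ℝ) / 2) :=
    Real.rpow_le_rpow (Real.rpow_nonneg hx _) h (by positivity)
  rw [← Real.rpow_mul hx, ← Real.rpow_natCast H 2, ← Real.rpow_mul hH] at h1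
  have e1 : 2 / (k : ℝ) * (k / 2) = 1 := by field_simp
  have e2 : ((2 : ℕ) : ℝ) * ((k : ℝ) / 2) = k := by
    push_cast
    field_simp
  rw [e1, e2, Real.rpow_one, Real.rpow_natCast] at h1
  exact h1

theorem rpow_le_of_norm {x H : ℝ} {k : ℕ} (hk : 0 < k) (hx : 0 ≤ x) (hH : 0 ≤ H)
    (h : x ≤ H ^ k) : x ^ (2 / (k : ℝ)) ≤ H ^ 2 := by
  have hk' : (0 : ℝ) < k := by exact_mod_cast hk
  have h1 : x ^ (2 / (k : ℝ)) ≤ (H ^ k) ^ (2 / (k : ℝ)) :=
    Real.rpow_le_rpow hx h (by positivity)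
  rw [← Real.rpow_natCast H k, ← Real.rpow_mul hH] at h1
  have e1 : (k : ℝ) * (2 / (k : ℝ)) = (2 : ℕ) := by
    push_cast
    field_simp
  rw [e1, Real.rpow_natCast] at h1
  exact h1

/-- the values are bounded by the vector -/
theorem lowk [Fintype κ] (hσ : ∀ j, SymForm F (m j) (σ j)) (hm : ∀ j, 0 < m j) :
    ∃ c : ℝ, 0 < c ∧ ∀ i, ∀ a ∈ Tg F i, a ∘ Sum.inl ∈ Kc i →
      c * Hs m (fun j => sg σ j a) ≤ ‖a ∘ Sum.inr‖ ^ 2 := by
  choose K hK using fun (j : κ) (i : Fin (n + 1)) => sg_bounded (F := F) hσ j i 1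
  choose K' hK' using fun j => Finite.exists_le (K j)
  obtain ⟨L, hL⟩ := Finite.exists_le K'
  set L' : ℝ := max L 1 with hL'
  have hL1 : 1 ≤ L' := le_max_right _ _
  have hL0 : 0 < L' := by linarith
  -- one value
  have h1 : ∀ j i, ∀ a ∈ Tg F i, a ∘ Sum.inl ∈ Kc i →
      ‖sg σ j a‖ ^ (2 / (m j : ℝ)) ≤ L' ^ 2 * ‖a ∘ Sum.inr‖ ^ 2 := by
    intro j i a ha haK
    have h2 : ‖sg σ j a‖ ≤ (L' * ‖a ∘ Sum.inr‖) ^ m j := by
      by_cases h0 : a ∘ Sum.inr = 0
      · rw [sg_zero hσ hm ha h0, norm_zero]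
        positivity
      · have hn : 0 < ‖a ∘ Sum.inr‖ := norm_pos_iff.2 h0
        set c : ℂ := ((‖a ∘ Sum.inr‖ : ℝ) : ℂ)⁻¹ with hc
        obtain ⟨h3, h4⟩ := sg_smul hσ ha c j
        have h5 := hK j i (Sum.elim (a ∘ Sum.inl) (c • (a ∘ Sum.inr))) ⟨h3, by
          rwa [Sum.elim_comp_inl], by
          rw [Sum.elim_comp_inr, norm_smul, hc, norm_inv, Complex.norm_real,
            Real.norm_of_nonneg hn.le, inv_mul_cancel₀ hn.ne']⟩
        rw [h4, norm_mul, norm_pow, hc, norm_inv, Complex.norm_real, Real.norm_of_nonneg hn.le,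
          inv_pow, inv_mul_le_iff₀ (by positivity)] at h5
        have h6 : K j i ≤ L' := ((hK' j i).trans (hL j)).trans (le_max_left _ _)
        have h7 : L' ≤ L' ^ m j := le_self_pow₀ hL1 (hm j).ne'
        rw [mul_pow]
        calc ‖sg σ j a‖ ≤ ‖a ∘ Sum.inr‖ ^ m j * K j i := h5
          _ ≤ ‖a ∘ Sum.inr‖ ^ m j * L' ^ m j := by
            gcongr
            exact h6.trans h7
          _ = L' ^ m j * ‖a ∘ Sum.inr‖ ^ m j := by ring
    have h3 := rpow_le_of_norm (hm j) (norm_nonneg _) (by positivity) h2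
    rwa [mul_pow] at h3
  refine ⟨1 / ((Fintype.card κ + 1 : ℝ) * L' ^ 2), by positivity, fun i a ha haK => ?_⟩
  have h2 : Hs m (fun j => sg σ j a) ≤ ∑ _j : κ, L' ^ 2 * ‖a ∘ Sum.inr‖ ^ 2 :=
    Finset.sum_le_sum fun j _ => h1 j i a ha haK
  rw [Finset.sum_const, Finset.card_univ, nsmul_eq_mul] at h2
  rw [one_div, inv_mul_le_iff₀ (by positivity)]
  have h3 : 0 ≤ L' ^ 2 * ‖a ∘ Sum.inr‖ ^ 2 := by positivity
  nlinarith

/-- the vector is bounded by the values -/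
theorem uppk [Fintype κ] (hσ : ∀ j, SymForm F (m j) (σ j)) (hm : ∀ j, 0 < m j)
    (him : Immersive F σ) :
    ∃ C : ℝ, 0 < C ∧ ∀ i, ∀ a ∈ Tg F i, a ∘ Sum.inl ∈ Kc i →
      ‖a ∘ Sum.inr‖ ^ 2 ≤ C * Hs m (fun j => sg σ j a) := by
  choose C hC using fun i : Fin (n + 1) => exists_bound_v hm hσ him i 1
  obtain ⟨C', hC'⟩ := Finite.exists_le C
  set L : ℝ := max C' 1 with hL
  have hL0 : 0 < L := lt_max_of_lt_right one_pos
  refine ⟨L ^ 2, by positivity, fun i a ha haK => ?_⟩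
  set q : ℝ := Hs m (fun j => sg σ j a) with hq
  have hq0 : 0 ≤ q := Hs_nonneg _
  rcases eq_or_lt_of_le hq0 with h0 | h0
  · -- the vector is zero
    have h1 : a ∘ Sum.inr = 0 := by
      by_contra hne
      obtain ⟨j, hj⟩ := exists_ne_zero hσ him (Tg.cone ha) ha.2.2.2
        (not_mult (i := i) ha.1 ha.2.1 hne)
      have h2 := le_Hs (m := m) (fun j => sg σ j a) j
      have h3 : 0 < ‖sg σ j a‖ ^ (2 / (m j : ℝ)) := Real.rpow_pos_of_pos (norm_pos_iff.2 hj) _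
      rw [← hq, ← h0] at h2
      exact absurd h3 (not_lt.2 h2)
    rw [h1, norm_zero, ← h0]
    norm_num
  · set H : ℝ := Real.sqrt q with hH
    have hH0 : 0 < H := Real.sqrt_pos.2 h0
    have hHq : H ^ 2 = q := Real.sq_sqrt hq0
    set c : ℂ := ((H : ℝ) : ℂ)⁻¹ with hc
    have hcn : ‖c‖ = H⁻¹ := by
      rw [hc, norm_inv, Complex.norm_real, Real.norm_of_nonneg hH0.le]
    have h1 : ∀ j, ‖sg σ j a‖ ≤ H ^ m j := fun j =>
      norm_le_of_rpow (hm j) (norm_nonneg _) hH0.le (by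
        rw [hHq]
        exact le_Hs (m := m) (fun j => sg σ j a) j)
    have hκ : Nonempty κ := by
      by_contra hκ
      have : IsEmpty κ := not_nonempty_iff.1 hκ
      have h5 : q = 0 := by
        rw [hq]
        unfold Hs
        exact Finset.sum_of_isEmpty _
      exact h0.ne' h5
    have h3 := (sg_smul hσ ha c hκ.some).1
    have h4 := hC i (Sum.elim (a ∘ Sum.inl) (c • (a ∘ Sum.inr))) h3 (by
      rwa [Sum.elim_comp_inl]) (by
      intro j
      rw [(sg_smul hσ ha c j).2, norm_mul, norm_pow, hcn, inv_pow,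
        inv_mul_le_iff₀ (by positivity), mul_one]
      exact h1 j)
    rw [Sum.elim_comp_inr, norm_smul, hcn, inv_mul_le_iff₀ hH0] at h4
    have h5 : C i ≤ L := (hC' i).trans (le_max_left _ _)
    have h6 : ‖a ∘ Sum.inr‖ ≤ L * H := by
      calc ‖a ∘ Sum.inr‖ ≤ H * C i := h4
        _ ≤ H * L := by gcongr
        _ = L * H := mul_comm _ _
    calc ‖a ∘ Sum.inr‖ ^ 2 ≤ (L * H) ^ 2 := by gcongr
      _ = L ^ 2 * q := by rw [mul_pow, hHq]

theorem av_sum_le {α : Type} (s : Finset α) {f : α → ℂ → ℝ} (hf : ∀ j, Continuous (f j)) {r : ℝ}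
    (hr : 0 ≤ r) : av r (fun z => ∑ j ∈ s, f j z) = ∑ j ∈ s, av r (f j) := by
  classical
  induction s using Finset.induction_on with
  | empty => simp only [Finset.sum_empty]; exact av_const r 0
  | insert a s ha ih =>
    simp only [Finset.sum_insert ha]
    rw [av_add hr (hf a).continuousOn (by fun_prop), ih]

theorem Hs_cont [Fintype κ] {g : κ → ℂ → ℂ} (hm : ∀ j, 0 < m j) (hg : ∀ j, Differentiable ℂ (g j)) :
    Continuous fun z => Hs m (fun j => g j z) := by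
  unfold Hs
  refine continuous_finsetSum _ fun j _ => hp_cont (hg j) ?_
  have : (0 : ℝ) < m j := by exact_mod_cast hm j
  positivity

theorem Hs_mono [Fintype κ] {g : κ → ℂ → ℂ} (hm : ∀ j, 0 < m j) (hg : ∀ j, Differentiable ℂ (g j))
    {r R : ℝ} (hr : 0 ≤ r) (hrR : r ≤ R) :
    av r (fun z => Hs m (fun j => g j z)) ≤ av R (fun z => Hs m (fun j => g j z)) := by
  have hp : ∀ j, 0 < 2 / (m j : ℝ) := fun j => by
    have : (0 : ℝ) < m j := by exact_mod_cast hm j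
    positivity
  unfold Hs
  rw [av_sum_le _ (fun j => hp_cont (hg j) (hp j)) hr,
    av_sum_le _ (fun j => hp_cont (hg j) (hp j)) (hr.trans hrR)]
  exact Finset.sum_le_sum fun j _ => hp_mono (hg j) (hp j) hr hrR

/-- the growth data of a curve -/
structure Nv [Fintype κ] (m : κ → ℕ) (g : κ → ℂ → ℂ) (φ : ℂ → Mat (n + 1))
    (G : ℂ → Fin (n + 1) → ℂ) (T : ℝ → ℝ) (r0 : ℝ) (hT : Grw T r0) : Prop where
  gd : Differentiable ℂ G
  g0 : ∀ z, G z ≠ 0
  lift : ∀ z, φ z = Phi (G z)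
  eq : ∃ K : ℝ, 0 < K ∧ ∀ r, T r = K * (av r (fun z => lg (G z)) - lg (G 0))
  nn : ∀ r, r0 ≤ r → 0 ≤ av r (fun z => lg (G z))
  hs : ∃ C : ℝ, 0 ≤ C ∧ ∀ r R, 0 < r → r < R → (R - r) ^ 2 * av r (fun z => Hs m (fun j => g j z)) ≤
    C * T R
  sm : ∀ j, g j ∈ Sm hT

theorem exists_nv [Fintype κ] (hσ : ∀ j, SymForm F (m j) (σ j)) (hm : ∀ j, 0 < m j)
    {g : κ → ℂ → ℂ} {φ : ℂ → Mat (n + 1)} (hg : ∀ j, Differentiable ℂ (g j))
    (h : Sl F σ g univ φ) (hne : ∃ j z, g j z ≠ 0) :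
    ∃ (G : ℂ → Fin (n + 1) → ℂ) (T : ℝ → ℝ) (r0 : ℝ) (hT : Grw T r0), Nv m g φ G T r0 hT := by
  obtain ⟨G, hG, hG0, hGφ⟩ := zero_free h.1
  have hGL : IsLift univ φ G := ⟨hG.differentiableOn, fun z _ => ⟨hG0 z, hGφ z⟩⟩
  have hlgc : Continuous fun z => lg (G z) := lg_cont hGL
  obtain ⟨c, hc, hlow⟩ := lowk (F := F) hσ hm
  set q : ℂ → ℝ := fun z => Hs m (fun j => g j z) with hq
  have hqc : Continuous q := Hs_cont hm hg
  have hq0 : ∀ z, 0 ≤ q z := fun z => Hs_nonneg _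
  set N : ℝ := ((n + 1 : ℕ) : ℝ) with hN
  have hN0 : 0 < N := by rw [hN]; exact_mod_cast Nat.succ_pos n
  have hexc : Exc (fun z => c / (8 * N) * q z) (fun z => lg (G z)) := by
    intro η hη z0
    obtain ⟨δ0, hδ0, h1⟩ := low_exc h.1 hGL (k := fun z => c * q z) (fun z i hi hK => by
      have ha := h.2 z (mem_univ z) i hi
      have h2 := hlow i _ ha.1 hK
      have h3 : (fun j => sg σ j (pr i φ z)) = fun j => g j z := funext fun j => ha.2 j
      rw [h3] at h2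
      exact h2) z0
    refine ⟨δ0, hδ0, fun z hz δ hδ hδ' => ?_⟩
    have h2 := h1 z hz δ hδ hδ'
    have h3 : c * q z * δ ^ 2 ≤ 8 * N * ex (fun z => lg (G z)) z δ := h2
    have h4 : c / (8 * N) * q z * δ ^ 2 ≤ ex (fun z => lg (G z)) z δ := by
      have h5 : c / (8 * N) * q z * δ ^ 2 = (c * q z * δ ^ 2) / (8 * N) := by ring
      rw [h5, div_le_iff₀ (by positivity)]
      linarith
    have h6 : 0 < η * δ ^ 2 := by positivity
    linarith
  have hexc0 : Exc (fun _ => 0) (fun z => lg (G z)) := by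
    intro η hη z0
    obtain ⟨δ0, hδ0, h1⟩ := hexc η hη z0
    refine ⟨δ0, hδ0, fun z hz δ hδ hδ' => le_trans ?_ (h1 z hz δ hδ hδ')⟩
    have h2 : 0 ≤ c / (8 * N) * q z := mul_nonneg (by positivity) (hq0 z)
    have h3 : 0 < δ ^ 2 := by positivity
    nlinarith
  set A : ℝ → ℝ := fun r => av r (fun z => lg (G z)) - lg (G 0) with hA
  have hAm : ∀ r R, 0 ≤ r → r ≤ R → A r ≤ A R := by
    intro r R hr hrR
    have h1 := mono_av hlgc hexc0 hr hrR
    rw [hA]
    change av r (fun z => lg (G z)) - lg (G 0) ≤ av R (fun z => lg (G z)) - lg (G 0)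
    linarith
  set C1 : ℝ := 48 * N / c with hC1
  have hC10 : 0 < C1 := by positivity
  have hn1 : ∀ r R, 0 < r → r < R → (R - r) ^ 2 * av r q ≤ C1 * A R := by
    intro r R hr hrR
    have h1 := n1 (g := fun z => lg (G z)) (k := fun z => c / (8 * N) * q z) hlgc (by fun_prop)
      (fun z => mul_nonneg (by positivity) (hq0 z)) (fun r R hr hrR => by
        rw [av_mul, av_mul]
        exact mul_le_mul_of_nonneg_left (Hs_mono hm hg hr hrR) (by positivity)) hexc hr hrR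
    rw [av_mul] at h1
    have h2 : (R - r) ^ 2 * (c / (8 * N) * av r q) = (c / (8 * N)) * ((R - r) ^ 2 * av r q) := by
      ring
    rw [h2] at h1
    have h3 : C1 * A R = (8 * N / c) * (6 * A R) := by
      rw [hC1]
      ring
    rw [h3]
    have h4 : (8 * N / c) * (c / (8 * N) * ((R - r) ^ 2 * av r q)) ≤ (8 * N / c) * (6 * A R) :=
      mul_le_mul_of_nonneg_left h1 (by positivity)
    have h5 : (8 * N / c) * (c / (8 * N) * ((R - r) ^ 2 * av r q)) = (R - r) ^ 2 * av r q := by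
      field_simp
    rwa [h5] at h4
  -- the mean of the density is positive
  obtain ⟨r1, hr1, hq1⟩ : ∃ r1 > 0, 0 < av r1 q := by
    obtain ⟨j, z, hz⟩ := hne
    have hp : 0 < 2 / (m j : ℝ) := by
      have : (0 : ℝ) < m j := by exact_mod_cast hm j
      positivity
    obtain ⟨R, hR1, -, hR3⟩ := exists_radius (hg j) ⟨z, hz⟩ (show ‖z‖ < ‖z‖ + 1 by linarith)
    have hR : 0 < R := (norm_nonneg z).trans_lt hR1
    refine ⟨R, hR, ?_⟩
    have h1 := Run7.h418.E.hm (hg j) hp hR hR3 (w := z) (mem_ball_zero_iff.2 hR1)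
    have h2 : 0 < ‖g j z‖ ^ (2 / (m j : ℝ)) := Real.rpow_pos_of_pos (norm_pos_iff.2 hz) _
    have h3 : 0 < (R + ‖z‖) / (R - ‖z‖) := div_pos (by positivity) (by linarith)
    have h4 : 0 < av R (fun z => ‖g j z‖ ^ (2 / (m j : ℝ))) := by
      by_contra h5
      have h6 := mul_nonpos_of_nonneg_of_nonpos h3.le (not_lt.1 h5)
      linarith
    refine h4.trans_le (av_mono hR.le (hp_cont (hg j) hp).continuousOn hqc.continuousOn
      fun z _ => le_Hs (fun j => g j z) j)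
  set c1 : ℝ := av r1 q / (4 * C1) with hc1
  have hc10 : 0 < c1 := by positivity
  have hAr : ∀ r, 2 * r1 ≤ r → c1 * r ^ 2 ≤ A r := by
    intro r hr
    have h1 := hn1 (r / 2) r (by linarith) (by linarith)
    have h2 : av r1 q ≤ av (r / 2) q := Hs_mono hm hg hr1.le (by linarith)
    have h3 : (r - r / 2) ^ 2 = r ^ 2 / 4 := by ring
    rw [h3] at h1
    have h4 : r ^ 2 / 4 * av r1 q ≤ C1 * A r :=
      le_trans (mul_le_mul_of_nonneg_left h2 (by positivity)) h1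
    have h5 : c1 * r ^ 2 = (r ^ 2 / 4 * av r1 q) / C1 := by
      rw [hc1]
      field_simp
    rw [h5, div_le_iff₀ hC10]
    linarith
  set K : ℝ := 1 / c1 with hK
  have hK0 : 0 < K := by positivity
  set r0 : ℝ := max (max (2 * r1) 1) (|lg (G 0)| / c1) with hr0
  have hr01 : 1 ≤ r0 := (le_max_right _ _).trans (le_max_left _ _)
  have hr02 : 2 * r1 ≤ r0 := (le_max_left _ _).trans (le_max_left _ _)
  have hr03 : |lg (G 0)| / c1 ≤ r0 := le_max_right _ _
  have hA1 : ∀ r, r0 ≤ r → c1 * r ≤ A r := by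
    intro r hr
    have h1 := hAr r (hr02.trans hr)
    have h2 : r ≤ r ^ 2 := by nlinarith
    nlinarith
  have hT : Grw (fun r => K * A r) r0 := by
    refine ⟨hr01, fun r r' hr hr' => ?_, fun r hr => ?_⟩
    · exact mul_le_mul_of_nonneg_left (hAm r r' (by linarith) hr') hK0.le
    · have h1 := hA1 r hr
      have h2 : K * (c1 * r) = r := by
        rw [hK]
        field_simp
      calc r = K * (c1 * r) := h2.symm
        _ ≤ K * A r := mul_le_mul_of_nonneg_left h1 hK0.le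
  have hhs : ∀ r R, 0 < r → r < R → (R - r) ^ 2 * av r q ≤ (C1 / K) * (K * A R) := by
    intro r R hr hrR
    have h1 : (C1 / K) * (K * A R) = C1 * A R := by field_simp
    rw [h1]
    exact hn1 r R hr hrR
  refine ⟨G, fun r => K * A r, r0, hT, hG, hG0, hGφ, ⟨K, hK0, fun r => rfl⟩, fun r hr => ?_,
    ⟨C1 / K, by positivity, hhs⟩, fun j => ?_⟩
  · have h1 := hA1 r hr
    have h2 : |lg (G 0)| ≤ c1 * r := by
      rw [div_le_iff₀ hc10] at hr03
      nlinarith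
    have h3 : A r = av r (fun z => lg (G z)) - lg (G 0) := rfl
    have h4 := neg_abs_le (lg (G 0))
    linarith
  · have hp : 0 < 2 / (m j : ℝ) := by
      have : (0 : ℝ) < m j := by exact_mod_cast hm j
      positivity
    refine sm_of_mean (p := 2 / (m j : ℝ)) (C := 8 * (C1 / K)) (hg j) hp fun r hr ρ hρ1 hρ2 => ?_
    set T : ℝ := K * A r with hTr
    have hT1 : 1 ≤ T := hT.one_le hr.1
    have hT0 : 0 < T := by linarith
    have hr0' : 0 < r := by linarith [hr.1, hr01]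
    have hρ0 : 0 < ρ := by
      have : 0 < 1 / (4 * T) := by positivity
      linarith
    have h1 : av ρ (fun z => ‖g j z‖ ^ (2 / (m j : ℝ))) ≤ av ρ q :=
      av_mono hρ0.le (hp_cont (hg j) hp).continuousOn hqc.continuousOn
        fun z _ => le_Hs (fun j => g j z) j
    refine h1.trans ?_
    have hρR : ρ < r + 1 / T := by
      have : 1 / (2 * T) < 1 / T := by
        apply one_div_lt_one_div_of_lt hT0
        linarith
      linarith
    have h2 := hhs ρ (r + 1 / T) hρ0 hρR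
    have h3 : K * A (r + 1 / T) ≤ 2 * T := hr.2
    have h4 : 1 / (2 * T) ≤ r + 1 / T - ρ := by
      have : 1 / T = 1 / (2 * T) + 1 / (2 * T) := by field_simp; norm_num
      linarith
    have h5 : (1 / (2 * T)) ^ 2 * av ρ q ≤ (r + 1 / T - ρ) ^ 2 * av ρ q := by
      have h6 : 0 ≤ av ρ q := by
        have h1 := av_mono hρ0.le (f := fun _ => (0 : ℝ)) (g := q) continuousOn_const
          hqc.continuousOn fun z _ => hq0 z
        rwa [av_const] at h1
      gcongr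
    have h6 : (1 / (2 * T)) ^ 2 * av ρ q ≤ C1 / K * (2 * T) :=
      (h5.trans h2).trans (mul_le_mul_of_nonneg_left h3 (by positivity))
    have h7 : (1 / (2 * T)) ^ 2 * av ρ q = av ρ q / (4 * T ^ 2) := by
      ring
    rw [h7, div_le_iff₀ (by positivity)] at h6
    calc av ρ q ≤ C1 / K * (2 * T) * (4 * T ^ 2) := h6
      _ = 8 * (C1 / K) * T ^ 3 := by ring

end Run7.h418.E
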