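import Pool.Agent.Run7.h418.E.Fro

/-!
The closure of a curve is not of general type: the algebraic conclusion.
-/

set_option autoImplicit false

open Metric Set Filter Topology MvPolynomial

namespace Run7.h418.E

open Pool.Agent.Y190.OP Pool.Agent.W602.GT Pool.Agent.N155

section alg

variable {n : ℕ} {M Ω : Type} [Field M] [Algebra ℂ M] [Field Ω] [Algebra ℂ Ω] [Algebra M Ω]
  [IsScalarTower ℂ M Ω]

theorem ccM_map (k : Fin (n + 1)) (a : Fin (n + 1) ⊕ Fin (n + 1) → M) :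
    ccM k (fun l => algebraMap M Ω (a l)) = fun l => algebraMap M Ω (ccM k a l) := by
  funext l
  rcases l with l | l
  · change algebraMap M Ω _ / algebraMap M Ω _ = algebraMap M Ω (_ / _)
    rw [map_div₀]
  · change (algebraMap M Ω _ * algebraMap M Ω _ - algebraMap M Ω _ * algebraMap M Ω _) /
      algebraMap M Ω _ ^ 2 = algebraMap M Ω ((_ * _ - _ * _) / _ ^ 2)
    rw [map_div₀, map_sub, map_mul, map_mul, map_pow]

theorem aeval_cc (k : Fin (n + 1)) (a : Fin (n + 1) ⊕ Fin (n + 1) → M) (G : Rn (n + 1)) :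
    aeval (ccM k fun l => algebraMap M Ω (a l)) G = algebraMap M Ω (aeval (ccM k a) G) := by
  rw [ccM_map]
  exact aeval_algebraMap_apply Ω (ccM k a) G

theorem aeval_cc_inl (k : Fin (n + 1)) (a : Fin (n + 1) ⊕ Fin (n + 1) → M)
    (G : MvPolynomial (Fin (n + 1)) ℂ) :
    aeval ((ccM k fun l => algebraMap M Ω (a l)) ∘ Sum.inl) G =
      algebraMap M Ω (aeval (ccM k a ∘ Sum.inl) G) := by
  rw [ccM_map]
  exact aeval_algebraMap_apply Ω (ccM k a ∘ Sum.inl) G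

end alg

variable {n : ℕ} {ι κ : Type} {F : ι → MvPolynomial (Fin (n + 1)) ℂ}
  {σ : κ → (Fin (n + 1) → ℂ) → (Fin (n + 1) → ℂ) → ℂ} {m : κ → ℕ} {φ : ℂ → Mat (n + 1)}
  {i0 : Fin (n + 1)}

theorem det_map {M Ω : Type} [Field M] [Field Ω] [Algebra M Ω] {d : ℕ}
    (A : Matrix (Fin d) (Fin d) M) (h : A.det ≠ 0) :
    (Matrix.of fun b c => algebraMap M Ω (A b c)).det ≠ 0 := by
  have h1 : (Matrix.of fun b c => algebraMap M Ω (A b c)) = (algebraMap M Ω).mapMatrix A := rfl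
  rw [h1, ← RingHom.map_det]
  exact (map_ne_zero _).2 h

theorem not_general_curve (p1 : P1) (p2 : P2) (p3 : P3) (c1 : C1) (c2 : C2) (c3 : C3) (c4 : C4)
    (a1 : A1) (a2 : A2) (a3 : A3) (a4 : A4) (d1 : D1) [Finite κ] (hF : ∀ j, IsForm (F j))
    (hσ : ∀ j, SymForm F (m j) (σ j)) (hm : ∀ j, 0 < m j) (him : Immersive F σ)
    (hφ : HolP univ φ) (hT : ∀ z, φ z ∈ TF F) (hne : ¬ ∀ z, φ z = φ 0)
    (hi0 : ∃ z, φ z i0 i0 ≠ 0) {K : Type} [Field K] [Algebra ℂ K] {w : ℕ} {y : Fin (n + 1) → K}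
    (hy0 : y i0 = 1) (hcy : coords ℂ y = ⊤)
    (hker : ∀ G : MvPolynomial (Fin (n + 1)) ℂ, aeval y G = 0 ↔
      ∀ z, φ z i0 i0 ≠ 0 → eval (pr i0 φ z ∘ Sum.inl) G = 0) : ¬ GeneralType ℂ K w := by
  intro hgt
  letI : Fintype κ := Fintype.ofFinite κ
  obtain ⟨g, hg, hSl⟩ := exists_h hF hσ hφ hT
  have hgne := h_ne hσ him hSl hne
  obtain ⟨G, T, r0, hT', nv⟩ := exists_nv hσ hm hg hSl hgne
  obtain ⟨M, i1, i2, e, hM⟩ := exists_fz (S := Sm hT') dst_Sm hφ hi0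
  obtain ⟨τ, hτ, js, P, H, hrep, hcov⟩ := exists_cov hσ
  obtain ⟨d, t, q, V, htb, hq, hV0, hVI, hVt⟩ := a1 (Fin (n + 1) ⊕ Fin (n + 1)) (Sm hT') M e hM.frac
  obtain ⟨J, α, hJs, hdet, hal⟩ := frame_out p1 p2 hF hσ hm him hg hSl hgne nv hi0 hM hrep hcov hq
    hV0 hVI hVt
  have hd : 0 < d := by
    rcases Nat.eq_zero_or_pos d with h0 | h0
    · exfalso
      subst h0
      exact pos_d p3 a3 hφ nv hi0 hM (htb.isEmpty_iff_isAlgebraic.1 inferInstance)
    · exact h0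
  set h : κ → Sm hT' := fun j => ⟨g j, nv.sm j⟩ with hh
  have hφ' : Sl F σ (fun j => (h j).1) univ φ := hSl
  obtain ⟨z0, hz0⟩ := hi0
  obtain ⟨v, hv⟩ := hM.germ z0 hz0
  let Ω := AlgebraicClosure M
  let A : Set M := Set.range (se e)
  let 𝔉 := IntermediateField.adjoin ℂ (algebraMap M Ω '' A)
  let fs : Sm hT' → 𝔉 := fun s => ⟨algebraMap M Ω (se e s),
    IntermediateField.subset_adjoin ℂ _ ⟨se e s, ⟨s, rfl⟩, rfl⟩⟩
  have hJA : ∀ b, ∀ x ∈ A, J b x = 0 := by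
    rintro b _ ⟨s, rfl⟩
    exact hJs b s
  choose J' hJ' using fun b => a2 M Ω A (J b) (hJA b)
  have hk0 : ∀ k, algebraMap M Ω (ce e (Sum.inl k)) ≠ 0 → ce e (Sum.inl k) ≠ 0 :=
    fun k hk h0 => hk (by rw [h0, map_zero])
  obtain ⟨ψ, hψ⟩ := U.exists_hom (aeval y : MvPolynomial (Fin (n + 1)) ℂ →ₐ[ℂ] K).toRingHom
    ((aeval (fun k => algebraMap M Ω (ce e (Sum.inl k))) :
      MvPolynomial (Fin (n + 1)) ℂ →ₐ[ℂ] Ω).toRingHom) (fun G => by
      change aeval y G = 0 ↔ aeval (fun k => algebraMap M Ω (ce e (Sum.inl k))) G = 0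
      have h1 : aeval (fun k => algebraMap M Ω (ce e (Sum.inl k))) G =
          algebraMap M Ω (aeval (fun k => ce e (Sum.inl k)) G) := aeval_algebraMap_apply Ω _ G
      have h2 : aeval (fun k => ce e (Sum.inl k)) G =
          e (rename (fun k : Fin (n + 1) => (Sum.inl (Sum.inl k) :
            (Fin (n + 1) ⊕ Fin (n + 1)) ⊕ Sm hT')) G) := by
        have h3 : (aeval (fun k => ce e (Sum.inl k)) : MvPolynomial (Fin (n + 1)) ℂ →ₐ[ℂ] M) =
            e.comp (rename (fun k : Fin (n + 1) => (Sum.inl (Sum.inl k) :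
              (Fin (n + 1) ⊕ Fin (n + 1)) ⊕ Sm hT'))) := by
          refine algHom_ext fun k => ?_
          rw [aeval_X, AlgHom.comp_apply, rename_X]
          rfl
        exact DFunLike.congr_fun h3 G
      rw [h1, map_eq_zero_iff _ (algebraMap M Ω).injective, h2, hM.ker, mem_Rlt, hker]
      refine forall_congr' fun z => forall_congr' fun hz => ?_
      rw [eval_rename]
      exact Iff.rfl) (U.frac_of_coords hcy)
  have hψC : ∀ c : ℂ, ψ (algebraMap ℂ K c) = algebraMap ℂ Ω c := by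
    intro c
    have h1 := hψ (C c)
    change ψ (aeval y (C c)) = aeval _ (C c) at h1
    rwa [aeval_C, aeval_C] at h1
  have hψy : ∀ k, ψ (y k) = algebraMap M Ω (ce e (Sum.inl k)) := by
    intro k
    have h1 := hψ (X k)
    change ψ (aeval y (X k)) = aeval _ (X k) at h1
    rwa [aeval_X, aeval_X] at h1
  have hgen : IntermediateField.adjoin ℂ (Set.range y) = ⊤ := by
    rw [eq_top_iff, ← hcy]
    unfold coords
    rw [IntermediateField.adjoin_le_iff]
    rintro _ ⟨i, j, -, rfl⟩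
    exact div_mem (IntermediateField.subset_adjoin _ _ ⟨i, rfl⟩)
      (IntermediateField.subset_adjoin _ _ ⟨j, rfl⟩)
  refine d1 c1 c2 c3 c4 n ι κ τ F m σ js (fun s => HP (P s) (H s)) (fun s => H s ^ 2) Ω 𝔉 i0
    (fun l => algebraMap M Ω (ce e l)) d J' (fun j => fs (h j)) (fun b j => fs (α b j))
    inferInstance hF hm hσ him (cov_HP hrep hcov) ?_ hd ?_ ?_ ?_ ?_ ?_ ?_ ?_ ?_ K w y
    { ψ with commutes' := hψC } hgen hψy hgt
  · obtain ⟨j, z, hz⟩ := hgne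
    refine ⟨j, fun h0 => hz ?_⟩
    have h1 : algebraMap M Ω (se e (h j)) = 0 := congrArg Subtype.val h0
    rw [map_eq_zero] at h1
    have h2 : e (X (Sum.inr (h j))) = 0 := h1
    rw [hM.ker, mem_Rlt] at h2
    refine entire_zero (hg j) (z0 := z0) ?_ z
    filter_upwards [ev_diag hφ (mem_univ z0) hz0] with z' hz'
    have h3 := h2 z' hz'
    rw [eval_X] at h3
    exact h3
  · rw [(ce_inl0 hφ' hM).1, map_one]
  · rw [(ce_inl0 hφ' hM).2, map_zero]
  · intro k hk i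
    rw [aeval_cc_inl, rel_cone hv hφ' hz0 (hk0 k hk) i, map_zero]
  · intro k hk i
    rw [aeval_cc, rel_tan hv hφ' hz0 (hk0 k hk) i, map_zero]
  · intro k hk s
    rw [aeval_cc, aeval_cc_inl, rel_val hv hφ' hz0 (hk0 k hk) (hrep s), map_mul]
  · intro k hk s b
    have h1 := congrArg (algebraMap M Ω) (hal k (hk0 k hk) s b)
    rw [map_sum, map_mul] at h1
    rw [aeval_cc_inl]
    refine Eq.trans ?_ h1
    refine Finset.sum_congr rfl fun l _ => ?_
    rw [aeval_cc, map_mul, ccM_map, hJ']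
  · exact a4 M Ω (Fin (n + 1) ⊕ Fin (n + 1)) A (ce e) d t htb
  · refine ⟨t, ?_⟩
    have h1 := det_map (Ω := Ω) _ hdet
    refine fun h2 => h1 (Eq.trans ?_ h2)
    congr 1
    ext b c
    rw [Matrix.of_apply, Matrix.of_apply, Matrix.of_apply, hJ']

end Run7.h418.E
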