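import Pool.Agent.Run7.h418.Poly
import Pool.Agent.Run7.h418.Wsp

/-!
Flows of polynomial vector fields whose coefficients are entire functions of the time.
-/

set_option autoImplicit false

open Metric Set Filter Topology MvPolynomial

namespace Run7.h418.E

open Pool.Agent.Y190.OP

/-- an algebra of entire functions which is closed under derivatives -/
structure DSt (S : Subalgebra ℂ (ℂ → ℂ)) : Prop where
  diff : ∀ a ∈ S, Differentiable ℂ a
  der : ∀ a ∈ S, deriv a ∈ S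

variable {S : Subalgebra ℂ (ℂ → ℂ)} {τ : Type}

/-- the derivative of an element -/
noncomputable def dS (hS : DSt S) (s : S) : S := ⟨deriv s.1, hS.der s.1 s.2⟩

/-- the point `a` at the time `z` -/
def pt (a : τ → ℂ) (z : ℂ) : τ ⊕ S → ℂ := Sum.elim a fun s => s.1 z

/-- vector fields with the time derivative -/
def TD (hS : DSt S) (D : Dr (τ ⊕ S)) : Prop := ∀ s : S, D (X (Sum.inr s)) = X (Sum.inr (dS hS s))

/-- bounds near the time `z0` -/
def Bt (G : MvPolynomial (τ ⊕ S) ℂ) (z0 : ℂ) (r B M : ℝ) [Fintype τ] : Prop :=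
  ∀ z : ℂ, ‖z - z0‖ ≤ r → ∀ a : τ → ℂ, ‖a‖ ≤ B → ‖eval (pt (S := S) a z) G‖ ≤ M

section ev

theorem diff_pt (hS : DSt S) {E : Type} [NormedAddCommGroup E] [NormedSpace ℂ E] {a : E → τ → ℂ}
    {z : E → ℂ} {e : E} (ha : ∀ l, DifferentiableAt ℂ (fun e => a e l) e)
    (hz : DifferentiableAt ℂ z e) (G : MvPolynomial (τ ⊕ S) ℂ) :
    DifferentiableAt ℂ (fun e => eval (pt (a e) (z e)) G) e := by
  induction G using MvPolynomial.induction_on with
  | C c => simp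
  | add p q hp hq => simp only [map_add]; exact hp.add hq
  | mul_X p l hp =>
    simp only [map_mul, eval_X]
    refine hp.mul ?_
    rcases l with l | s
    · exact ha l
    · exact ((hS.diff s.1 s.2) (z e)).comp e hz

theorem cont_pt (hS : DSt S) [Fintype τ] (G : MvPolynomial (τ ⊕ S) ℂ) :
    Continuous fun p : (τ → ℂ) × ℂ => eval (pt p.1 p.2) G := by
  have h : Differentiable ℂ fun p : (τ → ℂ) × ℂ => eval (pt p.1 p.2) G := fun p =>
    diff_pt hS (a := fun p : (τ → ℂ) × ℂ => p.1) (z := fun p => p.2) (fun l => by fun_prop)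
      (by fun_prop) G
  exact h.continuous

theorem exists_bt (hS : DSt S) [Fintype τ] (G : MvPolynomial (τ ⊕ S) ℂ) (z0 : ℂ) (r B : ℝ) :
    ∃ M : ℝ, 1 ≤ M ∧ Bt G z0 r B M := by
  obtain ⟨M, hM⟩ := ((isCompact_closedBall (0 : τ → ℂ) B).prod
    (isCompact_closedBall z0 r)).exists_bound_of_continuousOn (cont_pt hS G).continuousOn
  refine ⟨max M 1, le_max_right _ _, fun z hz a ha => (hM (a, z) ⟨?_, ?_⟩).trans (le_max_left _ _)⟩
  · exact mem_closedBall_zero_iff.2 ha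
  · exact mem_closedBall_iff_norm.2 hz

end ev

section bd

variable [Fintype τ]

/-- Cauchy's estimate -/
theorem Bt.step (hS : DSt S) {D : Dr (τ ⊕ S)} (hD : TD hS D) {G : MvPolynomial (τ ⊕ S) ℂ} {z0 : ℂ}
    {r B δ C M : ℝ} (hδ : 0 < δ) (hC : 1 ≤ C) (hG : Bt G z0 (r + δ) (B + δ) M)
    (hDb : ∀ l, Bt (D (X (Sum.inl l))) z0 r B C) : Bt (D G) z0 r B (M * C / δ) := by
  intro z hz a ha
  have hC0 : 0 < C := by linarith
  set v : τ → ℂ := fun l => eval (pt a z) (D (X (Sum.inl l))) with hv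
  have hvC : ‖v‖ ≤ C := (pi_norm_le_iff_of_nonneg hC0.le).2 fun l => hDb l z hz a ha
  have h1 : HasDerivAt (fun w : ℂ => eval (pt (S := S) (a + w • v) (z + w)) G)
      (eval (pt (a + (0 : ℂ) • v) (z + 0)) (D G)) 0 := by
    refine hasDerivAt_eval D (γ := fun w => pt (a + w • v) (z + w)) (fun l => ?_) G
    rcases l with l | s
    · have h2 : HasDerivAt (fun w : ℂ => a l + w * v l) (1 * v l) 0 :=
        ((hasDerivAt_id (0 : ℂ)).mul_const (v l)).const_add (a l)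
      simpa [hv, pt] using h2
    · rw [hD s]
      simp only [eval_X, pt, Sum.elim_inr, add_zero, dS]
      have h2 : HasDerivAt s.1 (deriv s.1 z) (z + 0) := by
        rw [add_zero]
        exact (hS.diff s.1 s.2 z).hasDerivAt
      have h3 : HasDerivAt (fun w : ℂ => z + w) 1 0 := (hasDerivAt_id (0 : ℂ)).const_add z
      have h4 := h2.comp (0 : ℂ) h3
      rw [mul_one] at h4
      exact h4
  have hdiff : Differentiable ℂ fun w : ℂ => eval (pt (S := S) (a + w • v) (z + w)) G := by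
    intro w
    refine diff_pt hS (a := fun w : ℂ => a + w • v) (z := fun w => z + w) (fun l => ?_)
      (by fun_prop) G
    simp only [Pi.add_apply, Pi.smul_apply]
    fun_prop
  have h4 := Complex.norm_deriv_le_of_forall_mem_sphere_norm_le (f := fun w : ℂ =>
    eval (pt (S := S) (a + w • v) (z + w)) G) (c := 0) (R := δ / C) (C := M) (by positivity)
    hdiff.diffContOnCl (fun w hw => by
      rw [mem_sphere_zero_iff_norm] at hw
      apply hG
      · calc ‖z + w - z0‖ = ‖(z - z0) + w‖ := by ring_nf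
          _ ≤ ‖z - z0‖ + ‖w‖ := norm_add_le _ _
          _ ≤ r + δ := by
            rw [hw]
            gcongr
            exact div_le_self hδ.le hC
      · refine (norm_add_le _ _).trans (add_le_add ha ?_)
        rw [norm_smul, hw]
        calc δ / C * ‖v‖ ≤ δ / C * C := by gcongr
          _ = δ := by field_simp)
  rw [h1.deriv, zero_smul, add_zero, add_zero] at h4
  refine h4.trans (le_of_eq ?_)
  field_simp

theorem Bt.mono {G : MvPolynomial (τ ⊕ S) ℂ} {z0 : ℂ} {r r' B B' M : ℝ} (h : Bt G z0 r B M)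
    (hr : r' ≤ r) (hB : B' ≤ B) : Bt G z0 r' B' M :=
  fun z hz a ha => h z (hz.trans hr) a (ha.trans hB)

theorem Bt.iter (hS : DSt S) {D : Dr (τ ⊕ S)} (hD : TD hS D) {G : MvPolynomial (τ ⊕ S) ℂ} {z0 : ℂ}
    {r B C M : ℝ} (hC : 1 ≤ C) (hG : Bt G z0 (r + 1) (B + 1) M)
    (hDb : ∀ l, Bt (D (X (Sum.inl l))) z0 (r + 1) (B + 1) C) (k : ℕ) :
    Bt (D^[k] G) z0 r B ((k * C) ^ k * M) := by
  rcases Nat.eq_zero_or_pos k with rfl | hk
  · simpa using hG.mono (by linarith) (by linarith)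
  have hk' : (0 : ℝ) < k := by exact_mod_cast hk
  have h1 : ∀ j : ℕ, j ≤ k → Bt (D^[j] G) z0 (r + 1 - j / k) (B + 1 - j / k)
      ((k * C) ^ j * M) := by
    intro j
    induction j with
    | zero => intro _; simpa using hG
    | succ j ih =>
      intro hj
      have h2 := ih (by omega)
      rw [Function.iterate_succ_apply']
      have h3 : ∀ x : ℝ, x + 1 - (j : ℝ) / k = (x + 1 - ((j + 1 : ℕ) : ℝ) / k) + 1 / k := by
        intro x
        push_cast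
        field_simp
        ring
      rw [h3, h3] at h2
      have h5 : 0 ≤ ((j + 1 : ℕ) : ℝ) / k := by positivity
      have h4 := h2.step hS hD (δ := 1 / k) (by positivity) hC (fun l => (hDb l).mono (by linarith)
        (by linarith))
      intro z hz a ha
      refine (h4 z hz a ha).trans (le_of_eq ?_)
      rw [pow_succ]
      field_simp
  have h5 := h1 k le_rfl
  refine h5.mono ?_ ?_
  · rw [div_self hk'.ne']
    linarith
  · rw [div_self hk'.ne']
    linarith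

theorem cf_bt (hS : DSt S) {D : Dr (τ ⊕ S)} (hD : TD hS D) {G : MvPolynomial (τ ⊕ S) ℂ} {z0 : ℂ}
    {r B C M : ℝ} (hC : 1 ≤ C) (hM : 0 ≤ M) (hG : Bt G z0 (r + 1) (B + 1) M)
    (hDb : ∀ l, Bt (D (X (Sum.inl l))) z0 (r + 1) (B + 1) C) {z : ℂ} (hz : ‖z - z0‖ ≤ r)
    {a : τ → ℂ} (ha : ‖a‖ ≤ B) (k : ℕ) :
    ‖cf D G (pt a z) k‖ ≤ M * (Real.exp 1 * C) ^ k := by
  unfold cf
  rw [norm_div, Complex.norm_natCast]
  have h1 := Bt.iter hS hD hC hG hDb k z hz a ha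
  have h2 : ((k : ℝ)) ^ k / k.factorial ≤ Real.exp 1 ^ k := by
    have := Real.pow_div_factorial_le_exp (k : ℝ) (by positivity) k
    rwa [← Real.exp_one_pow] at this
  have h3 : (0 : ℝ) < k.factorial := by exact_mod_cast k.factorial_pos
  calc ‖eval (pt a z) (D^[k] G)‖ / k.factorial ≤ ((k * C) ^ k * M) / k.factorial := by gcongr
    _ = M * (((k : ℝ)) ^ k / k.factorial) * C ^ k := by rw [mul_pow]; ring
    _ ≤ M * (Real.exp 1 ^ k) * C ^ k := by gcongr
    _ = _ := by rw [mul_pow]; ring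

end bd

section flow

variable [Fintype τ]

/-- The flow of `D` exists for starting times near `z0`, starting points of norm at most `B` and
for times less than `ρ`. -/
structure RadT (hS : DSt S) (D : Dr (τ ⊕ S)) (z0 : ℂ) (r B ρ : ℝ) : Prop where
  td : TD hS D
  rnn : 0 ≤ r
  Bnn : 0 ≤ B
  pos : 0 < ρ
  bd : ∃ C : ℝ, 1 ≤ C ∧ (∀ l, Bt (D (X (Sum.inl l))) z0 (r + 1) (B + 1) C) ∧
    ρ * (4 * (B + 1) * Real.exp 1 * C) ≤ 1

variable {hS : DSt S}

theorem exists_radT {D : Dr (τ ⊕ S)} (hD : TD hS D) (z0 : ℂ) {r B : ℝ} (hr : 0 ≤ r) (hB : 0 ≤ B) :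
    ∃ ρ : ℝ, RadT hS D z0 r B ρ := by
  choose M hM hMb using fun l => exists_bt hS (D (X (Sum.inl l))) z0 (r + 1) (B + 1)
  obtain ⟨C, hC⟩ := Finite.exists_le M
  refine ⟨1 / (4 * (B + 1) * Real.exp 1 * (max C 1)), hD, hr, hB, by positivity, max C 1,
    le_max_right _ _, fun l z hz a ha => (hMb l z hz a ha).trans ((hC l).trans (le_max_left _ _)),
    ?_⟩
  rw [one_div, inv_mul_cancel₀]
  positivity

theorem RadT.mono {D : Dr (τ ⊕ S)} {z0 : ℂ} {r B ρ ρ' : ℝ} (h : RadT hS D z0 r B ρ)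
    (h0 : 0 < ρ') (hρ : ρ' ≤ ρ) : RadT hS D z0 r B ρ' := by
  obtain ⟨C, hC, h1, h2⟩ := h.bd
  have := h.Bnn
  exact ⟨h.td, h.rnn, h.Bnn, h0, C, hC, h1,
    (mul_le_mul_of_nonneg_right hρ (by positivity)).trans h2⟩

theorem RadT.cf_le {D : Dr (τ ⊕ S)} {z0 : ℂ} {r B ρ : ℝ} (h : RadT hS D z0 r B ρ)
    {G : MvPolynomial (τ ⊕ S) ℂ} {M : ℝ}
    (hM : 0 ≤ M) (hG : Bt G z0 (r + 1) (B + 1) M) {z : ℂ} (hz : ‖z - z0‖ ≤ r) {a : τ → ℂ}
    (ha : ‖a‖ ≤ B) {t : ℂ} (ht : ‖t‖ ≤ ρ) (k : ℕ) :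
    ‖cf D G (pt a z) k * t ^ k‖ ≤ M * (1 / (4 * (B + 1))) ^ k := by
  obtain ⟨C, hC, h1, h2⟩ := h.bd
  have hB := h.Bnn
  rw [norm_mul, norm_pow]
  have h3 : Real.exp 1 * C * ‖t‖ ≤ 1 / (4 * (B + 1)) := by
    rw [le_div_iff₀ (by positivity)]
    calc Real.exp 1 * C * ‖t‖ * (4 * (B + 1)) ≤ Real.exp 1 * C * ρ * (4 * (B + 1)) := by gcongr
      _ = ρ * (4 * (B + 1) * Real.exp 1 * C) := by ring
      _ ≤ 1 := h2
  calc ‖cf D G (pt a z) k‖ * ‖t‖ ^ k ≤ M * (Real.exp 1 * C) ^ k * ‖t‖ ^ k := by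
        gcongr
        exact cf_bt hS h.td hC hM hG h1 hz ha k
    _ = M * (Real.exp 1 * C * ‖t‖) ^ k := by rw [mul_pow]; ring
    _ ≤ _ := by gcongr

theorem RadT.summable {D : Dr (τ ⊕ S)} {z0 : ℂ} {r B ρ : ℝ} (h : RadT hS D z0 r B ρ)
    (G : MvPolynomial (τ ⊕ S) ℂ) {z : ℂ} (hz : ‖z - z0‖ ≤ r) {a : τ → ℂ}
    (ha : ‖a‖ ≤ B) {t : ℂ} (ht : ‖t‖ ≤ ρ) :
    Summable fun k => ‖cf D G (pt a z) k * t ^ k‖ := by
  obtain ⟨M, hM, hG⟩ := exists_bt hS G z0 (r + 1) (B + 1)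
  obtain ⟨h1, h2⟩ := quarter h.Bnn
  refine Summable.of_nonneg_of_le (fun _ => norm_nonneg _)
    (fun k => h.cf_le (by linarith) hG hz ha ht k) ?_
  exact (summable_geometric_of_lt_one h2 h1).mul_left M

theorem RadT.gs_mul {D : Dr (τ ⊕ S)} {z0 : ℂ} {r B ρ : ℝ} (h : RadT hS D z0 r B ρ)
    (G H : MvPolynomial (τ ⊕ S) ℂ) {z : ℂ} (hz : ‖z - z0‖ ≤ r) {a : τ → ℂ}
    (ha : ‖a‖ ≤ B) {t : ℂ} (ht : ‖t‖ ≤ ρ) :
    gs D (G * H) (pt a z) t = gs D G (pt a z) t * gs D H (pt a z) t := by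
  unfold gs
  rw [tsum_mul_tsum_eq_tsum_sum_antidiagonal_of_summable_norm (h.summable G hz ha ht)
    (h.summable H hz ha ht)]
  refine tsum_congr fun k => ?_
  rw [cf_mul, Finset.sum_mul]
  refine Finset.sum_congr rfl fun p hp => ?_
  have h2 := Finset.HasAntidiagonal.mem_antidiagonal.1 hp
  rw [← h2, pow_add]
  ring

theorem RadT.gs_add {D : Dr (τ ⊕ S)} {z0 : ℂ} {r B ρ : ℝ} (h : RadT hS D z0 r B ρ)
    (G H : MvPolynomial (τ ⊕ S) ℂ) {z : ℂ} (hz : ‖z - z0‖ ≤ r) {a : τ → ℂ}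
    (ha : ‖a‖ ≤ B) {t : ℂ} (ht : ‖t‖ ≤ ρ) :
    gs D (G + H) (pt a z) t = gs D G (pt a z) t + gs D H (pt a z) t := by
  unfold gs
  rw [← (h.summable G hz ha ht).of_norm.tsum_add (h.summable H hz ha ht).of_norm]
  refine tsum_congr fun k => ?_
  rw [cf_add, add_mul]

/-- the value of a polynomial along the flow -/
theorem RadT.eval_fl {D : Dr (τ ⊕ S)} {z0 : ℂ} {r B ρ : ℝ} (h : RadT hS D z0 r B ρ)
    (G : MvPolynomial (τ ⊕ S) ℂ) {z : ℂ} (hz : ‖z - z0‖ ≤ r) {a : τ → ℂ}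
    (ha : ‖a‖ ≤ B) {t : ℂ} (ht : ‖t‖ ≤ ρ) :
    eval (fl D (pt a z) t) G = gs D G (pt a z) t := by
  induction G using MvPolynomial.induction_on with
  | C c => rw [eval_C, gs_C]
  | add p q hp hq => rw [map_add, hp, hq, h.gs_add p q hz ha ht]
  | mul_X p l hp => rw [map_mul, hp, eval_X, h.gs_mul p (X l) hz ha ht]; rfl

theorem RadT.hasDerivAt_gs {D : Dr (τ ⊕ S)} {z0 : ℂ} {r B ρ : ℝ} (h : RadT hS D z0 r B ρ)
    (G : MvPolynomial (τ ⊕ S) ℂ) {z : ℂ} (hz : ‖z - z0‖ ≤ r) {a : τ → ℂ}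
    (ha : ‖a‖ ≤ B) {t : ℂ} (ht : ‖t‖ < ρ) :
    HasDerivAt (gs D G (pt a z)) (gs D (D G) (pt a z) t) t := by
  obtain ⟨M, hM, hG⟩ := exists_bt hS (D G) z0 (r + 1) (B + 1)
  obtain ⟨h1, h2⟩ := quarter h.Bnn
  set g' : ℕ → ℂ → ℂ := fun k w => cf D G (pt a z) k * (k * w ^ (k - 1)) with hg'
  have key : ∀ k w, g' (k + 1) w = cf D (D G) (pt a z) k * w ^ k := by
    intro k w
    rw [hg', ← cf_succ]
    simp only [Nat.cast_add, Nat.cast_one, Nat.add_sub_cancel]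
    ring
  have hsum : Summable fun k : ℕ => if k = 0 then 0 else M * (1 / (4 * (B + 1))) ^ (k - 1) := by
    rw [← summable_nat_add_iff 1]
    simp only [Nat.add_eq_zero_iff, one_ne_zero, and_false, if_false, Nat.add_sub_cancel]
    exact (summable_geometric_of_lt_one h2 h1).mul_left M
  have h3 := hasDerivAt_tsum_of_isPreconnected (g := fun k w => cf D G (pt a z) k * w ^ k)
    (g' := g') hsum (t := ball (0 : ℂ) ρ) isOpen_ball (convex_ball _ _).isPreconnected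
    (fun k w _ => by
      have := (hasDerivAt_pow k w).const_mul (cf D G (pt a z) k)
      simpa [hg'] using this) (fun k w hw => by
      rcases Nat.eq_zero_or_pos k with rfl | hk
      · simp [hg']
      · obtain ⟨j, rfl⟩ := Nat.exists_eq_succ_of_ne_zero hk.ne'
        rw [Nat.succ_eq_add_one, key]
        simp only [Nat.add_eq_zero_iff, one_ne_zero, and_false, if_false, Nat.add_sub_cancel]
        exact h.cf_le (by linarith) hG hz ha (mem_ball_zero_iff.1 hw).le j)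
    (y₀ := 0) (mem_ball_self h.pos) (h.summable G hz ha (by simpa using h.pos.le)).of_norm
    (mem_ball_zero_iff.2 ht)
  have h4 : ∑' k, g' k t = gs D (D G) (pt a z) t := by
    have h5 : Summable fun k => g' k t := by
      rw [← summable_nat_add_iff 1]
      simp only [key]
      exact (h.summable (D G) hz ha ht.le).of_norm
    rw [h5.tsum_eq_zero_add]
    simp only [key]
    simp [hg', gs]
  rw [h4] at h3
  exact h3

/-- the flow is at the right time -/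
theorem RadT.time {D : Dr (τ ⊕ S)} {z0 : ℂ} {r B ρ : ℝ} (h : RadT hS D z0 r B ρ)
    (a : τ → ℂ) (z t : ℂ) : fl D (pt a z) t = pt (fun l => fl D (pt a z) t (Sum.inl l)) (z + t) := by
  funext l
  rcases l with l | s
  · rfl
  · change gs D (X (Sum.inr s)) (pt a z) t = s.1 (z + t)
    have h1 : ∀ (k : ℕ) (s : S), eval (pt a z) (D^[k] (X (Sum.inr s))) = iteratedDeriv k s.1 z := by
      intro k
      induction k with
      | zero => intro s; simp [pt]
      | succ k ih =>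
        intro s
        rw [Function.iterate_succ_apply, h.td s, ih, iteratedDeriv_succ']
        rfl
    have h2 := Complex.taylorSeries_eq_of_entire (f := s.1) (hS.diff s.1 s.2) z (z + t)
    rw [← h2]
    unfold gs
    refine tsum_congr fun k => ?_
    unfold cf
    rw [h1, smul_eq_mul, add_sub_cancel_left, smul_eq_mul]
    ring

theorem RadT.hasDerivAt_fl {D : Dr (τ ⊕ S)} {z0 : ℂ} {r B ρ : ℝ} (h : RadT hS D z0 r B ρ)
    {z : ℂ} (hz : ‖z - z0‖ ≤ r) {a : τ → ℂ}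
    (ha : ‖a‖ ≤ B) {t : ℂ} (ht : ‖t‖ < ρ) (l : τ ⊕ S) :
    HasDerivAt (fun w => fl D (pt a z) w l) (eval (fl D (pt a z) t) (D (X l))) t := by
  rw [h.eval_fl _ hz ha ht.le]
  exact h.hasDerivAt_gs (X l) hz ha ht

theorem RadT.norm_fl {D : Dr (τ ⊕ S)} {z0 : ℂ} {r B ρ : ℝ} (h : RadT hS D z0 r B ρ)
    {z : ℂ} (hz : ‖z - z0‖ ≤ r) {a : τ → ℂ}
    (ha : ‖a‖ ≤ B) {t : ℂ} (ht : ‖t‖ ≤ ρ) (l : τ) :
    ‖fl D (pt a z) t (Sum.inl l) - a l‖ ≤ 1 / 2 := by
  have hB := h.Bnn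
  obtain ⟨h1, h2⟩ := quarter h.Bnn
  have hG : Bt (X (Sum.inl l) : MvPolynomial (τ ⊕ S) ℂ) z0 (r + 1) (B + 1) (B + 1) :=
    fun z _ a ha => by
      rw [eval_X]
      exact (norm_le_pi_norm a l).trans ha
  have h3 := (h.summable (X (Sum.inl l)) hz ha ht).of_norm
  have h4 : fl D (pt a z) t (Sum.inl l) - a l =
      ∑' k, cf D (X (Sum.inl l)) (pt a z) (k + 1) * t ^ (k + 1) := by
    change gs D (X (Sum.inl l)) (pt a z) t - a l = _
    unfold gs
    rw [h3.tsum_eq_zero_add]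
    simp [cf_zero, pt]
  rw [h4]
  have h5 : Summable fun k : ℕ => (B + 1) * (1 / (4 * (B + 1))) ^ (k + 1) := by
    simp only [pow_succ]
    exact ((summable_geometric_of_lt_one h2 h1).mul_right _).mul_left _
  refine (tsum_of_norm_bounded h5.hasSum
    fun k => h.cf_le (by positivity) hG hz ha ht (k + 1)).trans ?_
  rw [tsum_mul_left]
  simp only [pow_succ]
  rw [tsum_mul_right, tsum_geometric_of_lt_one h2 h1]
  have h6 : 1 / (4 * (B + 1)) ≤ 1 / 4 := by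
    apply one_div_le_one_div_of_le (by norm_num)
    linarith
  have h7 : (1 - 1 / (4 * (B + 1)))⁻¹ ≤ 2 := by
    rw [inv_le_comm₀ (by linarith) (by norm_num)]
    linarith
  calc (B + 1) * ((1 - 1 / (4 * (B + 1)))⁻¹ * (1 / (4 * (B + 1))))
      ≤ (B + 1) * (2 * (1 / (4 * (B + 1)))) := by gcongr
    _ = 1 / 2 := by field_simp; norm_num

/-- joint holomorphy -/
theorem RadT.diff_gs {D : Dr (τ ⊕ S)} {z0 : ℂ} {r B ρ : ℝ} (h : RadT hS D z0 r B ρ)
    (G : MvPolynomial (τ ⊕ S) ℂ) {z : ℂ} (hz : ‖z - z0‖ ≤ r) {a : τ → ℂ} (ha : ‖a‖ < B) {t : ℂ}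
    (ht : ‖t‖ < ρ) :
    DifferentiableAt ℂ (fun p : (τ → ℂ) × ℂ => gs D G (pt p.1 z) p.2) (a, t) := by
  obtain ⟨M, hM, hG⟩ := exists_bt hS G z0 (r + 1) (B + 1)
  obtain ⟨h1, h2⟩ := quarter h.Bnn
  have hopen : IsOpen (ball (0 : τ → ℂ) B ×ˢ ball (0 : ℂ) ρ) := isOpen_ball.prod isOpen_ball
  obtain ⟨ε, hε, hsub⟩ := Metric.isOpen_iff.1 hopen (a, t)
    ⟨mem_ball_zero_iff.2 ha, mem_ball_zero_iff.2 ht⟩
  have hlim : TendstoUniformlyOn (fun (n : ℕ) (p : (τ → ℂ) × ℂ) =>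
      ∑ k ∈ Finset.range n, cf D G (pt p.1 z) k * p.2 ^ k) (fun p => gs D G (pt p.1 z) p.2) atTop
      (ball (a, t) ε) := by
    refine tendstoUniformlyOn_tsum_nat (u := fun k => M * (1 / (4 * (B + 1))) ^ k)
      ((summable_geometric_of_lt_one h2 h1).mul_left M) fun k p hp => ?_
    obtain ⟨hp1, hp2⟩ := hsub hp
    exact h.cf_le (by linarith) hG hz (mem_ball_zero_iff.1 hp1).le (mem_ball_zero_iff.1 hp2).le k
  have := Pool.Agent.Helper540.differentiableOn_of_uniform_limit (fun n => by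
    refine DifferentiableOn.fun_sum fun k _ => ?_
    have h5 : Differentiable ℂ fun p : (τ → ℂ) × ℂ => cf D G (pt p.1 z) k := by
      have h6 : Differentiable ℂ fun p : (τ → ℂ) × ℂ => eval (pt (S := S) p.1 z) (D^[k] G) :=
        fun p => diff_pt hS (a := fun p : (τ → ℂ) × ℂ => p.1) (z := fun _ => z)
          (fun l => by fun_prop) (by fun_prop) _
      have h7 : (fun p : (τ → ℂ) × ℂ => cf D G (pt p.1 z) k) =
          fun p : (τ → ℂ) × ℂ => (k.factorial : ℂ)⁻¹ * eval (pt (S := S) p.1 z) (D^[k] G) := by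
        funext p
        unfold cf
        rw [div_eq_inv_mul]
      rw [h7]
      exact h6.const_mul _
    exact (h5.mul (by fun_prop)).differentiableOn) hlim
  exact this.differentiableAt (isOpen_ball.mem_nhds (mem_ball_self (by linarith)))

/-- relations along the flow -/
theorem RadT.fl_rel {D : Dr (τ ⊕ S)} {z0 : ℂ} {r B ρ : ℝ} (h : RadT hS D z0 r B ρ)
    {G : MvPolynomial (τ ⊕ S) ℂ} {z : ℂ} (hz : ‖z - z0‖ ≤ r) {a : τ → ℂ} (ha : ‖a‖ ≤ B)
    (hG : ∀ k, eval (pt a z) (D^[k] G) = 0) {t : ℂ} (ht : ‖t‖ ≤ ρ) :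
    eval (fl D (pt a z) t) G = 0 := by
  rw [h.eval_fl G hz ha ht]
  unfold gs
  have h1 : ∀ k, cf D G (pt a z) k * t ^ k = 0 := by
    intro k
    unfold cf
    rw [hG, zero_div, zero_mul]
  simp [h1]

end flow

end Run7.h418.E
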