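import Pool.Agent.Run7.h418.E.Rel
import Pool.Agent.Run7.h418.E.Ug

/-!
Preparations for the assembly: finite covers, positive transcendence degree.
-/

set_option autoImplicit false

open Metric Set Filter Topology MvPolynomial

namespace Run7.h418.E

open Pool.Agent.Y190.OP Pool.Agent.W602.GT Pool.Agent.N155

section cov

variable {n : ℕ} {ι κ : Type} {F : ι → MvPolynomial (Fin (n + 1)) ℂ}
  {σ : κ → (Fin (n + 1) → ℂ) → (Fin (n + 1) → ℂ) → ℂ} {m : κ → ℕ}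

theorem exists_cov1 (hσ : ∀ j, SymForm F (m j) (σ j)) (j : κ) :
    ∃ (T : Type) (_ : Finite T) (P : T → Rn (n + 1)) (H : T → MvPolynomial (Fin (n + 1)) ℂ),
      (∀ s, Rep F σ j (P s) (H s)) ∧ ∀ x ∈ Cone F, ∃ s, eval x (H s) ≠ 0 := by
  set B : Set (MvPolynomial (Fin (n + 1)) ℂ) := {H | ∃ P, Rep F σ j P H} with hB
  have hfg : (Ideal.span B).FG := IsNoetherian.noetherian _
  obtain ⟨T, hTB, hT⟩ := (Submodule.fg_span_iff_fg_span_finset_subset B).1 hfg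
  choose P hP using fun s : T => hTB s.2
  refine ⟨T, inferInstance, P, fun s => s.1, hP, fun x hx => ?_⟩
  by_contra hcon
  push Not at hcon
  obtain ⟨P', H', hH', hrep⟩ := sg_rep hσ j hx
  apply hH'
  have h1 : H' ∈ Ideal.span (T : Set (MvPolynomial (Fin (n + 1)) ℂ)) := by
    have h2 : H' ∈ Ideal.span B := Ideal.subset_span ⟨P', hrep⟩
    change H' ∈ Submodule.span _ _ at h2
    rw [hT] at h2
    exact h2
  have h3 : Ideal.span (T : Set (MvPolynomial (Fin (n + 1)) ℂ)) ≤ RingHom.ker (eval x) := by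
    rw [Ideal.span_le]
    intro s hs
    exact hcon ⟨s, hs⟩
  exact h3 h1

theorem exists_cov [Finite κ] (hσ : ∀ j, SymForm F (m j) (σ j)) :
    ∃ (τ : Type) (_ : Finite τ) (js : τ → κ) (P : τ → Rn (n + 1))
      (H : τ → MvPolynomial (Fin (n + 1)) ℂ), (∀ s, Rep F σ (js s) (P s) (H s)) ∧
        ∀ x ∈ Cone F, ∀ j, ∃ s, js s = j ∧ eval x (H s) ≠ 0 := by
  choose T hfin P H hP hH using fun j => exists_cov1 hσ j
  refine ⟨Σ j, T j, inferInstance, fun s => s.1, fun s => P s.1 s.2, fun s => H s.1 s.2,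
    fun s => hP s.1 s.2, fun x hx j => ?_⟩
  obtain ⟨s, hs⟩ := hH j x hx
  exact ⟨⟨j, s⟩, rfl, hs⟩

theorem cov_HP {τ : Type} [Finite τ] {js : τ → κ} {P : τ → Rn (n + 1)}
    {H : τ → MvPolynomial (Fin (n + 1)) ℂ} (h1 : ∀ s, Rep F σ (js s) (P s) (H s))
    (h2 : ∀ x ∈ Cone F, ∀ j, ∃ s, js s = j ∧ eval x (H s) ≠ 0) :
    Cov F σ js (fun s => HP (P s) (H s)) (fun s => H s ^ 2) := by
  refine ⟨inferInstance, fun s => rep_HP (h1 s), fun x hx j => ?_⟩
  obtain ⟨s, hs1, hs2⟩ := h2 x hx j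
  refine ⟨s, hs1, ?_⟩
  rw [map_pow]
  exact pow_ne_zero 2 hs2

end cov

section pos

variable {n : ℕ} {κ : Type} {m : κ → ℕ} {g : κ → ℂ → ℂ}
  {φ : ℂ → Mat (n + 1)} {G : ℂ → Fin (n + 1) → ℂ} {T : ℝ → ℝ} {r0 : ℝ} {hT : Grw T r0}

theorem dst_Sm : DSt (Sm hT) := ⟨fun _ ha => (mem_Sm.1 ha).1, fun _ ha => deriv_Sm ha⟩

theorem pos_d (p3 : P3) (a3 : A3) [Fintype κ] (hφ : HolP univ φ) (h : Nv m g φ G T r0 hT)
    {i0 : Fin (n + 1)} (hi0 : ∃ z, φ z i0 i0 ≠ 0) {M : Type} [Field M] [Algebra ℂ M]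
    {e : Rt n (Sm hT) →ₐ[ℂ] M} (hM : Fz (Sm hT) φ i0 e)
    (halg : Algebra.IsAlgebraic
      (IntermediateField.adjoin ℂ (Set.range fun s : Sm hT => e (X (Sum.inr s)))) M) : False := by
  have hdiag : ∀ z, φ z i0 i0 ≠ 0 ↔ G z i0 ≠ 0 := by
    intro z
    rw [h.lift z]
    exact Phi_diag_ne (h.g0 z)
  obtain ⟨K, hK, hKeq⟩ := h.eq
  refine p3 T r0 hT (n + 1) G (K * (1 + |lg (G 0)|)) i0 h.gd h.g0 (fun r hr => ?_) ?_ fun k => ?_
  · have h1 := h.nn r hr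
    rw [hKeq r, mul_assoc]
    refine mul_le_mul_of_nonneg_left ?_ hK.le
    have h2 := neg_abs_le (lg (G 0))
    have h3 := abs_nonneg (lg (G 0))
    nlinarith [mul_nonneg h3 h1]
  · obtain ⟨z, hz⟩ := hi0
    exact ⟨z, (hdiag z).1 hz⟩
  · obtain ⟨d, P, hP1, hP2, hP3⟩ := a3 n (Sm hT) φ i0 M e dst_Sm hφ hi0 hM k (halg.isAlgebraic _)
    refine ⟨d, P, hP1, hP2, ?_⟩
    have hGk : ∀ l, Differentiable ℂ fun z => G z l := fun l => differentiable_pi.1 h.gd l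
    have hE : Differentiable ℂ fun z =>
        ∑ i ∈ Finset.range (d + 1), P i z * G z k ^ i * G z i0 ^ (d - i) := by
      refine Differentiable.fun_sum fun i _ => ?_
      exact ((((mem_Sm.1 (hP1 i)).1).mul ((hGk k).pow i)).mul ((hGk i0).pow (d - i)))
    obtain ⟨z1, hz1⟩ := hi0
    have hz1' := (hdiag z1).1 hz1
    refine entire_zero hE (z0 := z1) ?_
    filter_upwards [(hGk i0).continuous.continuousAt.eventually_ne hz1'] with z hz
    have h1 := hP3 z ((hdiag z).2 hz)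
    have h2 : pr i0 φ z (Sum.inl k) = G z k / G z i0 := by
      rw [pr_inl, h.lift z, chart_Phi (h.g0 z) hz, Pi.smul_apply, smul_eq_mul, div_eq_inv_mul]
    rw [h2] at h1
    have h3 : G z i0 ^ d * ∑ i ∈ Finset.range (d + 1), P i z * (G z k / G z i0) ^ i = 0 := by
      rw [h1, mul_zero]
    rw [← h3, Finset.mul_sum]
    refine Finset.sum_congr rfl fun i hi => ?_
    have h4 : i ≤ d := Nat.lt_succ_iff.1 (Finset.mem_range.1 hi)
    have h5 : G z i0 ^ d = G z i0 ^ (d - i) * G z i0 ^ i := by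
      rw [← pow_add, Nat.sub_add_cancel h4]
    rw [h5, div_pow]
    field_simp

end pos

end Run7.h418.E
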