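import Pool.Agent.Run7.h418.E.Jb

/-!
The relations of the field of a curve in all charts.
-/

set_option autoImplicit false

open Metric Set Filter Topology MvPolynomial

namespace Run7.h418.E

open Pool.Agent.Y190.OP Pool.Agent.W602.GT Pool.Agent.N155

variable {n : ℕ} {ι κ τ : Type} {F : ι → MvPolynomial (Fin (n + 1)) ℂ}
  {σ : κ → (Fin (n + 1) → ℂ) → (Fin (n + 1) → ℂ) → ℂ} {m : κ → ℕ} {S : Subalgebra ℂ (ℂ → ℂ)}
  {φ : ℂ → Mat (n + 1)} {i0 : Fin (n + 1)} {M : Type} [Field M] [Algebra ℂ M]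
  {e : Rt n S →ₐ[ℂ] M}

/-- the coordinates of the curve -/
noncomputable def ce (e : Rt n S →ₐ[ℂ] M) : Fin (n + 1) ⊕ Fin (n + 1) → M :=
  fun l => e (X (Sum.inl l))

/-- the small functions -/
noncomputable def se (e : Rt n S →ₐ[ℂ] M) (s : S) : M := e (X (Sum.inr s))

theorem ce_inl0 {h : κ → S} (hφ : Sl F σ (fun j => (h j).1) univ φ)
    (hM : Fz S φ i0 e) : ce e (Sum.inl i0) = 1 ∧ ce e (Sum.inr i0) = 0 := by
  constructor
  · have h1 : e (X (Sum.inl (Sum.inl i0)) - 1) = 0 := by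
      rw [hM.ker]
      intro z hz
      rw [map_sub, eval_X, map_one]
      have h2 : pr i0 φ z (Sum.inl i0) = 1 := (hφ.2 z (mem_univ z) i0 hz).1.1
      change pr i0 φ z (Sum.inl i0) - 1 = 0
      rw [h2, sub_self]
    rw [map_sub, map_one, sub_eq_zero] at h1
    exact h1
  · have h1 : e (X (Sum.inl (Sum.inr i0))) = 0 := by
      rw [hM.ker]
      intro z hz
      rw [eval_X]
      exact (hφ.2 z (mem_univ z) i0 hz).1.2.1
    exact h1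

section rel

variable {z0 : ℂ} {v : M →+* Germ (𝓝[≠] z0) ℂ}

theorem germ_eq_of {f g : ℂ → ℂ} {x y : M} (hx : v x = ((f : ℂ → ℂ) : Germ (𝓝[≠] z0) ℂ))
    (hy : v y = ((g : ℂ → ℂ) : Germ (𝓝[≠] z0) ℂ)) (h : ∀ᶠ w in 𝓝[≠] z0, f w = g w) : x = y := by
  refine v.injective ?_
  rw [hx, hy]
  exact Germ.coe_eq.2 h

variable (hv : ∀ G, v (e G) = ((fun w => eval (pt (pr i0 φ w) w) G : ℂ → ℂ) : Germ (𝓝[≠] z0) ℂ))

include hv

theorem germ_se (s : S) : v (se e s) = ((fun w => s.1 w : ℂ → ℂ) : Germ (𝓝[≠] z0) ℂ) := by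
  unfold se
  rw [hv]
  simp only [eval_X]
  rfl

theorem rel_cone {h : κ → S} (hφ : Sl F σ (fun j => (h j).1) univ φ) (hz0 : φ z0 i0 i0 ≠ 0)
    {k : Fin (n + 1)} (hk : ce e (Sum.inl k) ≠ 0) (i : ι) :
    aeval (ccM k (ce e) ∘ Sum.inl) (F i) = 0 := by
  obtain ⟨h1, h2⟩ := germ_cc hφ.1 hz0 hv hk
  have h3 := germ_aeval hv (b := ccM k (ce e) ∘ Sum.inl) (f := fun w l => pr k φ w (Sum.inl l))
    (fun l => h2 (Sum.inl l)) (F i)
  refine germ_eq_of (x := aeval (ccM k (ce e) ∘ Sum.inl) (F i)) (y := 0) h3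
    (g := fun _ => 0) (by rw [map_zero]; rfl) ?_
  filter_upwards [h1] with w hw
  exact (hφ.2 w (mem_univ w) k hw.2.1).1.2.2.1 i

theorem rel_tan {h : κ → S} (hφ : Sl F σ (fun j => (h j).1) univ φ) (hz0 : φ z0 i0 i0 ≠ 0)
    {k : Fin (n + 1)} (hk : ce e (Sum.inl k) ≠ 0) (i : ι) :
    aeval (ccM k (ce e)) (tanP F i) = 0 := by
  obtain ⟨h1, h2⟩ := germ_cc hφ.1 hz0 hv hk
  have h3 := germ_aeval hv (b := ccM k (ce e)) (f := fun w l => pr k φ w l)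
    (fun l => h2 l) (tanP F i)
  refine germ_eq_of (x := aeval (ccM k (ce e)) (tanP F i)) (y := 0) h3
    (g := fun _ => 0) (by rw [map_zero]; rfl) ?_
  filter_upwards [h1] with w hw
  have h4 := (hφ.2 w (mem_univ w) k hw.2.1).1.2.2.2 i
  rw [eval_tanP]
  exact h4

theorem rel_val {h : κ → S} (hφ : Sl F σ (fun j => (h j).1) univ φ) (hz0 : φ z0 i0 i0 ≠ 0)
    {k : Fin (n + 1)} (hk : ce e (Sum.inl k) ≠ 0) {j : κ} {P : Rn (n + 1)}
    {H : MvPolynomial (Fin (n + 1)) ℂ} (hrep : Rep F σ j P H) :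
    aeval (ccM k (ce e)) (HP P H) = se e (h j) * aeval (ccM k (ce e) ∘ Sum.inl) (H ^ 2) := by
  obtain ⟨h1, h2⟩ := germ_cc hφ.1 hz0 hv hk
  have h3 := germ_aeval hv (b := ccM k (ce e)) (f := fun w l => pr k φ w l)
    (fun l => h2 l) (HP P H)
  have h4 := germ_aeval hv (b := ccM k (ce e) ∘ Sum.inl) (f := fun w l => pr k φ w (Sum.inl l))
    (fun l => h2 (Sum.inl l)) (H ^ 2)
  have h5 := germ_se hv (h j)
  refine germ_eq_of h3 (g := fun w => (h j).1 w * eval (fun l => pr k φ w (Sum.inl l)) (H ^ 2))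
    (by rw [map_mul, h4, h5, ← Germ.coe_mul]; rfl) ?_
  filter_upwards [h1] with w hw
  have h6 := hφ.2 w (mem_univ w) k hw.2.1
  have h7 : sg σ j (pr k φ w) = (h j).1 w := h6.2 j
  by_cases hH : eval (pr k φ w ∘ Sum.inl) H = 0
  · have h8 : eval (fun l => pr k φ w (Sum.inl l)) (H ^ 2) = 0 := by
      rw [map_pow]
      change eval (pr k φ w ∘ Sum.inl) H ^ 2 = 0
      rw [hH]
      norm_num
    rw [h8, mul_zero, HP, map_mul, eval_inl]
    change eval (pr k φ w ∘ Sum.inl) H * _ = 0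
    rw [hH, zero_mul]
  · have h8 := rep_HP hrep (pr k φ w ∘ Sum.inl) (Tg.cone h6.1)
      (by rw [map_pow]; exact pow_ne_zero 2 hH) (pr k φ w ∘ Sum.inr) h6.1.2.2.2
    rw [Sum.elim_comp_inl_inr] at h8
    have h9 : σ j (pr k φ w ∘ Sum.inl) (pr k φ w ∘ Sum.inr) = (h j).1 w := h7
    rw [h9] at h8
    change eval (pr k φ w) (HP P H) = (h j).1 w * eval (pr k φ w ∘ Sum.inl) (H ^ 2)
    rw [h8, div_mul_cancel₀]
    rw [map_pow]
    exact pow_ne_zero 2 hH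

omit hv in
theorem germ_dl {y : ℂ → ℂ → Mat (n + 1)} {J : Derivation ℂ M M} {q : Rt n S}
    {p : Fin (n + 1) ⊕ Fin (n + 1) → Rt n S}
    (hv : ∀ G, v (e G) = ((fun w => eval (pt (pr i0 φ w) w) G : ℂ → ℂ) : Germ (𝓝[≠] z0) ℂ))
    (hqp : ∀ᶠ z in 𝓝 z0, ∀ l, eval (pt (pr i0 φ z) z) q * dl y i0 z l =
      eval (pt (pr i0 φ z) z) (p l)) (hq : e q ≠ 0)
    (hJ : ∀ l, e q * J (e (X (Sum.inl l))) = e (p l)) (l : Fin (n + 1) ⊕ Fin (n + 1)) :
    v (J (ce e l)) = ((fun w => dl y i0 w l : ℂ → ℂ) : Germ (𝓝[≠] z0) ℂ) := by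
  have hu : IsUnit (v (e q)) := (isUnit_iff_ne_zero.2 hq).map v
  refine hu.mul_right_injective ?_
  change v (e q) * v (J (e (X (Sum.inl l)))) = v (e q) * _
  rw [← map_mul, hJ, hv, hv, ← Germ.coe_mul]
  refine Germ.coe_eq.2 ?_
  filter_upwards [hqp.filter_mono nhdsWithin_le_nhds] with w hw
  exact (hw l).symm

theorem germ_bet {h : κ → S} (hφ : Sl F σ (fun j => (h j).1) univ φ) (hz0 : φ z0 i0 i0 ≠ 0)
    {V : Dr ((Fin (n + 1) ⊕ Fin (n + 1)) ⊕ S)} {y : ℂ → ℂ → Mat (n + 1)} {ε ρ : ℝ}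
    (fm : Fm F σ h φ i0 z0 V y ε ρ) {J : Derivation ℂ M M}
    (hJ : ∀ l, v (J (ce e l)) = ((fun w => dl y i0 w l : ℂ → ℂ) : Germ (𝓝[≠] z0) ℂ))
    {k : Fin (n + 1)} (hk : ce e (Sum.inl k) ≠ 0) (l : Fin (n + 1)) :
    v (J (ccM k (ce e) (Sum.inl l))) =
      ((fun w => bet y k w 0 l : ℂ → ℂ) : Germ (𝓝[≠] z0) ℂ) := by
  have h0ε : (0 : ℂ) ∈ ball (0 : ℂ) ε := mem_ball_self fm.pos
  obtain ⟨h1, h2⟩ := germ_cc hφ.1 hz0 hv hk
  have hXl : ∀ l : Fin (n + 1) ⊕ Fin (n + 1), v (ce e l) =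
      ((fun w => pr i0 φ w l : ℂ → ℂ) : Germ (𝓝[≠] z0) ℂ) := by
    intro l
    unfold ce
    rw [hv]
    simp only [eval_X]
    rfl
  have hy' : ∀ᶠ t in 𝓝 (0 : ℂ), Sl F σ (fun j => (h j).1) univ (y t) := by
    filter_upwards [isOpen_ball.mem_nhds h0ε] with t ht
    exact fm.sl t ht
  have hu : IsUnit (v (ce e (Sum.inl k))) := (isUnit_iff_ne_zero.2 hk).map v
  have hJq : ce e (Sum.inl k) ^ 2 * J (ccM k (ce e) (Sum.inl l)) =
      J (ce e (Sum.inl l)) * ce e (Sum.inl k) - ce e (Sum.inl l) * J (ce e (Sum.inl k)) := by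
    change _ * J (ce e (Sum.inl l) / ce e (Sum.inl k)) = _
    rw [Derivation.leibniz_div, smul_eq_mul, smul_eq_mul, smul_eq_mul, ← mul_assoc, ← mul_pow,
      mul_inv_cancel₀ hk, one_pow, one_mul]
    ring
  refine (hu.pow 2).mul_right_injective ?_
  change v (ce e (Sum.inl k)) ^ 2 * v (J (ccM k (ce e) (Sum.inl l))) =
    v (ce e (Sum.inl k)) ^ 2 * _
  rw [← map_pow v, ← map_mul v, hJq, map_sub, map_mul v, map_mul v, map_pow v, hJ, hJ, hXl, hXl,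
    ← Germ.coe_mul, ← Germ.coe_mul, ← Germ.coe_sub, ← Germ.coe_pow, ← Germ.coe_mul]
  refine Germ.coe_eq.2 ?_
  filter_upwards [h1] with w hw
  have hyw : y 0 w i0 i0 ≠ 0 := by rw [fm.zero]; exact hw.1
  have hyk : y 0 w k k ≠ 0 := by rw [fm.zero]; exact hw.2.1
  have hg : Good y w 0 i0 := fm.good 0 h0ε w i0 hyw
  have hb := congrFun (bet_cc hy' hg hyk) l
  rw [fm.zero] at hb
  simp only [Pi.mul_apply, Pi.sub_apply, Pi.pow_apply]
  rw [hb, mul_div_cancel₀ _ (pow_ne_zero 2 hw.2.2.1)]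
  rfl

theorem rel_al {h : κ → S} (hφ : Sl F σ (fun j => (h j).1) univ φ) (hz0 : φ z0 i0 i0 ≠ 0)
    {V : Dr ((Fin (n + 1) ⊕ Fin (n + 1)) ⊕ S)} {y : ℂ → ℂ → Mat (n + 1)} {ε ρ : ℝ}
    (fm : Fm F σ h φ i0 z0 V y ε ρ) {J : Derivation ℂ M M}
    (hJ : ∀ l, v (J (ce e l)) = ((fun w => dl y i0 w l : ℂ → ℂ) : Germ (𝓝[≠] z0) ℂ)) {a : κ → S}
    (ha : ∀ j z i, φ z i i ≠ 0 → (a j).1 z = ds σ j (pr i φ z) (bet y i z 0))
    {k : Fin (n + 1)} (hk : ce e (Sum.inl k) ≠ 0) {j : κ} {P : Rn (n + 1)}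
    {H : MvPolynomial (Fin (n + 1)) ℂ} (hrep : Rep F σ j P H) :
    ∑ l, aeval (ccM k (ce e)) (pderiv (Sum.inr l) (HP P H)) * J (ccM k (ce e) (Sum.inl l)) =
      se e (a j) * aeval (ccM k (ce e) ∘ Sum.inl) (H ^ 2) := by
  have h0ε : (0 : ℂ) ∈ ball (0 : ℂ) ε := mem_ball_self fm.pos
  obtain ⟨h1, h2⟩ := germ_cc hφ.1 hz0 hv hk
  have h3 : ∀ l, v (aeval (ccM k (ce e)) (pderiv (Sum.inr l) (HP P H))) =
      ((fun w => eval (pr k φ w) (pderiv (Sum.inr l) (HP P H)) : ℂ → ℂ) : Germ (𝓝[≠] z0) ℂ) :=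
    fun l => germ_aeval hv (b := ccM k (ce e)) (f := fun w l => pr k φ w l) (fun l => h2 l) _
  have h4 := germ_aeval hv (b := ccM k (ce e) ∘ Sum.inl) (f := fun w l => pr k φ w (Sum.inl l))
    (fun l => h2 (Sum.inl l)) (H ^ 2)
  have h5 := germ_se hv (a j)
  have h6 := fun l => germ_bet hv hφ hz0 fm hJ hk l
  have hy' : ∀ᶠ t in 𝓝 (0 : ℂ), Sl F σ (fun j => (h j).1) univ (y t) := by
    filter_upwards [isOpen_ball.mem_nhds h0ε] with t ht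
    exact fm.sl t ht
  refine germ_eq_of (v := v)
    (f := fun w => ∑ l, eval (pr k φ w) (pderiv (Sum.inr l) (HP P H)) * bet y k w 0 l)
    (g := fun w => (a j).1 w * eval (fun l => pr k φ w (Sum.inl l)) (H ^ 2)) ?_
    (by rw [map_mul, h4, h5, ← Germ.coe_mul]; rfl) ?_
  · rw [map_sum]
    have h7 : ∀ l, v (aeval (ccM k (ce e)) (pderiv (Sum.inr l) (HP P H)) *
        J (ccM k (ce e) (Sum.inl l))) =
        Germ.coeRingHom (𝓝[≠] z0) (fun w =>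
          eval (pr k φ w) (pderiv (Sum.inr l) (HP P H)) * bet y k w 0 l) := by
      intro l
      rw [map_mul, h3, h6, ← Germ.coe_mul]
      rfl
    rw [Finset.sum_congr rfl fun l _ => h7 l, ← map_sum]
    change _ = Germ.coeRingHom (𝓝[≠] z0) _
    congr 1
    funext w
    rw [Finset.sum_apply]
  · filter_upwards [h1] with w hw
    have hyk : y 0 w k k ≠ 0 := by rw [fm.zero]; exact hw.2.1
    have hg : Good y w 0 k := fm.good 0 h0ε w k hyk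
    have h7 := (bet_Tan hy' hg).1
    rw [fm.zero] at h7
    have h8 := ds_HP (hφ.2 w (mem_univ w) k hw.2.1).1 h7 hrep
    rw [h8, ha j w k hw.2.1]
    rfl

end rel

end Run7.h418.E
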