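import Pool.Agent.Run7.h418.E.Tilde

/-!
Relations between the coordinates of a curve with small coefficients.
-/

set_option autoImplicit false

open Metric Set Filter Topology MvPolynomial

namespace Run7.h418.E

open Pool.Agent.Y190.OP Pool.Agent.W602.GT Pool.Agent.N155

variable {n : ℕ} {S : Subalgebra ℂ (ℂ → ℂ)}

/-- the relations with coefficients in `S` satisfied by the coordinates of `φ` in the chart `i` -/
def Rlt (S : Subalgebra ℂ (ℂ → ℂ)) (φ : ℂ → Mat (n + 1)) (i : Fin (n + 1)) : Ideal (Rt n S) where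
  carrier := {G | ∀ z, φ z i i ≠ 0 → eval (pt (pr i φ z) z) G = 0}
  add_mem' := fun {G H} hG hH z hz => by rw [map_add, hG z hz, hH z hz, add_zero]
  zero_mem' := fun z _ => map_zero _
  smul_mem' := fun c G hG z hz => by rw [smul_eq_mul, map_mul, hG z hz, mul_zero]

theorem mem_Rlt {φ : ℂ → Mat (n + 1)} {i : Fin (n + 1)} {G : Rt n S} :
    G ∈ Rlt S φ i ↔ ∀ z, φ z i i ≠ 0 → eval (pt (pr i φ z) z) G = 0 := Iff.rfl

/-- the value of a polynomial as an entire function, up to units -/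
theorem exists_entire_t (hS : DSt S) {φ : ℂ → Mat (n + 1)} (h : HolP univ φ) (i : Fin (n + 1))
    (G : Rt n S) : ∃ E : ℂ → ℂ, Differentiable ℂ E ∧
      ∀ z, φ z i i ≠ 0 → ∃ u : ℂ, u ≠ 0 ∧ E z = u * eval (pt (pr i φ z) z) G := by
  obtain ⟨L, hL, hL0, hφ⟩ := zero_free h
  have hLk : ∀ k, Differentiable ℂ fun z => L z k := fun k => differentiable_pi.1 hL k
  have hL' : Differentiable ℂ (deriv L) := by
    have := (hL.differentiableOn (s := univ)).deriv isOpen_univ
    exact differentiableOn_univ.1 this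
  have hLk' : ∀ k, Differentiable ℂ fun z => deriv L z k := fun k => differentiable_pi.1 hL' k
  have hpr : ∀ z, φ z i i ≠ 0 → L z i ≠ 0 ∧ pr i φ z = cc i (Sum.elim (L z) (deriv L z)) :=
    fun z hz => pr_of_lift (hL z) (Eventually.of_forall fun w => ⟨hL0 w, hφ w⟩) hz
  suffices H : ∃ (M : ℕ) (E : ℂ → ℂ), Differentiable ℂ E ∧
      ∀ z, φ z i i ≠ 0 → E z = L z i ^ M * eval (pt (pr i φ z) z) G by
    obtain ⟨M, E, hE, h1⟩ := H
    exact ⟨E, hE, fun z hz => ⟨L z i ^ M, pow_ne_zero _ (hpr z hz).1, h1 z hz⟩⟩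
  induction G using MvPolynomial.induction_on with
  | C c => exact ⟨0, fun _ => c, differentiable_const c, fun z _ => by simp⟩
  | add p q hp hq =>
    obtain ⟨M, E, hE, h1⟩ := hp
    obtain ⟨M', E', hE', h1'⟩ := hq
    refine ⟨M + M', fun z => L z i ^ M' * E z + L z i ^ M * E' z,
      (((hLk i).pow M').mul hE).add (((hLk i).pow M).mul hE'), fun z hz => ?_⟩
    beta_reduce
    rw [map_add, h1 z hz, h1' z hz, pow_add]
    ring
  | mul_X p l hp =>
    obtain ⟨M, E, hE, h1⟩ := hp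
    rcases l with (k | k) | s
    · refine ⟨M + 1, fun z => E z * L z k, hE.mul (hLk k), fun z hz => ?_⟩
      obtain ⟨h2, h3⟩ := hpr z hz
      beta_reduce
      rw [map_mul, h1 z hz, eval_X]
      change _ = _ * (_ * pr i φ z (Sum.inl k))
      have h4 : pr i φ z (Sum.inl k) = L z k / L z i := by
        rw [h3, cc_inl]
        rfl
      rw [h4]
      generalize (eval (pt (S := S) (pr i φ z) z)) p = e
      field_simp
      ring
    · refine ⟨M + 2, fun z => E z * (deriv L z k * L z i - L z k * deriv L z i),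
        hE.mul (((hLk' k).mul (hLk i)).sub ((hLk k).mul (hLk' i))), fun z hz => ?_⟩
      obtain ⟨h2, h3⟩ := hpr z hz
      beta_reduce
      rw [map_mul, h1 z hz, eval_X]
      change _ = _ * (_ * pr i φ z (Sum.inr k))
      have h4 : pr i φ z (Sum.inr k) =
          (deriv L z k * L z i - L z k * deriv L z i) / L z i ^ 2 := by
        rw [h3, cc_inr]
        rfl
      rw [h4]
      generalize (eval (pt (S := S) (pr i φ z) z)) p = e
      field_simp
      ring
    · refine ⟨M, fun z => E z * s.1 z, hE.mul (hS.diff s.1 s.2), fun z hz => ?_⟩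
      beta_reduce
      rw [map_mul, h1 z hz, eval_X]
      change _ = _ * (_ * s.1 z)
      ring

theorem rlt_of_near (hS : DSt S) {φ : ℂ → Mat (n + 1)} (h : HolP univ φ) {i : Fin (n + 1)}
    {G : Rt n S} {z0 : ℂ} (hz0 : φ z0 i i ≠ 0)
    (hG : ∀ᶠ w in 𝓝 z0, eval (pt (pr i φ w) w) G = 0) : G ∈ Rlt S φ i := by
  obtain ⟨E, hE, hu⟩ := exists_entire_t hS h i G
  have h1 : ∀ᶠ w in 𝓝 z0, E w = 0 := by
    filter_upwards [hG, ev_diag h (mem_univ z0) hz0] with w hw hwi
    obtain ⟨u, -, h2⟩ := hu w hwi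
    rw [h2, hw, mul_zero]
  intro z hz
  obtain ⟨u, hu0, h2⟩ := hu z hz
  have h3 := entire_zero hE h1 z
  rw [h3] at h2
  exact (mul_eq_zero.1 h2.symm).resolve_left hu0

theorem rlt_prime (hS : DSt S) {φ : ℂ → Mat (n + 1)} (h : HolP univ φ) {i : Fin (n + 1)}
    {z0 : ℂ} (hz0 : φ z0 i i ≠ 0) : (Rlt S φ i).IsPrime := by
  refine ⟨fun h1 => ?_, fun {G H} hGH => ?_⟩
  · have h2 : (1 : Rt n S) ∈ Rlt S φ i := by rw [h1]; trivial
    have h3 := h2 z0 hz0
    rw [map_one] at h3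
    exact one_ne_zero h3
  obtain ⟨E, hE, hu⟩ := exists_entire_t hS h i G
  obtain ⟨E', hE', hu'⟩ := exists_entire_t hS h i H
  have h1 : ∀ᶠ w in 𝓝 z0, E w * E' w = 0 := by
    filter_upwards [ev_diag h (mem_univ z0) hz0] with w hwi
    obtain ⟨u, -, h2⟩ := hu w hwi
    obtain ⟨u', -, h2'⟩ := hu' w hwi
    have h3 := hGH w hwi
    rw [map_mul] at h3
    rw [h2, h2', mul_mul_mul_comm, h3, mul_zero]
  have h2 : ∀ z, E z * E' z = 0 := entire_zero (hE.mul hE') h1
  have h3 : (∀ z, E z = 0) ∨ ∀ z, E' z = 0 := by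
    by_contra hcon
    push Not at hcon
    obtain ⟨⟨z1, h3⟩, z2, h4⟩ := hcon
    have h5 : ∀ᶠ w in 𝓝 z1, E' w = 0 := by
      filter_upwards [hE.continuous.continuousAt.eventually_ne h3] with w hw
      exact (mul_eq_zero.1 (h2 w)).resolve_left hw
    exact h4 (entire_zero hE' h5 z2)
  rcases h3 with h3 | h3
  · left
    intro z hz
    obtain ⟨u, hu0, h4⟩ := hu z hz
    rw [h3 z] at h4
    exact (mul_eq_zero.1 h4.symm).resolve_left hu0
  · right
    intro z hz
    obtain ⟨u, hu0, h4⟩ := hu' z hz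
    rw [h3 z] at h4
    exact (mul_eq_zero.1 h4.symm).resolve_left hu0

/-- a polynomial which is not a relation does not vanish at most points -/
theorem ev_ne_t (hS : DSt S) {φ : ℂ → Mat (n + 1)} (h : HolP univ φ) {i : Fin (n + 1)}
    {G : Rt n S} (hG : G ∉ Rlt S φ i) {z0 : ℂ} (hz0 : φ z0 i i ≠ 0) :
    ∀ᶠ w in 𝓝[≠] z0, φ w i i ≠ 0 ∧ eval (pt (pr i φ w) w) G ≠ 0 := by
  have h0 : ∀ᶠ w in 𝓝[≠] z0, φ w i i ≠ 0 :=
    (ev_diag h (mem_univ z0) hz0).filter_mono nhdsWithin_le_nhds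
  obtain ⟨E, hE, hu⟩ := exists_entire_t hS h i G
  rcases (hE.analyticAt z0).eventually_eq_zero_or_eventually_ne_zero with h1 | h1
  · exfalso
    apply hG
    refine rlt_of_near hS h hz0 ?_
    filter_upwards [h1, ev_diag h (mem_univ z0) hz0] with w hw hwi
    obtain ⟨u, hu0, h4⟩ := hu w hwi
    rw [hw] at h4
    exact (mul_eq_zero.1 h4.symm).resolve_left hu0
  · filter_upwards [h0, h1] with w hw hw1
    refine ⟨hw, fun h2 => hw1 ?_⟩
    obtain ⟨u, hu0, h4⟩ := hu w hw
    rw [h4, h2, mul_zero]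

/-- analytic functions along the curve -/
theorem analytic_pt (hS : DSt S) {φ : ℂ → Mat (n + 1)} (h : HolP univ φ) {i : Fin (n + 1)}
    {z : ℂ} (hz : φ z i i ≠ 0) (G : Rt n S) :
    AnalyticAt ℂ (fun w => eval (pt (pr i φ w) w) G) z := by
  refine analyticAt_eval (γ := fun w => pt (pr i φ w) w) (fun l => ?_) G
  rcases l with l | s
  · exact analyticAt_pr isOpen_univ h (mem_univ z) hz l
  · exact (hS.diff s.1 s.2).analyticAt z

end Run7.h418.E
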