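import Pool.Agent.Run7.h418.E.Gr

/-!
Circle means of subharmonic functions.
-/

set_option autoImplicit false

open Metric Set Filter Topology Real

namespace Run7.h418.E

/-- locally uniformly, the excess of `g` is at least `k z * δ ^ 2`, up to `o(δ ^ 2)` -/
def Exc (k g : ℂ → ℝ) : Prop := ∀ η > 0, ∀ z0 : ℂ, ∃ δ0 > 0, ∀ z ∈ ball z0 δ0, ∀ δ, 0 < δ →
  δ < δ0 → (k z - η) * δ ^ 2 ≤ ex g z δ

theorem Exc.unif {k g : ℂ → ℝ} (h : Exc k g) {η : ℝ} (hη : 0 < η) {K : Set ℂ} (hK : IsCompact K) :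
    ∃ δ0 > 0, ∀ z ∈ K, ∀ δ, 0 < δ → δ < δ0 → (k z - η) * δ ^ 2 ≤ ex g z δ := by
  refine hK.induction_on (p := fun s => ∃ δ0 > 0, ∀ z ∈ s, ∀ δ, 0 < δ → δ < δ0 →
    (k z - η) * δ ^ 2 ≤ ex g z δ) ⟨1, one_pos, fun z hz => absurd hz (notMem_empty z)⟩
    (fun s t hst ⟨ρ, hρ, h1⟩ => ⟨ρ, hρ, fun p hp => h1 p (hst hp)⟩) ?_ ?_
  · rintro s t ⟨ρ, hρ, h1⟩ ⟨ρ', hρ', h1'⟩
    refine ⟨min ρ ρ', lt_min hρ hρ', fun p hp δ hδ hδ' => ?_⟩
    rcases hp with hp | hp
    · exact h1 p hp δ hδ (hδ'.trans_le (min_le_left _ _))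
    · exact h1' p hp δ hδ (hδ'.trans_le (min_le_right _ _))
  · intro z1 _
    obtain ⟨ρ, hρ, h1⟩ := h η hη z1
    exact ⟨ball z1 ρ, mem_nhdsWithin_of_mem_nhds (ball_mem_nhds z1 hρ), ρ, hρ, h1⟩

theorem Exc.ro {k g : ℂ → ℝ} (h : Exc k g) (hg : Continuous g) (hk : Continuous k) {η : ℝ}
    (hη : 0 < η) (z : ℂ) :
    ∃ δ0 > 0, ∀ δ, 0 < δ → δ < δ0 → (ro k z - η) * δ ^ 2 ≤ ex (ro g) z δ := by
  obtain ⟨δ0, hδ0, h1⟩ := h.unif hη (isCompact_sphere (0 : ℂ) ‖z‖)
  refine ⟨δ0, hδ0, fun δ hδ hδ1 => ?_⟩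
  have hmul : ∀ ω ∈ sphere (0 : ℂ) 1, ‖z * ω‖ = ‖z‖ := by
    intro ω hω
    rw [norm_mul, mem_sphere_zero_iff_norm.1 hω, mul_one]
  rw [ex_ro (R := ‖z‖ + δ + 1) hg.continuousOn hδ.le (by linarith)]
  have h2 : (Run7.h418.E.ro k z - η) * δ ^ 2 = av 1 (fun ω => δ ^ 2 * (k (z * ω) - η)) := by
    rw [av_mul, av_sub zero_le_one (by fun_prop) continuousOn_const, av_const]
    unfold Run7.h418.E.ro
    ring
  rw [h2]
  refine av_mono zero_le_one (by fun_prop) ?_ fun ω hω => ?_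
  · have hc1 : ContinuousOn (fun ω => av δ (fun w => g (z * ω + w))) (sphere (0 : ℂ) 1) := by
      refine av_cont (A := sphere (0 : ℂ) 1) (g := fun ω w => g (z * ω + w)) hδ.le ?_
      exact Continuous.continuousOn (by fun_prop)
    exact hc1.sub (by fun_prop)
  · rw [mul_comm]
    exact h1 (z * ω) (mem_sphere_zero_iff_norm.2 (hmul ω hω)) δ hδ hδ1

theorem max_pr2 {G : ℂ → ℝ} {R : ℝ} (hR : 0 < R) (hG : ContinuousOn G (closedBall 0 R))
    (h : ∀ z ∈ ball (0 : ℂ) R, ∃ δ, 0 < δ ∧ closedBall z δ ⊆ closedBall 0 R ∧ 0 < ex G z δ) :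
    ∃ ζ ∈ sphere (0 : ℂ) R, ∀ z ∈ closedBall (0 : ℂ) R, G z ≤ G ζ := by
  obtain ⟨z, hz, hmax⟩ := (isCompact_closedBall (0 : ℂ) R).exists_isMaxOn
    ⟨0, mem_closedBall_self hR.le⟩ hG
  by_cases hzs : z ∈ sphere (0 : ℂ) R
  · exact ⟨z, hzs, fun w hw => hmax hw⟩
  · exfalso
    have hzb : z ∈ ball (0 : ℂ) R := by
      rw [mem_ball]
      exact lt_of_le_of_ne hz hzs
    obtain ⟨δ, hδ, hsub, hex⟩ := h z hzb
    have hmem : ∀ w ∈ sphere (0 : ℂ) δ, z + w ∈ closedBall (0 : ℂ) R := by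
      intro w hw
      apply hsub
      rw [mem_closedBall, dist_eq_norm, add_sub_cancel_left]
      exact (mem_sphere_zero_iff_norm.1 hw).le
    have h1 : av δ (fun w => G (z + w)) ≤ av δ (fun _ => G z) := by
      refine av_mono hδ.le ?_ continuousOn_const fun w hw => hmax (hmem w hw)
      exact hG.comp (by fun_prop) hmem
    rw [av_const] at h1
    unfold ex at hex
    linarith

theorem av_eq_ro {r : ℝ} (hr : 0 ≤ r) (g : ℂ → ℝ) : av r g = ro g (r : ℂ) :=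
  (ro_eq g hr (by rw [Complex.norm_real, Real.norm_of_nonneg hr])).symm

theorem ro_continuous {g : ℂ → ℝ} (hg : Continuous g) : Continuous (ro g) := by
  rw [continuous_iff_continuousAt]
  intro z
  exact (ro_cont (R := ‖z‖ + 1) hg.continuousOn).continuousAt
    (isOpen_ball.mem_nhds (mem_ball_zero_iff.2 (by linarith)))

/-- circle means increase -/
theorem mono_av {g : ℂ → ℝ} (hg : Continuous g) (h : Exc (fun _ => 0) g) {r R : ℝ} (hr : 0 ≤ r)
    (hrR : r ≤ R) : av r g ≤ av R g := by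
  rcases eq_or_lt_of_le (hr.trans hrR) with hR | hR
  · have : r = 0 := le_antisymm (hrR.trans hR.symm.le) hr
    rw [this, hR]
  have hrc := ro_continuous hg
  have key : ∀ η > 0, av r g ≤ av R g + 2 * η * R ^ 2 := by
    intro η hη
    obtain ⟨ζ, hζ, hle⟩ := max_pr2 (G := fun z => ro g z + 2 * η * ‖z‖ ^ 2) hR
      (Continuous.continuousOn (by fun_prop)) (by
      intro z hz
      obtain ⟨δ0, hδ0, h2⟩ := h.ro hg continuous_const hη z
      have hz1 := mem_ball_zero_iff.1 hz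
      refine ⟨min (δ0 / 2) ((R - ‖z‖) / 2), ?_, ?_, ?_⟩
      · apply lt_min (by positivity)
        linarith
      · intro w hw
        rw [mem_closedBall, dist_eq_norm] at hw
        rw [mem_closedBall_zero_iff]
        have h3 : ‖w - z‖ ≤ (R - ‖z‖) / 2 := hw.trans (min_le_right _ _)
        calc ‖w‖ = ‖(w - z) + z‖ := by rw [sub_add_cancel]
          _ ≤ ‖w - z‖ + ‖z‖ := norm_add_le _ _
          _ ≤ R := by linarith
      · set δ := min (δ0 / 2) ((R - ‖z‖) / 2) with hδ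
        have hδp : 0 < δ := lt_min (by positivity) (by linarith)
        have hδ1 : δ < δ0 := (min_le_left _ _).trans_lt (by linarith)
        rw [ex_add hδp.le (by fun_prop) (by fun_prop), ex_mul, ex_nsq hδp.le]
        have h5 := h2 δ hδp hδ1
        have e1 : ro (fun _ : ℂ => (0 : ℝ)) z = 0 := by
          unfold Run7.h418.E.ro
          exact av_const 1 0
        rw [e1] at h5
        have h6 : 0 < η * δ ^ 2 := by positivity
        linarith)
    have h1 := mem_sphere_zero_iff_norm.1 hζ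
    have h2 := hle (r : ℂ) (by
      rw [mem_closedBall_zero_iff, Complex.norm_real, Real.norm_of_nonneg hr]
      exact hrR)
    simp only [← av_eq_ro hr, ro_eq g hR.le h1, h1] at h2
    have h3 : 0 ≤ 2 * η * ‖(r : ℂ)‖ ^ 2 := by positivity
    linarith
  by_contra hcon
  push Not at hcon
  have h1 := key ((av r g - av R g) / (4 * R ^ 2)) (by
    apply div_pos <;> [linarith; positivity])
  have h2 : 2 * ((av r g - av R g) / (4 * R ^ 2)) * R ^ 2 = (av r g - av R g) / 2 := by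
    field_simp
    norm_num
  rw [h2] at h1
  linarith

theorem sq_max_le (a x : ℝ) : max 0 (a + x) ^ 2 ≤ max 0 a ^ 2 + 2 * max 0 a * x + x ^ 2 := by
  rcases le_total 0 a with ha | ha
  · rw [max_eq_right ha]
    rcases le_total 0 (a + x) with h | h
    · rw [max_eq_right h]
      nlinarith
    · rw [max_eq_left h]
      nlinarith [_root_.sq_nonneg (a + x)]
  · rw [max_eq_left ha]
    rcases le_total 0 (a + x) with h | h
    · rw [max_eq_right h]
      nlinarith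
    · rw [max_eq_left h]
      nlinarith [_root_.sq_nonneg x]

theorem av_re_mul {δ : ℝ} (hδ : 0 ≤ δ) (z : ℂ) : av δ (fun w => ((starRingEnd ℂ) z * w).re) = 0 := by
  have h1 := av_re (r := δ) (R := δ + 1) hδ (by linarith) (g := fun w => (starRingEnd ℂ) z * w)
    (by fun_prop)
  rw [h1, mul_zero, Complex.zero_re]

theorem norm_add_sq_eq (z w : ℂ) :
    ‖z + w‖ ^ 2 = ‖z‖ ^ 2 + (2 * ((starRingEnd ℂ) z * w).re + ‖w‖ ^ 2) := by
  rw [← Complex.normSq_eq_norm_sq, ← Complex.normSq_eq_norm_sq, ← Complex.normSq_eq_norm_sq,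
    Complex.normSq_add]
  have : (z * (starRingEnd ℂ) w).re = ((starRingEnd ℂ) z * w).re := by
    simp only [Complex.mul_re, Complex.conj_re, Complex.conj_im]
    ring
  rw [this]
  ring

theorem re_sq_le (z w : ℂ) : ((starRingEnd ℂ) z * w).re ^ 2 ≤ ‖z‖ ^ 2 * ‖w‖ ^ 2 := by
  have h1 := Complex.abs_re_le_norm ((starRingEnd ℂ) z * w)
  rw [norm_mul, Complex.norm_conj] at h1
  have h2 := abs_nonneg ((starRingEnd ℂ) z * w).re
  calc ((starRingEnd ℂ) z * w).re ^ 2 = |((starRingEnd ℂ) z * w).re| ^ 2 := (sq_abs _).symm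
    _ ≤ (‖z‖ * ‖w‖) ^ 2 := by gcongr
    _ = ‖z‖ ^ 2 * ‖w‖ ^ 2 := by ring

theorem ex_kap {r δ : ℝ} (hδ : 0 ≤ δ) (z : ℂ) :
    ex (fun w => max 0 (‖w‖ ^ 2 - r ^ 2) ^ 2) z δ ≤
      δ ^ 2 * (2 * max 0 (‖z‖ ^ 2 - r ^ 2) + 4 * ‖z‖ ^ 2 + 4 * ‖z‖ * δ + δ ^ 2) := by
  have h1 : av δ (fun w => max 0 (‖z + w‖ ^ 2 - r ^ 2) ^ 2) ≤
      av δ (fun w => (max 0 (‖z‖ ^ 2 - r ^ 2) ^ 2 + 2 * max 0 (‖z‖ ^ 2 - r ^ 2) * δ ^ 2 +
        (2 * ‖z‖ * δ + δ ^ 2) ^ 2) +
        4 * max 0 (‖z‖ ^ 2 - r ^ 2) * ((starRingEnd ℂ) z * w).re) := by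
    refine av_mono hδ (by fun_prop) (by fun_prop) fun w hw => ?_
    have hw' := mem_sphere_zero_iff_norm.1 hw
    have e1 : ‖z + w‖ ^ 2 - r ^ 2 = (‖z‖ ^ 2 - r ^ 2) +
        (2 * ((starRingEnd ℂ) z * w).re + δ ^ 2) := by
      rw [norm_add_sq_eq, hw']
      ring
    rw [e1]
    refine (sq_max_le _ _).trans ?_
    have h2 : |2 * ((starRingEnd ℂ) z * w).re + δ ^ 2| ≤ 2 * ‖z‖ * δ + δ ^ 2 := by
      have h3 := Complex.abs_re_le_norm ((starRingEnd ℂ) z * w)
      rw [norm_mul, Complex.norm_conj, hw'] at h3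
      calc |2 * ((starRingEnd ℂ) z * w).re + δ ^ 2| ≤
          |2 * ((starRingEnd ℂ) z * w).re| + |δ ^ 2| := abs_add_le _ _
        _ ≤ 2 * ‖z‖ * δ + δ ^ 2 := by
          rw [abs_mul, abs_two, abs_of_nonneg (by positivity : 0 ≤ δ ^ 2)]
          linarith
    have h4 : (2 * ((starRingEnd ℂ) z * w).re + δ ^ 2) ^ 2 ≤ (2 * ‖z‖ * δ + δ ^ 2) ^ 2 := by
      rw [← sq_abs]
      gcongr
    linarith
  rw [av_add hδ (by fun_prop) (by fun_prop), av_const, av_mul, av_re_mul hδ, mul_zero,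
    add_zero] at h1
  unfold ex
  have h5 : (2 * ‖z‖ * δ + δ ^ 2) ^ 2 = δ ^ 2 * (4 * ‖z‖ ^ 2 + 4 * ‖z‖ * δ + δ ^ 2) := by ring
  rw [h5] at h1
  nlinarith

/-- growth in terms of the mean of the excess density -/
theorem n1 {g k : ℂ → ℝ} (hg : Continuous g) (hk : Continuous k) (hk0 : ∀ z, 0 ≤ k z)
    (hm : ∀ r R : ℝ, 0 ≤ r → r ≤ R → av r k ≤ av R k) (h : Exc k g) {r R : ℝ} (hr : 0 < r)
    (hrR : r < R) : (R - r) ^ 2 * av r k ≤ 6 * (av R g - g 0) := by
  have hR : 0 < R := hr.trans hrR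
  set A := av r k with hA
  have hA0 : 0 ≤ A := by
    have h1 := av_mono hr.le (f := fun _ => (0 : ℝ)) (g := k) continuousOn_const hk.continuousOn
      fun z _ => hk0 z
    rwa [av_const] at h1
  set c := A / (6 * R ^ 2) with hc
  have hc0 : 0 ≤ c := by positivity
  have h1 := compare (g := g) (κ := fun w => c * max 0 (‖w‖ ^ 2 - r ^ 2) ^ 2)
    (k0 := c * (R ^ 2 - r ^ 2) ^ 2) hR (lt_add_one R) hg.continuousOn (by fun_prop) (by
      intro ζ hζ
      rw [mem_sphere_zero_iff_norm.1 hζ, max_eq_right (by nlinarith)]) (by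
      intro η hη z hz
      have hz1 := mem_ball_zero_iff.1 hz
      obtain ⟨δ0, hδ0, h2⟩ := h.ro hg hk (half_pos hη) z
      rcases lt_or_ge ‖z‖ r with hzr | hzr
      · refine ⟨min δ0 (r - ‖z‖), lt_min hδ0 (by linarith), fun δ hδ hδ1 => ?_⟩
        have h3 := h2 δ hδ (hδ1.trans_le (min_le_left _ _))
        have h4 : ro k z ≥ 0 := by
          rw [ro_eq k (norm_nonneg z) rfl]
          have h1 := av_mono (norm_nonneg z) (f := fun _ => (0 : ℝ)) (g := k) continuousOn_const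
            hk.continuousOn fun z _ => hk0 z
          rwa [av_const] at h1
        have h5 : ex (fun w => c * max 0 (‖w‖ ^ 2 - r ^ 2) ^ 2) z δ = 0 := by
          unfold ex
          have h6 : ∀ w : ℂ, ‖w‖ ≤ r → c * max 0 (‖w‖ ^ 2 - r ^ 2) ^ 2 = 0 := by
            intro w hw
            rw [max_eq_left (by nlinarith [norm_nonneg w])]
            ring
          change av δ (fun w => c * max 0 (‖z + w‖ ^ 2 - r ^ 2) ^ 2) -
            c * max 0 (‖z‖ ^ 2 - r ^ 2) ^ 2 = 0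
          rw [h6 z hzr.le, sub_zero, av_congr hδ.le (g := fun _ => 0) fun w hw => ?_, av_const]
          refine h6 _ ((norm_add_le _ _).trans ?_)
          rw [mem_sphere_zero_iff_norm.1 hw]
          have := hδ1.trans_le (min_le_right _ _)
          linarith
        rw [h5]
        have h7 : 0 < δ ^ 2 := by positivity
        nlinarith
      · -- far from the centre
        have hlim : ∃ δ1 > 0, ∀ δ, 0 < δ → δ < δ1 → c * (4 * R * δ + δ ^ 2) ≤ η / 2 := by
          have h3 : Tendsto (fun δ : ℝ => c * (4 * R * δ + δ ^ 2)) (𝓝 0) (𝓝 0) := by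
            have : Continuous (fun δ : ℝ => c * (4 * R * δ + δ ^ 2)) := by fun_prop
            have h4 := this.tendsto 0
            simpa using h4
          obtain ⟨δ1, hδ1, h4⟩ := Metric.eventually_nhds_iff.1
            (h3.eventually (gt_mem_nhds (half_pos hη)))
          refine ⟨δ1, hδ1, fun δ hδ hδ' => (h4 ?_).le⟩
          rwa [dist_zero_right, Real.norm_of_nonneg hδ.le]
        obtain ⟨δ1, hδ1, h3⟩ := hlim
        refine ⟨min δ0 δ1, lt_min hδ0 hδ1, fun δ hδ hδ2 => ?_⟩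
        have h4 := h2 δ hδ (hδ2.trans_le (min_le_left _ _))
        have h5 := h3 δ hδ (hδ2.trans_le (min_le_right _ _))
        have h6 : A ≤ ro k z := by
          rw [ro_eq k (norm_nonneg z) rfl]
          exact hm r _ hr.le hzr
        have h7 := ex_kap (r := r) hδ.le z
        rw [ex_mul]
        have h8 : max 0 (‖z‖ ^ 2 - r ^ 2) ≤ R ^ 2 := by
          apply max_le (by positivity)
          nlinarith [norm_nonneg z]
        have h9 : ‖z‖ ^ 2 ≤ R ^ 2 := by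
          have := norm_nonneg z
          nlinarith
        have h10 : c * ex (fun w => max 0 (‖w‖ ^ 2 - r ^ 2) ^ 2) z δ ≤
            c * (δ ^ 2 * (6 * R ^ 2 + 4 * R * δ + δ ^ 2)) := by
          apply mul_le_mul_of_nonneg_left _ hc0
          refine h7.trans ?_
          apply mul_le_mul_of_nonneg_left _ (by positivity)
          have : 4 * ‖z‖ * δ ≤ 4 * R * δ := by nlinarith
          linarith
        have h11 : c * (δ ^ 2 * (6 * R ^ 2 + 4 * R * δ + δ ^ 2)) =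
            A * δ ^ 2 + (c * (4 * R * δ + δ ^ 2)) * δ ^ 2 := by
          have : c * (6 * R ^ 2) = A := by
            rw [hc]
            field_simp
          linear_combination δ ^ 2 * this
        rw [h11] at h10
        have h12 : 0 < δ ^ 2 := by positivity
        have h13 : (c * (4 * R * δ + δ ^ 2)) * δ ^ 2 ≤ η / 2 * δ ^ 2 :=
          mul_le_mul_of_nonneg_right h5 h12.le
        have h14 : A * δ ^ 2 ≤ ro k z * δ ^ 2 := mul_le_mul_of_nonneg_right h6 h12.le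
        linarith)
  have h2 : c * max 0 (‖(0 : ℂ)‖ ^ 2 - r ^ 2) ^ 2 = 0 := by
    rw [max_eq_left (by rw [norm_zero]; nlinarith)]
    ring
  have h2' : c * (R ^ 2 - r ^ 2) ^ 2 - c * max 0 (‖(0 : ℂ)‖ ^ 2 - r ^ 2) ^ 2 ≤ av R g - g 0 := h1
  rw [h2, sub_zero] at h2'
  have h3 : (R - r) ^ 2 * A ≤ 6 * (c * (R ^ 2 - r ^ 2) ^ 2) := by
    have h4 : 6 * (c * (R ^ 2 - r ^ 2) ^ 2) = A * ((R - r) ^ 2 * (R + r) ^ 2 / R ^ 2) := by
      rw [hc]
      field_simp
      ring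
    rw [h4, mul_comm]
    apply mul_le_mul_of_nonneg_left _ hA0
    rw [le_div_iff₀ (by positivity)]
    apply mul_le_mul_of_nonneg_left _ (by positivity)
    nlinarith
  linarith [h2']

/-- powers of holomorphic functions -/
theorem hp_mean {h : ℂ → ℂ} (hh : Differentiable ℂ h) {p : ℝ} (hp : 0 < p) (z : ℂ) {δ : ℝ}
    (hδ : 0 ≤ δ) : 0 ≤ ex (fun z => ‖h z‖ ^ p) z δ := by
  unfold ex
  rw [sub_nonneg]
  by_cases h0 : ∃ w, h w ≠ 0
  swap
  · push Not at h0
    simp only [h0, norm_zero]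
    rw [av_const]
  set g : ℂ → ℂ := fun w => h (z + w) with hg
  have hgd : Differentiable ℂ g := hh.comp (by fun_prop)
  have hg0 : ∃ w, g w ≠ 0 := by
    obtain ⟨w, hw⟩ := h0
    exact ⟨w - z, by rw [hg]; simpa using hw⟩
  have hc : Continuous fun w => ‖g w‖ ^ p :=
    (hgd.continuous.norm).rpow_const fun _ => Or.inr hp.le
  change ‖h z‖ ^ p ≤ av δ (fun w => ‖g w‖ ^ p)
  by_contra hcon
  push Not at hcon
  rw [av_eq_ro hδ] at hcon
  have h1 : ∀ᶠ r : ℝ in 𝓝 δ, ro (fun w => ‖g w‖ ^ p) (r : ℂ) < ‖h z‖ ^ p :=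
    ((ro_continuous hc).comp Complex.continuous_ofReal).continuousAt.eventually_lt_const hcon
  obtain ⟨ε, hε, h2⟩ := Metric.eventually_nhds_iff.1 h1
  obtain ⟨R, hR1, hR2, hR3⟩ := exists_radius hgd hg0 (show δ < δ + ε by linarith)
  have hR : 0 < R := by linarith
  have h3 := hm hgd hp hR hR3 (w := 0) (mem_ball_self hR)
  rw [norm_zero, add_zero, sub_zero, div_self hR.ne', one_mul] at h3
  have h4 := h2 (y := R) (by rw [Real.dist_eq, abs_of_pos (by linarith)]; linarith)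
  rw [← av_eq_ro hR.le] at h4
  have h5 : g 0 = h z := by rw [hg]; simp
  rw [h5] at h3
  linarith

theorem hp_cont {h : ℂ → ℂ} (hh : Differentiable ℂ h) {p : ℝ} (hp : 0 < p) :
    Continuous fun z => ‖h z‖ ^ p := (hh.continuous.norm).rpow_const fun _ => Or.inr hp.le

theorem hp_mono {h : ℂ → ℂ} (hh : Differentiable ℂ h) {p : ℝ} (hp : 0 < p) {r R : ℝ} (hr : 0 ≤ r)
    (hrR : r ≤ R) : av r (fun z => ‖h z‖ ^ p) ≤ av R (fun z => ‖h z‖ ^ p) := by
  refine mono_av (hp_cont hh hp) ?_ hr hrR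
  intro η hη z0
  refine ⟨1, one_pos, fun z _ δ hδ _ => ?_⟩
  have h1 := hp_mean hh hp z hδ.le
  nlinarith [_root_.sq_nonneg δ]

end Run7.h418.E
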