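import Pool.Agent.Run7.h418.E.Po
import Pool.Agent.Run7.h418.Vf

/-!
The differential equations of the curves with given values of the symmetric differentials.
-/

set_option autoImplicit false

open Metric Set Filter Topology MvPolynomial

namespace Run7.h418.E

open Pool.Agent.Y190.OP Pool.Agent.W602.GT Pool.Agent.N155

variable {n : ℕ} {ι κ : Type} {F : ι → MvPolynomial (Fin (n + 1)) ℂ}
  {σ : κ → (Fin (n + 1) → ℂ) → (Fin (n + 1) → ℂ) → ℂ} {m : κ → ℕ} {S : Subalgebra ℂ (ℂ → ℂ)}

/-- polynomials in the coordinates, their derivatives and functions of the time -/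
abbrev Rt (n : ℕ) (S : Subalgebra ℂ (ℂ → ℂ)) : Type :=
  MvPolynomial ((Fin (n + 1) ⊕ Fin (n + 1)) ⊕ S) ℂ

/-- the time dependent relations of the tangent vectors with the values `h` -/
def Izt (F : ι → MvPolynomial (Fin (n + 1)) ℂ)
    (σ : κ → (Fin (n + 1) → ℂ) → (Fin (n + 1) → ℂ) → ℂ) (h : κ → S) (i : Fin (n + 1)) :
    Ideal (Rt n S) where
  carrier := {G | ∀ w, ∀ a ∈ Ep F σ (fun j => (h j).1 w) i, eval (pt a w) G = 0}
  add_mem' := fun {G H} hG hH w a ha => by rw [map_add, hG w a ha, hH w a ha, add_zero]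
  zero_mem' := fun w _ _ => map_zero _
  smul_mem' := fun c G hG w a ha => by rw [smul_eq_mul, map_mul, hG w a ha, mul_zero]

/-- polynomials without time -/
noncomputable def ri (G : Rn (n + 1)) : Rt n S := rename Sum.inl G

theorem eval_ri (G : Rn (n + 1)) (a : Fin (n + 1) ⊕ Fin (n + 1) → ℂ) (w : ℂ) :
    eval (pt (S := S) a w) (ri G) = eval a G := by
  unfold ri
  rw [eval_rename]
  congr 1

theorem pderiv_ri (l : Fin (n + 1) ⊕ Fin (n + 1)) (G : Rn (n + 1)) :
    pderiv (Sum.inl l) (ri (S := S) G) = ri (pderiv l G) := by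
  unfold ri
  classical
  induction G using MvPolynomial.induction_on with
  | C c => simp
  | add p q hp hq => rw [map_add, map_add, hp, hq, map_add, map_add]
  | mul_X p k hp =>
    rw [map_mul, pderiv_mul, hp, rename_X, pderiv_mul, map_add, map_mul, map_mul, rename_X]
    congr 2
    by_cases hkl : k = l
    · subst hkl
      rw [pderiv_X_self, pderiv_X_self, map_one]
    · rw [pderiv_X_of_ne (by simpa using hkl), pderiv_X_of_ne hkl, map_zero]

theorem mem_Ep_of_t (hσ : ∀ j, SymForm F (m j) (σ j)) {h : κ → S} {i : Fin (n + 1)} {w : ℂ}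
    {a : Fin (n + 1) ⊕ Fin (n + 1) → ℂ} (ha : ∀ G ∈ Izt F σ h i, eval (pt a w) G = 0) :
    a ∈ Ep F σ (fun j => (h j).1 w) i := by
  have h1 : a (Sum.inl i) = 1 := by
    have := ha (ri (X (Sum.inl i) - 1)) (fun w b hb => by
      rw [eval_ri, map_sub, eval_X, map_one, hb.1.1, sub_self])
    rwa [eval_ri, map_sub, eval_X, map_one, sub_eq_zero] at this
  have h2 : a (Sum.inr i) = 0 := by
    have := ha (ri (X (Sum.inr i))) (fun w b hb => by rw [eval_ri, eval_X, hb.1.2.1])
    rwa [eval_ri, eval_X] at this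
  have h3 : ∀ j, eval (a ∘ Sum.inl) (F j) = 0 := by
    intro j
    have := ha (ri (rename Sum.inl (F j))) (fun w b hb => by
      rw [eval_ri, eval_inl, hb.1.2.2.1 j])
    rwa [eval_ri, eval_inl] at this
  have h4 : Tan F (a ∘ Sum.inl) (a ∘ Sum.inr) := by
    intro j
    have := ha (ri (tanP F j)) (fun w b hb => by rw [eval_ri, eval_tanP]; exact hb.1.2.2.2 j)
    rwa [eval_ri, eval_tanP] at this
  have h5 : a ∈ Tg F i := ⟨h1, h2, h3, h4⟩
  refine ⟨h5, fun j => ?_⟩
  obtain ⟨P, H, hH, hrep⟩ := sg_rep hσ j (Tg.cone h5)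
  have h6 : ∀ b ∈ Tg F i, eval (b ∘ Sum.inl) H ≠ 0 →
      sg σ j b = eval b P / eval (b ∘ Sum.inl) H := by
    intro b hb hbH
    have := hrep _ (Tg.cone hb) hbH _ hb.2.2.2
    rwa [Sum.elim_comp_inl_inr] at this
  have h7 := ha (ri (rename Sum.inl H) * (ri P - X (Sum.inr (h j)) * ri (rename Sum.inl H)))
    (fun w b hb => by
      rw [map_mul, map_sub, map_mul, eval_X, eval_ri, eval_ri, eval_inl]
      by_cases hbH : eval (b ∘ Sum.inl) H = 0
      · rw [hbH, zero_mul]
      · have h8 := h6 b hb.1 hbH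
        have h9 : sg σ j b = (h j).1 w := hb.2 j
        rw [h9] at h8
        change _ * (_ - (h j).1 w * _) = 0
        rw [h8, div_mul_cancel₀ _ hbH, sub_self, mul_zero])
  rw [map_mul, map_sub, map_mul, eval_X, eval_ri, eval_ri, eval_inl] at h7
  have h8 := (mul_eq_zero.1 h7).resolve_left hH
  rw [h6 a h5 hH, div_eq_iff hH]
  exact sub_eq_zero.1 h8

/-- the gradients of the time dependent relations are all vectors -/
theorem grad_surj_t (hσ : ∀ j, SymForm F (m j) (σ j)) (hm : ∀ j, 0 < m j)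
    (him : Immersive F σ) {h : κ → S} {w0 : ℂ} (hc : ∃ j, (h j).1 w0 ≠ 0) {i : Fin (n + 1)}
    {a : Fin (n + 1) ⊕ Fin (n + 1) → ℂ} (ha : a ∈ Ep F σ (fun j => (h j).1 w0) i)
    (v : Fin (n + 1) → ℂ) :
    ∃ G ∈ Izt F σ h i, ∀ k, eval (pt a w0) (pderiv (Sum.inl (Sum.inr k)) G) = v k := by
  set V : Submodule ℂ (Fin (n + 1) → ℂ) :=
    { carrier := {v | ∃ G ∈ Izt F σ h i,
        ∀ k, eval (pt a w0) (pderiv (Sum.inl (Sum.inr k)) G) = v k}
      add_mem' := by
        rintro v w ⟨G, hG, hGv⟩ ⟨H, hH, hHw⟩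
        exact ⟨G + H, add_mem hG hH, fun k => by rw [map_add, map_add, hGv, hHw]; rfl⟩
      zero_mem' := ⟨0, zero_mem _, fun k => by simp⟩
      smul_mem' := by
        rintro r v ⟨G, hG, hGv⟩
        refine ⟨C r * G, Ideal.mul_mem_left _ _ hG, fun k => ?_⟩
        rw [pderiv_C_mul, map_mul, eval_C, hGv]
        rfl } with hV
  suffices hST : V = ⊤ by
    have : v ∈ V := by rw [hST]; trivial
    exact this
  by_contra hne
  obtain ⟨f, hf0, hf⟩ := Submodule.exists_le_ker_of_lt_top V (lt_top_iff_ne_top.2 hne)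
  set w : Fin (n + 1) → ℂ := fun k => f (Pi.single k 1) with hw
  have hfv : ∀ v, f v = ∑ k, v k * w k := by
    intro v
    conv_lhs => rw [← Finset.univ_sum_single v]
    rw [map_sum]
    refine Finset.sum_congr rfl fun k _ => ?_
    have : Pi.single k (v k) = v k • (Pi.single k 1 : Fin (n + 1) → ℂ) := by
      rw [← Pi.single_smul, smul_eq_mul, mul_one]
    rw [this, map_smul, smul_eq_mul]
  have hw0 : w ≠ 0 := by
    intro h0
    apply hf0
    refine LinearMap.ext fun v => ?_
    rw [hfv, h0]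
    simp
  have hGw : ∀ G ∈ Izt F σ h i,
      ∑ k, eval (pt a w0) (pderiv (Sum.inl (Sum.inr k)) G) * w k = 0 := by
    intro G hG
    have h1 : (fun k => eval (pt a w0) (pderiv (Sum.inl (Sum.inr k)) G)) ∈ V :=
      ⟨G, hG, fun k => rfl⟩
    have h2 := hf h1
    rw [LinearMap.mem_ker, hfv] at h2
    exact h2
  have hTw : Tan F (a ∘ Sum.inl) w := by
    intro j
    have h1 := hGw (ri (tanP F j)) (fun w b hb => by
      rw [eval_ri, eval_tanP]
      exact hb.1.2.2.2 j)
    simp only [pderiv_ri, eval_ri, pderiv_tanP, eval_inl] at h1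
    exact h1
  have hwi : w i = 0 := by
    have h1 := hGw (ri (X (Sum.inr i))) (fun w b hb => by rw [eval_ri, eval_X, hb.1.2.1])
    simp only [pderiv_ri, eval_ri] at h1
    rw [Finset.sum_eq_single i] at h1
    · rwa [pderiv_X_self, map_one, one_mul] at h1
    · intro k _ hk
      rw [pderiv_X_of_ne (by simpa using hk.symm), map_zero, zero_mul]
    · intro h
      exact absurd (Finset.mem_univ i) h
  have hξ : a ∘ Sum.inr ≠ 0 := by
    intro h0
    obtain ⟨j, hj⟩ := hc
    apply hj
    have h2 := ha.2 j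
    simp only at h2
    rw [← h2]
    unfold sg
    rw [h0]
    have h1 := (hσ j).deg _ (Tg.cone ha.1) 0 (by intro j; simp) 0
    rw [smul_zero, zero_pow (hm j).ne', zero_mul] at h1
    exact h1
  obtain ⟨j, hj⟩ := him _ (Tg.cone ha.1) _ w ha.1.2.2.2 hTw (not_mult (i := i) ha.1.1 ha.1.2.1 hξ)
    (not_mult (i := i) ha.1.1 hwi hw0)
  apply hj
  obtain ⟨P, H, hH, hrep⟩ := sg_rep hσ j (Tg.cone ha.1)
  have h1 : ∑ k, eval a (pderiv (Sum.inr k) P) * w k = 0 := by
    have h2 := hGw (ri (rename Sum.inl H) * (ri P - X (Sum.inr (h j)) * ri (rename Sum.inl H)))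
      (fun w b hb => by
        rw [map_mul, map_sub, map_mul, eval_X, eval_ri, eval_ri, eval_inl]
        by_cases hbH : eval (b ∘ Sum.inl) H = 0
        · rw [hbH, zero_mul]
        · have h8 := hrep _ (Tg.cone hb.1) hbH _ hb.1.2.2.2
          rw [Sum.elim_comp_inl_inr] at h8
          have h9 := hb.2 j
          unfold sg at h9
          simp only at h9
          rw [h9] at h8
          change _ * (_ - (h j).1 w * _) = 0
          rw [h8, div_mul_cancel₀ _ hbH, sub_self, mul_zero])
    have h3 : ∀ k, eval (pt a w0) (pderiv (Sum.inl (Sum.inr k)) (ri (rename Sum.inl H) *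
        (ri P - X (Sum.inr (h j)) * ri (rename Sum.inl H)))) = eval (a ∘ Sum.inl) H *
          eval a (pderiv (Sum.inr k) P) := by
      intro k
      rw [pderiv_mul, pderiv_ri, pderiv_inr_inl, map_sub, pderiv_mul, pderiv_ri, pderiv_ri,
        pderiv_inr_inl, pderiv_X_of_ne (by simp)]
      have h0 : ri (S := S) (0 : Rn (n + 1)) = 0 := map_zero _
      rw [h0, zero_mul, zero_mul, mul_zero, zero_add, add_zero, sub_zero, map_mul, eval_ri,
        eval_inl, eval_ri]
    simp only [h3, mul_assoc] at h2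
    rw [← Finset.mul_sum] at h2
    exact (mul_eq_zero.1 h2).resolve_left hH
  have h2 : (fun t : ℂ => σ j (a ∘ Sum.inl) (a ∘ Sum.inr + t • w)) = fun t =>
      eval (Sum.elim (a ∘ Sum.inl) (a ∘ Sum.inr + t • w)) P / eval (a ∘ Sum.inl) H := by
    funext t
    exact hrep _ (Tg.cone ha.1) hH _ (ha.1.2.2.2.add (hTw.smul t))
  rw [h2]
  have h3 := hasDerivAt_eval' (γ := fun t : ℂ => Sum.elim (a ∘ Sum.inl) (a ∘ Sum.inr + t • w))
    (γ' := Sum.elim 0 w) (z := 0) (fun l => by
      rcases l with k | k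
      · exact hasDerivAt_const _ _
      · have := ((hasDerivAt_id (0 : ℂ)).mul_const (w k)).const_add (a (Sum.inr k))
        simpa using this) P
  have h4 : ∑ l, eval (Sum.elim (a ∘ Sum.inl) (a ∘ Sum.inr + (0 : ℂ) • w)) (pderiv l P) *
      (Sum.elim 0 w : Fin (n + 1) ⊕ Fin (n + 1) → ℂ) l = 0 := by
    rw [zero_smul, add_zero, Sum.elim_comp_inl_inr, Fintype.sum_sum_type]
    simp only [Sum.elim_inl, Sum.elim_inr, Pi.zero_apply, mul_zero, Finset.sum_const_zero,
      zero_add]
    exact h1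
  rw [h4] at h3
  have h5 := h3.div_const (eval (a ∘ Sum.inl) H)
  rw [zero_div] at h5
  exact h5.deriv

/-- the variables with the inverse of the determinant -/
abbrev Vq (n : ℕ) : Type := (Fin (n + 1) ⊕ Fin (n + 1)) ⊕ Unit

/-- the inclusion of the polynomials without the inverse of the determinant -/
def iq : (Fin (n + 1) ⊕ Fin (n + 1)) ⊕ S → Vq n ⊕ S := Sum.map Sum.inl id

/-- the part of the derivative which does not involve second derivatives -/
noncomputable def E0 (hS : DSt S) (ϖ : S) : Dr ((Fin (n + 1) ⊕ Fin (n + 1)) ⊕ S) :=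
  mkDerivation ℂ (Sum.elim (Sum.elim (fun k => X (Sum.inr ϖ) * X (Sum.inl (Sum.inr k)))
    fun _ => 0) fun s => X (Sum.inr (dS hS s)))

theorem chain2 (hS : DSt S) {ϖ : S} {γ : ℂ → Fin (n + 1) ⊕ Fin (n + 1) → ℂ} {z : ℂ}
    {v' : Fin (n + 1) → ℂ}
    (h1 : ∀ k, HasDerivAt (fun w => γ w (Sum.inl k)) (ϖ.1 z * γ z (Sum.inr k)) z)
    (h2 : ∀ k, HasDerivAt (fun w => γ w (Sum.inr k)) (v' k) z) (G : Rt n S) :
    HasDerivAt (fun w => eval (pt (γ w) w) G) (eval (pt (γ z) z) (E0 hS ϖ G) +
      ∑ k, eval (pt (γ z) z) (pderiv (Sum.inl (Sum.inr k)) G) * v' k) z := by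
  classical
  induction G using MvPolynomial.induction_on with
  | C c =>
    have h3 : (E0 hS ϖ) (C c : Rt n S) = 0 := by
      rw [← MvPolynomial.algebraMap_eq, Derivation.map_algebraMap]
    simp only [eval_C, h3, map_zero, pderiv_C, zero_mul, Finset.sum_const_zero, add_zero]
    exact hasDerivAt_const _ _
  | add p q hp hq =>
    simp only [map_add]
    refine (hp.add hq).congr_deriv ?_
    simp only [add_mul, Finset.sum_add_distrib]
    ring
  | mul_X p l hp =>
    have h3 : HasDerivAt (fun w => pt (S := S) (γ w) w l) (eval (pt (γ z) z) (E0 hS ϖ (X l)) +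
        ∑ k, eval (pt (γ z) z) (pderiv (Sum.inl (Sum.inr k)) (X l : Rt n S)) * v' k) z := by
      rcases l with (l | l) | s
      · have e1 : ∀ k, pderiv (Sum.inl (Sum.inr k)) (X (Sum.inl (Sum.inl l)) : Rt n S) = 0 :=
          fun k => pderiv_X_of_ne (by simp)
        simp only [e1, map_zero, zero_mul, Finset.sum_const_zero, add_zero]
        unfold E0
        rw [mkDerivation_X]
        simp only [Sum.elim_inl, map_mul, eval_X, pt, Sum.elim_inr]
        exact h1 l
      · have e1 : ∀ k, eval (pt (γ z) z) (pderiv (Sum.inl (Sum.inr k))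
            (X (Sum.inl (Sum.inr l)) : Rt n S)) = if k = l then 1 else 0 := by
          intro k
          split_ifs with hkl
          · subst hkl
            rw [pderiv_X_self, map_one]
          · rw [pderiv_X_of_ne (by simpa using Ne.symm hkl), map_zero]
        unfold E0
        rw [mkDerivation_X]
        simp only [e1, Sum.elim_inl, Sum.elim_inr, map_zero, zero_add, ite_mul, one_mul, zero_mul,
          Finset.sum_ite_eq', Finset.mem_univ, if_true]
        exact h2 l
      · have e1 : ∀ k, pderiv (Sum.inl (Sum.inr k)) (X (Sum.inr s) : Rt n S) = 0 :=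
          fun k => pderiv_X_of_ne (by simp)
        simp only [e1, map_zero, zero_mul, Finset.sum_const_zero, add_zero]
        unfold E0
        rw [mkDerivation_X]
        simp only [Sum.elim_inr, eval_X, pt]
        exact (hS.diff s.1 s.2 z).hasDerivAt
    simp only [map_mul, eval_X]
    refine (hp.mul h3).congr_deriv ?_
    rw [(E0 hS ϖ).leibniz]
    simp only [pderiv_mul, map_add, map_mul, smul_eq_mul, eval_X, add_mul, Finset.sum_add_distrib,
      mul_add, Finset.mul_sum, Finset.sum_mul]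
    have e2 : ∀ x y : ℂ, x + y = y + x := fun x y => add_comm x y
    have e3 : ∑ i, eval (pt (γ z) z) ((pderiv (Sum.inl (Sum.inr i))) p) * v' i *
        pt (S := S) (γ z) z l = ∑ i, eval (pt (γ z) z) ((pderiv (Sum.inl (Sum.inr i))) p) *
        pt (S := S) (γ z) z l * v' i := Finset.sum_congr rfl fun _ _ => by ring
    have e4 : ∑ i, eval (pt (γ z) z) p * (eval (pt (γ z) z) ((pderiv (Sum.inl (Sum.inr i)))
        (X l : Rt n S)) * v' i) = ∑ i, eval (pt (γ z) z) p * eval (pt (γ z) z)
        ((pderiv (Sum.inl (Sum.inr i))) (X l : Rt n S)) * v' i :=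
      Finset.sum_congr rfl fun _ _ => by ring
    rw [e3, e4]
    ring

/-- **The differential equation** -/
theorem exists_sys (hS : DSt S) (hσ : ∀ j, SymForm F (m j) (σ j)) (hm : ∀ j, 0 < m j)
    (him : Immersive F σ) {h : κ → S} (ϖ : S) {z1 : ℂ} (hc : ∃ j, (h j).1 z1 ≠ 0)
    {i : Fin (n + 1)} {a1 : Fin (n + 1) ⊕ Fin (n + 1) → ℂ}
    (ha1 : a1 ∈ Ep F σ (fun j => (h j).1 z1) i) :
    ∃ (q : Rt n S) (D : Dr (Vq n ⊕ S)), eval (pt a1 z1) q ≠ 0 ∧ TD hS D ∧
      (∀ k, D (X (Sum.inl (Sum.inl (Sum.inl k)))) =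
        X (Sum.inr ϖ) * X (Sum.inl (Sum.inl (Sum.inr k)))) ∧
      ∀ (γ : ℂ → Fin (n + 1) ⊕ Fin (n + 1) → ℂ) (z : ℂ),
        (∀ᶠ w in 𝓝 z, γ w ∈ Ep F σ (fun j => (h j).1 w) i ∧
          (∀ k, HasDerivAt (fun w => γ w (Sum.inl k)) (ϖ.1 w * γ w (Sum.inr k)) w) ∧
          (∀ k, DifferentiableAt ℂ (fun w => γ w (Sum.inr k)) w) ∧ eval (pt (γ w) w) q ≠ 0) →
        SolAt D (fun w => pt (Sum.elim (γ w) fun _ => (eval (pt (S := S) (γ w) w) q)⁻¹) w) z := by
  classical
  choose G hG hGa using fun b : Fin (n + 1) =>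
    grad_surj_t hσ hm him hc ha1 (Pi.single b 1)
  set A : Matrix (Fin (n + 1)) (Fin (n + 1)) (Rt n S) :=
    fun b l => pderiv (Sum.inl (Sum.inr l)) (G b) with hA
  set q : Rt n S := A.det with hq
  set u : Fin (n + 1) → Rt n S := fun k => ∑ b, A.adjugate k b * -(E0 hS ϖ (G b)) with hu
  set W' : Vq n ⊕ S → MvPolynomial (Vq n ⊕ S) ℂ := Sum.elim (Sum.elim (Sum.elim
    (fun k => X (Sum.inr ϖ) * X (Sum.inl (Sum.inl (Sum.inr k))))
    (fun k => X (Sum.inl (Sum.inr ())) * rename iq (u k))) (fun _ => 0))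
    (fun s => X (Sum.inr (dS hS s))) with hW'
  set D' : Dr (Vq n ⊕ S) := mkDerivation ℂ W' with hD'
  set W : Vq n ⊕ S → MvPolynomial (Vq n ⊕ S) ℂ := Sum.elim (Sum.elim (Sum.elim
    (fun k => X (Sum.inr ϖ) * X (Sum.inl (Sum.inl (Sum.inr k))))
    (fun k => X (Sum.inl (Sum.inr ())) * rename iq (u k)))
      (fun _ => -(X (Sum.inl (Sum.inr ())) ^ 2 * D' (rename iq q))))
    (fun s => X (Sum.inr (dS hS s))) with hW
  set D : Dr (Vq n ⊕ S) := mkDerivation ℂ W with hD
  have hq1 : eval (pt a1 z1) q ≠ 0 := by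
    rw [hq, RingHom.map_det]
    have h2 : (eval (pt a1 z1)).mapMatrix A = 1 := by
      ext b l
      rw [RingHom.mapMatrix_apply, Matrix.map_apply, hA]
      change eval (pt a1 z1) (pderiv (Sum.inl (Sum.inr l)) (G b)) = _
      rw [hGa, Matrix.one_apply, Pi.single_apply]
      simp only [eq_comm]
    rw [h2, Matrix.det_one]
    exact one_ne_zero
  refine ⟨q, D, hq1, fun s => by rw [hD, mkDerivation_X]; rfl,
    fun k => by rw [hD, mkDerivation_X]; rfl, fun γ z hγ => ?_⟩
  have heq : ∀ G : Rt n S, ∀ (a : Fin (n + 1) ⊕ Fin (n + 1) → ℂ) (x w : ℂ),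
      eval (pt (S := S) (Sum.elim a fun _ => x) w) (rename iq G) = eval (pt a w) G := by
    intro G a x w
    rw [eval_rename]
    congr 2
    funext l
    rcases l with (l | l) | s <;> rfl
  have hγ' := hγ.eventually_nhds
  filter_upwards [hγ'] with w hw
  obtain ⟨hwE, hw1, hw2, hwq⟩ := hw.self_of_nhds
  set x : Vq n ⊕ S → ℂ := pt (Sum.elim (γ w) fun _ => (eval (pt (S := S) (γ w) w) q)⁻¹) w with hx
  set v' : Fin (n + 1) → ℂ := fun k => deriv (fun w => γ w (Sum.inr k)) w with hv'
  have hv'' : ∀ k, HasDerivAt (fun w => γ w (Sum.inr k)) (v' k) w := fun k =>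
    (hw2 k).hasDerivAt
  -- the linear equations
  have hlin : ∀ b, ∑ k, eval (pt (γ w) w) (A b k) * v' k = eval (pt (γ w) w) (-(E0 hS ϖ (G b))) := by
    intro b
    have h3 := chain2 hS hw1 hv'' (G b)
    have h4 : (fun w => eval (pt (γ w) w) (G b)) =ᶠ[𝓝 w] fun _ => 0 := by
      filter_upwards [hw] with w' hw'
      exact hG b w' _ hw'.1
    have h5 := h3.deriv
    rw [h4.deriv_eq, deriv_const] at h5
    rw [map_neg]
    linear_combination -h5
  have hsol : ∀ k, v' k = (eval (pt (S := S) (γ w) w) q)⁻¹ * eval (pt (γ w) w) (u k) := by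
    intro k
    set e := (eval (pt (S := S) (γ w) w)) with he
    have h1 : (e.mapMatrix A).mulVec v' = fun b => e (-(E0 hS ϖ (G b))) := by
      funext b
      exact hlin b
    have h2 : (e.mapMatrix A.adjugate).mulVec ((e.mapMatrix A).mulVec v') = e A.det • v' := by
      rw [Matrix.mulVec_mulVec, RingHom.map_adjugate, Matrix.adjugate_mul, ← RingHom.map_det,
        Matrix.smul_mulVec, Matrix.one_mulVec]
    rw [h1] at h2
    have h3 := congrFun h2 k
    rw [Pi.smul_apply, smul_eq_mul] at h3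
    have h4 : e (u k) = e A.det * v' k := by
      rw [← h3, hu, map_sum]
      simp only [map_mul]
      rfl
    rw [h4, ← mul_assoc, ← hq, inv_mul_cancel₀ hwq, one_mul]
  -- the derivatives of the coordinates
  have hl : ∀ l : (Fin (n + 1) ⊕ Fin (n + 1)) ⊕ S,
      HasDerivAt (fun w => pt (S := S) (Sum.elim (γ w) fun _ => (eval (pt (S := S) (γ w) w) q)⁻¹) w
        (iq l)) (eval x (D' (X (iq l)))) w := by
    rintro ((k | k) | s)
    · rw [hD', mkDerivation_X]
      change HasDerivAt (fun w => γ w (Sum.inl k)) (eval x (X (Sum.inr ϖ) *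
        X (Sum.inl (Sum.inl (Sum.inr k))))) w
      rw [map_mul, eval_X, eval_X]
      exact hw1 k
    · rw [hD', mkDerivation_X]
      change HasDerivAt (fun w => γ w (Sum.inr k)) (eval x (X (Sum.inl (Sum.inr ())) *
        rename iq (u k))) w
      rw [map_mul, eval_X, hx, heq]
      change HasDerivAt (fun w => γ w (Sum.inr k)) ((eval (pt (S := S) (γ w) w) q)⁻¹ * _) w
      rw [← hsol]
      exact hv'' k
    · rw [hD', mkDerivation_X]
      change HasDerivAt s.1 (eval x (X (Sum.inr (dS hS s)))) w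
      rw [eval_X]
      exact (hS.diff s.1 s.2 w).hasDerivAt
  have hDD : ∀ l : (Fin (n + 1) ⊕ Fin (n + 1)) ⊕ S, D (X (iq l)) = D' (X (iq l)) := by
    rintro ((k | k) | s) <;> rw [hD, hD', mkDerivation_X, mkDerivation_X] <;> rfl
  -- the derivative of the determinant
  have hdq : HasDerivAt (fun w => eval (pt (S := S) (γ w) w) q) (eval x (D' (rename iq q))) w := by
    have key : ∀ G : Rt n S, HasDerivAt (fun w => eval (pt (S := S) (γ w) w) G)
        (eval x (D' (rename iq G))) w := by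
      intro G
      induction G using MvPolynomial.induction_on with
      | C c =>
        rw [rename_C]
        have h3 : D' (C c) = 0 := by
          rw [← MvPolynomial.algebraMap_eq, Derivation.map_algebraMap]
        rw [h3, map_zero]
        simp only [eval_C]
        exact hasDerivAt_const _ _
      | add p q hp hq =>
        simp only [map_add]
        exact hp.add hq
      | mul_X p l hp =>
        simp only [map_mul, rename_X, eval_X]
        have h5 := hl l
        have h6 : (fun w => pt (S := S) (Sum.elim (γ w) fun _ =>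
            (eval (pt (S := S) (γ w) w) q)⁻¹) w (iq l)) = fun w => pt (S := S) (γ w) w l := by
          funext w
          rcases l with (l | l) | s <;> rfl
        rw [h6] at h5
        refine (hp.mul h5).congr_deriv ?_
        rw [D'.leibniz]
        simp only [map_add, smul_eq_mul, map_mul, eval_X]
        have h7 : x (iq l) = pt (S := S) (γ w) w l := congrFun h6 w
        have h8 : eval x (rename iq p) = eval (pt (γ w) w) p := by rw [hx, heq]
        rw [h7, h8]
        ring
    exact key q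
  rintro ((l | l) | s)
  · have h5 := hl (Sum.inl l)
    rw [← hDD] at h5
    exact h5
  · rw [hD, mkDerivation_X]
    change HasDerivAt (fun w => (eval (pt (S := S) (γ w) w) q)⁻¹)
      (eval x (-(X (Sum.inl (Sum.inr ())) ^ 2 * D' (rename iq q)))) w
    refine (hdq.inv hwq).congr_deriv ?_
    rw [map_neg, map_mul, map_pow, eval_X]
    have h6 : x (Sum.inl (Sum.inr ())) = (eval (pt (S := S) (γ w) w) q)⁻¹ := rfl
    rw [h6]
    field_simp
  · have h5 := hl (Sum.inr s)
    rw [← hDD] at h5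
    exact h5

end Run7.h418.E
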